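import Mathlib

open Filter Topology Set

namespace Pool.Agent.R232.ArensRing

/-! ### Left-invertible, not right-invertible elements -/

section ring

variable {R : Type*} [NormedRing R] [CompleteSpace R]

lemma isUnit_of_close {a : R} (h : ‖a - 1‖ < 1) : IsUnit a := by
  have h2 : ‖1 - a‖ < 1 := by rwa [norm_sub_rev]
  have := isUnit_one_sub_of_norm_lt_one h2
  simpa using this

omit [CompleteSpace R] in
lemma not_left_inv {S T x y : R} (hTS : T * S = 1) (hST : S * T ≠ 1) (hy : IsUnit (y * S)) :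
    ¬ ∃ r, r * (x * y) = 1 := by
  rintro ⟨r, hr⟩
  obtain ⟨v, hv⟩ := hy
  apply hST
  have hl : (r * x) * y = 1 := by rw [mul_assoc]; exact hr
  -- `S = l v`
  have h1 : S = (r * x) * v := by
    rw [hv, ← mul_assoc, hl, one_mul]
  have h2 : S * (↑v⁻¹ * y) = 1 := by
    rw [h1, mul_assoc (r * x), ← mul_assoc (v:R), Units.mul_inv, one_mul, hl]
  have h3 : T = ↑v⁻¹ * y := by
    calc T = T * (S * (↑v⁻¹ * y)) := by rw [h2, mul_one]
      _ = ↑v⁻¹ * y := by rw [← mul_assoc, hTS, one_mul]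
  rw [h3, h2]

omit [CompleteSpace R] in
lemma left_inv_perturb {S T x y d : R} {dinv : R} (hTS : T * S = 1)
    (hx : IsUnit (T * x)) (hy : IsUnit (y * S)) (hd : dinv * d = 1) (hdc : ∀ a : R, a * d = d * a) :
    ∃ r, r * (x * y + d * (1 - S * T)) = 1 := by
  obtain ⟨u, hu⟩ := hx
  obtain ⟨v, hv⟩ := hy
  have hTp : T * (1 - S * T) = 0 := by rw [mul_sub, mul_one, ← mul_assoc, hTS, one_mul, sub_self]
  -- `h₁ = u⁻¹ T`
  have e1 : (↑u⁻¹ * T) * (x * y + d * (1 - S * T)) = y := by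
    calc (↑u⁻¹ * T) * (x * y + d * (1 - S * T))
        = ↑u⁻¹ * (T * x) * y + ↑u⁻¹ * (T * d) * (1 - S * T) := by noncomm_ring
      _ = ↑u⁻¹ * (T * x) * y + ↑u⁻¹ * d * (T * (1 - S * T)) := by rw [hdc T]; noncomm_ring
      _ = y := by rw [hTp, mul_zero, add_zero, ← hu, Units.inv_mul, one_mul]
  have e2 : (dinv * (1 - x * (↑u⁻¹ * T))) * (x * y + d * (1 - S * T)) = 1 - S * T := by
    calc (dinv * (1 - x * (↑u⁻¹ * T))) * (x * y + d * (1 - S * T))
        = dinv * ((x * y + d * (1 - S * T)) - x * ((↑u⁻¹ * T) * (x * y + d * (1 - S * T)))) := by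
          noncomm_ring
      _ = dinv * (d * (1 - S * T)) := by rw [e1, add_sub_cancel_left]
      _ = 1 - S * T := by rw [← mul_assoc, hd, one_mul]
  refine ⟨S * ↑v⁻¹ * (↑u⁻¹ * T - y * (dinv * (1 - x * (↑u⁻¹ * T)))) + dinv * (1 - x * (↑u⁻¹ * T)), ?_⟩
  calc (S * ↑v⁻¹ * (↑u⁻¹ * T - y * (dinv * (1 - x * (↑u⁻¹ * T)))) + dinv * (1 - x * (↑u⁻¹ * T))) *
        (x * y + d * (1 - S * T))
      = S * ↑v⁻¹ * ((↑u⁻¹ * T) * (x * y + d * (1 - S * T)) -
          y * ((dinv * (1 - x * (↑u⁻¹ * T))) * (x * y + d * (1 - S * T)))) +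
          (dinv * (1 - x * (↑u⁻¹ * T))) * (x * y + d * (1 - S * T)) := by noncomm_ring
    _ = S * ↑v⁻¹ * (y - y * (1 - S * T)) + (1 - S * T) := by rw [e1, e2]
    _ = S * (↑v⁻¹ * (y * S)) * T + (1 - S * T) := by noncomm_ring
    _ = 1 := by rw [← hv, Units.inv_mul, mul_one]; abel

end ring

/-! ### The algebra generated by corners -/

section corner

variable {R : Type*} [NormedRing R] [CompleteSpace R]

/-- the projection onto the first `m` coordinates -/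
def P (S T : R) (m : ℕ) : R := 1 - S ^ m * T ^ m

variable {S T : R}

omit [CompleteSpace R] in
lemma pow_TS (hTS : T * S = 1) (m : ℕ) : T ^ m * S ^ m = 1 := by
  induction m with
  | zero => simp
  | succ m ih =>
    rw [pow_succ' S, pow_succ T, mul_assoc, ← mul_assoc T S, hTS, one_mul, ih]

omit [CompleteSpace R] in
lemma P_S (hTS : T * S = 1) {m k : ℕ} (h : m ≤ k) : P S T m * S ^ k = 0 := by
  obtain ⟨l, rfl⟩ := Nat.exists_eq_add_of_le h
  unfold P
  rw [sub_mul, one_mul, pow_add, mul_assoc, ← mul_assoc (T ^ m), pow_TS hTS, one_mul, sub_self]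

omit [CompleteSpace R] in
lemma T_P (hTS : T * S = 1) {m k : ℕ} (h : m ≤ k) : T ^ k * P S T m = 0 := by
  obtain ⟨l, rfl⟩ := Nat.exists_eq_add_of_le h
  unfold P
  rw [mul_sub, mul_one, add_comm, pow_add, mul_assoc, ← mul_assoc (T ^ m), pow_TS hTS, one_mul,
    sub_self]

lemma P_P {m n : ℕ} (hTS : T * S = 1) (h : m ≤ n) : P S T m * P S T n = P S T m := by
  have : P S T m * P S T n = P S T m - P S T m * S ^ n * T ^ n := by
    nth_rewrite 2 [P]
    rw [mul_sub, mul_one, mul_assoc]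
  rw [this, P_S hTS h, zero_mul, sub_zero]

lemma P_P' {m n : ℕ} (hTS : T * S = 1) (h : m ≤ n) : P S T n * P S T m = P S T m := by
  have : P S T n * P S T m = P S T m - S ^ n * (T ^ n * P S T m) := by
    nth_rewrite 1 [P]
    rw [sub_mul, one_mul, mul_assoc]
  rw [this, T_P hTS h, mul_zero, sub_zero]

/-- `a` lives on the first `m` coordinates -/
def Lev (S T : R) (m : ℕ) (a : R) : Prop := P S T m * a = a ∧ a * P S T m = a

lemma Lev.mono (hTS : T * S = 1) {m n : ℕ} (h : m ≤ n) {a : R} (ha : Lev S T m a) : Lev S T n a := by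
  refine ⟨?_, ?_⟩
  · rw [← ha.1, ← mul_assoc, P_P' hTS h]
  · rw [← ha.2, mul_assoc, P_P hTS h]

variable (𝕜 : Type*) [RCLike 𝕜] [NormedAlgebra 𝕜 R]

/-- the elements living on finitely many coordinates -/
def fin₀ (S T : R) (hTS : T * S = 1) : NonUnitalSubalgebra 𝕜 R where
  carrier := {a | ∃ m, Lev S T m a}
  add_mem' := by
    rintro a b ⟨m, hm⟩ ⟨n, hn⟩
    have h1 := hm.mono hTS (le_max_left m n)
    have h2 := hn.mono hTS (le_max_right m n)
    exact ⟨max m n, by rw [mul_add, h1.1, h2.1], by rw [add_mul, h1.2, h2.2]⟩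
  zero_mem' := ⟨0, by simp, by simp⟩
  mul_mem' := by
    rintro a b ⟨m, hm⟩ ⟨n, hn⟩
    have h1 := hm.mono hTS (le_max_left m n)
    have h2 := hn.mono hTS (le_max_right m n)
    exact ⟨max m n, by rw [← mul_assoc, h1.1], by rw [mul_assoc, h2.2]⟩
  smul_mem' := by
    rintro c a ⟨m, hm⟩
    exact ⟨m, by rw [mul_smul_comm, hm.1], by rw [smul_mul_assoc, hm.2]⟩

lemma cross (hTS : T * S = 1) {m n r s : ℕ} {w : R} (hw : Lev S T m w) (hrs : r + m ≤ s) :
    (w * T ^ r) * (S ^ s * P S T n) = 0 := by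
  obtain ⟨k, rfl⟩ := Nat.exists_eq_add_of_le (le_trans (Nat.le_add_right r m) hrs)
  have h1 : w * S ^ k = 0 := by
    rw [← hw.2, mul_assoc, P_S hTS (by omega), mul_zero]
  calc (w * T ^ r) * (S ^ (r + k) * P S T n) = w * (T ^ r * S ^ r) * S ^ k * P S T n := by
        rw [pow_add]; noncomm_ring
    _ = 0 := by rw [pow_TS hTS, mul_one, h1, zero_mul]

lemma cross' (hTS : T * S = 1) {n r s : ℕ} {w : R} (hrs : s + n ≤ r) :
    (w * T ^ r) * (S ^ s * P S T n) = 0 := by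
  obtain ⟨k, rfl⟩ := Nat.exists_eq_add_of_le (le_trans (Nat.le_add_right s n) hrs)
  calc (w * T ^ (s + k)) * (S ^ s * P S T n) = w * (T ^ k * ((T ^ s * S ^ s) * P S T n)) := by
        rw [add_comm s k, pow_add]; noncomm_ring
    _ = 0 := by rw [pow_TS hTS, one_mul, T_P hTS (by omega), mul_zero]

omit [CompleteSpace R] in
lemma diag (hTS : T * S = 1) {m r : ℕ} {w : R} (hw : Lev S T m w) :
    (w * T ^ r) * (S ^ r * P S T m) = w := by
  calc (w * T ^ r) * (S ^ r * P S T m) = w * (T ^ r * S ^ r) * P S T m := by noncomm_ring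
    _ = w := by rw [pow_TS hTS, mul_one, hw.2]

lemma lev_a (hTS : T * S = 1) {m r : ℕ} {w : R} (hw : Lev S T m w) :
    Lev S T (m + r) (w * T ^ r) := by
  refine ⟨?_, ?_⟩
  · rw [← mul_assoc, ((hw.mono hTS (Nat.le_add_right m r))).1]
  · have h1 : w * S ^ m = 0 := by rw [← hw.2, mul_assoc, P_S hTS le_rfl, mul_zero]
    calc w * T ^ r * P S T (m + r) = w * T ^ r - w * (T ^ r * S ^ r) * S ^ m * T ^ (m + r) := by
          unfold P; rw [add_comm m r, pow_add S]; noncomm_ring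
      _ = w * T ^ r := by rw [pow_TS hTS, mul_one, h1, zero_mul, sub_zero]

lemma lev_b (hTS : T * S = 1) {m r : ℕ} : Lev S T (m + r) (S ^ r * P S T m) := by
  refine ⟨?_, ?_⟩
  · calc P S T (m + r) * (S ^ r * P S T m)
        = S ^ r * P S T m - S ^ (m + r) * (T ^ m * ((T ^ r * S ^ r) * P S T m)) := by
          nth_rewrite 1 [P]; rw [pow_add T]; noncomm_ring
      _ = S ^ r * P S T m := by rw [pow_TS hTS, one_mul, T_P hTS le_rfl, mul_zero, sub_zero]
  · rw [mul_assoc, P_P hTS (Nat.le_add_right m r)]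

/-- The closure of the finite corners has uniformly open multiplication. -/
theorem unif [NormOneClass R] (hTS : T * S = 1) (hS : ‖S‖ ≤ 1) (hT : ‖T‖ ≤ 1) (ε : ℝ) (hε : 0 < ε) :
    ∃ δ > 0, ∀ x ∈ (fin₀ 𝕜 S T hTS).topologicalClosure, ∀ y ∈ (fin₀ 𝕜 S T hTS).topologicalClosure,
      ∀ z ∈ (fin₀ 𝕜 S T hTS).topologicalClosure, ‖z - x * y‖ < δ →
      ∃ x' ∈ (fin₀ 𝕜 S T hTS).topologicalClosure, ∃ y' ∈ (fin₀ 𝕜 S T hTS).topologicalClosure,
        ‖x' - x‖ < ε ∧ ‖y' - y‖ < ε ∧ x' * y' = z := by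
  set A := (fin₀ 𝕜 S T hTS).topologicalClosure with hA
  have hAcl : IsClosed (A : Set R) := NonUnitalSubalgebra.isClosed_topologicalClosure _
  have hA₀ : ∀ a, (∃ m, Lev S T m a) → a ∈ A := fun a ha =>
    NonUnitalSubalgebra.le_topologicalClosure _ ha
  have hSn : ∀ r, ‖S ^ r‖ ≤ 1 := fun r => (norm_pow_le S r).trans (pow_le_one₀ (norm_nonneg _) hS)
  have hTn : ∀ r, ‖T ^ r‖ ≤ 1 := fun r => (norm_pow_le T r).trans (pow_le_one₀ (norm_nonneg _) hT)
  have hPn : ∀ m, ‖P S T m‖ ≤ 2 := by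
    intro m
    calc ‖P S T m‖ ≤ ‖(1:R)‖ + ‖S ^ m * T ^ m‖ := norm_sub_le _ _
      _ ≤ 1 + 1 * 1 := by
          rw [norm_one]
          gcongr
          exact (norm_mul_le _ _).trans (mul_le_mul (hSn m) (hTn m) (norm_nonneg _) zero_le_one)
      _ = 2 := by norm_num
  obtain ⟨t, ht⟩ : ∃ t, t = ε / 16 := ⟨_, rfl⟩
  have htpos : 0 < t := by rw [ht]; positivity
  refine ⟨t ^ 2, by positivity, ?_⟩
  intro x hx y hy z hz hxyz
  -- approximants
  obtain ⟨x₀, y₀, ⟨m₁, hm₁⟩, ⟨m₂, hm₂⟩, hx₀, hy₀, hz₀⟩ : ∃ x₀ y₀ : R, (∃ m, Lev S T m x₀) ∧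
      (∃ m, Lev S T m y₀) ∧ ‖x₀ - x‖ < ε / 2 ∧ ‖y₀ - y‖ < ε / 2 ∧ ‖z - x₀ * y₀‖ < t ^ 2 := by
    have hmem : (x, y) ∈ closure ((fin₀ 𝕜 S T hTS : Set R) ×ˢ (fin₀ 𝕜 S T hTS : Set R)) := by
      rw [closure_prod_eq]; exact ⟨hx, hy⟩
    have hopen : IsOpen {q : R × R | ‖q.1 - x‖ < ε / 2 ∧ ‖q.2 - y‖ < ε / 2 ∧ ‖z - q.1 * q.2‖ < t ^ 2} := by
      refine IsOpen.and (isOpen_lt ?_ continuous_const)
        (IsOpen.and (isOpen_lt ?_ continuous_const) (isOpen_lt ?_ continuous_const)) <;> fun_prop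
    obtain ⟨⟨x₀, y₀⟩, h1, h2⟩ := mem_closure_iff.1 hmem _ hopen (by
      refine ⟨?_, ?_, hxyz⟩ <;> simp [hε])
    exact ⟨x₀, y₀, h2.1, h2.2, h1.1, h1.2.1, h1.2.2⟩
  obtain ⟨m, hm⟩ : ∃ m, m = max m₁ m₂ := ⟨_, rfl⟩
  have hx₀m : Lev S T m x₀ := hm₁.mono hTS (hm ▸ le_max_left _ _)
  have hy₀m : Lev S T m y₀ := hm₂.mono hTS (hm ▸ le_max_right _ _)
  obtain ⟨w, hw⟩ : ∃ w, w = z - x₀ * y₀ := ⟨_, rfl⟩
  have hwA : w ∈ A := by
    rw [hw]
    exact sub_mem hz (mul_mem (hA₀ _ ⟨m, hx₀m⟩) (hA₀ _ ⟨m, hy₀m⟩))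
  have hwn : ‖w‖ < t ^ 2 := by rw [hw]; exact hz₀
  -- successive approximation of w
  have hV : ∀ j : ℕ, ∃ V : R, (∃ m, Lev S T m V) ∧ ‖w - V‖ ≤ t ^ 2 / 4 ^ j ∧ (j = 0 → V = 0) := by
    intro j
    rcases Nat.eq_zero_or_pos j with rfl | hj
    · exact ⟨0, ⟨0, by simp, by simp⟩, by simpa using hwn.le, fun _ => rfl⟩
    · have hpos : 0 < t ^ 2 / 4 ^ j := by positivity
      obtain ⟨V, hV1, hV2⟩ := Metric.mem_closure_iff.1 hwA _ hpos
      exact ⟨V, hV1, by rw [← dist_eq_norm]; exact hV2.le, fun h => absurd h hj.ne'⟩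
  choose V hVlev hVn hV0 using hV
  obtain ⟨W, hW⟩ : ∃ W : ℕ → R, ∀ j, W j = V (j + 1) - V j := ⟨fun j => V (j + 1) - V j, fun _ => rfl⟩
  have hWlev : ∀ j, ∃ m, Lev S T m (W j) := by
    intro j
    rw [hW]
    have h1 : V (j + 1) ∈ fin₀ 𝕜 S T hTS := hVlev (j + 1)
    have h2 : V j ∈ fin₀ 𝕜 S T hTS := hVlev j
    exact sub_mem h1 h2
  choose μ hμ using hWlev
  have hWn : ∀ j, ‖W j‖ ≤ 2 * t ^ 2 / 4 ^ j := by
    intro j
    have h1 := hVn j
    have h2 := hVn (j + 1)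
    have h3 : t ^ 2 / 4 ^ (j + 1) ≤ t ^ 2 / 4 ^ j := by
      apply div_le_div_of_nonneg_left (by positivity) (by positivity)
      exact pow_le_pow_right₀ (by norm_num) (by omega)
    calc ‖W j‖ = ‖(w - V j) - (w - V (j + 1))‖ := by rw [hW]; congr 1; abel
      _ ≤ ‖w - V j‖ + ‖w - V (j + 1)‖ := norm_sub_le _ _
      _ ≤ 2 * t ^ 2 / 4 ^ j := by
          have : 2 * t ^ 2 / 4 ^ j = t ^ 2 / 4 ^ j + t ^ 2 / 4 ^ j := by ring
          rw [this]; linarith
  have hWsum : HasSum W w := by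
    have hsummable : Summable W := by
      apply Summable.of_norm_bounded (g := fun j : ℕ => 2 * t ^ 2 * (1 / 4 : ℝ) ^ j)
      · exact (summable_geometric_of_lt_one (by norm_num) (by norm_num)).mul_left _
      · intro j
        refine (hWn j).trans (le_of_eq ?_)
        rw [one_div, inv_pow]; ring
    have htend : Tendsto (fun n => ∑ j ∈ Finset.range n, W j) atTop (𝓝 w) := by
      have h1 : ∀ n, ∑ j ∈ Finset.range n, W j = V n := by
        intro n
        simp only [hW]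
        rw [Finset.sum_range_sub, hV0 0 rfl, sub_zero]
      simp only [h1]
      rw [tendsto_iff_norm_sub_tendsto_zero]
      apply squeeze_zero (fun _ => norm_nonneg _) (g := fun n : ℕ => t ^ 2 * (1 / 4 : ℝ) ^ n)
      · intro n
        rw [norm_sub_rev]
        refine (hVn n).trans (le_of_eq ?_)
        rw [one_div, inv_pow]; ring
      · have := tendsto_pow_atTop_nhds_zero_of_lt_one (r := (1/4:ℝ)) (by norm_num) (by norm_num)
        simpa using this.const_mul (t ^ 2)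
    have := hsummable.hasSum
    rwa [tendsto_nhds_unique this.tendsto_sum_nat htend] at this
  obtain ⟨r, hr⟩ : ∃ r : ℕ → ℕ, ∀ j, r j = m + ∑ i ∈ Finset.range j, μ i := ⟨_, fun _ => rfl⟩
  have hrm : ∀ j, m ≤ r j := fun j => by rw [hr]; omega
  have hrlt : ∀ i j, i < j → r i + μ i ≤ r j := by
    intro i j hij
    rw [hr, hr]
    have h1 : ∑ k ∈ Finset.range (i + 1), μ k ≤ ∑ k ∈ Finset.range j, μ k :=
      Finset.sum_le_sum_of_subset (Finset.range_mono hij)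
    rw [Finset.sum_range_succ] at h1
    omega
  let c : ℕ → 𝕜 := fun j => ((2 ^ j / t : ℝ) : 𝕜)
  let c' : ℕ → 𝕜 := fun j => ((t / 2 ^ j : ℝ) : 𝕜)
  have hcc' : ∀ j, c j * c' j = 1 := by
    intro j
    simp only [c, c']
    rw [← RCLike.ofReal_mul]
    have : 2 ^ j / t * (t / 2 ^ j) = 1 := by field_simp
    rw [this, RCLike.ofReal_one]
  have hcn : ∀ j, ‖c j‖ = 2 ^ j / t := fun j => by
    simp only [c]; rw [RCLike.norm_ofReal, abs_of_pos (by positivity)]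
  have hc'n : ∀ j, ‖c' j‖ = t / 2 ^ j := fun j => by
    simp only [c']; rw [RCLike.norm_ofReal, abs_of_pos (by positivity)]
  let a : ℕ → R := fun j => c j • (W j * T ^ r j)
  let b : ℕ → R := fun j => c' j • (S ^ r j * P S T (μ j))
  have hab : ∀ i j, a i * b j = if i = j then W j else 0 := by
    intro i j
    simp only [a, b]
    rw [smul_mul_smul_comm]
    rcases lt_trichotomy i j with h | h | h
    · rw [cross hTS (hμ i) (hrlt i j h), smul_zero, if_neg h.ne]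
    · subst h
      rw [diag hTS (hμ i), hcc', one_smul, if_pos rfl]
    · rw [cross' hTS (hrlt j i h), smul_zero, if_neg h.ne']
  have han : ∀ j, ‖a j‖ ≤ 2 * t * (1 / 2 : ℝ) ^ j := by
    intro j
    calc ‖a j‖ = ‖c j‖ * ‖W j * T ^ r j‖ := norm_smul _ _
      _ ≤ (2 ^ j / t) * ((2 * t ^ 2 / 4 ^ j) * 1) := by
          rw [hcn]
          gcongr
          exact (norm_mul_le _ _).trans (mul_le_mul (hWn j) (hTn _) (norm_nonneg _) (by positivity))
      _ = 2 * t * (1 / 2 : ℝ) ^ j := by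
          have : (4:ℝ) ^ j = 2 ^ j * 2 ^ j := by rw [← mul_pow]; norm_num
          rw [this, one_div, inv_pow]; field_simp
  have hbn : ∀ j, ‖b j‖ ≤ 2 * t * (1 / 2 : ℝ) ^ j := by
    intro j
    calc ‖b j‖ = ‖c' j‖ * ‖S ^ r j * P S T (μ j)‖ := norm_smul _ _
      _ ≤ (t / 2 ^ j) * (1 * 2) := by
          rw [hc'n]
          gcongr
          exact (norm_mul_le _ _).trans (mul_le_mul (hSn _) (hPn _) (norm_nonneg _) (by positivity))
      _ = 2 * t * (1 / 2 : ℝ) ^ j := by rw [one_div, inv_pow]; ring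
  have hgs : HasSum (fun j : ℕ => 2 * t * (1 / 2 : ℝ) ^ j) (4 * t) := by
    have h := (hasSum_geometric_of_lt_one (r := (1/2:ℝ)) (by norm_num) (by norm_num)).mul_left (2 * t)
    have h2 : 2 * t * (1 - 1 / 2 : ℝ)⁻¹ = 4 * t := by ring
    rwa [h2] at h
  have hasum : Summable a := Summable.of_norm_bounded hgs.summable han
  have hbsum : Summable b := Summable.of_norm_bounded hgs.summable hbn
  have haN : ‖∑' j, a j‖ ≤ 4 * t := tsum_of_norm_bounded hgs han
  have hbN : ‖∑' j, b j‖ ≤ 4 * t := tsum_of_norm_bounded hgs hbn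
  have haA : ∑' j, a j ∈ A := by
    refine hAcl.mem_of_tendsto hasum.hasSum.tendsto_sum_nat (Eventually.of_forall fun n => ?_)
    exact sum_mem fun j _ => SMulMemClass.smul_mem _ (hA₀ _ ⟨_, lev_a hTS (hμ j)⟩)
  have hbA : ∑' j, b j ∈ A := by
    refine hAcl.mem_of_tendsto hbsum.hasSum.tendsto_sum_nat (Eventually.of_forall fun n => ?_)
    exact sum_mem fun j _ => SMulMemClass.smul_mem _ (hA₀ _ ⟨_, lev_b hTS⟩)
  refine ⟨x₀ + ∑' j, a j, add_mem (hA₀ _ ⟨m, hx₀m⟩) haA, y₀ + ∑' j, b j,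
    add_mem (hA₀ _ ⟨m, hy₀m⟩) hbA, ?_, ?_, ?_⟩
  · calc ‖x₀ + ∑' j, a j - x‖ = ‖(x₀ - x) + ∑' j, a j‖ := by congr 1; abel
      _ ≤ ‖x₀ - x‖ + ‖∑' j, a j‖ := norm_add_le _ _
      _ < ε := by rw [ht] at haN; linarith
  · calc ‖y₀ + ∑' j, b j - y‖ = ‖(y₀ - y) + ∑' j, b j‖ := by congr 1; abel
      _ ≤ ‖y₀ - y‖ + ‖∑' j, b j‖ := norm_add_le _ _
      _ < ε := by rw [ht] at hbN; linarith
  · have h1 : x₀ * ∑' j, b j = 0 := by
      rw [← hbsum.tsum_mul_left]
      have : ∀ j, x₀ * b j = 0 := by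
        intro j
        simp only [b]
        rw [mul_smul_comm, ← hx₀m.2, mul_assoc, ← mul_assoc (P S T m), P_S hTS (hrm j), zero_mul,
          mul_zero, smul_zero]
      simp [this]
    have h2 : (∑' j, a j) * y₀ = 0 := by
      rw [← hasum.tsum_mul_right]
      have : ∀ j, a j * y₀ = 0 := by
        intro j
        simp only [a]
        rw [smul_mul_assoc, ← hy₀m.1, mul_assoc, ← mul_assoc (T ^ r j), T_P hTS (hrm j), zero_mul,
          mul_zero, smul_zero]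
      simp [this]
    have h3 : (∑' j, a j) * ∑' j, b j = w := by
      have h4 : ∀ j, (∑' i, a i) * b j = W j := by
        intro j
        rw [← hasum.tsum_mul_right]
        simp only [hab]
        exact tsum_ite_eq j (fun _ => W j)
      have h5 : HasSum (fun j => (∑' i, a i) * b j) ((∑' i, a i) * ∑' j, b j) :=
        hbsum.hasSum.mul_left _
      simp only [h4] at h5
      exact h5.unique hWsum
    rw [add_mul, mul_add, mul_add, h1, h2, h3, hw]
    abel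

end corner

end Pool.Agent.R232.ArensRing
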