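import Mathlib
import Pool.Agent.R232.ArensRing

open Filter Topology Set
open scoped InnerProductSpace

namespace Pool.Agent.R232.ArensHilbert

open Pool.Agent.R232.ArensRing

variable {𝕜 : Type*} [RCLike 𝕜] {H : Type*} [NormedAddCommGroup H] [InnerProductSpace 𝕜 H]
  [CompleteSpace H] {D : Type*} [NormedAddCommGroup D] [NormedSpace 𝕜 D]

/-- an abstract family of vector functionals -/
structure VecFun (Ω : H → H → D) : Prop where
  add_left : ∀ u u' v, Ω (u + u') v = Ω u v + Ω u' v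
  smul_left : ∀ (c : 𝕜) u v, Ω (c • u) v = (starRingEnd 𝕜 c) • Ω u v
  add_right : ∀ u v v', Ω u (v + v') = Ω u v + Ω u v'
  smul_right : ∀ (c : 𝕜) u v, Ω u (c • v) = c • Ω u v
  bound : ∀ u v, ‖Ω u v‖ ≤ ‖u‖ * ‖v‖

variable {Ω : H → H → D} (hΩ : VecFun (𝕜 := 𝕜) Ω)

/-- the sesquilinear form of an element of the dual of `D` -/
noncomputable def form (F : StrongDual 𝕜 D) : H →L⋆[𝕜] H →L[𝕜] 𝕜 :=
  LinearMap.mkContinuous₂ (LinearMap.mk₂'ₛₗ (starRingEnd 𝕜) (RingHom.id 𝕜) (fun u v => F (Ω u v))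
    (fun u u' v => by rw [hΩ.add_left, map_add])
    (fun c u v => by rw [hΩ.smul_left, map_smul])
    (fun u v v' => by rw [hΩ.add_right, map_add])
    (fun c u v => by rw [hΩ.smul_right, map_smul, RingHom.id_apply]))
    ‖F‖ (fun u v => by
      calc ‖F (Ω u v)‖ ≤ ‖F‖ * ‖Ω u v‖ := F.le_opNorm _
        _ ≤ ‖F‖ * (‖u‖ * ‖v‖) := by gcongr; exact hΩ.bound u v
        _ = ‖F‖ * ‖u‖ * ‖v‖ := by ring)

omit [CompleteSpace H] in
lemma form_apply (F : StrongDual 𝕜 D) (u v : H) : form hΩ F u v = F (Ω u v) := rfl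

/-- the representation on `H` -/
noncomputable def π (F : StrongDual 𝕜 D) : H →L[𝕜] H :=
  ContinuousLinearMap.adjoint (InnerProductSpace.continuousLinearMapOfBilin (form hΩ F))

lemma π_spec (F : StrongDual 𝕜 D) (u v : H) : ⟪u, π hΩ F v⟫_𝕜 = F (Ω u v) := by
  unfold π
  rw [ContinuousLinearMap.adjoint_inner_right, InnerProductSpace.continuousLinearMapOfBilin_apply,
    form_apply]

lemma π_eq {F : StrongDual 𝕜 D} {b : H →L[𝕜] H}
    (h : ∀ u v, F (Ω u v) = ⟪u, b v⟫_𝕜) : π hΩ F = b := by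
  ext v
  refine ext_inner_left 𝕜 fun u => ?_
  rw [π_spec, h]

lemma π_add (F G : StrongDual 𝕜 D) : π hΩ (F + G) = π hΩ F + π hΩ G := by
  apply π_eq
  intro u v
  rw [add_apply, add_apply, inner_add_right, π_spec, π_spec]

lemma π_sub (F G : StrongDual 𝕜 D) : π hΩ (F - G) = π hΩ F - π hΩ G := by
  apply π_eq
  intro u v
  rw [sub_apply, sub_apply, inner_sub_right, π_spec, π_spec]

lemma π_smul (c : 𝕜) (F : StrongDual 𝕜 D) : π hΩ (c • F) = c • π hΩ F := by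
  apply π_eq
  intro u v
  rw [smul_apply, smul_apply, inner_smul_right, π_spec, smul_eq_mul]

lemma π_norm (F : StrongDual 𝕜 D) : ‖π hΩ F‖ ≤ ‖F‖ := by
  refine ContinuousLinearMap.opNorm_le_bound _ (norm_nonneg F) ?_
  intro v
  rcases (norm_nonneg (π hΩ F v)).eq_or_lt with h | h
  · rw [← h]; positivity
  · have h1 : ‖π hΩ F v‖ * ‖π hΩ F v‖ ≤ ‖F‖ * ‖v‖ * ‖π hΩ F v‖ := by
      calc ‖π hΩ F v‖ * ‖π hΩ F v‖ = ‖⟪π hΩ F v, π hΩ F v⟫_𝕜‖ := by
            rw [inner_self_eq_norm_sq_to_K, norm_pow, RCLike.norm_ofReal, abs_norm, sq]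
        _ = ‖F (Ω (π hΩ F v) v)‖ := by rw [π_spec]
        _ ≤ ‖F‖ * ‖Ω (π hΩ F v) v‖ := F.le_opNorm _
        _ ≤ ‖F‖ * (‖π hΩ F v‖ * ‖v‖) := by gcongr; exact hΩ.bound _ _
        _ = ‖F‖ * ‖v‖ * ‖π hΩ F v‖ := by ring
    exact le_of_mul_le_mul_right h1 h

lemma π_continuous : Continuous (π hΩ) := by
  rw [Metric.continuous_iff]
  intro G ε hε
  refine ⟨ε, hε, fun F hF => ?_⟩
  rw [dist_eq_norm, ← π_sub]
  exact (π_norm hΩ _).trans_lt (by rwa [← dist_eq_norm])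

/-- lifting operators -/
lemma exists_lift {S T : H →L[𝕜] H} (hT : T = ContinuousLinearMap.adjoint S)
    (hS1 : ‖S‖ ≤ 1) (hlim : ∀ ξ, Tendsto (fun n => (T ^ n) ξ) atTop (𝓝 0))
    (b : H →L[𝕜] H)
    (hι : ∀ n, ∃ F : StrongDual 𝕜 D, ‖F‖ ≤ ‖P S T n * b * P S T n‖ ∧
      ∀ u v, F (Ω u v) = ⟪u, (P S T n * b * P S T n) v⟫_𝕜) :
    ∃ F : StrongDual 𝕜 D, π hΩ F = b := by
  have hSn : ∀ r, ‖S ^ r‖ ≤ 1 := by
    intro r
    induction r with
    | zero => rw [pow_zero]; exact ContinuousLinearMap.norm_id_le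
    | succ r ih =>
      rw [pow_succ]
      calc ‖S ^ r * S‖ ≤ ‖S ^ r‖ * ‖S‖ := norm_mul_le _ _
        _ ≤ 1 * 1 := mul_le_mul ih hS1 (norm_nonneg _) zero_le_one
        _ = 1 := one_mul 1
  have hTr : ∀ r, T ^ r = ContinuousLinearMap.adjoint (S ^ r) := by
    intro r
    rw [hT, ← ContinuousLinearMap.star_eq_adjoint, ← ContinuousLinearMap.star_eq_adjoint, star_pow]
  have hTn : ∀ r, ‖T ^ r‖ ≤ 1 := by
    intro r
    rw [hTr r, LinearIsometryEquiv.norm_map]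
    exact hSn r
  have hPn : ∀ m, ‖P S T m‖ ≤ 2 := by
    intro m
    calc ‖P S T m‖ ≤ ‖(1 : H →L[𝕜] H)‖ + ‖S ^ m * T ^ m‖ := norm_sub_le _ _
      _ ≤ 1 + 1 * 1 := by
          gcongr
          · exact ContinuousLinearMap.norm_id_le
          · exact (norm_mul_le _ _).trans (mul_le_mul (hSn m) (hTn m) (norm_nonneg _) zero_le_one)
      _ = 2 := by norm_num
  have h2 : ∀ n ξ, P S T n ξ = ξ - (S ^ n) ((T ^ n) ξ) := by
    intro n ξ; simp [P]
  have hPlim : ∀ ξ, Tendsto (fun n => P S T n ξ) atTop (𝓝 ξ) := by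
    intro ξ
    have h1 : Tendsto (fun n => (S ^ n) ((T ^ n) ξ)) atTop (𝓝 0) := by
      rw [tendsto_zero_iff_norm_tendsto_zero]
      apply squeeze_zero (fun _ => norm_nonneg _) _ (tendsto_zero_iff_norm_tendsto_zero.1 (hlim ξ))
      intro n
      calc ‖(S ^ n) ((T ^ n) ξ)‖ ≤ ‖S ^ n‖ * ‖(T ^ n) ξ‖ := ContinuousLinearMap.le_opNorm _ _
        _ ≤ 1 * ‖(T ^ n) ξ‖ := by gcongr; exact hSn n
        _ = ‖(T ^ n) ξ‖ := one_mul _
    simp only [h2]
    simpa using h1.const_sub ξ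
  have hPadj : ∀ n u v, ⟪u, P S T n v⟫_𝕜 = ⟪P S T n u, v⟫_𝕜 := by
    intro n u v
    rw [h2, h2, inner_sub_right, inner_sub_left]
    congr 1
    rw [hTr n, ← ContinuousLinearMap.adjoint_inner_left, ContinuousLinearMap.adjoint_inner_right]
  choose J₀ hJ₀n hJ₀ using hι
  have han : ∀ n, ‖J₀ n‖ ≤ 4 * ‖b‖ := by
    intro n
    calc ‖J₀ n‖ ≤ ‖P S T n * b * P S T n‖ := hJ₀n n
      _ ≤ ‖P S T n‖ * ‖b‖ * ‖P S T n‖ := norm_mul₃_le
      _ ≤ 2 * ‖b‖ * 2 := by gcongr <;> exact hPn n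
      _ = 4 * ‖b‖ := by ring
  have hcomp := WeakDual.isCompact_closedBall (𝕜 := 𝕜) (E := D) 0 (4 * ‖b‖)
  obtain ⟨F, _, hF⟩ := hcomp.exists_mapClusterPt (f := atTop)
    (u := fun n : ℕ => StrongDual.toWeakDual (J₀ n)) (by
    refine le_principal_iff.2 ?_
    refine mem_map.2 (Filter.univ_mem' fun n => ?_)
    simp only [mem_preimage, Metric.mem_closedBall, dist_zero_right]
    exact han n)
  refine ⟨WeakDual.toStrongDual F, π_eq hΩ ?_⟩
  intro u v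
  have h1 : MapClusterPt (F (Ω u v)) atTop (fun n => J₀ n (Ω u v)) := by
    exact hF.continuousAt_comp (WeakDual.eval_continuous (Ω u v)).continuousAt
  have h2 : Tendsto (fun n => J₀ n (Ω u v)) atTop (𝓝 ⟪u, b v⟫_𝕜) := by
    have h3 : ∀ n, J₀ n (Ω u v) = ⟪P S T n u, b (P S T n v)⟫_𝕜 := by
      intro n
      rw [hJ₀]
      change ⟪u, P S T n (b (P S T n v))⟫_𝕜 = _
      rw [hPadj]
    simp only [h3]
    exact (hPlim u).inner (b.continuous.continuousAt.tendsto.comp (hPlim v))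
  have h4 : ClusterPt (F (Ω u v)) (𝓝 ⟪u, b v⟫_𝕜) := ClusterPt.mono h1 h2
  change F (Ω u v) = _
  exact eq_of_nhds_neBot h4

end Pool.Agent.R232.ArensHilbert
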