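import Mathlib

open Filter Topology Set
open scoped InnerProductSpace

namespace Pool.Agent.R232.ArensShift

variable (𝕜 : Type*) [RCLike 𝕜]

/-- `ℓ²(ℕ)` -/
abbrev H : Type _ := lp (fun _ : ℕ => 𝕜) 2

/-- the standard Hilbert basis -/
noncomputable def b : HilbertBasis ℕ 𝕜 (H 𝕜) := HilbertBasis.ofRepr (LinearIsometryEquiv.refl 𝕜 _)

lemma b_inner (k : ℕ) (ξ : H 𝕜) : ⟪b 𝕜 k, ξ⟫_𝕜 = ξ k := by
  rw [← HilbertBasis.repr_apply_apply]; rfl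

lemma orth : Orthonormal 𝕜 (fun n => b 𝕜 (n + 1)) :=
  (b 𝕜).orthonormal.comp _ (fun _ _ h => Nat.succ_injective h)

/-- the unilateral shift -/
noncomputable def S : H 𝕜 →L[𝕜] H 𝕜 :=
  ((orth 𝕜).orthogonalFamily.linearIsometry).toContinuousLinearMap

lemma S_basis (n : ℕ) : S 𝕜 (b 𝕜 n) = b 𝕜 (n + 1) := by
  classical
  have h : b 𝕜 n = lp.single 2 n (1 : 𝕜) := by
    rw [← HilbertBasis.repr_symm_single]; rfl
  rw [h]
  change (orth 𝕜).orthogonalFamily.linearIsometry (lp.single 2 n (1:𝕜)) = _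
  rw [OrthogonalFamily.linearIsometry_apply_single]
  simp

/-- the adjoint of the shift -/
noncomputable def T : H 𝕜 →L[𝕜] H 𝕜 := ContinuousLinearMap.adjoint (S 𝕜)

lemma TS : T 𝕜 * S 𝕜 = 1 := by
  have := (ContinuousLinearMap.norm_map_iff_adjoint_comp_self (S 𝕜)).1
    (fun x => ((orth 𝕜).orthogonalFamily.linearIsometry).norm_map x)
  exact this

lemma S_norm : ‖S 𝕜‖ ≤ 1 := LinearIsometry.norm_toContinuousLinearMap_le _

lemma T_norm : ‖T 𝕜‖ ≤ 1 := by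
  unfold T
  rw [LinearIsometryEquiv.norm_map]
  exact S_norm 𝕜

lemma T_apply (ξ : H 𝕜) (k : ℕ) : (T 𝕜 ξ) k = ξ (k + 1) := by
  rw [← b_inner, T, ContinuousLinearMap.adjoint_inner_right, S_basis, b_inner]

lemma Tn_apply (n : ℕ) (ξ : H 𝕜) (k : ℕ) : ((T 𝕜 ^ n) ξ) k = ξ (k + n) := by
  induction n generalizing ξ with
  | zero => rfl
  | succ n ih =>
    rw [pow_succ, mul_apply_eq_comp, ih, T_apply]
    congr 1

lemma T_lim (ξ : H 𝕜) : Tendsto (fun n => (T 𝕜 ^ n) ξ) atTop (𝓝 0) := by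
  have h2 : (0:ℝ) < (2 : ENNReal).toReal := by norm_num
  rw [tendsto_zero_iff_norm_tendsto_zero]
  have h1 : Tendsto (fun n => ‖(T 𝕜 ^ n) ξ‖ ^ (2 : ENNReal).toReal) atTop (𝓝 0) := by
    have h3 : ∀ n, ‖(T 𝕜 ^ n) ξ‖ ^ (2 : ENNReal).toReal =
        ∑' k, ‖ξ (k + n)‖ ^ (2 : ENNReal).toReal := by
      intro n
      rw [lp.norm_rpow_eq_tsum h2]
      simp only [Tn_apply]
    simp only [h3]
    exact tendsto_sum_nat_add (fun k => ‖ξ k‖ ^ (2 : ENNReal).toReal)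
  have h4 := h1.rpow_const (p := 1 / (2 : ENNReal).toReal) (Or.inr (by positivity))
  rw [Real.zero_rpow (by norm_num)] at h4
  refine h4.congr fun n => ?_
  rw [← Real.rpow_mul (norm_nonneg _), mul_one_div_cancel h2.ne', Real.rpow_one]

lemma ST : S 𝕜 * T 𝕜 ≠ 1 := by
  intro h
  have h1 : T 𝕜 (b 𝕜 0) = 0 := by
    ext k
    rw [T_apply]
    have : (b 𝕜 0) (k + 1) = ⟪b 𝕜 (k + 1), b 𝕜 0⟫_𝕜 := (b_inner 𝕜 _ _).symm
    rw [this, (b 𝕜).orthonormal.inner_eq_zero (by omega)]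
    rfl
  have h2 : S 𝕜 (T 𝕜 (b 𝕜 0)) = b 𝕜 0 := by
    have := congrArg (fun X : H 𝕜 →L[𝕜] H 𝕜 => X (b 𝕜 0)) h
    exact this
  rw [h1, map_zero] at h2
  exact (b 𝕜).orthonormal.ne_zero 0 h2.symm

instance : Nontrivial (H 𝕜) := ⟨⟨b 𝕜 0, 0, (b 𝕜).orthonormal.ne_zero 0⟩⟩

end Pool.Agent.R232.ArensShift
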