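import Mathlib

open MeasureTheory Set Filter Topology

namespace Pool.Agent.R232.BrokenLin

/-- A broken-linear transformation of `[0,1]`: continuous, and affine on each of finitely many
consecutive closed intervals which cover `[0,1]`. (Only the values of `T` on `[0,1]` matter.) -/
structure BrokenLinear (T : ℝ → ℝ) : Prop where
  maps : Set.MapsTo T (Set.Icc 0 1) (Set.Icc 0 1)
  cont : ContinuousOn T (Set.Icc 0 1)
  pieces : ∃ (m : ℕ) (a : ℕ → ℝ), a 0 = 0 ∧ a m = 1 ∧ (∀ j < m, a j < a (j + 1)) ∧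
    ∀ j < m, ∃ b c : ℝ, ∀ x ∈ Set.Icc (a j) (a (j + 1)), T x = b * x + c

/-- `A_N(R,p) = (1/N) ∑_{i=1}^N χ_R(T^i p)`. -/
noncomputable def avg (T : ℝ → ℝ) (R : Set ℝ) (p : ℝ) (N : ℕ) : ℝ :=
  (1 / (N : ℝ)) * ∑ i ∈ Finset.Icc 1 N, R.indicator (fun _ => (1 : ℝ)) (T^[i] p)

/-! ### Cesàro averages of 0-1 sequences -/

/-- shift invariance of Cesàro limits -/
lemma cesaro_shift (a : ℕ → ℝ) (h0 : ∀ i, 0 ≤ a i) (h1 : ∀ i, a i ≤ 1) (n0 : ℕ) (L : ℝ) :
    Tendsto (fun N : ℕ => (1 / (N : ℝ)) * ∑ i ∈ Finset.range N, a (n0 + i)) atTop (𝓝 L) ↔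
    Tendsto (fun N : ℕ => (1 / (N : ℝ)) * ∑ i ∈ Finset.range N, a i) atTop (𝓝 L) := by
  have key : Tendsto (fun N : ℕ => (1 / (N : ℝ)) * ∑ i ∈ Finset.range N, a (n0 + i) -
      (1 / (N : ℝ)) * ∑ i ∈ Finset.range N, a i) atTop (𝓝 0) := by
    have hb : ∀ N : ℕ, |(1 / (N : ℝ)) * ∑ i ∈ Finset.range N, a (n0 + i) -
      (1 / (N : ℝ)) * ∑ i ∈ Finset.range N, a i| ≤ (n0 : ℝ) / N := by
      intro N
      have e1 : ∑ i ∈ Finset.range N, a (n0 + i) =
          ∑ i ∈ Finset.range (n0 + N), a i - ∑ i ∈ Finset.range n0, a i := by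
        rw [Finset.sum_range_add]; ring
      have e2 : ∑ i ∈ Finset.range (n0 + N), a i =
          ∑ i ∈ Finset.range N, a i + ∑ i ∈ Finset.range n0, a (N + i) := by
        rw [add_comm n0 N, Finset.sum_range_add]
      have e3 : ∑ i ∈ Finset.range n0, a i ≤ n0 := by
        calc ∑ i ∈ Finset.range n0, a i ≤ ∑ i ∈ Finset.range n0, (1:ℝ) :=
              Finset.sum_le_sum (fun i _ => h1 i)
          _ = n0 := by simp
      have e4 : ∑ i ∈ Finset.range n0, a (N + i) ≤ n0 := by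
        calc ∑ i ∈ Finset.range n0, a (N + i) ≤ ∑ i ∈ Finset.range n0, (1:ℝ) :=
              Finset.sum_le_sum (fun i _ => h1 _)
          _ = n0 := by simp
      have e5 : 0 ≤ ∑ i ∈ Finset.range n0, a i := Finset.sum_nonneg (fun i _ => h0 i)
      have e6 : 0 ≤ ∑ i ∈ Finset.range n0, a (N + i) := Finset.sum_nonneg (fun i _ => h0 _)
      rw [← mul_sub, abs_mul, e1, e2]
      have : |(1:ℝ) / N| = 1 / N := abs_of_nonneg (by positivity)
      rw [this, div_mul_eq_mul_div, one_mul]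
      apply div_le_div_of_nonneg_right _ (by positivity)
      rw [abs_le]
      constructor <;> linarith
    apply squeeze_zero_norm (a := fun N : ℕ => (n0 : ℝ) / N)
    · intro N; exact hb N
    · exact tendsto_const_div_atTop_nhds_zero_nat _
  constructor
  · intro h
    have := h.sub key
    simpa using this
  · intro h
    have := h.add key
    simpa using this

lemma cesaro_Icc (a : ℕ → ℝ) (h0 : ∀ i, 0 ≤ a i) (h1 : ∀ i, a i ≤ 1) (n0 : ℕ) (L : ℝ) :
    Tendsto (fun N : ℕ => (1 / (N : ℝ)) * ∑ i ∈ Finset.Icc 1 N, a i) atTop (𝓝 L) ↔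
    Tendsto (fun N : ℕ => (1 / (N : ℝ)) * ∑ i ∈ Finset.range N, a (n0 + i)) atTop (𝓝 L) := by
  rw [cesaro_shift a h0 h1 n0 L, ← cesaro_shift a h0 h1 1 L]
  have : ∀ N : ℕ, ∑ i ∈ Finset.Icc 1 N, a i = ∑ i ∈ Finset.range N, a (1 + i) := by
    intro N
    rw [← Finset.Ico_succ_right_eq_Icc, Finset.sum_Ico_eq_sum_range]
    simp
  simp only [this]

open Classical in
/-- the indicator of `{k : ⌊log₂ k⌋ even}` -/
noncomputable def ev (i : ℕ) : ℝ := if Even (Nat.log 2 i) then 1 else 0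

lemma ev_nonneg (i : ℕ) : 0 ≤ ev i := by unfold ev; split_ifs <;> norm_num
lemma ev_le (i : ℕ) : ev i ≤ 1 := by unfold ev; split_ifs <;> norm_num

lemma ev_diverge (L : ℝ) :
    ¬ Tendsto (fun N : ℕ => (1 / (N : ℝ)) * ∑ i ∈ Finset.range N, ev i) atTop (𝓝 L) := by
  classical
  intro h
  have hpow : Tendsto (fun j : ℕ => 2 ^ j) atTop (atTop : Filter ℕ) :=
    tendsto_pow_atTop_atTop_of_one_lt (by norm_num)
  have h1 := h.comp hpow
  have h2 : Tendsto (fun j : ℕ => (1 / ((2 ^ (j+1) : ℕ) : ℝ)) * ∑ i ∈ Finset.range (2 ^ (j+1)), ev i)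
      atTop (𝓝 L) := h1.comp (tendsto_add_atTop_nat 1)
  have hstep : ∀ j : ℕ, ∑ i ∈ Finset.range (2 ^ (j+1)), ev i =
      ∑ i ∈ Finset.range (2 ^ j), ev i + 2 ^ j * (if Even j then (1:ℝ) else 0) := by
    intro j
    rw [pow_succ, mul_two, Finset.sum_range_add]
    congr 1
    have : ∀ i ∈ Finset.range (2 ^ j), ev (2 ^ j + i) = (if Even j then (1:ℝ) else 0) := by
      intro i hi
      have hi' := Finset.mem_range.1 hi
      have hl : Nat.log 2 (2 ^ j + i) = j := by
        rw [Nat.log_eq_iff (by right; exact ⟨by norm_num, by positivity⟩)]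
        constructor
        · omega
        · rw [pow_succ]; omega
      unfold ev
      rw [hl]
    rw [Finset.sum_congr rfl this]
    simp
  have h3 : Tendsto (fun j : ℕ => (if Even j then (1:ℝ) else 0)) atTop (𝓝 (2 * L - L)) := by
    have h4 := (h2.const_mul 2).sub h1
    refine h4.congr ?_
    intro j
    simp only [Function.comp]
    rw [hstep j]
    have hne : (2:ℝ) ^ j ≠ 0 := by positivity
    push_cast
    rw [pow_succ]
    field_simp
    ring
  have h5 : Tendsto (fun j : ℕ => (if Even (2 * j) then (1:ℝ) else 0)) atTop (𝓝 (2 * L - L)) :=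
    h3.comp (tendsto_id.const_mul_atTop' (by norm_num : 0 < 2))
  have h6 : Tendsto (fun j : ℕ => (if Even (2 * j + 1) then (1:ℝ) else 0)) atTop (𝓝 (2 * L - L)) :=
    h3.comp ((tendsto_add_atTop_nat 1).comp (tendsto_id.const_mul_atTop' (by norm_num : 0 < 2)))
  simp at h5 h6
  linarith

open Classical in
noncomputable def dv (d i : ℕ) : ℝ := if d ∣ i then 1 else 0

lemma dv_nonneg (d i : ℕ) : 0 ≤ dv d i := by unfold dv; split_ifs <;> norm_num
lemma dv_le (d i : ℕ) : dv d i ≤ 1 := by unfold dv; split_ifs <;> norm_num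

lemma dv_limit (d : ℕ) (hd : 0 < d) :
    Tendsto (fun N : ℕ => (1 / (N : ℝ)) * ∑ i ∈ Finset.range N, dv d i) atTop (𝓝 (1 / d)) := by
  classical
  have hcount : ∀ N : ℕ, ∃ s : ℕ, ∑ i ∈ Finset.range N, dv d i = s ∧ N ≤ d * s ∧ d * s ≤ N + d - 1 := by
    intro N
    induction N with
    | zero => exact ⟨0, by simp, by simp, by simp⟩
    | succ N ih =>
      obtain ⟨s, hs, h1, h2⟩ := ih
      by_cases hdv : d ∣ N
      · refine ⟨s + 1, ?_, ?_, ?_⟩
        · rw [Finset.sum_range_succ, hs]; simp [dv, hdv]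
        · rw [mul_add]; omega
        · obtain ⟨c, rfl⟩ := hdv
          have : s ≤ c := by
            by_contra hc
            push Not at hc
            have : d * (c + 1) ≤ d * s := Nat.mul_le_mul_left _ hc
            rw [mul_add] at this
            omega
          have : d * s ≤ d * c := Nat.mul_le_mul_left _ this
          rw [mul_add]; omega
      · refine ⟨s, ?_, ?_, ?_⟩
        · rw [Finset.sum_range_succ, hs]; simp [dv, hdv]
        · have : N ≠ d * s := fun h => hdv ⟨s, h⟩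
          omega
        · omega
  have hb : ∀ N : ℕ, 0 < N → |(1 / (N : ℝ)) * ∑ i ∈ Finset.range N, dv d i - 1 / d| ≤ 1 / N := by
    intro N hN
    obtain ⟨s, hs, h1, h2⟩ := hcount N
    have hNr : (0:ℝ) < N := by exact_mod_cast hN
    have hdr : (0:ℝ) < d := by exact_mod_cast hd
    have h1' : (N:ℝ) ≤ d * s := by exact_mod_cast h1
    have h2' : (d:ℝ) * s ≤ N + d := by
      have : d * s ≤ N + d := by omega
      exact_mod_cast this
    rw [hs]
    have : (1 / (N : ℝ)) * s - 1 / d = (d * s - N) / (N * d) := by field_simp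
    rw [this, abs_of_nonneg (by apply div_nonneg <;> [linarith; positivity])]
    rw [div_le_div_iff₀ (by positivity) hNr]
    nlinarith
  rw [tendsto_iff_norm_sub_tendsto_zero]
  apply squeeze_zero' (Eventually.of_forall (fun N => norm_nonneg _))
    (g := fun N : ℕ => (1:ℝ) / N) _ (tendsto_const_div_atTop_nhds_zero_nat _)
  filter_upwards [eventually_gt_atTop 0] with N hN
  exact hb N hN

/-! ### The map -/

/-- `T x = max (x/2, 2x-1)`: an increasing broken-linear homeomorphism of `[0,1]` with vertices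
`(0,0), (2/3,1/3), (1,1)`. -/
noncomputable def T (x : ℝ) : ℝ := max (x / 2) (2 * x - 1)

lemma T_low {x : ℝ} (hx : x ≤ 2 / 3) : T x = x / 2 := by
  unfold T; apply max_eq_left; linarith

lemma T_high {x : ℝ} (hx : 2 / 3 ≤ x) : T x = 2 * x - 1 := by
  unfold T; apply max_eq_right; linarith

lemma T_broken : BrokenLinear T where
  maps := by
    intro x hx
    constructor
    · exact le_max_of_le_left (by linarith [hx.1])
    · apply max_le <;> linarith [hx.1, hx.2]
  cont := by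
    apply Continuous.continuousOn
    unfold T
    fun_prop
  pieces := by
    refine ⟨2, fun j => if j = 0 then 0 else if j = 1 then 2 / 3 else 1, by simp, by simp, ?_, ?_⟩
    · intro j hj
      interval_cases j <;> norm_num
    · intro j hj
      interval_cases j
      · refine ⟨1 / 2, 0, ?_⟩
        intro x hx
        have : x ≤ 2 / 3 := by simpa using hx.2
        rw [T_low this]; ring
      · refine ⟨2, -1, ?_⟩
        intro x hx
        have : 2 / 3 ≤ x := by simpa using hx.1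
        rw [T_high this]; ring

lemma T_bij : Set.BijOn T (Icc 0 1) (Icc 0 1) := by
  refine ⟨T_broken.maps, ?_, ?_⟩
  · intro x _ y _ h
    rcases le_total x (2/3) with hx | hx <;> rcases le_total y (2/3) with hy | hy
    · rw [T_low hx, T_low hy] at h; linarith
    · rw [T_low hx, T_high hy] at h; linarith
    · rw [T_high hx, T_low hy] at h; linarith
    · rw [T_high hx, T_high hy] at h; linarith
  · intro y hy
    rcases le_total y (1/3) with h | h
    · refine ⟨2 * y, ⟨by linarith [hy.1], by linarith⟩, ?_⟩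
      rw [T_low (by linarith)]; ring
    · refine ⟨(y + 1) / 2, ⟨by linarith [hy.1], by linarith [hy.2]⟩, ?_⟩
      rw [T_high (by linarith)]; ring

lemma iter_low {q : ℝ} (h0 : 0 ≤ q) (hq : q ≤ 2 / 3) (i : ℕ) : T^[i] q = q / 2 ^ i := by
  induction i with
  | zero => simp
  | succ i ih =>
    rw [Function.iterate_succ_apply', ih, T_low, pow_succ]
    · field_simp
    · calc q / 2 ^ i ≤ q / 1 := by
            apply div_le_div_of_nonneg_left h0 (by norm_num)
            exact one_le_pow₀ (by norm_num)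
        _ ≤ 2 / 3 := by simpa using hq

lemma iter_pos {p : ℝ} (h0 : 0 < p) (i : ℕ) : 0 < T^[i] p := by
  induction i with
  | zero => simpa
  | succ i ih =>
    rw [Function.iterate_succ_apply']
    exact lt_max_of_lt_left (by linarith)

lemma exists_low {p : ℝ} (h0 : 0 < p) (h1 : p < 1) :
    ∃ (n0 : ℕ) (q : ℝ), 0 < q ∧ q ≤ 2 / 3 ∧ ∀ i, T^[n0 + i] p = q / 2 ^ i := by
  have hex : ∃ n : ℕ, T^[n] p ≤ 2 / 3 := by
    by_contra hcon
    push Not at hcon
    have key : ∀ n : ℕ, 1 - T^[n] p = 2 ^ n * (1 - p) := by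
      intro n
      induction n with
      | zero => simp
      | succ n ih =>
        rw [Function.iterate_succ_apply', T_high (hcon n).le, pow_succ]
        linarith
    obtain ⟨n, hn⟩ := pow_unbounded_of_one_lt (1 / (1 - p)) (by norm_num : (1:ℝ) < 2)
    have h2 := key n
    have h3 := hcon n
    have h4 : 1 < 2 ^ n * (1 - p) := by
      rw [div_lt_iff₀ (by linarith)] at hn
      exact hn
    linarith
  obtain ⟨n, hn⟩ := hex
  refine ⟨n, T^[n] p, iter_pos h0 n, hn, ?_⟩
  intro i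
  rw [add_comm, Function.iterate_add_apply, iter_low (iter_pos h0 n).le hn]

/-! ### The sets -/

/-- the dyadic level: `x ∈ (2^{-k-1}, 2^{-k}]` has `lev x = k`. -/
noncomputable def lev (x : ℝ) : ℕ := ⌊-Real.logb 2 x⌋₊

lemma lev_half {q : ℝ} (h0 : 0 < q) (h1 : q ≤ 1) (i : ℕ) : lev (q / 2 ^ i) = lev q + i := by
  unfold lev
  rw [Real.logb_div h0.ne' (by positivity), Real.logb_pow, Real.logb_self_eq_one (by norm_num)]
  have : -(Real.logb 2 q - (i:ℝ) * 1) = -Real.logb 2 q + i := by ring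
  rw [this, Nat.floor_add_natCast]
  have := Real.logb_nonpos (by norm_num : (1:ℝ) < 2) h0.le h1
  linarith

lemma measurable_lev : Measurable lev := by
  unfold lev
  apply Nat.measurable_floor.comp
  unfold Real.logb
  exact ((Real.measurable_log).div_const _).neg

/-- type of a point: depends on the orbit under halving only -/
noncomputable def typ (x : ℝ) : ℕ := ⌊1 / (2 * (x * 2 ^ lev x) - 1)⌋₊

lemma typ_half {q : ℝ} (h0 : 0 < q) (h1 : q ≤ 1) (i : ℕ) : typ (q / 2 ^ i) = typ q := by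
  unfold typ
  rw [lev_half h0 h1, pow_add]
  congr 3
  field_simp

lemma measurable_typ : Measurable typ := by
  unfold typ
  apply Nat.measurable_floor.comp
  have h : Measurable (fun x : ℝ => (2:ℝ) ^ lev x) :=
    (measurable_from_top (f := fun n : ℕ => (2:ℝ) ^ n)).comp measurable_lev
  exact ((((measurable_id.mul h).const_mul 2).sub_const 1).const_div 1)

lemma lev_spec {x : ℝ} (h0 : 0 < x) (h1 : x ≤ 1) : 1 / 2 < x * 2 ^ lev x ∧ x * 2 ^ lev x ≤ 1 := by
  have hn : 0 ≤ -Real.logb 2 x := by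
    have := Real.logb_nonpos (by norm_num : (1:ℝ) < 2) h0.le h1
    linarith
  have ha : (lev x : ℝ) ≤ -Real.logb 2 x := Nat.floor_le hn
  have hb : -Real.logb 2 x < lev x + 1 := Nat.lt_floor_add_one _
  have hx : x = 2 ^ (Real.logb 2 x) := (Real.rpow_logb (by norm_num) (by norm_num) h0).symm
  have h2 : x * 2 ^ lev x = (2:ℝ) ^ (Real.logb 2 x + lev x) := by
    rw [Real.rpow_add (by norm_num), ← hx, Real.rpow_natCast]
  rw [h2]
  constructor
  · have : (1/2 : ℝ) = 2 ^ (-1 : ℝ) := by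
      rw [Real.rpow_neg_one]; norm_num
    rw [this]
    apply Real.rpow_lt_rpow_of_exponent_lt (by norm_num)
    linarith
  · apply Real.rpow_le_one_of_one_le_of_nonpos (by norm_num)
    linarith

lemma typ_pos {x : ℝ} (h0 : 0 < x) (h1 : x ≤ 1) : 0 < typ x := by
  obtain ⟨ha, hb⟩ := lev_spec h0 h1
  unfold typ
  apply Nat.floor_pos.2
  rw [le_div_iff₀ (by linarith)]
  linarith

lemma avg_tendsto_iff (R : Set ℝ) (p : ℝ) (n0 : ℕ) (L : ℝ) :
    Tendsto (avg T R p) atTop (𝓝 L) ↔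
    Tendsto (fun N : ℕ => (1 / (N : ℝ)) *
      ∑ i ∈ Finset.range N, R.indicator (fun _ => (1 : ℝ)) (T^[n0 + i] p)) atTop (𝓝 L) := by
  classical
  apply cesaro_Icc (fun i => R.indicator (fun _ => (1 : ℝ)) (T^[i] p))
  · intro i; apply Set.indicator_nonneg; intro _ _; norm_num
  · intro i
    simp only [Set.indicator_apply]
    split_ifs <;> norm_num

/-- the set for Q1 -/
def R₁ : Set ℝ := {x | x ∈ Ioc (0:ℝ) 1 ∧ Even (Nat.log 2 (lev x))}

/-- the set for Q2 -/
def R₂ : Set ℝ := {x | x ∈ Ioc (0:ℝ) 1 ∧ typ x ∣ lev x}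

lemma measurable_R₁ : MeasurableSet R₁ := by
  apply measurableSet_Ioc.inter
  exact measurable_lev (t := {k | Even (Nat.log 2 k)}) (MeasurableSet.of_discrete)

lemma measurable_R₂ : MeasurableSet R₂ := by
  apply measurableSet_Ioc.inter
  exact (measurable_typ.prodMk measurable_lev) (t := {k : ℕ × ℕ | k.1 ∣ k.2})
    (MeasurableSet.of_discrete)

lemma half_mem {q : ℝ} (h0 : 0 < q) (hq : q ≤ 2 / 3) (i : ℕ) : q / 2 ^ i ∈ Ioc (0:ℝ) 1 := by
  constructor
  · positivity
  · rw [← iter_low h0.le hq i]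
    exact ((T_broken.maps.iterate i) ⟨h0.le, by linarith⟩).2

lemma ind_R₁ {q : ℝ} (h0 : 0 < q) (hq : q ≤ 2 / 3) (i : ℕ) :
    R₁.indicator (fun _ => (1 : ℝ)) (q / 2 ^ i) = ev (lev q + i) := by
  classical
  unfold ev
  rw [Set.indicator_apply]
  have : q / 2 ^ i ∈ R₁ ↔ Even (Nat.log 2 (lev q + i)) := by
    unfold R₁
    rw [← lev_half h0 (by linarith)]
    simp only [mem_ofPred_eq, half_mem h0 hq i, true_and]
  simp only [this]

lemma ind_R₂ {q : ℝ} (h0 : 0 < q) (hq : q ≤ 2 / 3) (i : ℕ) :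
    R₂.indicator (fun _ => (1 : ℝ)) (q / 2 ^ i) = dv (typ q) (lev q + i) := by
  classical
  unfold dv
  rw [Set.indicator_apply]
  have : q / 2 ^ i ∈ R₂ ↔ typ q ∣ lev q + i := by
    unfold R₂
    rw [← lev_half h0 (by linarith), ← typ_half h0 (by linarith) i]
    simp only [mem_ofPred_eq, half_mem h0 hq i, true_and]
  simp only [this]

lemma q1 {p : ℝ} (h0 : 0 < p) (h1 : p < 1) (L : ℝ) : ¬ Tendsto (avg T R₁ p) atTop (𝓝 L) := by
  obtain ⟨n0, q, hq0, hq, hit⟩ := exists_low h0 h1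
  rw [avg_tendsto_iff R₁ p n0 L]
  simp only [hit, ind_R₁ hq0 hq]
  rw [cesaro_shift ev ev_nonneg ev_le (lev q) L]
  exact ev_diverge L

lemma q2_lim {p : ℝ} {n0 : ℕ} {q : ℝ} (hq0 : 0 < q) (hq : q ≤ 2 / 3)
    (hit : ∀ i, T^[n0 + i] p = q / 2 ^ i) :
    Tendsto (avg T R₂ p) atTop (𝓝 (1 / (typ q : ℝ))) := by
  rw [avg_tendsto_iff R₂ p n0]
  simp only [hit, ind_R₂ hq0 hq]
  rw [cesaro_shift (dv (typ q)) (dv_nonneg _) (dv_le _) (lev q)]
  exact dv_limit _ (typ_pos hq0 (by linarith))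

lemma fix_lim (R : Set ℝ) {p : ℝ} (hp : T p = p) : ∃ l, Tendsto (avg T R p) atTop (𝓝 l) := by
  refine ⟨R.indicator (fun _ => (1 : ℝ)) p, ?_⟩
  have : ∀ i, T^[i] p = p := fun i => Function.iterate_fixed hp i
  apply tendsto_const_nhds.congr'
  filter_upwards [eventually_gt_atTop 0] with N hN
  have hNr : (0:ℝ) < N := by exact_mod_cast hN
  unfold avg
  simp only [this, Finset.sum_const, Nat.card_Icc, Nat.add_sub_cancel, nsmul_eq_mul]
  field_simp

lemma q2_ex {p : ℝ} (hp : p ∈ Icc (0:ℝ) 1) : ∃ l, Tendsto (avg T R₂ p) atTop (𝓝 l) := by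
  rcases eq_or_lt_of_le hp.1 with h | h
  · subst h
    exact fix_lim R₂ (by rw [T_low] <;> norm_num)
  rcases eq_or_lt_of_le hp.2 with h' | h'
  · subst h'
    exact fix_lim R₂ (by rw [T_high] <;> norm_num)
  obtain ⟨n0, q, hq0, hq, hit⟩ := exists_low h h'
  exact ⟨_, q2_lim hq0 hq hit⟩

lemma lev_zero {q : ℝ} (h0 : 1 / 2 < q) (h1 : q ≤ 1) : lev q = 0 := by
  obtain ⟨ha, hb⟩ := lev_spec (by linarith) h1
  by_contra hne
  have h2 : (2:ℝ) ^ 1 ≤ 2 ^ lev q := pow_le_pow_right₀ (by norm_num) (Nat.one_le_iff_ne_zero.2 hne)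
  nlinarith

lemma typ_eq {q : ℝ} {d : ℕ} (hd : 0 < d) (h0 : 1 / 2 + 1 / (2 * ((d:ℝ) + 1)) < q)
    (h1 : q ≤ 1 / 2 + 1 / (2 * (d:ℝ))) : typ q = d := by
  have hdr : (1:ℝ) ≤ d := by exact_mod_cast hd
  have e1 : 1 / (2 * (d:ℝ)) ≤ 1 / 2 := by
    apply one_div_le_one_div_of_le <;> linarith
  have e2 : 0 < 1 / (2 * ((d:ℝ) + 1)) := by positivity
  unfold typ
  rw [lev_zero (by linarith) (by linarith), pow_zero, mul_one]
  have hpos : 0 < 2 * q - 1 := by linarith
  rw [Nat.floor_eq_iff (by positivity)]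
  constructor
  · rw [le_div_iff₀ hpos]
    have : (d:ℝ) * (2 * q - 1) ≤ d * (1 / d) := by
      apply mul_le_mul_of_nonneg_left _ (by linarith)
      have : 1 / (2 * (d:ℝ)) = (1 / d) / 2 := by field_simp
      rw [this] at h1; linarith
    rw [mul_one_div_cancel (by linarith)] at this
    exact this
  · rw [div_lt_iff₀ hpos]
    have : ((d:ℝ) + 1) * (1 / (d + 1)) < (d + 1) * (2 * q - 1) := by
      apply mul_lt_mul_of_pos_left _ (by linarith)
      have : 1 / (2 * ((d:ℝ) + 1)) = (1 / (d + 1)) / 2 := by field_simp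
      rw [this] at h0; linarith
    rw [mul_one_div_cancel (by linarith)] at this
    exact this

end Pool.Agent.R232.BrokenLin
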