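import Mathlib

/-!
# Counting lemmas over the field with two elements
-/

open Finset

namespace Pool.Agent.R232.CR

/-- the field with two elements -/
abbrev F2 := ZMod 2

section fiber

variable {V H H' : Type*} [AddCommGroup V] [AddCommGroup H] [AddCommGroup H']
  [Fintype V] [Fintype H] [Fintype H'] [DecidableEq H] [DecidableEq H']

theorem card_fiber (f : V →+ H) (hf : Function.Surjective f) (c : H) :
    (univ.filter fun z => f z = c).card * Fintype.card H = Fintype.card V := by
  classical
  have h1 : ∀ d : H, (univ.filter fun z => f z = d).card = (univ.filter fun z => f z = c).card := by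
    intro d
    obtain ⟨z0, hz0⟩ := hf (d - c)
    refine Finset.card_bij' (fun z _ => z - z0) (fun z _ => z + z0) ?_ ?_ ?_ ?_
    · intro z hz
      simp only [mem_filter, mem_univ, true_and] at hz ⊢
      rw [map_sub, hz, hz0]; abel
    · intro z hz
      simp only [mem_filter, mem_univ, true_and] at hz ⊢
      rw [map_add, hz, hz0]; abel
    · intro z _; simp
    · intro z _; simp
  have h2 : Fintype.card V = ∑ d : H, (univ.filter fun z => f z = d).card := by
    rw [← Finset.card_univ]
    exact Finset.card_eq_sum_card_fiberwise (fun z _ => mem_coe.2 (mem_univ _))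
  rw [h2, Finset.sum_congr rfl (fun d _ => h1 d), Finset.sum_const, Finset.card_univ, smul_eq_mul,
    mul_comm]

theorem sum_ind (f : V →+ H) (hf : Function.Surjective f) (c : H) :
    (∑ z : V, if f z = c then (1 : ℂ) else 0) = (Fintype.card V : ℂ) / (Fintype.card H : ℂ) := by
  have h := card_fiber f hf c
  have hH : (Fintype.card H : ℂ) ≠ 0 := by
    have : 0 < Fintype.card H := Fintype.card_pos_iff.2 ⟨0⟩
    exact_mod_cast this.ne'
  rw [Finset.sum_boole, eq_div_iff hH]
  exact_mod_cast h

end fiber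

section lin

variable {V H H' : Type*} [AddCommGroup V] [AddCommGroup H] [AddCommGroup H']
  [Module F2 V] [Module F2 H] [Module F2 H'] 

theorem surj_of_dual [Module.Finite F2 H] (f : V →ₗ[F2] H)
    (h : ∀ κ : H →ₗ[F2] F2, κ ∘ₗ f = 0 → κ = 0) : Function.Surjective f := by
  rw [← LinearMap.dualMap_injective_iff]
  rw [← LinearMap.ker_eq_bot, LinearMap.ker_eq_bot']
  intro κ hκ
  exact h κ hκ

theorem surj_prod [Module.Finite F2 H] [Module.Finite F2 H'] (f : V →ₗ[F2] H) (g : V →ₗ[F2] H')
    (h : ∀ (κ : H →ₗ[F2] F2) (κ' : H' →ₗ[F2] F2), κ ∘ₗ f = κ' ∘ₗ g → κ = 0 ∧ κ' = 0) :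
    Function.Surjective (f.prod g) := by
  refine surj_of_dual _ ?_
  intro κ hκ
  have h1 : (κ ∘ₗ LinearMap.inl F2 H H') ∘ₗ f = (-(κ ∘ₗ LinearMap.inr F2 H H')) ∘ₗ g := by
    ext z
    have := LinearMap.congr_fun hκ z
    simp only [LinearMap.comp_apply, LinearMap.prod_apply, LinearMap.zero_apply] at this
    simp only [LinearMap.comp_apply, LinearMap.neg_apply, LinearMap.inl_apply, LinearMap.inr_apply]
    rw [eq_neg_iff_add_eq_zero, ← map_add]
    simpa using this
  obtain ⟨h2, h3⟩ := h _ _ h1
  rw [neg_eq_zero] at h3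
  exact LinearMap.prod_ext (by rw [h2]; rfl) (by rw [h3]; rfl)

theorem sum_ind_lin [Fintype V] [Fintype H] [DecidableEq H] [Module.Finite F2 H] (f : V →ₗ[F2] H)
    (h : ∀ κ : H →ₗ[F2] F2, κ ∘ₗ f = 0 → κ = 0) (c : H) :
    (∑ z : V, if f z = c then (1 : ℂ) else 0) = (Fintype.card V : ℂ) / (Fintype.card H : ℂ) :=
  sum_ind f.toAddMonoidHom (surj_of_dual f h) c

theorem sum_ind_prod [Fintype V] [Fintype H] [DecidableEq H] [Fintype H'] [DecidableEq H']
    [Module.Finite F2 H] [Module.Finite F2 H'] (f : V →ₗ[F2] H) (g : V →ₗ[F2] H')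
    (h : ∀ (κ : H →ₗ[F2] F2) (κ' : H' →ₗ[F2] F2), κ ∘ₗ f = κ' ∘ₗ g → κ = 0 ∧ κ' = 0)
    (c : H) (d : H') :
    (∑ z : V, if f z = c ∧ g z = d then (1 : ℂ) else 0)
      = (Fintype.card V : ℂ) / ((Fintype.card H : ℂ) * (Fintype.card H' : ℂ)) := by
  have := sum_ind (f.prod g).toAddMonoidHom (surj_prod f g h) (c, d)
  have key : ∀ z, ((f.prod g).toAddMonoidHom z = (c, d)) = (f z = c ∧ g z = d) := fun z => by
    change ((f z, g z) = (c, d)) = _
    simp
  simp only [key] at this
  rw [this, Fintype.card_prod]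
  push_cast
  rfl

/-- two nonzero functionals over `F2` that agree up to scalars are equal -/
theorem f2_smul (κ : F2 →ₗ[F2] F2) : κ = 0 ∨ κ = LinearMap.id := by
  have h : κ 1 = 0 ∨ κ 1 = 1 := by
    generalize κ 1 = x
    revert x; decide
  rcases h with h | h
  · left; ext; simpa using h
  · right; ext; simpa using h

end lin

section dual

variable {V : Type*} [AddCommGroup V] [Module F2 V] [Finite V]

instance finDual : Finite (V →ₗ[F2] F2) := DFunLike.finite _

noncomputable instance fintypeDual : Fintype (V →ₗ[F2] F2) := Fintype.ofFinite _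

theorem card_dual [Fintype V] : Fintype.card (V →ₗ[F2] F2) = Fintype.card V := by
  have h1 : Module.finrank F2 (V →ₗ[F2] F2) = Module.finrank F2 V := Subspace.dual_finrank_eq
  rw [Module.card_eq_pow_finrank (K := F2) (V := V →ₗ[F2] F2),
    Module.card_eq_pow_finrank (K := F2) (V := V), h1]

/-- number of functionals that vanish at a nonzero vector -/
theorem sum_dual_zero [Fintype V] {z : V} (hz : z ≠ 0) :
    (∑ ψ : V →ₗ[F2] F2, if ψ z = 0 then (1 : ℂ) else 0) = (Fintype.card V : ℂ) / 2 := by
  classical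
  have hs : Function.Surjective
      ({ toFun := fun ψ : V →ₗ[F2] F2 => ψ z, map_zero' := rfl, map_add' := fun _ _ => rfl } :
        (V →ₗ[F2] F2) →+ F2) := by
    obtain ⟨ψ, hψ⟩ : ∃ ψ : Module.Dual F2 V, ψ z ≠ 0 := by
      by_contra hcon
      push Not at hcon
      exact hz ((Module.forall_dual_apply_eq_zero_iff F2 z).1 hcon)
    intro c
    refine ⟨c • ψ, ?_⟩
    have h1 : ψ z = 1 := by
      revert hψ
      generalize ψ z = x
      revert x; decide
    show (c • ψ) z = c
    simp [h1]
  have := sum_ind _ hs (0 : F2)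
  rw [card_dual] at this
  simpa using this

end dual

end Pool.Agent.R232.CR
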