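import Mathlib
import Pool.Agent.R232.CR1

/-!
# Partial spreads of lines in the dual of an `F2`-space: counting
-/

open Finset

namespace Pool.Agent.R232.CR

/-- the group `F2 × F2` -/
abbrev F22 := F2 × F2

section

variable {V T : Type} [AddCommGroup V] [Module F2 V] [Fintype V] [Fintype T]

/-- the functionals not covered by the lines -/
abbrev Bs (φ : T → V →ₗ[F2] F22) : Type :=
  {ψ : V →ₗ[F2] F2 // ψ ≠ 0 ∧ ∀ (t : T) (κ : F22 →ₗ[F2] F2), ψ ≠ κ ∘ₗ φ t}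

/-- a partial spread of lines in the dual of `V`: the functionals `κ ∘ φ t`, `κ ≠ 0`, are nonzero
and pairwise distinct -/
structure Spread (w : ℕ) (φ : T → V →ₗ[F2] F22) : Prop where
  cV : Fintype.card V = 16 * w
  cT : Fintype.card T + 2 = 4 * w
  h0 : ∀ (t : T) (κ : F22 →ₗ[F2] F2), κ ∘ₗ φ t = 0 → κ = 0
  hinj : ∀ (t t' : T) (κ κ' : F22 →ₗ[F2] F2), κ ≠ 0 → κ ∘ₗ φ t = κ' ∘ₗ φ t' → t = t'

variable {w : ℕ} {φ : T → V →ₗ[F2] F22}

theorem Spread.hinj' (h : Spread w φ) {t t' : T} {κ κ' : F22 →ₗ[F2] F2} (hκ : κ ≠ 0)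
    (he : κ ∘ₗ φ t = κ' ∘ₗ φ t') : t = t' ∧ κ = κ' := by
  have h1 := h.hinj t t' κ κ' hκ he
  subst h1
  refine ⟨rfl, ?_⟩
  have : (κ - κ') ∘ₗ φ t = 0 := by rw [LinearMap.sub_comp, he, sub_self]
  exact sub_eq_zero.1 (h.h0 t _ this)

theorem Spread.cVc (h : Spread w φ) : (Fintype.card V : ℂ) = 16 * w := by
  rw [h.cV]; push_cast; ring

theorem Spread.cTc (h : Spread w φ) : (Fintype.card T : ℂ) = 4 * w - 2 := by
  have := h.cT
  have h2 : (Fintype.card T : ℂ) + 2 = 4 * w := by exact_mod_cast this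
  linear_combination h2

theorem cF2 : (Fintype.card F2 : ℂ) = 2 := by
  rw [ZMod.card]; norm_num

theorem cF22 : (Fintype.card F22 : ℂ) = 4 := by
  rw [Fintype.card_prod, ZMod.card]; norm_num

theorem Spread.c1 (h : Spread w φ) (t : T) (c : F22) :
    (∑ z : V, if φ t z = c then (1 : ℂ) else 0) = 4 * w := by
  rw [sum_ind_lin (φ t) (h.h0 t) c, h.cVc, cF22]; ring

theorem Spread.c2 (h : Spread w φ) {t t' : T} (ht : t ≠ t') (c d : F22) :
    (∑ z : V, if φ t z = c ∧ φ t' z = d then (1 : ℂ) else 0) = w := by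
  rw [sum_ind_prod (φ t) (φ t') ?_ c d, h.cVc, cF22]
  · ring
  · intro κ κ' he
    by_cases hκ : κ = 0
    · subst hκ
      refine ⟨rfl, h.h0 t' κ' ?_⟩
      rw [← he]; rfl
    · exact absurd (h.hinj t t' κ κ' hκ he) ht

theorem nonzero_f2 {W : Type} [AddCommGroup W] [Module F2 W] (ψ : W →ₗ[F2] F2) (hψ : ψ ≠ 0) :
    ∀ κ : F2 →ₗ[F2] F2, κ ∘ₗ ψ = 0 → κ = 0 := by
  intro κ hκ
  rcases f2_smul κ with h | h
  · exact h
  · rw [h, LinearMap.id_comp] at hκ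
    exact absurd hκ hψ

theorem pair_f2 {W : Type} [AddCommGroup W] [Module F2 W] (ψ ψ' : W →ₗ[F2] F2) (hψ : ψ ≠ 0)
    (hψ' : ψ' ≠ 0) (hne : ψ ≠ ψ') :
    ∀ κ κ' : F2 →ₗ[F2] F2, κ ∘ₗ ψ = κ' ∘ₗ ψ' → κ = 0 ∧ κ' = 0 := by
  intro κ κ' hκ
  rcases f2_smul κ with h | h <;> rcases f2_smul κ' with h' | h'
  · exact ⟨h, h'⟩
  · rw [h, h', LinearMap.id_comp, LinearMap.zero_comp] at hκ
    exact absurd hκ.symm hψ'
  · rw [h, h', LinearMap.id_comp, LinearMap.zero_comp] at hκ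
    exact absurd hκ hψ
  · rw [h, h', LinearMap.id_comp, LinearMap.id_comp] at hκ
    exact absurd hκ hne

theorem c3 {W : Type} [AddCommGroup W] [Module F2 W] [Fintype W] (ψ : W →ₗ[F2] F2) (hψ : ψ ≠ 0)
    (c : F2) : (∑ z : W, if ψ z = c then (1 : ℂ) else 0) = (Fintype.card W : ℂ) / 2 := by
  rw [sum_ind_lin ψ (nonzero_f2 ψ hψ) c, cF2]

theorem c4 {W : Type} [AddCommGroup W] [Module F2 W] [Fintype W] (ψ ψ' : W →ₗ[F2] F2)
    (hψ : ψ ≠ 0) (hψ' : ψ' ≠ 0) (hne : ψ ≠ ψ') (c d : F2) :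
    (∑ z : W, if ψ z = c ∧ ψ' z = d then (1 : ℂ) else 0) = (Fintype.card W : ℂ) / 4 := by
  rw [sum_ind_prod ψ ψ' (pair_f2 ψ ψ' hψ hψ' hne) c d, cF2]
  norm_num

theorem Spread.c5 (h : Spread w φ) (t : T) (β : Bs φ) (c : F22) (d : F2) :
    (∑ z : V, if φ t z = c ∧ β.1 z = d then (1 : ℂ) else 0) = 2 * w := by
  rw [sum_ind_prod (φ t) β.1 ?_ c d, h.cVc, cF22, cF2]
  · ring
  · intro κ κ' he
    rcases f2_smul κ' with h' | h'
    · refine ⟨h.h0 t κ ?_, h'⟩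
      rw [he, h']; rfl
    · rw [h', LinearMap.id_comp] at he
      exact absurd he.symm (β.2.2 t κ)

/-- the number of lines contained in the hyperplane `z` -/
noncomputable def Fz (φ : T → V →ₗ[F2] F22) (z : V) : ℂ := ∑ t, if φ t z = 0 then (1 : ℂ) else 0

noncomputable instance (φ : T → V →ₗ[F2] F22) : Fintype (Bs φ) := Fintype.ofFinite _

noncomputable instance : Fintype {κ : F22 →ₗ[F2] F2 // κ ≠ 0} := Fintype.ofFinite _

theorem Spread.decomp (h : Spread w φ) (g : (V →ₗ[F2] F2) → ℂ) :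
    ∑ ψ, g ψ = g 0 + (∑ β : Bs φ, g β.1)
      + ∑ t : T, ∑ κ : {κ : F22 →ₗ[F2] F2 // κ ≠ 0}, g (κ.1 ∘ₗ φ t) := by
  classical
  let f : Option (Bs φ ⊕ (T × {κ : F22 →ₗ[F2] F2 // κ ≠ 0})) → (V →ₗ[F2] F2) := fun o =>
    match o with
    | none => 0
    | some (Sum.inl β) => β.1
    | some (Sum.inr (t, κ)) => κ.1 ∘ₗ φ t
  have hf : Function.Bijective f := by
    constructor
    · rintro (_ | β | ⟨t, κ⟩) (_ | β' | ⟨t', κ'⟩) he
      · rfl
      · exact absurd he.symm β'.2.1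
      · exact absurd (h.h0 _ _ he.symm) κ'.2
      · exact absurd he β.2.1
      · have : β = β' := Subtype.ext he
        rw [this]
      · exact absurd he (β.2.2 t' κ'.1)
      · exact absurd (h.h0 _ _ he) κ.2
      · exact absurd he.symm (β'.2.2 t κ.1)
      · obtain ⟨h1, h2⟩ := h.hinj' κ.2 he
        have h3 : κ = κ' := Subtype.ext h2
        rw [h1, h3]
    · intro ψ
      by_cases h0 : ψ = 0
      · exact ⟨none, h0.symm⟩
      by_cases h1 : ∀ t κ, ψ ≠ κ ∘ₗ φ t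
      · exact ⟨some (Sum.inl ⟨ψ, h0, h1⟩), rfl⟩
      · push Not at h1
        obtain ⟨t, κ, hκ⟩ := h1
        refine ⟨some (Sum.inr (t, ⟨κ, ?_⟩)), hκ.symm⟩
        rintro rfl
        exact h0 (by rw [hκ]; rfl)
  rw [← (Equiv.ofBijective f hf).sum_comp g, Fintype.sum_option, Fintype.sum_sum_type,
    Fintype.sum_prod_type, add_assoc]
  rfl

theorem sum_kap (c : F22) :
    (∑ κ : {κ : F22 →ₗ[F2] F2 // κ ≠ 0}, if κ.1 c = 0 then (1 : ℂ) else 0)
      = 1 + 2 * (if c = 0 then 1 else 0) := by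
  classical
  have h1 : (∑ κ : F22 →ₗ[F2] F2, if κ c = 0 then (1 : ℂ) else 0)
      = 1 + ∑ κ : {κ : F22 →ₗ[F2] F2 // κ ≠ 0}, if κ.1 c = 0 then (1 : ℂ) else 0 := by
    rw [← Finset.add_sum_erase univ _ (mem_univ (0 : F22 →ₗ[F2] F2))]
    have e1 : (if (0 : F22 →ₗ[F2] F2) c = 0 then (1 : ℂ) else 0) = 1 := by simp
    rw [e1, ← Finset.sum_subtype (univ.erase (0 : F22 →ₗ[F2] F2)) (fun x => by simp)
        (fun κ => if κ c = 0 then (1 : ℂ) else 0)]
  by_cases hc : c = 0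
  · subst hc
    have h2 : (∑ κ : F22 →ₗ[F2] F2, if κ (0 : F22) = 0 then (1 : ℂ) else 0) = 4 := by
      simp only [map_zero, if_true, Finset.sum_const, Finset.card_univ, nsmul_eq_mul, mul_one]
      rw [card_dual, cF22]
    rw [h2] at h1
    rw [if_pos rfl]
    linear_combination -h1
  · have h2 := sum_dual_zero hc
    rw [cF22] at h2
    rw [h2] at h1
    rw [if_neg hc]
    linear_combination -h1

theorem sum_kap_one : (∑ _κ : {κ : F22 →ₗ[F2] F2 // κ ≠ 0}, (1 : ℂ)) = 3 := by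
  have := sum_kap 0
  simp only [map_zero, if_true] at this
  rw [this]; norm_num

theorem Spread.cB (h : Spread w φ) : (∑ _β : Bs φ, (1 : ℂ)) = 4 * w + 5 := by
  have h1 := h.decomp (fun _ => 1)
  simp only [sum_kap_one] at h1
  simp only [Finset.sum_const, Finset.card_univ, nsmul_eq_mul, mul_one, card_dual, h.cVc,
    h.cTc] at h1 ⊢
  linear_combination -h1

theorem Spread.dz (h : Spread w φ) {z : V} (hz : z ≠ 0) :
    (∑ β : Bs φ, if β.1 z = 0 then (1 : ℂ) else 0) = 4 * w + 1 - 2 * Fz φ z := by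
  have h1 := h.decomp (fun ψ => if ψ z = 0 then (1 : ℂ) else 0)
  rw [sum_dual_zero hz] at h1
  simp only [LinearMap.zero_apply, if_true, LinearMap.comp_apply, sum_kap] at h1
  rw [Finset.sum_add_distrib, ← Finset.mul_sum, Finset.sum_const, Finset.card_univ, nsmul_eq_mul,
    h.cTc, h.cVc] at h1
  unfold Fz
  linear_combination -h1

theorem Spread.Fz_zero (h : Spread w φ) : Fz φ 0 = 4 * w - 2 := by
  unfold Fz
  simp only [map_zero, if_true, Finset.sum_const, Finset.card_univ, nsmul_eq_mul, mul_one]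
  exact h.cTc

end

end Pool.Agent.R232.CR
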