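import Mathlib
import Pool.Agent.R232.CR2

/-!
# The graph and the square of its adjacency matrix
-/

open Finset

namespace Pool.Agent.R232.CR

/-- indicator of a proposition -/
noncomputable def ind (p : Prop) : ℂ := @ite ℂ p (Classical.propDecidable p) 1 0

theorem ind_eq (p : Prop) [Decidable p] : ind p = if p then 1 else 0 := by
  unfold ind
  by_cases h : p <;> simp [h]

theorem ind_pos {p : Prop} (h : p) : ind p = 1 := by unfold ind; rw [if_pos h]

theorem ind_neg {p : Prop} (h : ¬p) : ind p = 0 := by unfold ind; rw [if_neg h]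

theorem ind_congr {p q : Prop} (h : p ↔ q) : ind p = ind q := by rw [propext h]

/-- product of two indicators -/
theorem ind_mul (p q : Prop) : ind p * ind q = ind (p ∧ q) := by
  by_cases hp : p <;> by_cases hq : q <;> simp [ind, hp, hq]

theorem toInd {ι : Type*} [Fintype ι] (p : ι → Prop) [DecidablePred p] :
    (∑ z, if p z then (1 : ℂ) else 0) = ∑ z, ind (p z) :=
  Finset.sum_congr rfl fun z _ => (ind_eq (p z)).symm

section

/-- nonzero functionals -/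
abbrev Ua (V2 : Type) [AddCommGroup V2] [Module F2 V2] : Type := {i : V2 →ₗ[F2] F2 // i ≠ 0}

noncomputable instance (V2 : Type) [AddCommGroup V2] [Module F2 V2] [Finite V2] :
    Fintype (Ua V2) := Fintype.ofFinite _

variable {V V2 T : Type} [AddCommGroup V] [Module F2 V] [Fintype V] [Fintype T]
  [AddCommGroup V2] [Module F2 V2] [Fintype V2]

/-- the vertices -/
abbrev Vtx (V2 : Type) [AddCommGroup V2] [Module F2 V2] (φ : T → V →ₗ[F2] F22) : Type :=
  (Ua V2 × V) ⊕ (Bs φ × V2)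

/-- the adjacency relation -/
def Rel (φ : T → V →ₗ[F2] F22) (τ : Ua V2 → Ua V2 → T) : Vtx V2 φ → Vtx V2 φ → Prop
  | Sum.inl x, Sum.inl y => x.1 ≠ y.1 ∧ φ (τ x.1 y.1) x.2 = φ (τ y.1 x.1) y.2
  | Sum.inl x, Sum.inr y => y.1.1 x.2 = x.1.1 y.2
  | Sum.inr x, Sum.inl y => x.1.1 y.2 = y.1.1 x.2
  | Sum.inr x, Sum.inr y => x.1 ≠ y.1

omit [Fintype V] [Fintype T] [Fintype V2] in
theorem Rel.symm {φ : T → V →ₗ[F2] F22} {τ : Ua V2 → Ua V2 → T} {x y : Vtx V2 φ}
    (h : Rel φ τ x y) : Rel φ τ y x := by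
  rcases x with x | x <;> rcases y with y | y
  · exact ⟨h.1.symm, h.2.symm⟩
  · exact h
  · exact h
  · exact Ne.symm h

/-- the graph -/
def Gr (φ : T → V →ₗ[F2] F22) (τ : Ua V2 → Ua V2 → T) : SimpleGraph (Vtx V2 φ) where
  Adj := Rel φ τ
  symm := ⟨fun _ _ h => Rel.symm h⟩
  loopless := ⟨by
    rintro (x | x) h
    · exact h.1 rfl
    · exact h rfl⟩

/-- its adjacency matrix -/
noncomputable def Am (φ : T → V →ₗ[F2] F22) (τ : Ua V2 → Ua V2 → T) :
    Matrix (Vtx V2 φ) (Vtx V2 φ) ℂ := fun x y => ind (Rel φ τ x y)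

/-- the weight vector -/
def uv (φ : T → V →ₗ[F2] F22) : Vtx V2 φ → ℂ
  | Sum.inl _ => 1
  | Sum.inr _ => 2

/-- the enumeration of the lines at every class -/
structure Enum (τ : Ua V2 → Ua V2 → T) : Prop where
  inj : ∀ i j k, j ≠ i → k ≠ i → j ≠ k → τ i j ≠ τ i k
  surj : ∀ i t, ∃ j, j ≠ i ∧ τ i j = t

theorem Enum.sum {τ : Ua V2 → Ua V2 → T} (hτ : Enum τ) (i : Ua V2) (F : T → ℂ) :
    (∑ j, ind (j ≠ i) * F (τ i j)) = ∑ t, F t := by
  classical
  have h : ∀ j, ind (j ≠ i) * F (τ i j) = if j ≠ i then F (τ i j) else 0 := by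
    intro j; by_cases h : j = i <;> simp [ind, h]
  simp only [h]
  rw [← Finset.sum_filter]
  refine Finset.sum_bij (fun j _ => τ i j) (fun _ _ => mem_univ _) ?_ ?_ (fun _ _ => rfl)
  · intro a ha b hb he
    by_contra hne
    exact hτ.inj i a b (by simpa using ha) (by simpa using hb) hne he
  · intro t _
    obtain ⟨j, h1, h2⟩ := hτ.surj i t
    exact ⟨j, by simpa using h1, h2⟩

theorem sum_ne {ι : Type} [Fintype ι] (i : ι) :
    (∑ l : ι, ind (l ≠ i)) = (∑ _l : ι, (1 : ℂ)) - 1 := by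
  classical
  have h : ∀ l : ι, ind (l ≠ i) = 1 - (if l = i then 1 else 0) := by
    intro l; by_cases h : l = i <;> simp [ind, h]
  simp only [h]
  rw [Finset.sum_sub_distrib, Finset.sum_ite_eq' univ i (fun _ => (1 : ℂ)), if_pos (mem_univ _)]

theorem sum_ne2 {ι : Type} [Fintype ι] {i j : ι} (hij : i ≠ j) :
    (∑ l : ι, ind (l ≠ i ∧ l ≠ j)) = (∑ _l : ι, (1 : ℂ)) - 2 := by
  classical
  have h : ∀ l : ι, ind (l ≠ i ∧ l ≠ j)
      = 1 - (if l = i then 1 else 0) - (if l = j then 1 else 0) := by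
    intro l
    by_cases h : l = i
    · subst h; simp [ind, hij]
    · by_cases h' : l = j
      · subst h'; simp [ind, h]
      · simp [ind, h, h']
  simp only [h]
  rw [Finset.sum_sub_distrib, Finset.sum_sub_distrib, Finset.sum_ite_eq' univ i (fun _ => (1 : ℂ)),
    if_pos (mem_univ _), Finset.sum_ite_eq' univ j (fun _ => (1 : ℂ)), if_pos (mem_univ _)]
  ring

variable {w : ℕ} {φ : T → V →ₗ[F2] F22} {τ : Ua V2 → Ua V2 → T}

theorem sum_Ua_one (h2 : Fintype.card V2 = 4 * w) : (∑ _l : Ua V2, (1 : ℂ)) = 4 * w - 1 := by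
  classical
  have h1 : (∑ _ψ : V2 →ₗ[F2] F2, (1 : ℂ)) = 1 + ∑ _l : Ua V2, (1 : ℂ) := by
    rw [← Finset.add_sum_erase univ _ (mem_univ (0 : V2 →ₗ[F2] F2))]
    rw [← Finset.sum_subtype (univ.erase (0 : V2 →ₗ[F2] F2)) (fun x => by simp)
        (fun _ => (1 : ℂ))]
  rw [Finset.sum_const, Finset.card_univ, card_dual, h2] at h1
  simp only [nsmul_eq_mul, mul_one] at h1
  push_cast at h1
  linear_combination -h1

theorem sum_Ua_zero (h2 : Fintype.card V2 = 4 * w) {z : V2} (hz : z ≠ 0) :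
    (∑ l : Ua V2, ind (l.1 z = 0)) = 2 * w - 1 := by
  classical
  have h1 : (∑ ψ : V2 →ₗ[F2] F2, if ψ z = 0 then (1 : ℂ) else 0)
      = 1 + ∑ l : Ua V2, ind (l.1 z = 0) := by
    rw [← Finset.add_sum_erase univ _ (mem_univ (0 : V2 →ₗ[F2] F2))]
    have e1 : (if (0 : V2 →ₗ[F2] F2) z = 0 then (1 : ℂ) else 0) = 1 := by simp
    rw [← toInd]
    rw [e1, ← Finset.sum_subtype (univ.erase (0 : V2 →ₗ[F2] F2)) (fun x => by simp)
        (fun ψ => if ψ z = 0 then (1 : ℂ) else 0)]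
  rw [sum_dual_zero hz, h2] at h1
  push_cast at h1
  linear_combination -h1

omit [AddCommGroup V2] [Module F2 V2] in
theorem cV2c (h2 : Fintype.card V2 = 4 * w) : (Fintype.card V2 : ℂ) = 4 * w := by
  rw [h2]; push_cast; ring

theorem Am_symm (x y : Vtx V2 φ) : Am φ τ x y = Am φ τ y x :=
  ind_congr ⟨Rel.symm, Rel.symm⟩

theorem Spread.d1 (h : Spread w φ) (t : T) (c : F22) : (∑ z : V, ind (φ t z = c)) = 4 * w := by
  rw [← toInd]; exact h.c1 t c

theorem Spread.d2 (h : Spread w φ) {t t' : T} (ht : t ≠ t') (c d : F22) :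
    (∑ z : V, ind (φ t z = c ∧ φ t' z = d)) = w := by
  rw [← toInd]; exact h.c2 ht c d

theorem d3 {W : Type} [AddCommGroup W] [Module F2 W] [Fintype W] (ψ : W →ₗ[F2] F2) (hψ : ψ ≠ 0)
    (c : F2) : (∑ z : W, ind (ψ z = c)) = (Fintype.card W : ℂ) / 2 := by
  rw [← toInd]; exact c3 ψ hψ c

theorem d4 {W : Type} [AddCommGroup W] [Module F2 W] [Fintype W] (ψ ψ' : W →ₗ[F2] F2)
    (hψ : ψ ≠ 0) (hψ' : ψ' ≠ 0) (hne : ψ ≠ ψ') (c d : F2) :
    (∑ z : W, ind (ψ z = c ∧ ψ' z = d)) = (Fintype.card W : ℂ) / 4 := by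
  rw [← toInd]; exact c4 ψ ψ' hψ hψ' hne c d

theorem Spread.d5 (h : Spread w φ) (t : T) (β : Bs φ) (c : F22) (d : F2) :
    (∑ z : V, ind (φ t z = c ∧ β.1 z = d)) = 2 * w := by
  rw [← toInd]; exact h.c5 t β c d

theorem Spread.dz' (h : Spread w φ) {z : V} (hz : z ≠ 0) :
    (∑ β : Bs φ, ind (β.1 z = 0)) = 4 * w + 1 - 2 * ∑ t, ind (φ t z = 0) := by
  rw [← toInd, ← toInd]; exact h.dz hz

theorem Spread.Fz' (h : Spread w φ) : ∑ t, ind (φ t 0 = 0) = 4 * w - 2 := by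
  rw [← toInd]; exact h.Fz_zero

theorem const_sum {ι : Type} [Fintype ι] (c : ℂ) : (∑ _l : ι, c) = (∑ _l : ι, (1 : ℂ)) * c := by
  rw [Finset.sum_mul]; simp

theorem sq_uu_ne (h : Spread w φ) (h2 : Fintype.card V2 = 4 * w) (hτ : Enum τ) {i j : Ua V2}
    (hij : i ≠ j) (v v' : V) :
    (Am φ τ * Am φ τ) (Sum.inl (i, v)) (Sum.inl (j, v')) = 2 * w * (4 * w + 1) := by
  rw [Matrix.mul_apply, Fintype.sum_sum_type, Fintype.sum_prod_type, Fintype.sum_prod_type]
  have e1 : ∀ l : Ua V2, (∑ z : V, Am φ τ (Sum.inl (i, v)) (Sum.inl (l, z))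
      * Am φ τ (Sum.inl (l, z)) (Sum.inl (j, v'))) = ind (l ≠ i ∧ l ≠ j) * w := by
    intro l
    unfold Am Rel
    simp only [ind_mul]
    by_cases hl : l ≠ i ∧ l ≠ j
    · rw [ind_pos hl, one_mul,
        ← h.d2 (hτ.inj l i j hl.1.symm hl.2.symm hij) (φ (τ i l) v) (φ (τ j l) v')]
      refine Finset.sum_congr rfl fun z _ => ind_congr ?_
      constructor
      · rintro ⟨⟨_, h1⟩, _, h2⟩; exact ⟨h1.symm, h2⟩
      · rintro ⟨h1, h2⟩; exact ⟨⟨hl.1.symm, h1.symm⟩, hl.2, h2⟩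
    · rw [ind_neg hl, zero_mul]
      refine Finset.sum_eq_zero fun z _ => ind_neg ?_
      rintro ⟨⟨h1, _⟩, h3, _⟩
      exact hl ⟨h1.symm, h3⟩
  have e2 : ∀ β : Bs φ, (∑ z : V2, Am φ τ (Sum.inl (i, v)) (Sum.inr (β, z))
      * Am φ τ (Sum.inr (β, z)) (Sum.inl (j, v'))) = w := by
    intro β
    unfold Am Rel
    simp only [ind_mul]
    have := d4 i.1 j.1 i.2 j.2 (fun he => hij (Subtype.ext he)) (β.1 v) (β.1 v')
    rw [cV2c h2] at this
    rw [show (w : ℂ) = 4 * w / 4 by ring, ← this]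
    refine Finset.sum_congr rfl fun z _ => ind_congr ?_
    constructor
    · rintro ⟨h1, h2⟩; exact ⟨h1.symm, h2.symm⟩
    · rintro ⟨h1, h2⟩; exact ⟨h1.symm, h2.symm⟩
  simp only [e1, e2]
  rw [← Finset.sum_mul, sum_ne2 hij, sum_Ua_one h2, const_sum (w : ℂ), h.cB]
  ring

theorem sq_uu_eq (h : Spread w φ) (h2 : Fintype.card V2 = 4 * w) (hτ : Enum τ) (i : Ua V2)
    (v v' : V) :
    (Am φ τ * Am φ τ) (Sum.inl (i, v)) (Sum.inl (i, v'))
      = ind (v = v') * (4 * w) ^ 2 + 2 * w * (4 * w + 1) := by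
  rw [Matrix.mul_apply, Fintype.sum_sum_type, Fintype.sum_prod_type, Fintype.sum_prod_type]
  have e1 : ∀ l : Ua V2, (∑ z : V, Am φ τ (Sum.inl (i, v)) (Sum.inl (l, z))
      * Am φ τ (Sum.inl (l, z)) (Sum.inl (i, v')))
      = ind (l ≠ i) * (ind (φ (τ i l) (v - v') = 0) * (4 * w)) := by
    intro l
    unfold Am Rel
    simp only [ind_mul]
    by_cases hl : l ≠ i
    · rw [ind_pos hl, one_mul]
      by_cases hv : φ (τ i l) (v - v') = 0
      · rw [ind_pos hv, one_mul, ← h.d1 (τ l i) (φ (τ i l) v)]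
        rw [map_sub, sub_eq_zero] at hv
        refine Finset.sum_congr rfl fun z _ => ind_congr ?_
        constructor
        · rintro ⟨⟨_, h1⟩, _⟩; exact h1.symm
        · intro h1; exact ⟨⟨hl.symm, h1.symm⟩, hl, by rw [h1, hv]⟩
      · rw [ind_neg hv, zero_mul]
        refine Finset.sum_eq_zero fun z _ => ind_neg ?_
        rintro ⟨⟨_, h1⟩, _, h3⟩
        exact hv (by rw [map_sub, h1, h3, sub_self])
    · rw [ind_neg hl, zero_mul]
      refine Finset.sum_eq_zero fun z _ => ind_neg ?_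
      rintro ⟨⟨h1, _⟩, h3, _⟩
      exact hl h3
  have e2 : ∀ β : Bs φ, (∑ z : V2, Am φ τ (Sum.inl (i, v)) (Sum.inr (β, z))
      * Am φ τ (Sum.inr (β, z)) (Sum.inl (i, v')))
      = ind (β.1 (v - v') = 0) * (2 * w) := by
    intro β
    unfold Am Rel
    simp only [ind_mul]
    by_cases hv : β.1 (v - v') = 0
    · have := d3 i.1 i.2 (β.1 v)
      rw [cV2c h2] at this
      rw [ind_pos hv, one_mul, show (2 * w : ℂ) = 4 * w / 2 by ring, ← this]
      rw [map_sub, sub_eq_zero] at hv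
      refine Finset.sum_congr rfl fun z _ => ind_congr ?_
      constructor
      · rintro ⟨h1, _⟩; exact h1.symm
      · intro h1; exact ⟨h1.symm, by rw [h1, hv]⟩
    · rw [ind_neg hv, zero_mul]
      refine Finset.sum_eq_zero fun z _ => ind_neg ?_
      rintro ⟨h1, h3⟩
      exact hv (by rw [map_sub, h1, h3, sub_self])
  simp only [e1, e2]
  rw [hτ.sum i (fun t => ind (φ t (v - v') = 0) * (4 * w)), ← Finset.sum_mul,
    ← Finset.sum_mul]
  by_cases hv : v = v'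
  · subst hv
    have e3 : (∑ β : Bs φ, ind (β.1 (v - v) = 0)) = ∑ _β : Bs φ, (1 : ℂ) :=
      Finset.sum_congr rfl fun β _ => ind_pos (by rw [sub_self, map_zero])
    rw [e3, h.cB, ind_pos rfl, sub_self, h.Fz']
    ring
  · rw [h.dz' (sub_ne_zero.2 hv), ind_neg hv]
    ring

theorem sq_uw (h : Spread w φ) (h2 : Fintype.card V2 = 4 * w) (i : Ua V2)
    (v : V) (β : Bs φ) (a : V2) :
    (Am φ τ * Am φ τ) (Sum.inl (i, v)) (Sum.inr (β, a)) = 4 * w * (4 * w + 1) := by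
  rw [Matrix.mul_apply, Fintype.sum_sum_type, Fintype.sum_prod_type, Fintype.sum_prod_type]
  have e1 : ∀ l : Ua V2, (∑ z : V, Am φ τ (Sum.inl (i, v)) (Sum.inl (l, z))
      * Am φ τ (Sum.inl (l, z)) (Sum.inr (β, a))) = ind (l ≠ i) * (2 * w) := by
    intro l
    unfold Am Rel
    simp only [ind_mul]
    by_cases hl : l ≠ i
    · rw [ind_pos hl, one_mul, ← h.d5 (τ l i) β (φ (τ i l) v) (l.1 a)]
      refine Finset.sum_congr rfl fun z _ => ind_congr ?_
      constructor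
      · rintro ⟨⟨_, h1⟩, h3⟩; exact ⟨h1.symm, h3⟩
      · rintro ⟨h1, h3⟩; exact ⟨⟨hl.symm, h1.symm⟩, h3⟩
    · rw [ind_neg hl, zero_mul]
      refine Finset.sum_eq_zero fun z _ => ind_neg ?_
      rintro ⟨⟨h1, _⟩, _⟩
      exact hl h1.symm
  have e2 : ∀ γ : Bs φ, (∑ z : V2, Am φ τ (Sum.inl (i, v)) (Sum.inr (γ, z))
      * Am φ τ (Sum.inr (γ, z)) (Sum.inr (β, a))) = ind (γ ≠ β) * (2 * w) := by
    intro γ
    unfold Am Rel
    simp only [ind_mul]
    by_cases hγ : γ ≠ β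
    · have := d3 i.1 i.2 (γ.1 v)
      rw [cV2c h2] at this
      rw [ind_pos hγ, one_mul, show (2 * w : ℂ) = 4 * w / 2 by ring, ← this]
      refine Finset.sum_congr rfl fun z _ => ind_congr ?_
      constructor
      · rintro ⟨h1, _⟩; exact h1.symm
      · intro h1; exact ⟨h1.symm, hγ⟩
    · rw [ind_neg hγ, zero_mul]
      refine Finset.sum_eq_zero fun z _ => ind_neg ?_
      rintro ⟨_, h3⟩
      exact hγ h3
  simp only [e1, e2]
  rw [← Finset.sum_mul, ← Finset.sum_mul, sum_ne, sum_ne, sum_Ua_one h2, h.cB]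
  ring

theorem sq_ww_ne (h : Spread w φ) (h2 : Fintype.card V2 = 4 * w) {β β' : Bs φ} (hβ : β ≠ β')
    (a b : V2) :
    (Am φ τ * Am φ τ) (Sum.inr (β, a)) (Sum.inr (β', b)) = 8 * w * (4 * w + 1) := by
  rw [Matrix.mul_apply, Fintype.sum_sum_type, Fintype.sum_prod_type, Fintype.sum_prod_type]
  have e1 : ∀ l : Ua V2, (∑ z : V, Am φ τ (Sum.inr (β, a)) (Sum.inl (l, z))
      * Am φ τ (Sum.inl (l, z)) (Sum.inr (β', b))) = 4 * w := by
    intro l
    unfold Am Rel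
    simp only [ind_mul]
    have := d4 β.1 β'.1 β.2.1 β'.2.1 (fun he => hβ (Subtype.ext he)) (l.1 a) (l.1 b)
    rw [h.cVc] at this
    rw [this]; ring
  have e2 : ∀ γ : Bs φ, (∑ z : V2, Am φ τ (Sum.inr (β, a)) (Sum.inr (γ, z))
      * Am φ τ (Sum.inr (γ, z)) (Sum.inr (β', b))) = ind (γ ≠ β ∧ γ ≠ β') * (4 * w) := by
    intro γ
    unfold Am Rel
    simp only [ind_mul]
    have : ∀ z : V2, ind (β ≠ γ ∧ γ ≠ β') = ind (γ ≠ β ∧ γ ≠ β') := fun _ =>
      ind_congr ⟨fun h => ⟨h.1.symm, h.2⟩, fun h => ⟨h.1.symm, h.2⟩⟩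
    rw [Finset.sum_congr rfl (fun z _ => this z), Finset.sum_const, Finset.card_univ, nsmul_eq_mul,
      cV2c h2, mul_comm]
  simp only [e1, e2]
  rw [const_sum (4 * w : ℂ), ← Finset.sum_mul, sum_ne2 hβ, h.cB, sum_Ua_one h2]
  ring

theorem sq_ww_eq (h : Spread w φ) (h2 : Fintype.card V2 = 4 * w) (β : Bs φ)
    (a b : V2) :
    (Am φ τ * Am φ τ) (Sum.inr (β, a)) (Sum.inr (β, b))
      = ind (a = b) * (4 * w) ^ 2 + 8 * w * (4 * w + 1) := by
  rw [Matrix.mul_apply, Fintype.sum_sum_type, Fintype.sum_prod_type, Fintype.sum_prod_type]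
  have e1 : ∀ l : Ua V2, (∑ z : V, Am φ τ (Sum.inr (β, a)) (Sum.inl (l, z))
      * Am φ τ (Sum.inl (l, z)) (Sum.inr (β, b)))
      = ind (l.1 (a - b) = 0) * (8 * w) := by
    intro l
    unfold Am Rel
    simp only [ind_mul]
    by_cases hv : l.1 (a - b) = 0
    · have := d3 β.1 β.2.1 (l.1 a)
      rw [h.cVc] at this
      rw [ind_pos hv, one_mul, show (8 * w : ℂ) = 16 * w / 2 by ring, ← this]
      rw [map_sub, sub_eq_zero] at hv
      refine Finset.sum_congr rfl fun z _ => ind_congr ?_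
      constructor
      · rintro ⟨h1, _⟩; exact h1
      · intro h1; exact ⟨h1, by rw [h1, hv]⟩
    · rw [ind_neg hv, zero_mul]
      refine Finset.sum_eq_zero fun z _ => ind_neg ?_
      rintro ⟨h1, h3⟩
      exact hv (by rw [map_sub, ← h1, ← h3, sub_self])
  have e2 : ∀ γ : Bs φ, (∑ z : V2, Am φ τ (Sum.inr (β, a)) (Sum.inr (γ, z))
      * Am φ τ (Sum.inr (γ, z)) (Sum.inr (β, b))) = ind (γ ≠ β) * (4 * w) := by
    intro γ
    unfold Am Rel
    simp only [ind_mul]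
    have : ∀ z : V2, ind (β ≠ γ ∧ γ ≠ β) = ind (γ ≠ β) := fun _ =>
      ind_congr ⟨fun h => h.2, fun h => ⟨h.symm, h⟩⟩
    rw [Finset.sum_congr rfl (fun z _ => this z), Finset.sum_const, Finset.card_univ, nsmul_eq_mul,
      cV2c h2, mul_comm]
  simp only [e1, e2]
  rw [← Finset.sum_mul, ← Finset.sum_mul, sum_ne, h.cB]
  by_cases hv : a = b
  · subst hv
    have e3 : (∑ l : Ua V2, ind (l.1 (a - a) = 0)) = ∑ _l : Ua V2, (1 : ℂ) :=
      Finset.sum_congr rfl fun l _ => ind_pos (by rw [sub_self, map_zero])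
    rw [e3, sum_Ua_one h2, ind_pos rfl]
    ring
  · rw [sum_Ua_zero h2 (sub_ne_zero.2 hv), ind_neg hv]
    ring

/-- **the square of the adjacency matrix** -/
theorem sq_eq (h : Spread w φ) (h2 : Fintype.card V2 = 4 * w)
    (hτ : Enum τ) (x y : Vtx V2 φ) :
    (Am φ τ * Am φ τ) x y
      = ind (x = y) * (4 * w) ^ 2 + 2 * w * (4 * w + 1) * (uv φ x * uv φ y) := by
  have hsymm : ∀ x y, (Am φ τ * Am φ τ) x y = (Am φ τ * Am φ τ) y x := by
    intro x y
    rw [Matrix.mul_apply, Matrix.mul_apply]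
    refine Finset.sum_congr rfl fun z _ => ?_
    rw [Am_symm x z, Am_symm z y, mul_comm]
  rcases x with ⟨i, v⟩ | ⟨β, a⟩ <;> rcases y with ⟨j, v'⟩ | ⟨β', b⟩
  · by_cases hij : i = j
    · subst hij
      rw [sq_uu_eq h h2 hτ, ind_congr (show (Sum.inl (i, v) : Vtx V2 φ) = Sum.inl (i, v') ↔ v = v'
        by simp)]
      simp only [uv]
      ring
    · rw [sq_uu_ne h h2 hτ hij, ind_neg (by simp [hij])]
      simp only [uv]
      ring
  · rw [sq_uw h h2, ind_neg (by simp)]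
    simp only [uv]
    ring
  · rw [hsymm, sq_uw h h2, ind_neg (by simp)]
    simp only [uv]
    ring
  · by_cases hβ : β = β'
    · subst hβ
      rw [sq_ww_eq h h2, ind_congr (show (Sum.inr (β, a) : Vtx V2 φ) = Sum.inr (β, b) ↔ a = b
        by simp)]
      simp only [uv]
      ring
    · rw [sq_ww_ne h h2 hβ, ind_neg (by simp [hβ])]
      simp only [uv]
      ring

/-- the weight vector is an eigenvector -/
theorem eigen_uv (h : Spread w φ) (h2 : Fintype.card V2 = 4 * w)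
    (x : Vtx V2 φ) : ∑ y, Am φ τ x y * uv φ y = 4 * w * (8 * w + 3) * uv φ x := by
  rw [Fintype.sum_sum_type, Fintype.sum_prod_type, Fintype.sum_prod_type]
  rcases x with ⟨i, v⟩ | ⟨β, a⟩
  · have e1 : ∀ l : Ua V2, (∑ z : V, Am φ τ (Sum.inl (i, v)) (Sum.inl (l, z))
        * uv φ (Sum.inl (l, z) : Vtx V2 φ)) = ind (l ≠ i) * (4 * w) := by
      intro l
      unfold Am Rel uv
      simp only [mul_one]
      by_cases hl : l ≠ i
      · rw [ind_pos hl, one_mul, ← h.d1 (τ l i) (φ (τ i l) v)]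
        refine Finset.sum_congr rfl fun z _ => ind_congr ?_
        constructor
        · rintro ⟨_, h1⟩; exact h1.symm
        · intro h1; exact ⟨hl.symm, h1.symm⟩
      · rw [ind_neg hl, zero_mul]
        refine Finset.sum_eq_zero fun z _ => ind_neg ?_
        rintro ⟨h1, _⟩
        exact hl (Ne.symm h1)
    have e2 : ∀ γ : Bs φ, (∑ z : V2, Am φ τ (Sum.inl (i, v)) (Sum.inr (γ, z))
        * uv φ (Sum.inr (γ, z) : Vtx V2 φ)) = 4 * w := by
      intro γ
      unfold Am Rel uv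
      rw [← Finset.sum_mul]
      have := d3 i.1 i.2 (γ.1 v)
      rw [cV2c h2] at this
      have e : ∀ z : V2, ind (γ.1 v = i.1 z) = ind (i.1 z = γ.1 v) := fun z =>
        ind_congr ⟨fun h1 => h1.symm, fun h1 => h1.symm⟩
      simp only [e]
      rw [this]; ring
    simp only [e1, e2]
    rw [← Finset.sum_mul, sum_ne, sum_Ua_one h2, const_sum (4 * w : ℂ), h.cB]
    simp only [uv]
    ring
  · have e1 : ∀ l : Ua V2, (∑ z : V, Am φ τ (Sum.inr (β, a)) (Sum.inl (l, z))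
        * uv φ (Sum.inl (l, z) : Vtx V2 φ)) = 8 * w := by
      intro l
      unfold Am Rel uv
      simp only [mul_one]
      have := d3 β.1 β.2.1 (l.1 a)
      rw [h.cVc] at this
      rw [this]; ring
    have e2 : ∀ γ : Bs φ, (∑ z : V2, Am φ τ (Sum.inr (β, a)) (Sum.inr (γ, z))
        * uv φ (Sum.inr (γ, z) : Vtx V2 φ)) = ind (γ ≠ β) * (8 * w) := by
      intro γ
      unfold Am Rel uv
      have : ∀ z : V2, ind (β ≠ γ) * 2 = ind (γ ≠ β) * 2 := fun _ => by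
        rw [ind_congr (show β ≠ γ ↔ γ ≠ β from ⟨Ne.symm, Ne.symm⟩)]
      rw [Finset.sum_congr rfl (fun z _ => this z), Finset.sum_const, Finset.card_univ,
        nsmul_eq_mul, cV2c h2]
      ring
    simp only [e1, e2]
    rw [const_sum (8 * w : ℂ), ← Finset.sum_mul, sum_ne, h.cB, sum_Ua_one h2]
    simp only [uv]
    ring

end

end Pool.Agent.R232.CR
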