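import Mathlib
import Pool.Agent.R232.CR3

/-!
# Spectrum, connectivity, coherent rank
-/

open Finset Matrix Polynomial

namespace Pool.Agent.R232.CR

section generic

variable {Q : Type} [Fintype Q] [DecidableEq Q]

theorem spec_three (A : Matrix Q Q ℂ) (u : Q → ℂ) (ρ κ m : ℂ)
    (hsq : ∀ x y, (A * A) x y = (if x = y then ρ ^ 2 else 0) + m * (u x * u y))
    (hu : ∀ x, ∑ y, A x y * u y = κ * u x) (hm : m ≠ 0) (hu0 : ∀ x, u x ≠ 0)
    (x0 y0 : Q) (hxy : x0 ≠ y0) (hA : A x0 y0 = 0) :
    spectrum ℂ A = {κ, ρ, -ρ} := by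
  have : Nonempty Q := ⟨x0⟩
  have hE : ∀ x y, (A * A - algebraMap ℂ (Matrix Q Q ℂ) (ρ ^ 2)) x y = m * (u x * u y) := by
    intro x y
    rw [Matrix.sub_apply, hsq, Matrix.algebraMap_matrix_apply]
    by_cases h : x = y <;> simp [h]
  have hP : (A - algebraMap ℂ (Matrix Q Q ℂ) κ) *
      (A * A - algebraMap ℂ (Matrix Q Q ℂ) (ρ ^ 2)) = 0 := by
    ext x y
    rw [Matrix.mul_apply]
    simp only [hE, Matrix.sub_apply, Matrix.algebraMap_matrix_apply, Matrix.zero_apply]
    have h1 : ∀ z, (A x z - if x = z then (algebraMap ℂ ℂ) κ else 0) * (m * (u z * u y))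
        = m * u y * (A x z * u z) - (if x = z then κ * (m * (u z * u y)) else 0) := by
      intro z
      by_cases h : x = z <;> simp [h] <;> ring
    simp only [h1]
    rw [Finset.sum_sub_distrib, ← Finset.mul_sum, hu, Finset.sum_ite_eq univ x, if_pos (mem_univ _)]
    ring
  have hPl : aeval A ((X - C κ) * ((X - C ρ) * (X + C ρ)) : ℂ[X]) = 0 := by
    have e : ((X - C κ) * ((X - C ρ) * (X + C ρ)) : ℂ[X]) = (X - C κ) * (X * X - C (ρ ^ 2)) := by
      rw [C_pow]; ring
    rw [e]
    simp only [map_mul, map_sub, aeval_X, aeval_C]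
    exact hP
  have hcomm : (X - C κ) * ((X - C ρ) * (X + C ρ)) = ((X - C ρ) * ((X - C κ) * (X + C ρ)) : ℂ[X]) := by
    ring
  have hcomm2 : (X - C κ) * ((X - C ρ) * (X + C ρ)) = ((X + C ρ) * ((X - C κ) * (X - C ρ)) : ℂ[X]) := by
    ring
  apply Set.Subset.antisymm
  · intro μ hμ
    have h1 : (eval μ ((X - C κ) * ((X - C ρ) * (X + C ρ)) : ℂ[X])) ∈ spectrum ℂ
        (aeval A ((X - C κ) * ((X - C ρ) * (X + C ρ)) : ℂ[X])) :=
      spectrum.subset_polynomial_aeval A _ ⟨μ, hμ, rfl⟩
    rw [hPl, spectrum.zero_eq, Set.mem_singleton_iff] at h1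
    simp only [eval_mul, eval_sub, eval_add, eval_X, eval_C, mul_eq_zero] at h1
    rcases h1 with h1 | h1 | h1
    · left; exact sub_eq_zero.1 h1
    · right; left; exact sub_eq_zero.1 h1
    · right; right; exact eq_neg_of_add_eq_zero_left h1
  · rintro μ (rfl | rfl | hμ)
    · -- κ
      rw [spectrum.mem_iff]
      intro hunit
      have h1 : (algebraMap ℂ (Matrix Q Q ℂ) μ - A) *ᵥ u = 0 := by
        ext x
        rw [Matrix.sub_mulVec]
        have h2 : (A *ᵥ u) x = μ * u x := hu x
        rw [Pi.sub_apply, h2, Matrix.algebraMap_eq_diagonal, Matrix.mulVec_diagonal]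
        simp
      obtain ⟨B, hB⟩ := hunit.exists_left_inv
      have h2 : u = 0 := by
        have : B *ᵥ ((algebraMap ℂ (Matrix Q Q ℂ) μ - A) *ᵥ u) = u := by
          rw [Matrix.mulVec_mulVec, hB, Matrix.one_mulVec]
        rw [← this, h1, Matrix.mulVec_zero]
      exact hu0 x0 (by rw [h2]; rfl)
    · -- ρ
      rw [spectrum.mem_iff]
      intro hunit
      rw [hcomm, map_mul] at hPl
      have h1 : IsUnit (aeval A (X - C μ : ℂ[X])) := by
        have e : aeval A (X - C μ : ℂ[X]) = -(algebraMap ℂ (Matrix Q Q ℂ) μ - A) := by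
          simp
        rw [e]; exact hunit.neg
      rw [h1.mul_right_eq_zero] at hPl
      have h2 := congrFun (congrFun hPl x0) y0
      have e : ((X - C κ) * (X + C μ) : ℂ[X]) = X * X + C (μ - κ) * X - C (κ * μ) := by
        rw [C_sub, C_mul]; ring
      rw [e] at h2
      simp only [map_mul, map_sub, map_add, aeval_X, aeval_C, Matrix.sub_apply, Matrix.add_apply,
        Matrix.zero_apply] at h2
      rw [hsq, if_neg hxy] at h2
      rw [← map_sub, ← map_mul, Matrix.algebraMap_matrix_apply, if_neg hxy,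
        ← Algebra.smul_def, Matrix.smul_apply, hA, smul_zero, zero_add, add_zero, sub_zero] at h2
      exact mul_ne_zero hm (mul_ne_zero (hu0 x0) (hu0 y0)) h2
    · -- -ρ
      rw [Set.mem_singleton_iff] at hμ
      subst hμ
      rw [spectrum.mem_iff]
      intro hunit
      rw [hcomm2, map_mul] at hPl
      have h1 : IsUnit (aeval A (X + C ρ : ℂ[X])) := by
        have e : aeval A (X + C ρ : ℂ[X]) = -(algebraMap ℂ (Matrix Q Q ℂ) (-ρ) - A) := by
          simp [add_comm]
        rw [e]; exact hunit.neg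
      rw [h1.mul_right_eq_zero] at hPl
      have h2 := congrFun (congrFun hPl x0) y0
      have e : ((X - C κ) * (X - C ρ) : ℂ[X]) = X * X - C (κ + ρ) * X + C (κ * ρ) := by
        rw [C_add, C_mul]; ring
      rw [e] at h2
      simp only [map_mul, map_sub, map_add, aeval_X, aeval_C, Matrix.sub_apply, Matrix.add_apply,
        Matrix.zero_apply] at h2
      rw [hsq, if_neg hxy] at h2
      rw [← map_add, ← map_mul, Matrix.algebraMap_matrix_apply, if_neg hxy,
        ← Algebra.smul_def, Matrix.smul_apply, hA, smul_zero, zero_add, add_zero, sub_zero] at h2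
      exact mul_ne_zero hm (mul_ne_zero (hu0 x0) (hu0 y0)) h2

/-- A coherent algebra on the finite set `Q`: a subalgebra of the full matrix algebra that contains
the all-ones matrix and is closed under transposition and under the entrywise product. -/
structure IsCoherentAlgebra (S : Subalgebra ℂ (Matrix Q Q ℂ)) : Prop where
  allOnes_mem : (Matrix.of fun _ _ => (1 : ℂ)) ∈ S
  transpose_mem : ∀ M ∈ S, Mᵀ ∈ S
  hadamard_mem : ∀ M ∈ S, ∀ N ∈ S, M ⊙ N ∈ S

/-- The coherent closure of a matrix: the intersection of all coherent algebras containing it. -/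
def coherentClosure (A : Matrix Q Q ℂ) : Subalgebra ℂ (Matrix Q Q ℂ) :=
  sInf {S | IsCoherentAlgebra S ∧ A ∈ S}

/-- The coherent closure is itself a coherent algebra. -/
theorem coherentClosure_isCoherent (A : Matrix Q Q ℂ) : IsCoherentAlgebra (coherentClosure A) where
  allOnes_mem := by
    rw [coherentClosure, Algebra.mem_sInf]
    rintro S ⟨hS, _⟩
    exact hS.allOnes_mem
  transpose_mem := by
    intro M hM
    rw [coherentClosure, Algebra.mem_sInf] at hM ⊢
    rintro S ⟨hS, hA⟩
    exact hS.transpose_mem M (hM S ⟨hS, hA⟩)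
  hadamard_mem := by
    intro M hM N hN
    rw [coherentClosure, Algebra.mem_sInf] at hM hN ⊢
    rintro S ⟨hS, hA⟩
    exact hS.hadamard_mem M (hM S ⟨hS, hA⟩) N (hN S ⟨hS, hA⟩)

theorem mem_coherentClosure (A : Matrix Q Q ℂ) : A ∈ coherentClosure A := by
  rw [coherentClosure, Algebra.mem_sInf]
  rintro S ⟨_, hA⟩
  exact hA

/-- entrywise powers -/
def hpow (M : Matrix Q Q ℂ) (k : ℕ) : Matrix Q Q ℂ := Matrix.of fun x y => M x y ^ k

theorem hpow_mem {S : Subalgebra ℂ (Matrix Q Q ℂ)} (hS : IsCoherentAlgebra S) {M : Matrix Q Q ℂ}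
    (hM : M ∈ S) (k : ℕ) : hpow M k ∈ S := by
  induction k with
  | zero =>
    have : hpow M 0 = Matrix.of fun _ _ => (1 : ℂ) := by ext x y; simp [hpow]
    rw [this]; exact hS.allOnes_mem
  | succ k ih =>
    have : hpow M (k + 1) = hpow M k ⊙ M := by ext x y; simp [hpow, pow_succ]
    rw [this]; exact hS.hadamard_mem _ ih _ hM

/-- a coherent algebra containing a matrix with `N` different entries has dimension at least `N` -/
theorem finrank_ge {S : Subalgebra ℂ (Matrix Q Q ℂ)} (hS : IsCoherentAlgebra S) {M : Matrix Q Q ℂ}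
    (hM : M ∈ S) (N : ℕ) (a b : Fin N → Q) (hinj : Function.Injective fun k => M (a k) (b k)) :
    N ≤ Module.finrank ℂ S := by
  have hli : LinearIndependent ℂ (fun k : Fin N => (⟨hpow M k, hpow_mem hS hM k⟩ : S)) := by
    rw [Fintype.linearIndependent_iff]
    intro g hg
    have h1 : ∑ k : Fin N, g k • hpow M k = 0 := by
      have := congrArg (Subtype.val) hg
      simpa using this
    have h2 : g = 0 := by
      refine Matrix.eq_zero_of_forall_index_sum_mul_pow_eq_zero hinj ?_
      intro j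
      have h3 := congrFun (congrFun h1 (a j)) (b j)
      rw [Matrix.sum_apply] at h3
      simpa [hpow] using h3
    intro k
    rw [h2]; rfl
  have := hli.fintype_card_le_finrank
  simpa using this

end generic

end Pool.Agent.R232.CR
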