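import Mathlib
import Pool.Agent.R232.CR4

/-!
# The main statement for a given partial spread
-/

open Finset Matrix

namespace Pool.Agent.R232.CR

variable {V V2 T : Type} [AddCommGroup V] [Module F2 V] [Fintype V] [Fintype T]
  [AddCommGroup V2] [Module F2 V2] [Fintype V2]
  {w : ℕ} {φ : T → V →ₗ[F2] F22} {τ : Ua V2 → Ua V2 → T}

theorem uv_ne (x : Vtx V2 φ) : uv φ x ≠ 0 := by
  rcases x with x | x <;> simp [uv]

theorem mul_pos' (hw : 1 ≤ w) : (2 * w * (4 * w + 1) : ℂ) ≠ 0 := by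
  have h1 : (2 * w * (4 * w + 1) : ℂ) = ((2 * w * (4 * w + 1) : ℕ) : ℂ) := by push_cast; ring
  rw [h1]
  have : 0 < 2 * w * (4 * w + 1) := by positivity
  exact_mod_cast this.ne'

theorem nonempty_Ua (hw : 1 ≤ w) (h2 : Fintype.card V2 = 4 * w) : Nonempty (Ua V2) := by
  by_contra hcon
  rw [not_nonempty_iff] at hcon
  have h1 := sum_Ua_one h2
  rw [Finset.univ_eq_empty, Finset.sum_empty] at h1
  have h3 : (4 * w : ℂ) = 1 := by linear_combination -h1
  have h4 : 4 * w = 1 := by exact_mod_cast h3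
  omega

theorem connected (h : Spread w φ) (h2 : Fintype.card V2 = 4 * w) (hτ : Enum τ) (hw : 1 ≤ w) :
    (Gr φ τ).Connected := by
  haveI : Nonempty (Vtx V2 φ) := by
    obtain ⟨i⟩ := nonempty_Ua hw h2
    exact ⟨Sum.inl (i, 0)⟩
  refine SimpleGraph.Connected.mk ?_
  intro x y
  by_cases hxy : x = y
  · rw [hxy]
  have h1 := sq_eq h h2 hτ x y
  rw [ind_neg hxy, zero_mul, zero_add] at h1
  have h3 : (Am φ τ * Am φ τ) x y ≠ 0 := by
    rw [h1]
    exact mul_ne_zero (mul_pos' hw) (mul_ne_zero (uv_ne x) (uv_ne y))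
  rw [Matrix.mul_apply] at h3
  obtain ⟨z, _, hz⟩ := Finset.exists_ne_zero_of_sum_ne_zero h3
  have hxz : (Gr φ τ).Adj x z := by
    by_contra hcon
    exact hz (by rw [show Am φ τ x z = 0 from ind_neg hcon, zero_mul])
  have hzy : (Gr φ τ).Adj z y := by
    by_contra hcon
    exact hz (by rw [show Am φ τ z y = 0 from ind_neg hcon, mul_zero])
  exact hxz.reachable.trans hzy.reachable

theorem adjMatrix_eq [DecidableRel (Gr φ τ).Adj] : (Gr φ τ).adjMatrix ℂ = Am φ τ := by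
  ext x y
  rw [SimpleGraph.adjMatrix_apply]
  exact (ind_eq ((Gr φ τ).Adj x y)).symm

theorem spectrum_eq [DecidableEq (Vtx V2 φ)] (h : Spread w φ) (h2 : Fintype.card V2 = 4 * w)
    (hτ : Enum τ) (hw : 1 ≤ w) :
    spectrum ℂ (Am φ τ) = {((4 * w * (8 * w + 3) : ℕ) : ℂ), ((4 * w : ℕ) : ℂ), -((4 * w : ℕ) : ℂ)} := by
  obtain ⟨i⟩ := nonempty_Ua hw h2
  have hnt : Nontrivial V := by
    rw [← Fintype.one_lt_card_iff_nontrivial, h.cV]; omega
  obtain ⟨v, v', hv⟩ := hnt
  refine spec_three (Am φ τ) (uv φ) _ _ (2 * w * (4 * w + 1)) ?_ ?_ (mul_pos' hw) uv_ne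
    (Sum.inl (i, v)) (Sum.inl (i, v')) (by simp [hv]) (ind_neg ?_)
  · intro x y
    rw [sq_eq h h2 hτ, ind_eq]
    push_cast
    by_cases hxy : x = y <;> simp [hxy]
  · intro x
    rw [eigen_uv h h2]
    push_cast; ring
  · rintro ⟨h1, _⟩
    exact h1 rfl

theorem spectrum_ncard [DecidableEq (Vtx V2 φ)] (h : Spread w φ) (h2 : Fintype.card V2 = 4 * w)
    (hτ : Enum τ) (hw : 1 ≤ w) : (spectrum ℂ (Am φ τ)).ncard = 3 := by
  rw [spectrum_eq h h2 hτ hw]
  have h4 : (((4 * w : ℕ) : ℂ)) ≠ -((4 * w : ℕ) : ℂ) := by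
    intro he
    have : (((4 * w + 4 * w : ℕ) : ℂ)) = 0 := by
      rw [Nat.cast_add]; nth_rewrite 1 [he]; ring
    have : 4 * w + 4 * w = 0 := by exact_mod_cast this
    omega
  have h5 : ((4 * w * (8 * w + 3) : ℕ) : ℂ) ≠ ((4 * w : ℕ) : ℂ) := by
    intro he
    have : 4 * w * (8 * w + 3) = 4 * w := by exact_mod_cast he
    nlinarith
  have h6 : ((4 * w * (8 * w + 3) : ℕ) : ℂ) ≠ -((4 * w : ℕ) : ℂ) := by
    intro he
    have : (((4 * w * (8 * w + 3) + 4 * w : ℕ) : ℂ)) = 0 := by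
      rw [Nat.cast_add, he]; ring
    have : 4 * w * (8 * w + 3) + 4 * w = 0 := by exact_mod_cast this
    nlinarith
  rw [Set.ncard_eq_three]
  exact ⟨_, _, _, h5, h6, h4, rfl⟩

/-- entries of the square of the `U`-part inside one class -/
theorem sum_in_class (h : Spread w φ) (hτ : Enum τ) (i : Ua V2) (v v' : V) :
    (∑ l : Ua V2, ∑ z : V, Am φ τ (Sum.inl (i, v)) (Sum.inl (l, z))
      * Am φ τ (Sum.inl (l, z)) (Sum.inl (i, v'))) = (∑ t, ind (φ t (v - v') = 0)) * (4 * w) := by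
  have e1 : ∀ l : Ua V2, (∑ z : V, Am φ τ (Sum.inl (i, v)) (Sum.inl (l, z))
      * Am φ τ (Sum.inl (l, z)) (Sum.inl (i, v')))
      = ind (l ≠ i) * (ind (φ (τ i l) (v - v') = 0) * (4 * w)) := by
    intro l
    unfold Am Rel
    simp only [ind_mul]
    by_cases hl : l ≠ i
    · rw [ind_pos hl, one_mul]
      by_cases hv : φ (τ i l) (v - v') = 0
      · rw [ind_pos hv, one_mul, ← h.d1 (τ l i) (φ (τ i l) v)]
        rw [map_sub, sub_eq_zero] at hv
        refine Finset.sum_congr rfl fun z _ => ind_congr ?_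
        constructor
        · rintro ⟨⟨_, h1⟩, _⟩; exact h1.symm
        · intro h1; exact ⟨⟨hl.symm, h1.symm⟩, hl, by rw [h1, hv]⟩
      · rw [ind_neg hv, zero_mul]
        refine Finset.sum_eq_zero fun z _ => ind_neg ?_
        rintro ⟨⟨_, h1⟩, _, h3⟩
        exact hv (by rw [map_sub, h1, h3, sub_self])
    · rw [ind_neg hl, zero_mul]
      refine Finset.sum_eq_zero fun z _ => ind_neg ?_
      rintro ⟨⟨h1, _⟩, h3, _⟩
      exact hl h3
  simp only [e1]
  rw [hτ.sum i (fun t => ind (φ t (v - v') = 0) * (4 * w)), ← Finset.sum_mul]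

/-- **lower bound for the coherent rank** -/
theorem rank_ge [DecidableEq (Vtx V2 φ)] (h : Spread w φ) (h2 : Fintype.card V2 = 4 * w)
    (hτ : Enum τ) (hw : 1 ≤ w) (N : ℕ) (v : Fin N → V)
    (hv : Function.Injective fun k => ∑ t, ind (φ t (v k) = 0)) :
    N ≤ Module.finrank ℂ (coherentClosure (Am φ τ)) := by
  set S := coherentClosure (Am φ τ) with hS
  have hSc : IsCoherentAlgebra S := coherentClosure_isCoherent _
  have hA : Am φ τ ∈ S := mem_coherentClosure _
  have hm := mul_pos' hw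
  -- the matrix `u uᵀ`
  have hE : (Matrix.of fun x y : Vtx V2 φ => uv φ x * uv φ y) ∈ S := by
    have e : (Matrix.of fun x y : Vtx V2 φ => uv φ x * uv φ y)
        = (2 * w * (4 * w + 1) : ℂ)⁻¹ • (Am φ τ * Am φ τ - algebraMap ℂ _ ((4 * w) ^ 2)) := by
      ext x y
      rw [Matrix.smul_apply, Matrix.sub_apply, sq_eq h h2 hτ, Matrix.algebraMap_matrix_apply,
        ind_eq, Matrix.of_apply]
      by_cases hxy : x = y
      · subst hxy
        simp only [if_true, one_mul, Algebra.algebraMap_self, RingHom.id_apply, add_sub_cancel_left,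
          smul_eq_mul]
        rw [inv_mul_cancel_left₀ hm]
      · simp only [hxy, if_false, zero_mul, zero_add, sub_zero, smul_eq_mul]
        rw [inv_mul_cancel_left₀ hm]
    rw [e]
    exact S.smul_mem (S.sub_mem (S.mul_mem hA hA) (S.algebraMap_mem _)) _
  have hJ := hSc.allOnes_mem
  -- the indicator of the `U`-block
  have hU : (Matrix.of fun x y : Vtx V2 φ => (uv φ x * uv φ y - 2) * (uv φ x * uv φ y - 4) / 3)
      ∈ S := by
    have e : (Matrix.of fun x y : Vtx V2 φ => (uv φ x * uv φ y - 2) * (uv φ x * uv φ y - 4) / 3)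
        = (3 : ℂ)⁻¹ • (((Matrix.of fun x y : Vtx V2 φ => uv φ x * uv φ y)
          - (2 : ℂ) • (Matrix.of fun _ _ => (1 : ℂ))) ⊙
          ((Matrix.of fun x y : Vtx V2 φ => uv φ x * uv φ y)
          - (4 : ℂ) • (Matrix.of fun _ _ => (1 : ℂ)))) := by
      ext x y
      simp only [Matrix.smul_apply, Matrix.sub_apply, Matrix.of_apply, Matrix.hadamard_apply,
        smul_eq_mul, mul_one]
      ring
    rw [e]
    exact S.smul_mem (hSc.hadamard_mem _ (S.sub_mem hE (S.smul_mem hJ _)) _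
      (S.sub_mem hE (S.smul_mem hJ _))) _
  have hB := hSc.hadamard_mem _ hA _ hU
  have hM := S.mul_mem hB hB
  obtain ⟨i⟩ := nonempty_Ua hw h2
  refine finrank_ge hSc hM N (fun k => Sum.inl (i, v k)) (fun _ => Sum.inl (i, 0)) ?_
  intro k k' hkk
  have key : ∀ k, (Am φ τ ⊙ (Matrix.of fun x y : Vtx V2 φ =>
      (uv φ x * uv φ y - 2) * (uv φ x * uv φ y - 4) / 3)
      * Am φ τ ⊙ (Matrix.of fun x y : Vtx V2 φ =>
      (uv φ x * uv φ y - 2) * (uv φ x * uv φ y - 4) / 3)) (Sum.inl (i, v k)) (Sum.inl (i, 0))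
      = (∑ t, ind (φ t (v k) = 0)) * (4 * w) := by
    intro k
    rw [Matrix.mul_apply, Fintype.sum_sum_type, Fintype.sum_prod_type, Fintype.sum_prod_type]
    have e2 : (∑ β : Bs φ, ∑ z : V2, (Am φ τ ⊙ (Matrix.of fun x y : Vtx V2 φ =>
      (uv φ x * uv φ y - 2) * (uv φ x * uv φ y - 4) / 3)) (Sum.inl (i, v k)) (Sum.inr (β, z))
      * (Am φ τ ⊙ (Matrix.of fun x y : Vtx V2 φ =>
      (uv φ x * uv φ y - 2) * (uv φ x * uv φ y - 4) / 3)) (Sum.inr (β, z)) (Sum.inl (i, 0))) = 0 := by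
      refine Finset.sum_eq_zero fun β _ => Finset.sum_eq_zero fun z _ => ?_
      simp [Matrix.hadamard_apply, uv]
    rw [e2, add_zero]
    have := sum_in_class h hτ i (v k) 0
    rw [sub_zero] at this
    rw [← this]
    refine Finset.sum_congr rfl fun l _ => Finset.sum_congr rfl fun z _ => ?_
    simp only [Matrix.hadamard_apply, Matrix.of_apply, uv]
    ring
  simp only [key] at hkk
  have hw' : (4 * w : ℂ) ≠ 0 := by
    have : 4 * w ≠ 0 := by omega
    exact_mod_cast this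
  exact hv (mul_right_cancel₀ hw' hkk)

end Pool.Agent.R232.CR
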