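import Mathlib
import Pool.Agent.R232.CR5

/-!
# Existence of the partial spreads
-/

open Finset Matrix

namespace Pool.Agent.R232.CR

section enum

variable {V V2 T : Type} [AddCommGroup V] [Module F2 V] [Fintype V] [Fintype T]
  [AddCommGroup V2] [Module F2 V2] [Fintype V2]
  {w : ℕ} {φ : T → V →ₗ[F2] F22}

theorem exists_enum (h : Spread w φ) (h2 : Fintype.card V2 = 4 * w) (_hw : 1 ≤ w) :
    ∃ τ : Ua V2 → Ua V2 → T, Enum τ := by
  classical
  have hT := h.cT
  have hU : Fintype.card (Ua V2) + 1 = 4 * w := by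
    have h1 := sum_Ua_one h2
    rw [Finset.sum_const, Finset.card_univ, nsmul_eq_mul, mul_one] at h1
    have h3 : ((Fintype.card (Ua V2) + 1 : ℕ) : ℂ) = ((4 * w : ℕ) : ℂ) := by
      push_cast; rw [h1]; ring
    exact_mod_cast h3
  have hne : Nonempty T := by
    rw [← Fintype.card_pos_iff]; omega
  have he : ∀ i : Ua V2, Nonempty ({j : Ua V2 // j ≠ i} ≃ T) := by
    intro i
    have h1 := Fintype.card_congr (Equiv.optionSubtypeNe i)
    rw [Fintype.card_option] at h1
    exact ⟨Fintype.equivOfCardEq (by omega)⟩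
  let e := fun i => (he i).some
  refine ⟨fun i j => if hj : j ≠ i then e i ⟨j, hj⟩ else Classical.arbitrary T, ?_, ?_⟩
  · intro i j k hj hk hjk
    simp only [dif_pos hj, dif_pos hk]
    intro hcon
    have := (e i).injective hcon
    exact hjk (congrArg Subtype.val this)
  · intro i t
    refine ⟨((e i).symm t).1, ((e i).symm t).2, ?_⟩
    simp only [dif_pos ((e i).symm t).2]
    exact (e i).apply_symm_apply t

theorem final {τ : Ua V2 → Ua V2 → T} (dQ : DecidableEq (Vtx V2 φ))
    (dR : DecidableRel (Gr φ τ).Adj) (h : Spread w φ)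
    (h2 : Fintype.card V2 = 4 * w) (hτ : Enum τ) (hw : 1 ≤ w) (N : ℕ) (v : Fin N → V)
    (hv : Function.Injective fun k => ∑ t, ind (φ t (v k) = 0)) :
    (Gr φ τ).Connected ∧ (spectrum ℂ ((Gr φ τ).adjMatrix ℂ)).ncard = 3 ∧
      N ≤ Module.finrank ℂ (coherentClosure ((Gr φ τ).adjMatrix ℂ)) := by
  rw [adjMatrix_eq]
  exact ⟨connected h h2 hτ hw, spectrum_ncard h h2 hτ hw, rank_ge h h2 hτ hw N v hv⟩

end enum

section construction

/-- the space of affine parameters -/
abbrev SS (n : ℕ) := (Fin n → F2) × (Fin n → F2)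

/-- the big space -/
abbrev VV (n : ℕ) := (F2 × F2) × SS n

/-- the removed parameters -/
def rr (n : ℕ) : Option (Option (Fin (n + 1))) → SS (n + 1)
  | none => (0, 0)
  | some none => (0, Pi.single 0 1)
  | some (some k) => (Pi.single k 1, 0)

/-- the index type of the lines -/
abbrev TT (n : ℕ) := {s : SS (n + 1) // s ∉ Set.range (rr n)} ⊕ Fin (n + 1)

/-- the line attached to an affine parameter -/
def phiS {n : ℕ} (s : SS n) : VV n →ₗ[F2] F22 where
  toFun v := (v.1.1 + s.1 ⬝ᵥ v.2.1 + s.2 ⬝ᵥ v.2.2, v.1.2 + s.2 ⬝ᵥ v.2.1 + (s.1 + s.2) ⬝ᵥ v.2.2)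
  map_add' v v' := by
    ext <;> simp only [Prod.fst_add, Prod.snd_add, dotProduct_add] <;> ring
  map_smul' c v := by
    ext <;> simp only [Prod.smul_fst, Prod.smul_snd, dotProduct_smul, RingHom.id_apply,
      smul_eq_mul] <;> ring

/-- the line attached to a coordinate -/
def phiK {n : ℕ} (k : Fin n) : VV n →ₗ[F2] F22 where
  toFun v := (v.2.1 k, v.2.2 k)
  map_add' _ _ := rfl
  map_smul' _ _ := rfl

/-- the lines -/
def ph (n : ℕ) : TT n → VV (n + 1) →ₗ[F2] F22
  | Sum.inl s => phiS s.1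
  | Sum.inr k => phiK k

theorem kap (κ : F22 →ₗ[F2] F2) (c : F22) : κ c = c.1 * κ (1, 0) + c.2 * κ (0, 1) := by
  have h : c = c.1 • (1, 0) + c.2 • (0, 1) := by ext <;> simp
  conv_lhs => rw [h]
  rw [map_add, map_smul, map_smul]
  rfl

theorem kap_zero {κ : F22 →ₗ[F2] F2} (h1 : κ (1, 0) = 0) (h2 : κ (0, 1) = 0) : κ = 0 := by
  ext
  · simpa using h1
  · simpa using h2

theorem phiS_1 {n : ℕ} (s : SS n) : phiS s ((1, 0), 0) = (1, 0) := by
  simp [phiS]

theorem phiS_2 {n : ℕ} (s : SS n) : phiS s ((0, 1), 0) = (0, 1) := by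
  simp [phiS]

theorem phiS_3 {n : ℕ} (s : SS n) (l : Fin n) :
    phiS s (0, (Pi.single l 1, 0)) = (s.1 l, s.2 l) := by
  simp [phiS]

theorem phiS_4 {n : ℕ} (s : SS n) (l : Fin n) :
    phiS s (0, (0, Pi.single l 1)) = (s.2 l, s.1 l + s.2 l) := by
  simp [phiS]

theorem phiK_1 {n : ℕ} (k : Fin n) (c : F2 × F2) : phiK k (c, 0) = (0, 0) := by
  simp [phiK]

theorem phiK_3 {n : ℕ} (k l : Fin n) :
    phiK k (0, (Pi.single l 1, 0)) = (if k = l then 1 else 0, 0) := by
  simp [phiK, Pi.single_apply]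

theorem phiK_4 {n : ℕ} (k l : Fin n) :
    phiK k (0, (0, Pi.single l 1)) = (0, if k = l then 1 else 0) := by
  simp [phiK, Pi.single_apply]

theorem f4_aux : ∀ a b s1 s2 t1 t2 : F2, ¬(a = 0 ∧ b = 0) → s1 * a + s2 * b = t1 * a + t2 * b →
    s2 * a + (s1 + s2) * b = t2 * a + (t1 + t2) * b → s1 = t1 ∧ s2 = t2 := by
  decide

theorem rr_inj (n : ℕ) : Function.Injective (rr n) := by
  have e1 : ∀ k : Fin (n + 1), (Pi.single k (1 : F2) : Fin (n + 1) → F2) ≠ 0 := by
    intro k h
    have := congrFun h k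
    simp at this
  rintro (_ | _ | k) (_ | _ | l) h
  · rfl
  · exact absurd (congrArg Prod.snd h).symm (e1 0)
  · exact absurd (congrArg Prod.fst h).symm (e1 l)
  · exact absurd (congrArg Prod.snd h) (e1 0)
  · rfl
  · exact absurd (congrArg Prod.fst h).symm (e1 l)
  · exact absurd (congrArg Prod.fst h) (e1 k)
  · exact absurd (congrArg Prod.fst h) (e1 k)
  · have h1 : (Pi.single k (1 : F2) : Fin (n + 1) → F2) = Pi.single l 1 := congrArg Prod.fst h
    have h2 := congrFun h1 k
    rw [Pi.single_eq_same, Pi.single_apply] at h2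
    by_cases hkl : k = l
    · rw [hkl]
    · rw [if_neg hkl] at h2
      exact absurd h2 one_ne_zero

open Classical in
noncomputable instance (n : ℕ) : Fintype {s : SS (n + 1) // s ∉ Set.range (rr n)} :=
  Fintype.ofFinite _

/-- sums over the affine parameters that are kept -/
theorem sum_keep {M : Type} [AddCommMonoid M] (n : ℕ) (g : SS (n + 1) → M) :
    (∑ o, g (rr n o)) + (∑ s : {s : SS (n + 1) // s ∉ Set.range (rr n)}, g s.1) = ∑ s, g s := by
  classical
  have h1 : (∑ o, g (rr n o)) = ∑ s ∈ univ.image (rr n), g s := by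
    rw [Finset.sum_image (fun a _ b _ h => rr_inj n h)]
  have h2 : (∑ s ∈ (univ.image (rr n))ᶜ, g s)
      = ∑ s : {s : SS (n + 1) // s ∉ Set.range (rr n)}, g s.1 :=
    Finset.sum_subtype _ (fun x => by simp) g
  rw [h1, ← h2, Finset.sum_add_sum_compl]

theorem card_keep (n : ℕ) :
    Fintype.card {s : SS (n + 1) // s ∉ Set.range (rr n)} + (n + 3) = 4 * 4 ^ n := by
  have h1 := sum_keep n (fun _ => 1)
  simp only [Finset.sum_const, Finset.card_univ, smul_eq_mul, mul_one, Fintype.card_option,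
    Fintype.card_fin, Fintype.card_prod, Fintype.card_fun, ZMod.card] at h1
  have h2 : 2 ^ (n + 1) * 2 ^ (n + 1) = 4 * 4 ^ n := by
    rw [← mul_pow, pow_succ]; norm_num; ring
  omega

theorem spread_ph (n : ℕ) : Spread (4 ^ n) (ph n) where
  cV := by
    simp only [Fintype.card_prod, Fintype.card_fun, ZMod.card, Fintype.card_fin]
    have h2 : 2 ^ (n + 1) * 2 ^ (n + 1) = 4 * 4 ^ n := by
      rw [← mul_pow, pow_succ]; norm_num; ring
    rw [h2]; ring
  cT := by
    rw [Fintype.card_sum, Fintype.card_fin]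
    have := card_keep n
    omega
  h0 := by
    rintro (s | k) κ h
    · refine kap_zero ?_ ?_
      · have := LinearMap.congr_fun h ((1, 0), 0)
        simpa [ph, phiS_1] using this
      · have := LinearMap.congr_fun h ((0, 1), 0)
        simpa [ph, phiS_2] using this
    · refine kap_zero ?_ ?_
      · have := LinearMap.congr_fun h (0, (Pi.single k 1, 0))
        simpa [ph, phiK_3] using this
      · have := LinearMap.congr_fun h (0, (0, Pi.single k 1))
        simpa [ph, phiK_4] using this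
  hinj := by
    rintro (s | k) (t | l) κ κ' hκ h
    · have h1 := LinearMap.congr_fun h ((1, 0), 0)
      have h2 := LinearMap.congr_fun h ((0, 1), 0)
      simp only [LinearMap.comp_apply, ph, phiS_1] at h1
      simp only [LinearMap.comp_apply, ph, phiS_2] at h2
      have hκ2 : ¬(κ (1, 0) = 0 ∧ κ (0, 1) = 0) := fun hh => hκ (kap_zero hh.1 hh.2)
      have key : ∀ m : Fin (n + 1), s.1.1 m = t.1.1 m ∧ s.1.2 m = t.1.2 m := by
        intro m
        have h3 := LinearMap.congr_fun h (0, (Pi.single m 1, 0))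
        have h4 := LinearMap.congr_fun h (0, (0, Pi.single m 1))
        simp only [LinearMap.comp_apply, ph, phiS_3] at h3
        simp only [LinearMap.comp_apply, ph, phiS_4] at h4
        rw [kap κ, kap κ', ← h1, ← h2] at h3
        rw [kap κ, kap κ', ← h1, ← h2] at h4
        exact f4_aux _ _ _ _ _ _ hκ2 h3 h4
      congr 1
      apply Subtype.ext
      ext m
      · exact (key m).1
      · exact (key m).2
    · exfalso
      have h1 := LinearMap.congr_fun h ((1, 0), 0)
      have h2 := LinearMap.congr_fun h ((0, 1), 0)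
      simp only [LinearMap.comp_apply, ph, phiS_1, phiK_1] at h1
      simp only [LinearMap.comp_apply, ph, phiS_2, phiK_1] at h2
      rw [show ((0, 0) : F22) = 0 from rfl, map_zero] at h1 h2
      exact hκ (kap_zero h1 h2)
    · exfalso
      have h1 := LinearMap.congr_fun h ((1, 0), 0)
      have h2 := LinearMap.congr_fun h ((0, 1), 0)
      simp only [LinearMap.comp_apply, ph, phiS_1, phiK_1] at h1
      simp only [LinearMap.comp_apply, ph, phiS_2, phiK_1] at h2
      rw [show ((0, 0) : F22) = 0 from rfl, map_zero] at h1 h2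
      have h3 : κ' = 0 := kap_zero h1.symm h2.symm
      subst h3
      have h4 := LinearMap.congr_fun h (0, (Pi.single k 1, 0))
      have h5 := LinearMap.congr_fun h (0, (0, Pi.single k 1))
      simp only [LinearMap.comp_apply, ph, phiK_3, if_true, LinearMap.zero_apply] at h4
      simp only [LinearMap.comp_apply, ph, phiK_4, if_true, LinearMap.zero_apply] at h5
      exact hκ (kap_zero h4 h5)
    · by_contra hne
      have hkl : k ≠ l := fun hh => hne (by rw [hh])
      have h4 := LinearMap.congr_fun h (0, (Pi.single k 1, 0))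
      have h5 := LinearMap.congr_fun h (0, (0, Pi.single k 1))
      simp only [LinearMap.comp_apply, ph, phiK_3, if_true, if_neg hkl.symm] at h4
      simp only [LinearMap.comp_apply, ph, phiK_4, if_true, if_neg hkl.symm] at h5
      rw [show ((0, 0) : F22) = 0 from rfl, map_zero] at h4 h5
      exact hκ (kap_zero h4 h5)

/-- the test vectors -/
def tv (n : ℕ) (j : Fin (n + 1)) : VV (n + 1) := ((1, 0), (fun l => if l ≤ j then 1 else 0, 0))

theorem tv_value (n : ℕ) (j : Fin (n + 1)) :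
    ∑ t, ind (ph n t (tv n j) = 0) = 4 ^ n + (n + 1) - 2 * ((j : ℕ) + 1) := by
  set χ : Fin (n + 1) → F2 := fun l => if l ≤ j then 1 else 0 with hχ
  have hS : ∀ s : SS (n + 1), phiS s (tv n j) = (1 + s.1 ⬝ᵥ χ, s.2 ⬝ᵥ χ) := by
    intro s; simp [phiS, tv, hχ]
  have hK : ∀ k : Fin (n + 1), phiK k (tv n j) = (χ k, 0) := by
    intro s; simp [phiK, tv, hχ]
  have hcount : (∑ k : Fin (n + 1), ind (χ k = 1)) = (j : ℕ) + 1 := by
    have e : ∀ k : Fin (n + 1), ind (χ k = 1) = if k ∈ Finset.Iic j then (1 : ℂ) else 0 := by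
      intro k
      rw [ind_eq]
      by_cases hk : k ≤ j <;> simp [hχ, hk]
    simp only [e]
    rw [Finset.sum_boole, Finset.filter_mem_eq_inter, Finset.univ_inter, Fin.card_Iic]
    push_cast; ring
  have hcount0 : (∑ k : Fin (n + 1), ind (χ k = 0)) = (n + 1) - ((j : ℕ) + 1) := by
    have e : ∀ k : Fin (n + 1), ind (χ k = 0) = 1 - ind (χ k = 1) := by
      intro k
      rw [ind_eq, ind_eq]
      by_cases hk : k ≤ j <;> simp [hχ, hk]
    simp only [e]
    rw [Finset.sum_sub_distrib, hcount]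
    simp
  -- all affine parameters
  have hall : (∑ s : SS (n + 1), ind (1 + s.1 ⬝ᵥ χ = 0 ∧ s.2 ⬝ᵥ χ = 0)) = 4 ^ n := by
    have hsur : Function.Surjective
        ({ toFun := fun s : SS (n + 1) => ((s.1 ⬝ᵥ χ, s.2 ⬝ᵥ χ) : F22)
           map_zero' := by simp
           map_add' := fun s t => by simp [add_dotProduct] } : SS (n + 1) →+ F22) := by
      rintro ⟨a, b⟩
      refine ⟨(Pi.single j a, Pi.single j b), ?_⟩
      show ((Pi.single j a ⬝ᵥ χ, Pi.single j b ⬝ᵥ χ) : F22) = (a, b)
      simp [hχ]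
    have h1 := sum_ind _ hsur (1, 0)
    have h2 : (Fintype.card (SS (n + 1)) : ℂ) = 4 * 4 ^ n := by
      have : Fintype.card (SS (n + 1)) = 4 * 4 ^ n := by
        simp only [Fintype.card_prod, Fintype.card_fun, ZMod.card, Fintype.card_fin]
        rw [← mul_pow, pow_succ]; norm_num; ring
      rw [this]; push_cast; ring
    rw [h2, cF22] at h1
    rw [show ((4 : ℂ) ^ n) = 4 * 4 ^ n / 4 by ring, ← h1, toInd]
    refine Finset.sum_congr rfl fun s _ => ind_congr ?_
    show _ ↔ ((s.1 ⬝ᵥ χ, s.2 ⬝ᵥ χ) : F22) = (1, 0)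
    rw [Prod.mk.injEq]
    constructor
    · rintro ⟨h3, h4⟩
      refine ⟨?_, h4⟩
      revert h3; generalize s.1 ⬝ᵥ χ = x; revert x; decide
    · rintro ⟨h3, h4⟩
      refine ⟨?_, h4⟩
      rw [h3]; decide
  have hrem : (∑ o, ind (1 + (rr n o).1 ⬝ᵥ χ = 0 ∧ (rr n o).2 ⬝ᵥ χ = 0)) = (j : ℕ) + 1 := by
    rw [Fintype.sum_option, Fintype.sum_option, ind_neg, ind_neg, zero_add, zero_add, ← hcount]
    · refine Finset.sum_congr rfl fun k _ => ind_congr ?_
      simp only [rr, single_dotProduct, one_mul, zero_dotProduct, and_true]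
      generalize χ k = x; revert x; decide
    · simp [rr]
    · simp [rr]
  have hk := sum_keep n (fun s => ind (1 + s.1 ⬝ᵥ χ = 0 ∧ s.2 ⬝ᵥ χ = 0))
  rw [hrem, hall] at hk
  rw [Fintype.sum_sum_type]
  have e1 : (∑ s : {s : SS (n + 1) // s ∉ Set.range (rr n)}, ind (ph n (Sum.inl s) (tv n j) = 0))
      = ∑ s : {s : SS (n + 1) // s ∉ Set.range (rr n)},
        ind (1 + s.1.1 ⬝ᵥ χ = 0 ∧ s.1.2 ⬝ᵥ χ = 0) := by
    refine Finset.sum_congr rfl fun s _ => ind_congr ?_
    simp only [ph, hS]
    rw [Prod.ext_iff]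
    rfl
  have e2 : (∑ k : Fin (n + 1), ind (ph n (Sum.inr k) (tv n j) = 0))
      = ∑ k : Fin (n + 1), ind (χ k = 0) := by
    refine Finset.sum_congr rfl fun k _ => ind_congr ?_
    simp only [ph, hK]
    rw [Prod.ext_iff]
    simp
  rw [e1, e2, hcount0]
  linear_combination hk

end construction

end Pool.Agent.R232.CR
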