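import Pool.Agent.R232.CW3c

/-!
# In dimension at least three every block walk eventually leaves every ball
-/

set_option autoImplicit false

open Finset MeasureTheory Filter
open R975.CW (Dir stepVec unif)

namespace Pool.Agent.R232.CW3

variable {d : ℕ}

lemma ex_l0 (L : ℕ → ℕ) (k : ℕ) : ∃ l, Nat.log 2 (L l) = Nat.log 2 (L k) := ⟨k, rfl⟩

/-- the first index with the dyadic class of `L k` -/
def l0 (L : ℕ → ℕ) (k : ℕ) : ℕ := Nat.find (ex_l0 L k)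

lemma l0_spec (L : ℕ → ℕ) (k : ℕ) : Nat.log 2 (L (l0 L k)) = Nat.log 2 (L k) := Nat.find_spec (ex_l0 L k)

lemma l0_le (L : ℕ → ℕ) (k : ℕ) : l0 L k ≤ k := Nat.find_min' (ex_l0 L k) rfl

lemma l0_min (L : ℕ → ℕ) (k l : ℕ) (h : l < l0 L k) : Nat.log 2 (L l) ≠ Nat.log 2 (L k) :=
  Nat.find_min (ex_l0 L k) h

lemma qr_inj (L : ℕ → ℕ) : Function.Injective (fun k => (qk L k, Hk L (l0 L k))) := by
  have key : ∀ k k', k < k' → (qk L k, Hk L (l0 L k)) ≠ (qk L k', Hk L (l0 L k')) := by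
    intro k k' hkk' heq
    rw [Prod.mk.injEq] at heq
    obtain ⟨h1, h2⟩ := heq
    by_cases hc : Nat.log 2 (L k) = Nat.log 2 (L k')
    · have : qk L k < qk L k' := by
        unfold qk
        apply card_lt_card
        rw [ssubset_iff_of_subset]
        · refine ⟨k, ?_, ?_⟩
          · rw [mem_filter, mem_range]
            exact ⟨hkk', hc⟩
          · rw [mem_filter, mem_range]
            rintro ⟨h3, _⟩
            exact lt_irrefl _ h3
        · intro l hl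
          rw [mem_filter, mem_range] at hl ⊢
          exact ⟨hl.1.trans hkk', hl.2.trans hc⟩
      omega
    · have hstrict : ∀ a b, l0 L a < l0 L b → Hk L (l0 L a) < Hk L (l0 L b) := by
        intro a b hab
        unfold Hk
        apply card_lt_card
        rw [ssubset_iff_of_subset (image_subset_image (range_mono hab.le))]
        refine ⟨Nat.log 2 (L a), ?_, ?_⟩
        · rw [mem_image]
          exact ⟨l0 L a, mem_range.mpr hab, l0_spec L a⟩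
        · rw [mem_image]
          rintro ⟨l, hl, hl2⟩
          exact l0_min L a l (mem_range.mp hl) hl2
      rcases lt_trichotomy (l0 L k) (l0 L k') with h | h | h
      · have := hstrict _ _ h
        omega
      · apply hc
        rw [← l0_spec L k, ← l0_spec L k', h]
      · have := hstrict _ _ h
        omega
  intro k k' heq
  by_contra hne
  rcases lt_or_gt_of_ne hne with h | h
  · exact key k k' h heq
  · exact key k' k h heq.symm

lemma sq_le_two_pow (M : ℕ) : (M + 1) ^ 2 ≤ 4 * 2 ^ M := by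
  induction M with
  | zero => norm_num
  | succ M ih =>
    rcases Nat.lt_or_ge M 2 with h | h
    · interval_cases M <;> norm_num
    · rw [pow_succ 2 M]
      nlinarith

lemma b1_le (d : ℕ) (hd : 1 ≤ d) (R q : ℕ) :
    (2 * (R : ℝ) + 3) ^ 3 * (3 * (1 / 2) ^ (q / (4 * d)) + (1 / √(((q / (4 * d) : ℕ) : ℝ) + 1)) ^ 3) ≤
      ((2 * (R : ℝ) + 3) ^ 3 * 13 * (4 * (d : ℝ)) ^ ((3 : ℝ) / 2)) * ((q : ℝ) + 1) ^ (-(3 : ℝ) / 2) := by
  have hd0 : (0 : ℝ) < d := by exact_mod_cast hd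
  set M := q / (4 * d) with hM
  have hM1 : (0 : ℝ) < (M : ℝ) + 1 := by positivity
  have h1 : (1 / √((M : ℝ) + 1)) ^ 3 = ((M : ℝ) + 1) ^ (-(3 : ℝ) / 2) := by
    rw [Real.sqrt_eq_rpow, one_div, ← Real.rpow_neg hM1.le, ← Real.rpow_natCast, ← Real.rpow_mul hM1.le]
    congr 1
    norm_num
  have h2 : ((1 : ℝ) / 2) ^ M ≤ 4 * ((M : ℝ) + 1) ^ (-(3 : ℝ) / 2) := by
    have h3 : ((M : ℝ) + 1) ^ 2 ≤ 4 * 2 ^ M := by exact_mod_cast sq_le_two_pow M
    have h4 : ((M : ℝ) + 1) ^ ((3 : ℝ) / 2) ≤ ((M : ℝ) + 1) ^ 2 := by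
      rw [← Real.rpow_natCast]
      exact Real.rpow_le_rpow_of_exponent_le (by linarith [(Nat.cast_nonneg M : (0 : ℝ) ≤ M)]) (by norm_num)
    have h5 : ((M : ℝ) + 1) ^ (-(3 : ℝ) / 2) = (((M : ℝ) + 1) ^ ((3 : ℝ) / 2))⁻¹ := by
      rw [← Real.rpow_neg hM1.le]
      congr 1
      norm_num
    rw [h5, one_div, inv_pow, ← div_eq_mul_inv, le_div_iff₀ (Real.rpow_pos_of_pos hM1 _)]
    have h6 : (0 : ℝ) < 2 ^ M := by positivity
    calc ((2 : ℝ) ^ M)⁻¹ * ((M : ℝ) + 1) ^ ((3 : ℝ) / 2) ≤ ((2 : ℝ) ^ M)⁻¹ * (4 * 2 ^ M) :=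
          mul_le_mul_of_nonneg_left (h4.trans h3) (by positivity)
      _ = 4 := by field_simp
  have h7 : ((M : ℝ) + 1) ^ (-(3 : ℝ) / 2) ≤ (4 * (d : ℝ)) ^ ((3 : ℝ) / 2) * ((q : ℝ) + 1) ^ (-(3 : ℝ) / 2) := by
    have hq : (0 : ℝ) < (q : ℝ) + 1 := by positivity
    have h8 : ((q : ℝ) + 1) / (4 * d) ≤ (M : ℝ) + 1 := by
      rw [div_le_iff₀ (by positivity)]
      have h9 : q < 4 * d * (M + 1) := Nat.lt_mul_div_succ q (by omega)
      have h10 : q + 1 ≤ 4 * d * (M + 1) := h9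
      have h11 : ((q : ℝ) + 1) ≤ 4 * d * ((M : ℝ) + 1) := by exact_mod_cast h10
      linarith
    have h9 : ((M : ℝ) + 1) ^ (-(3 : ℝ) / 2) ≤ (((q : ℝ) + 1) / (4 * d)) ^ (-(3 : ℝ) / 2) :=
      Real.rpow_le_rpow_of_nonpos (by positivity) h8 (by norm_num)
    refine h9.trans (le_of_eq ?_)
    rw [Real.div_rpow hq.le (by positivity), div_eq_mul_inv, ← Real.rpow_neg (by positivity), mul_comm]
    congr 2
    norm_num
  rw [h1]
  have h12 : 3 * ((1 : ℝ) / 2) ^ M + ((M : ℝ) + 1) ^ (-(3 : ℝ) / 2) ≤ 13 * ((M : ℝ) + 1) ^ (-(3 : ℝ) / 2) := by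
    linarith
  calc (2 * (R : ℝ) + 3) ^ 3 * (3 * (1 / 2) ^ M + ((M : ℝ) + 1) ^ (-(3 : ℝ) / 2))
      ≤ (2 * (R : ℝ) + 3) ^ 3 * (13 * ((4 * (d : ℝ)) ^ ((3 : ℝ) / 2) * ((q : ℝ) + 1) ^ (-(3 : ℝ) / 2))) := by
        refine mul_le_mul_of_nonneg_left ?_ (by positivity)
        linarith
    _ = _ := by ring

/-- **Deterministic block lengths, dimension at least three**: the block walk eventually leaves
every ball. -/
theorem block_transient (d : ℕ) [NeZero d] (hd : 3 ≤ d) (L : ℕ → ℕ) (hL : ∀ k, 1 ≤ L k) (R : ℕ) :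
    ∀ᵐ D ∂(Measure.infinitePi (fun _ : ℕ => unif d)), ∀ᶠ k in atTop, ∀ t : ℕ, t ≤ L k →
      ∃ i : Fin d, (R : ℤ) < |(X L k D + (t : ℤ) • stepVec (D k)) i| := by
  have hdpos : (0 : ℝ) < d := by exact_mod_cast (by omega : 0 < d)
  have hd1 : 0 < 1 - 1 / (d : ℝ) := by
    rw [sub_pos, div_lt_one hdpos]
    exact_mod_cast (by omega : 1 < d)
  have hd2 : 1 - 1 / (d : ℝ) < 1 := by
    have : 0 < 1 / (d : ℝ) := by positivity
    linarith
  obtain ⟨σ, hσ⟩ : ∃ σ : ℝ, σ = √(√(1 - 1 / (d : ℝ))) := ⟨_, rfl⟩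
  have hσ0 : 0 < σ := by rw [hσ]; positivity
  have hσ4 : σ ^ 4 = 1 - 1 / (d : ℝ) := by
    rw [hσ, show (4 : ℕ) = 2 * 2 by norm_num, pow_mul, Real.sq_sqrt (Real.sqrt_nonneg _), Real.sq_sqrt hd1.le]
  have hσ1 : σ < 1 := by
    by_contra hcon
    have h1 : 1 ≤ σ ^ 4 := one_le_pow₀ (not_lt.mp hcon)
    linarith
  set μ := Measure.infinitePi (fun _ : ℕ => unif d) with hμ
  obtain ⟨C1, hC1⟩ : ∃ C1 : ℝ, C1 = (2 * (R : ℝ) + 3) ^ 3 * 13 * (4 * (d : ℝ)) ^ ((3 : ℝ) / 2) := ⟨_, rfl⟩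
  have hC1pos : 0 < C1 := by rw [hC1]; positivity
  obtain ⟨C2, hC2⟩ : ∃ C2 : ℝ, C2 = 2 / σ ^ (6 * R) := ⟨_, rfl⟩
  have hC2pos : 0 < C2 := by rw [hC2]; positivity
  have hp1 : ∀ k, (μ (bad L R k)).toReal ≤ C1 * ((qk L k : ℝ) + 1) ^ (-(3 : ℝ) / 2) := by
    intro k
    have h1 := bad_le1 d hd L hL R k (qk L k / (4 * d)) (by
      rw [mul_comm]
      exact Nat.div_mul_le_self _ _)
    have h2 := b1_le d (by omega) R (qk L k)
    rw [← hC1] at h2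
    refine (ENNReal.toReal_mono ENNReal.ofReal_ne_top h1).trans ?_
    rw [ENNReal.toReal_ofReal (by positivity)]
    exact h2
  have hp2 : ∀ k, (μ (bad L R k)).toReal ≤ C2 * σ ^ (Hk L (l0 L k)) := by
    intro k
    obtain ⟨h, hh, h1⟩ := bad_le2 d hd L hL R k
    refine (ENNReal.toReal_mono ENNReal.ofReal_ne_top h1).trans ?_
    rw [ENNReal.toReal_ofReal (by positivity)]
    have h2 : Hk L (l0 L k) ≤ 6 * R + 4 * h := (Hk_mono L (l0_le L k)).trans hh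
    have h3 : σ ^ (6 * R + 4 * h) ≤ σ ^ (Hk L (l0 L k)) := pow_le_pow_of_le_one hσ0.le hσ1.le h2
    rw [pow_add, pow_mul σ 4 h, hσ4] at h3
    rw [hC2, div_mul_eq_mul_div, le_div_iff₀ (by positivity)]
    calc 2 * (1 - 1 / (d : ℝ)) ^ h * σ ^ (6 * R) = 2 * (σ ^ (6 * R) * (1 - 1 / (d : ℝ)) ^ h) := by ring
      _ ≤ 2 * σ ^ (Hk L (l0 L k)) := mul_le_mul_of_nonneg_left h3 (by norm_num)
  obtain ⟨τ, hτ⟩ : ∃ τ : ℝ, τ = σ ^ ((1 : ℝ) / 6) := ⟨_, rfl⟩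
  have hτ0 : 0 ≤ τ := by rw [hτ]; positivity
  have hτ1 : τ < 1 := by
    rw [hτ]
    exact Real.rpow_lt_one hσ0.le hσ1 (by norm_num)
  obtain ⟨C, hC⟩ : ∃ C : ℝ, C = C1 ^ ((5 : ℝ) / 6) * C2 ^ ((1 : ℝ) / 6) := ⟨_, rfl⟩
  have hp3 : ∀ k, (μ (bad L R k)).toReal ≤
      C * (((qk L k : ℝ) + 1) ^ (-(5 : ℝ) / 4) * τ ^ (Hk L (l0 L k))) := by
    intro k
    have hp0 : 0 ≤ (μ (bad L R k)).toReal := ENNReal.toReal_nonneg
    have hq : (0 : ℝ) < (qk L k : ℝ) + 1 := by positivity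
    have e1 : (μ (bad L R k)).toReal = (μ (bad L R k)).toReal ^ ((5 : ℝ) / 6) *
        (μ (bad L R k)).toReal ^ ((1 : ℝ) / 6) := by
      rcases hp0.lt_or_eq with h | h
      · rw [← Real.rpow_add h]
        norm_num
      · rw [← h, Real.zero_rpow (by norm_num), zero_mul]
    have e2 : (μ (bad L R k)).toReal ^ ((5 : ℝ) / 6) ≤
        C1 ^ ((5 : ℝ) / 6) * ((qk L k : ℝ) + 1) ^ (-(5 : ℝ) / 4) := by
      refine (Real.rpow_le_rpow hp0 (hp1 k) (by norm_num)).trans (le_of_eq ?_)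
      rw [Real.mul_rpow hC1pos.le (by positivity), ← Real.rpow_mul hq.le]
      congr 2
      norm_num
    have e3 : (μ (bad L R k)).toReal ^ ((1 : ℝ) / 6) ≤ C2 ^ ((1 : ℝ) / 6) * τ ^ (Hk L (l0 L k)) := by
      refine (Real.rpow_le_rpow hp0 (hp2 k) (by norm_num)).trans (le_of_eq ?_)
      rw [Real.mul_rpow hC2pos.le (by positivity), hτ, ← Real.rpow_natCast, ← Real.rpow_mul hσ0.le,
        ← Real.rpow_natCast (σ ^ ((1 : ℝ) / 6)), ← Real.rpow_mul hσ0.le]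
      congr 2
      ring
    rw [e1]
    calc (μ (bad L R k)).toReal ^ ((5 : ℝ) / 6) * (μ (bad L R k)).toReal ^ ((1 : ℝ) / 6)
        ≤ (C1 ^ ((5 : ℝ) / 6) * ((qk L k : ℝ) + 1) ^ (-(5 : ℝ) / 4)) * (C2 ^ ((1 : ℝ) / 6) * τ ^ (Hk L (l0 L k))) :=
          mul_le_mul e2 e3 (by positivity) (by positivity)
      _ = _ := by rw [hC]; ring
  -- summability
  have hsum : Summable fun k => C * (((qk L k : ℝ) + 1) ^ (-(5 : ℝ) / 4) * τ ^ (Hk L (l0 L k))) := by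
    have h1 : Summable fun q : ℕ => ((q : ℝ) + 1) ^ (-(5 : ℝ) / 4) := by
      have h2 : Summable fun q : ℕ => ((q + 1 : ℕ) : ℝ) ^ (-(5 : ℝ) / 4) :=
        (summable_nat_add_iff 1).mpr (Real.summable_nat_rpow.mpr (by norm_num))
      refine h2.congr fun q => ?_
      push_cast
      rfl
    have h2 : Summable fun r : ℕ => τ ^ r := summable_geometric_of_lt_one hτ0 hτ1
    have h3 : Summable fun x : ℕ × ℕ => ((x.1 : ℝ) + 1) ^ (-(5 : ℝ) / 4) * τ ^ x.2 :=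
      h1.mul_of_nonneg h2 (fun q => by positivity) (fun r => by positivity)
    exact (h3.comp_injective (qr_inj L)).mul_left C
  have hfin : ∑' k, μ (bad L R k) ≠ ⊤ := by
    have h1 : ∀ k, μ (bad L R k) ≤
        ENNReal.ofReal (C * (((qk L k : ℝ) + 1) ^ (-(5 : ℝ) / 4) * τ ^ (Hk L (l0 L k)))) := by
      intro k
      rw [← ENNReal.ofReal_toReal (measure_ne_top μ (bad L R k))]
      exact ENNReal.ofReal_le_ofReal (hp3 k)
    exact ne_top_of_le_ne_top hsum.tsum_ofReal_ne_top (ENNReal.tsum_le_tsum h1)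
  have hbc := ae_eventually_notMem hfin
  filter_upwards [hbc] with D hD
  filter_upwards [hD] with k hk
  intro t ht
  by_contra hcon
  push Not at hcon
  exact hk ⟨t, ht, hcon⟩

end Pool.Agent.R232.CW3
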