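import Mathlib

/-!
# Littlewood-Offord type counting lemmas
-/

set_option autoImplicit false

open Finset

namespace Pool.Agent.R232.CW3

/-- sign of a Boolean -/
def sg (b : Bool) : ℤ := if b then 1 else -1

lemma choose_mid_sq (n : ℕ) : (n + 1) * (n.choose (n / 2)) ^ 2 ≤ 4 ^ n := by
  have cb : ∀ m : ℕ, (2 * m + 1) * (m.centralBinom) ^ 2 ≤ 16 ^ m := by
    intro m
    induction m with
    | zero => simp
    | succ m ih =>
      have h1 := Nat.succ_mul_centralBinom_succ m
      -- (m+1) cb(m+1) = 2 (2m+1) cb m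
      have h2 : (m + 1) ^ 2 * ((2 * (m + 1) + 1) * (m + 1).centralBinom ^ 2) ≤ (m + 1) ^ 2 * 16 ^ (m + 1) := by
        calc (m + 1) ^ 2 * ((2 * (m + 1) + 1) * (m + 1).centralBinom ^ 2)
            = (2 * (m + 1) + 1) * ((m + 1) * (m + 1).centralBinom) ^ 2 := by ring
          _ = (2 * (m + 1) + 1) * (2 * (2 * m + 1) * m.centralBinom) ^ 2 := by rw [h1]
          _ = (4 * (2 * m + 3) * (2 * m + 1)) * ((2 * m + 1) * m.centralBinom ^ 2) := by ring
          _ ≤ (4 * (2 * m + 3) * (2 * m + 1)) * 16 ^ m := Nat.mul_le_mul_left _ ih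
          _ ≤ ((m + 1) ^ 2 * 16) * 16 ^ m := by
              apply Nat.mul_le_mul_right
              nlinarith
          _ = _ := by ring
      exact Nat.le_of_mul_le_mul_left h2 (by positivity)
  rcases Nat.even_or_odd' n with ⟨m, rfl | rfl⟩
  · rw [Nat.mul_div_cancel_left m (by norm_num)]
    have := cb m
    rw [pow_mul]
    norm_num
    exact this
  · have e1 : (2 * m + 1) / 2 = m := by omega
    rw [e1]
    have h := cb (m + 1)
    have e2 : (m + 1).centralBinom = 2 * (2 * m + 1).choose m := by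
      rw [Nat.centralBinom_eq_two_mul_choose, show 2 * (m + 1) = (2 * m + 1) + 1 by ring,
        Nat.choose_succ_succ, ← Nat.choose_symm_half m]
      ring
    rw [e2] at h
    have h3 : 4 * ((2 * m + 1 + 1) * (2 * m + 1).choose m ^ 2) ≤ 4 * 4 ^ (2 * m + 1) := by
      calc 4 * ((2 * m + 1 + 1) * (2 * m + 1).choose m ^ 2)
          ≤ 4 * ((2 * (m + 1) + 1) * (2 * m + 1).choose m ^ 2) := by
            apply Nat.mul_le_mul_left
            apply Nat.mul_le_mul_right
            omega
        _ = (2 * (m + 1) + 1) * (2 * (2 * m + 1).choose m) ^ 2 := by ring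
        _ ≤ 16 ^ (m + 1) := h
        _ = 4 * 4 ^ (2 * m + 1) := by
            rw [show (16 : ℕ) = 4 ^ 2 by norm_num, ← pow_mul]
            ring
    exact Nat.le_of_mul_le_mul_left h3 (by norm_num)

section LO

variable {ι : Type*} [Fintype ι] [DecidableEq ι]

/-- Erdos' form of the Littlewood-Offord lemma -/
lemma LO1 (w : ι → ℤ) (lam : ℤ) (hl : 0 < lam) (hw : ∀ i, lam ≤ w i) (x : ℤ) :
    #{e : ι → Bool | x ≤ ∑ i, sg (e i) * w i ∧ ∑ i, sg (e i) * w i < x + 2 * lam} ≤
      (Fintype.card ι).choose (Fintype.card ι / 2) := by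
  set A : Finset (ι → Bool) := {e : ι → Bool | x ≤ ∑ i, sg (e i) * w i ∧ ∑ i, sg (e i) * w i < x + 2 * lam}
    with hA
  let φ : (ι → Bool) → Finset ι := fun e => {i | e i = true}
  have hinj : Function.Injective φ := by
    intro e f hef
    funext i
    have h1 : i ∈ φ e ↔ i ∈ φ f := by rw [hef]
    simp only [φ, mem_filter, mem_univ, true_and] at h1
    cases h2 : e i <;> cases h3 : f i <;> simp_all
  have hcard : #A = #(A.image φ) := (card_image_of_injective A hinj).symm
  rw [hcard]
  refine IsAntichain.sperner ?_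
  intro S hS T hT hne hsub
  simp only [coe_image, Set.mem_image, mem_coe] at hS hT
  obtain ⟨e, he, rfl⟩ := hS
  obtain ⟨f, hf, rfl⟩ := hT
  rw [hA, mem_filter] at he hf
  have hsub' : ∀ i, e i = true → f i = true := by
    intro i hi
    have : i ∈ φ e := by simp [φ, hi]
    have := hsub this
    simpa [φ] using this
  obtain ⟨i0, hi0⟩ : ∃ i, e i ≠ f i := by
    by_contra hcon
    push Not at hcon
    exact hne (by rw [funext hcon])
  have he0 : e i0 = false := by
    cases h : e i0
    · rfl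
    · exact absurd (h.trans (hsub' i0 h).symm) hi0
  have hf0 : f i0 = true := by
    cases h : f i0
    · exact absurd (he0.trans h.symm) hi0
    · rfl
  have h1 : 2 * lam ≤ ∑ i, (sg (f i) * w i - sg (e i) * w i) := by
    have h2 : ∀ i ∈ (univ : Finset ι), 0 ≤ sg (f i) * w i - sg (e i) * w i := by
      intro i _
      have hwi := hw i
      cases h3 : e i
      · cases h4 : f i <;> simp [sg] <;> linarith
      · rw [hsub' i h3]
        simp
    have h3 := single_le_sum h2 (mem_univ i0)
    have hwi := hw i0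
    have h4 : sg (f i0) * w i0 - sg (e i0) * w i0 = 2 * w i0 := by
      rw [he0, hf0]
      simp [sg]
      ring
    rw [h4] at h3
    linarith
  rw [sum_sub_distrib] at h1
  linarith [he.2.1, hf.2.2]

lemma LO2 (w : ι → ℤ) (lam : ℤ) (hl : 0 < lam) (hw : ∀ i, lam ≤ w i) (K : ℕ) (b : ℤ) :
    #{e : ι → Bool | |b + ∑ i, sg (e i) * w i| ≤ K * lam} ≤
      (K + 1) * (Fintype.card ι).choose (Fintype.card ι / 2) := by
  have hsub : ({e : ι → Bool | |b + ∑ i, sg (e i) * w i| ≤ K * lam} : Finset (ι → Bool)) ⊆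
      (range (K + 1)).biUnion fun m => {e : ι → Bool | (-b - K * lam + 2 * lam * m) ≤ ∑ i, sg (e i) * w i ∧
        ∑ i, sg (e i) * w i < (-b - K * lam + 2 * lam * m) + 2 * lam} := by
    intro e he
    simp only [mem_filter, mem_univ, true_and, mem_biUnion, mem_range] at he ⊢
    rw [abs_le] at he
    obtain ⟨h1, h2⟩ := he
    set y := ∑ i, sg (e i) * w i
    -- m = floor((y + b + K lam) / (2 lam))
    have h3 : 0 ≤ (y + b + K * lam) / (2 * lam) := Int.ediv_nonneg (by linarith) (by linarith)
    have h4 : (y + b + K * lam) / (2 * lam) ≤ K := by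
      apply Int.ediv_le_of_le_mul (by linarith)
      nlinarith
    obtain ⟨m, hm⟩ := Int.eq_ofNat_of_zero_le h3
    have h5 := Int.mul_ediv_add_emod (y + b + K * lam) (2 * lam)
    have h6 := Int.emod_nonneg (y + b + K * lam) (by linarith : (2 * lam) ≠ 0)
    have h7 := Int.emod_lt_of_pos (y + b + K * lam) (by linarith : 0 < 2 * lam)
    refine ⟨m, ?_, ?_, ?_⟩
    · rw [hm] at h4
      have : m ≤ K := by exact_mod_cast h4
      omega
    · rw [hm] at h5
      linarith
    · rw [hm] at h5
      linarith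
  refine (card_le_card hsub).trans (card_biUnion_le.trans ?_)
  refine (sum_le_sum fun m _ => LO1 w lam hl hw _).trans ?_
  rw [sum_const, card_range, smul_eq_mul]

end LO

section three

variable {κ : Type*} [Fintype κ] [DecidableEq κ] {d : ℕ}

/-- the number of steps of `Q` with a given axis -/
def Nax (Q : Finset κ) (a : κ → Fin d) (c : Fin d) : ℕ := #{l ∈ Q | a l = c}

lemma sum_Nax (Q : Finset κ) (a : κ → Fin d) (j : Fin 3 → Fin d) (hj : Function.Injective j) :
    #({l ∈ Q | ∃ m, a l = j m} : Finset κ) = ∑ m, Nax Q a (j m) := by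
  classical
  have h1 : ({l ∈ Q | ∃ m, a l = j m} : Finset κ) = univ.biUnion fun m : Fin 3 => {l ∈ Q | a l = j m} := by
    ext l
    simp only [mem_filter, mem_biUnion, mem_univ, true_and]
    constructor
    · rintro ⟨h2, m, h3⟩
      exact ⟨m, h2, h3⟩
    · rintro ⟨m, h2, h3⟩
      exact ⟨h2, m, h3⟩
  rw [h1, card_biUnion]
  · rfl
  · intro m _ m' _ hne
    refine disjoint_left.mpr ?_
    intro l hl1 hl2
    simp only [mem_filter] at hl1 hl2
    exact hne (hj (hl1.2.symm.trans hl2.2))

lemma three_count (L : κ → ℤ) (lam : ℤ) (hl : 0 < lam) (Q : Finset κ) (hQ : ∀ l ∈ Q, lam ≤ L l)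
    (a : κ → Fin d) (j : Fin 3 → Fin d) (hj : Function.Injective j) (K : ℕ) :
    #{e : κ → Bool | ∀ m, |∑ l, (if a l = j m then sg (e l) * L l else 0)| ≤ K * lam} ≤
      (∏ m, ((K + 1) * (Nax Q a (j m)).choose (Nax Q a (j m) / 2))) *
        2 ^ (Fintype.card κ - ∑ m, Nax Q a (j m)) := by
  classical
  set E : Finset (κ → Bool) :=
    {e : κ → Bool | ∀ m, |∑ l, (if a l = j m then sg (e l) * L l else 0)| ≤ K * lam} with hE
  -- the steps of `Q` with one of the three axes
  let S : Finset κ := {l ∈ Q | ∃ m, a l = j m}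
  have hS : #S = ∑ m, Nax Q a (j m) := sum_Nax Q a j hj
  let r : (κ → Bool) → ({l : κ // l ∉ S} → Bool) := fun e l => e l
  have himg : #(E.image r) ≤ 2 ^ (Fintype.card κ - ∑ m, Nax Q a (j m)) := by
    refine (card_le_univ _).trans (le_of_eq ?_)
    rw [Fintype.card_fun, Fintype.card_bool, Fintype.card_subtype_compl, Fintype.card_coe, hS]
  refine (card_le_mul_card_image (f := r) E
    (∏ m, ((K + 1) * (Nax Q a (j m)).choose (Nax Q a (j m) / 2))) ?_).trans (Nat.mul_le_mul_left _ himg)
  intro g hg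
  rw [mem_image] at hg
  obtain ⟨e0, he0, rfl⟩ := hg
  let T : Fin 3 → Type _ := fun m => {l : κ // l ∈ Q ∧ a l = j m}
  let b : Fin 3 → ℤ := fun m => ∑ l : {l : κ // ¬ (l ∈ Q ∧ a l = j m)},
    (if a l = j m then sg (e0 l) * L l else 0)
  let F : (m : Fin 3) → Finset (T m → Bool) := fun m =>
    {f : T m → Bool | |b m + ∑ l, sg (f l) * L l| ≤ K * lam}
  have hT : ∀ m, Fintype.card (T m) = Nax Q a (j m) := by
    intro m
    rw [Fintype.card_subtype]
    unfold Nax
    congr 1
    ext l
    simp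
  have hF : ∀ m, #(F m) ≤ (K + 1) * (Nax Q a (j m)).choose (Nax Q a (j m) / 2) := by
    intro m
    have h1 := LO2 (ι := T m) (fun l => L l) lam hl (fun l => hQ l l.2.1) K (b m)
    rw [hT m] at h1
    exact h1
  have hprod : #(Fintype.piFinset F) ≤ ∏ m, ((K + 1) * (Nax Q a (j m)).choose (Nax Q a (j m) / 2)) := by
    rw [Fintype.card_piFinset]
    exact prod_le_prod' fun m _ => hF m
  refine le_trans ?_ hprod
  refine card_le_card_of_injOn (fun e => fun m => fun l : T m => e l) ?_ ?_
  · intro e he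
    replace he := mem_filter.mp (mem_coe.mp he)
    rw [mem_coe, Fintype.mem_piFinset]
    intro m
    refine mem_filter.mpr ⟨mem_univ _, ?_⟩
    have h1 := (mem_filter.mp he.1).2 m
    have h2 := Fintype.sum_subtype_add_sum_subtype (fun l => l ∈ Q ∧ a l = j m)
      (fun l => if a l = j m then sg (e l) * L l else 0)
    rw [← h2] at h1
    have h3 : ∑ l : {l : κ // l ∈ Q ∧ a l = j m}, (if a (l : κ) = j m then sg (e l) * L l else 0) =
        ∑ l : T m, sg (e l) * L l := by
      refine sum_congr rfl fun l _ => ?_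
      rw [if_pos l.2.2]
    have h4 : ∑ l : {l : κ // ¬ (l ∈ Q ∧ a l = j m)}, (if a (l : κ) = j m then sg (e l) * L l else 0) = b m := by
      refine sum_congr rfl fun l _ => ?_
      by_cases h5 : a (l : κ) = j m
      · rw [if_pos h5, if_pos h5]
        have h6 : (l : κ) ∉ S := by
          intro h7
          have h8 := (mem_filter.mp h7).1
          exact l.2 ⟨h8, h5⟩
        have h7 := congrFun he.2 ⟨l, h6⟩
        simp only [r] at h7
        rw [h7]
      · rw [if_neg h5, if_neg h5]
    rw [h3, h4, add_comm] at h1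
    exact h1
  · intro e he f hf hef
    replace he := mem_filter.mp (mem_coe.mp he)
    replace hf := mem_filter.mp (mem_coe.mp hf)
    funext l
    by_cases h1 : l ∈ S
    · obtain ⟨h2, m, h3⟩ := mem_filter.mp h1
      exact congrFun (congrFun hef m) ⟨l, h2, h3⟩
    · have h2 := congrFun (he.2.trans hf.2.symm) ⟨l, h1⟩
      exact h2

end three

end Pool.Agent.R232.CW3
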