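import Pool.Agent.R232.CW3a

/-!
# Counting bounds for the conservative walk
-/

set_option autoImplicit false

open Finset

namespace Pool.Agent.R232.CW3

section avg

variable {κ : Type*} [Fintype κ] [DecidableEq κ] {d : ℕ}

lemma three_real (L : κ → ℤ) (lam : ℤ) (hl : 0 < lam) (Q : Finset κ) (hQ : ∀ l ∈ Q, lam ≤ L l)
    (a : κ → Fin d) (j : Fin 3 → Fin d) (hj : Function.Injective j) (K : ℕ) :
    (#{e : κ → Bool | ∀ m, |∑ l, (if a l = j m then sg (e l) * L l else 0)| ≤ K * lam} : ℝ) ≤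
      2 ^ (Fintype.card κ) * (((K : ℝ) + 1) ^ 3 * ∏ m, (1 / √((Nax Q a (j m) : ℝ) + 1))) := by
  have h := three_count L lam hl Q hQ a j hj K
  have hle : ∑ m, Nax Q a (j m) ≤ Fintype.card κ := by
    rw [← sum_Nax Q a j hj]
    exact card_le_univ _
  have hc : ∀ n : ℕ, (n.choose (n / 2) : ℝ) ≤ 2 ^ n * (1 / √((n : ℝ) + 1)) := by
    intro n
    have h1 := choose_mid_sq n
    have h2 : ((n : ℝ) + 1) * (n.choose (n / 2) : ℝ) ^ 2 ≤ 4 ^ n := by exact_mod_cast h1
    have hs : 0 < √((n : ℝ) + 1) := Real.sqrt_pos.mpr (by positivity)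
    rw [mul_one_div, le_div_iff₀ hs]
    refine le_of_sq_le_sq ?_ (by positivity) |> fun h => h
    rw [mul_pow, Real.sq_sqrt (by positivity), ← pow_mul, mul_comm n 2, pow_mul]
    norm_num
    linarith
  have h3 : (#{e : κ → Bool | ∀ m, |∑ l, (if a l = j m then sg (e l) * L l else 0)| ≤ K * lam} : ℝ) ≤
      (∏ m, (((K : ℝ) + 1) * ((Nax Q a (j m)).choose (Nax Q a (j m) / 2) : ℝ))) *
        2 ^ (Fintype.card κ - ∑ m, Nax Q a (j m)) := by
    exact_mod_cast h
  refine h3.trans ?_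
  have h4 : (∏ m, (((K : ℝ) + 1) * ((Nax Q a (j m)).choose (Nax Q a (j m) / 2) : ℝ))) ≤
      ∏ m, (((K : ℝ) + 1) * (2 ^ (Nax Q a (j m)) * (1 / √((Nax Q a (j m) : ℝ) + 1)))) :=
    prod_le_prod (fun m _ => by positivity) fun m _ =>
      mul_le_mul_of_nonneg_left (hc _) (by positivity)
  refine (mul_le_mul_of_nonneg_right h4 (by positivity)).trans (le_of_eq ?_)
  rw [prod_mul_distrib, prod_mul_distrib, prod_const, card_univ, Fintype.card_fin, prod_pow_eq_pow_sum]
  have h5 : (2 : ℝ) ^ (Fintype.card κ) = 2 ^ (∑ m, Nax Q a (j m)) * 2 ^ (Fintype.card κ - ∑ m, Nax Q a (j m)) := by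
    rw [← pow_add, Nat.add_sub_cancel' hle]
  rw [h5]
  ring

lemma axes_bad (hd : 1 ≤ d) (Q : Finset κ) (c : Fin d) (M : ℕ) (hM : 4 * d * M ≤ #Q) :
    (#{a : κ → Fin d | Nax Q a c ≤ M} : ℝ) ≤ (d : ℝ) ^ (Fintype.card κ) * (1 / 2) ^ M := by
  have hd0 : (0 : ℝ) < d := by exact_mod_cast hd
  have h1 : ∀ a : κ → Fin d, ((1 / 2 : ℝ)) ^ (Nax Q a c) = ∏ l, (if l ∈ Q ∧ a l = c then (1 / 2 : ℝ) else 1) := by
    intro a
    rw [prod_ite, prod_const_one, mul_one, prod_const]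
    congr 1
    unfold Nax
    congr 1
    ext l
    simp
  have h2 : ∑ a : κ → Fin d, ((1 / 2 : ℝ)) ^ (Nax Q a c) =
      (d : ℝ) ^ (Fintype.card κ) * (1 - 1 / (2 * d : ℝ)) ^ (#Q) := by
    simp_rw [h1]
    have h3 := (Finset.prod_univ_sum (fun _ : κ => (univ : Finset (Fin d)))
      (fun l x => if l ∈ Q ∧ x = c then (1 / 2 : ℝ) else 1)).symm
    rw [Fintype.piFinset_univ] at h3
    rw [h3]
    have h4 : ∀ l : κ, ∑ x : Fin d, (if l ∈ Q ∧ x = c then (1 / 2 : ℝ) else 1) =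
        d * (if l ∈ Q then (1 - 1 / (2 * d : ℝ)) else 1) := by
      intro l
      by_cases hl : l ∈ Q
      · simp only [hl, true_and, if_true]
        have h5 : ∀ x : Fin d, (if x = c then (1 / 2 : ℝ) else 1) = 1 - (if x = c then (1 / 2 : ℝ) else 0) := by
          intro x
          split_ifs <;> norm_num
        simp_rw [h5]
        rw [sum_sub_distrib, sum_ite_eq' univ c]
        simp only [mem_univ, if_true, sum_const, card_univ, Fintype.card_fin, nsmul_eq_mul, mul_one]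
        field_simp
      · simp [hl]
    simp_rw [h4]
    rw [prod_mul_distrib, prod_const, card_univ, prod_ite_mem, univ_inter, prod_const]
  have h5 : (#{a : κ → Fin d | Nax Q a c ≤ M} : ℝ) * (1 / 2) ^ M ≤ ∑ a : κ → Fin d, ((1 / 2 : ℝ)) ^ (Nax Q a c) := by
    calc (#{a : κ → Fin d | Nax Q a c ≤ M} : ℝ) * (1 / 2) ^ M
        = ∑ a ∈ ({a : κ → Fin d | Nax Q a c ≤ M} : Finset (κ → Fin d)), (1 / 2 : ℝ) ^ M := by
          rw [sum_const, nsmul_eq_mul]
      _ ≤ ∑ a ∈ ({a : κ → Fin d | Nax Q a c ≤ M} : Finset (κ → Fin d)), ((1 / 2 : ℝ)) ^ (Nax Q a c) := by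
          refine sum_le_sum fun a ha => ?_
          exact pow_le_pow_of_le_one (by norm_num) (by norm_num) (mem_filter.mp ha).2
      _ ≤ _ := sum_le_sum_of_subset_of_nonneg (subset_univ _) fun a _ _ => by positivity
  rw [h2] at h5
  have hb0 : 0 ≤ 1 - 1 / (2 * d : ℝ) := by
    have : (1 : ℝ) ≤ d := by exact_mod_cast hd
    rw [sub_nonneg, div_le_one (by positivity)]
    linarith
  have hb1 : 1 - 1 / (2 * d : ℝ) ≤ 1 := by
    have : 0 ≤ 1 / (2 * d : ℝ) := by positivity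
    linarith
  have h6 : (1 - 1 / (2 * d : ℝ)) ^ (#Q) ≤ (1 / 4) ^ M := by
    have h7 : (1 - 1 / (2 * d : ℝ)) ^ (2 * d) ≤ 1 / 2 := by
      have h8 := Real.one_sub_div_pow_le_exp_neg (n := 2 * d) (t := 1) (by
        have : (1 : ℝ) ≤ d := by exact_mod_cast hd
        push_cast
        linarith)
      push_cast at h8
      refine h8.trans ?_
      rw [Real.exp_neg, inv_le_comm₀ (Real.exp_pos 1) (by norm_num)]
      have := Real.exp_one_gt_d9
      norm_num
      linarith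
    calc (1 - 1 / (2 * d : ℝ)) ^ (#Q) ≤ (1 - 1 / (2 * d : ℝ)) ^ (4 * d * M) :=
          pow_le_pow_of_le_one hb0 hb1 hM
      _ = (((1 - 1 / (2 * d : ℝ)) ^ (2 * d)) ^ 2) ^ M := by
          rw [← pow_mul, ← pow_mul]
          congr 1
          ring
      _ ≤ ((1 / 2 : ℝ) ^ 2) ^ M := by
          refine pow_le_pow_left₀ (by positivity) ?_ M
          exact pow_le_pow_left₀ (by positivity) h7 2
      _ = (1 / 4) ^ M := by norm_num
  have h8 : (#{a : κ → Fin d | Nax Q a c ≤ M} : ℝ) * (1 / 2) ^ M ≤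
      (d : ℝ) ^ (Fintype.card κ) * (1 / 2) ^ M * (1 / 2) ^ M := by
    refine h5.trans ?_
    calc (d : ℝ) ^ (Fintype.card κ) * (1 - 1 / (2 * d : ℝ)) ^ (#Q)
        ≤ (d : ℝ) ^ (Fintype.card κ) * (1 / 4) ^ M := mul_le_mul_of_nonneg_left h6 (by positivity)
      _ = _ := by
          rw [mul_assoc, ← mul_pow]
          norm_num
  exact le_of_mul_le_mul_right h8 (by positivity)

lemma axes_avg (hd : 1 ≤ d) (Q : Finset κ) (j : Fin 3 → Fin d) (M : ℕ) (hM : 4 * d * M ≤ #Q) :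
    ∑ a : κ → Fin d, ∏ m, (1 / √((Nax Q a (j m) : ℝ) + 1)) ≤
      (d : ℝ) ^ (Fintype.card κ) * (3 * (1 / 2) ^ M + (1 / √((M : ℝ) + 1)) ^ 3) := by
  have hle1 : ∀ n : ℕ, 1 / √((n : ℝ) + 1) ≤ 1 := by
    intro n
    have h1 : (1 : ℝ) ≤ √((n : ℝ) + 1) := by
      rw [Real.one_le_sqrt]
      linarith [(Nat.cast_nonneg n : (0 : ℝ) ≤ n)]
    rw [div_le_one (by linarith)]
    exact h1
  have hpt : ∀ a : κ → Fin d, ∏ m, (1 / √((Nax Q a (j m) : ℝ) + 1)) ≤
      ∑ m, (if Nax Q a (j m) ≤ M then (1 : ℝ) else 0) + (1 / √((M : ℝ) + 1)) ^ 3 := by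
    intro a
    by_cases hb : ∃ m, Nax Q a (j m) ≤ M
    · obtain ⟨m, hm⟩ := hb
      have h1 : ∏ m, (1 / √((Nax Q a (j m) : ℝ) + 1)) ≤ 1 :=
        prod_le_one (fun m _ => by positivity) fun m _ => hle1 _
      have h2 : (1 : ℝ) ≤ ∑ m, (if Nax Q a (j m) ≤ M then (1 : ℝ) else 0) := by
        have h3 := single_le_sum (f := fun m => (if Nax Q a (j m) ≤ M then (1 : ℝ) else 0))
          (fun m _ => by split_ifs <;> norm_num) (mem_univ m)
        simp only [hm, if_true] at h3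
        exact h3
      have h3 : 0 ≤ (1 / √((M : ℝ) + 1)) ^ 3 := by positivity
      linarith
    · push Not at hb
      have h1 : ∏ m, (1 / √((Nax Q a (j m) : ℝ) + 1)) ≤ ∏ _m : Fin 3, (1 / √((M : ℝ) + 1)) := by
        refine prod_le_prod (fun m _ => by positivity) fun m _ => ?_
        refine one_div_le_one_div_of_le (Real.sqrt_pos.mpr (by positivity)) (Real.sqrt_le_sqrt ?_)
        have : (M : ℝ) ≤ Nax Q a (j m) := by exact_mod_cast (hb m).le
        linarith
      rw [prod_const, card_univ, Fintype.card_fin] at h1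
      have h2 : 0 ≤ ∑ m, (if Nax Q a (j m) ≤ M then (1 : ℝ) else 0) :=
        sum_nonneg fun m _ => by split_ifs <;> norm_num
      linarith
  refine (sum_le_sum fun a _ => hpt a).trans ?_
  rw [sum_add_distrib, sum_comm, sum_const, card_univ, Fintype.card_fun, Fintype.card_fin, nsmul_eq_mul]
  have h3 : ∀ m : Fin 3, ∑ a : κ → Fin d, (if Nax Q a (j m) ≤ M then (1 : ℝ) else 0) ≤
      (d : ℝ) ^ (Fintype.card κ) * (1 / 2) ^ M := by
    intro m
    rw [sum_boole]
    exact axes_bad hd Q (j m) M hM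
  have h4 := sum_le_sum fun (m : Fin 3) (_ : m ∈ (univ : Finset (Fin 3))) => h3 m
  rw [sum_const, card_univ, Fintype.card_fin, nsmul_eq_mul] at h4
  push_cast at h4 ⊢
  nlinarith

/-- the contribution of a direction to the coordinate `c` -/
def vl (c : Fin d) (u : Fin d × Bool) : ℤ := if u.1 = c then sg u.2 else 0

lemma count1 (hd : 1 ≤ d) (L : κ → ℤ) (lam : ℤ) (hl : 0 < lam) (Q : Finset κ) (hQ : ∀ l ∈ Q, lam ≤ L l)
    (j : Fin 3 → Fin d) (hj : Function.Injective j) (K M : ℕ) (hM : 4 * d * M ≤ #Q) :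
    (#{D : κ → Fin d × Bool | ∀ m, |∑ l, vl (j m) (D l) * L l| ≤ K * lam} : ℝ) ≤
      (2 * d : ℝ) ^ (Fintype.card κ) *
        (((K : ℝ) + 1) ^ 3 * (3 * (1 / 2) ^ M + (1 / √((M : ℝ) + 1)) ^ 3)) := by
  classical
  set E : Finset (κ → Fin d × Bool) := {D : κ → Fin d × Bool | ∀ m, |∑ l, vl (j m) (D l) * L l| ≤ K * lam}
    with hE
  have h1 : #E = ∑ a : κ → Fin d, #{D ∈ E | (fun l => (D l).1) = a} :=
    card_eq_sum_card_fiberwise (f := fun D : κ → Fin d × Bool => fun l => (D l).1) (t := univ)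
      (fun D _ => mem_univ _)
  have h2 : ∀ a : κ → Fin d, (#{D ∈ E | (fun l => (D l).1) = a} : ℝ) ≤
      2 ^ (Fintype.card κ) * (((K : ℝ) + 1) ^ 3 * ∏ m, (1 / √((Nax Q a (j m) : ℝ) + 1))) := by
    intro a
    refine le_trans ?_ (three_real L lam hl Q hQ a j hj K)
    have h3 : #{D ∈ E | (fun l => (D l).1) = a} ≤
        #{e : κ → Bool | ∀ m, |∑ l, (if a l = j m then sg (e l) * L l else 0)| ≤ K * lam} := by
      refine card_le_card_of_injOn (fun D => fun l => (D l).2) ?_ ?_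
      · intro D hD
        obtain ⟨hD1, hD2⟩ := mem_filter.mp (mem_coe.mp hD)
        have hD3 := (mem_filter.mp hD1).2
        refine mem_coe.mpr (mem_filter.mpr ⟨mem_univ _, fun m => ?_⟩)
        have h4 := hD3 m
        have h5 : ∑ l, vl (j m) (D l) * L l = ∑ l, (if a l = j m then sg (D l).2 * L l else 0) := by
          refine sum_congr rfl fun l _ => ?_
          have h6 : (D l).1 = a l := congrFun hD2 l
          unfold vl
          rw [h6]
          split_ifs <;> simp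
        rw [h5] at h4
        exact h4
      · intro D hD D' hD' heq
        obtain ⟨hD1, hD2⟩ := mem_filter.mp (mem_coe.mp hD)
        obtain ⟨hD1', hD2'⟩ := mem_filter.mp (mem_coe.mp hD')
        funext l
        have h6 : (D l).1 = (D' l).1 := (congrFun hD2 l).trans (congrFun hD2' l).symm
        exact Prod.ext h6 (congrFun heq l)
    exact_mod_cast h3
  have h3 : (#E : ℝ) ≤ ∑ a : κ → Fin d, 2 ^ (Fintype.card κ) * (((K : ℝ) + 1) ^ 3 *
      ∏ m, (1 / √((Nax Q a (j m) : ℝ) + 1))) := by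
    rw [h1]
    push_cast
    exact sum_le_sum fun a _ => h2 a
  refine h3.trans ?_
  rw [← mul_sum, ← mul_sum]
  have h4 := axes_avg hd Q j M hM
  have h5 : (2 * d : ℝ) ^ (Fintype.card κ) = 2 ^ (Fintype.card κ) * (d : ℝ) ^ (Fintype.card κ) := mul_pow _ _ _
  rw [h5]
  calc (2 : ℝ) ^ (Fintype.card κ) * (((K : ℝ) + 1) ^ 3 * ∑ a : κ → Fin d, ∏ m, (1 / √((Nax Q a (j m) : ℝ) + 1)))
      ≤ 2 ^ (Fintype.card κ) * (((K : ℝ) + 1) ^ 3 * ((d : ℝ) ^ (Fintype.card κ) *
        (3 * (1 / 2) ^ M + (1 / √((M : ℝ) + 1)) ^ 3))) := by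
        refine mul_le_mul_of_nonneg_left ?_ (by positivity)
        exact mul_le_mul_of_nonneg_left h4 (by positivity)
    _ = _ := by ring

/-! ### the lacunary bound -/

lemma lac_unique (L : κ → ℤ) (R : ℤ) (I : Finset κ) (hR : 0 ≤ R) (hI : ∀ i ∈ I, 6 * R < L i)
    (hlac : ∀ i ∈ I, 3 * ∑ l ∈ I with L l < L i, L l ≤ L i) (hinj : Set.InjOn L I)
    (δ : κ → ℤ) (hδ : ∀ i, |δ i| ≤ 2) (h : |∑ i ∈ I, δ i * L i| ≤ 2 * R) : ∀ i ∈ I, δ i = 0 := by
  by_contra hcon
  push Not at hcon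
  obtain ⟨i1, hi1, hne1⟩ := hcon
  have hJ : ({i ∈ I | δ i ≠ 0} : Finset κ).Nonempty := ⟨i1, mem_filter.mpr ⟨hi1, hne1⟩⟩
  obtain ⟨i, hi, hmax⟩ := exists_max_image _ L hJ
  obtain ⟨hiI, hδi⟩ := mem_filter.mp hi
  have hLpos : ∀ l ∈ I, 0 < L l := fun l hl => by have := hI l hl; linarith
  have h1 : ∑ l ∈ I, δ l * L l = δ i * L i + ∑ l ∈ I with L l < L i, δ l * L l := by
    rw [← sum_filter_add_sum_filter_not I (fun l => L l < L i), add_comm]
    congr 1
    rw [sum_eq_single i]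
    · intro l hl hne
      obtain ⟨hl1, hl2⟩ := mem_filter.mp hl
      by_contra hcon
      have hδl : δ l ≠ 0 := fun h0 => hcon (by rw [h0, zero_mul])
      have h2 := hmax l (mem_filter.mpr ⟨hl1, hδl⟩)
      have h3 : L l = L i := le_antisymm h2 (not_lt.mp hl2)
      exact hne (hinj hl1 hiI h3)
    · intro h2
      exact absurd (mem_filter.mpr ⟨hiI, lt_irrefl _⟩) h2
  have h2 : |∑ l ∈ I with L l < L i, δ l * L l| ≤ 2 * ∑ l ∈ I with L l < L i, L l := by
    refine (abs_sum_le_sum_abs _ _).trans ?_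
    rw [mul_sum]
    refine sum_le_sum fun l hl => ?_
    have h3 := hLpos l (mem_filter.mp hl).1
    rw [abs_mul, abs_of_pos h3]
    exact mul_le_mul_of_nonneg_right (hδ l) h3.le
  have h3 := hlac i hiI
  have h4 : L i ≤ |δ i * L i| := by
    rw [abs_mul, abs_of_pos (hLpos i hiI)]
    have : 1 ≤ |δ i| := Int.one_le_abs hδi
    nlinarith [hLpos i hiI]
  have h5 : |δ i * L i| ≤ |∑ l ∈ I, δ l * L l| + |∑ l ∈ I with L l < L i, δ l * L l| := by
    have h6 : δ i * L i = ∑ l ∈ I, δ l * L l - ∑ l ∈ I with L l < L i, δ l * L l := by rw [h1]; ring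
    rw [h6]
    exact abs_sub _ _
  have h6 := hI i hiI
  linarith

lemma vl_abs (c : Fin d) (u : Fin d × Bool) : |vl c u| ≤ 1 := by
  unfold vl sg
  split_ifs <;> simp

lemma vl_card (hd : 2 ≤ d) (c : Fin d) (v : ℤ) :
    #{u : Fin d × Bool | vl c u = v} ≤ 2 * d - 2 := by
  obtain ⟨c', hc'⟩ : ∃ c' : Fin d, c' ≠ c := by
    have hnt : Nontrivial (Fin d) := Fin.nontrivial_iff_two_le.mpr hd
    exact exists_ne c
  have key : ∀ x y : Fin d × Bool, x ≠ y → vl c x ≠ v → vl c y ≠ v →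
      #{u : Fin d × Bool | vl c u = v} ≤ 2 * d - 2 := by
    intro x y hxy hx hy
    have h1 : ({u : Fin d × Bool | vl c u = v} : Finset (Fin d × Bool)) ⊆ (univ.erase x).erase y := by
      intro u hu
      have hu' := (mem_filter.mp hu).2
      rw [mem_erase, mem_erase]
      refine ⟨?_, ?_, mem_univ _⟩
      · rintro rfl; exact hy hu'
      · rintro rfl; exact hx hu'
    refine (card_le_card h1).trans ?_
    rw [card_erase_of_mem (mem_erase.mpr ⟨hxy.symm, mem_univ _⟩), card_erase_of_mem (mem_univ _),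
      card_univ, Fintype.card_prod, Fintype.card_fin, Fintype.card_bool]
    omega
  have v1 : vl c (c, true) = 1 := by simp [vl, sg]
  have v2 : vl c (c, false) = -1 := by simp [vl, sg]
  have v3 : ∀ b, vl c (c', b) = 0 := by intro b; simp [vl, hc']
  by_cases h0 : v = 0
  · refine key (c, true) (c, false) (by simp) ?_ ?_
    · rw [v1, h0]; norm_num
    · rw [v2, h0]; norm_num
  · refine key (c', true) (c', false) (by simp) ?_ ?_
    · rw [v3]; exact Ne.symm h0
    · rw [v3]; exact Ne.symm h0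

lemma count2 (hd : 2 ≤ d) (L : κ → ℤ) (R : ℤ) (I : Finset κ) (hR : 0 ≤ R) (hI : ∀ i ∈ I, 6 * R < L i)
    (hlac : ∀ i ∈ I, 3 * ∑ l ∈ I with L l < L i, L l ≤ L i) (hinj : Set.InjOn L I) (c : Fin d) :
    #{D : κ → Fin d × Bool | |∑ l, vl c (D l) * L l| ≤ R} ≤
      (2 * d - 2) ^ (#I) * (2 * d) ^ (Fintype.card κ - #I) := by
  classical
  set E : Finset (κ → Fin d × Bool) := {D : κ → Fin d × Bool | |∑ l, vl c (D l) * L l| ≤ R} with hE
  let r : (κ → Fin d × Bool) → ({l : κ // l ∉ I} → Fin d × Bool) := fun D l => D l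
  have himg : #(E.image r) ≤ (2 * d) ^ (Fintype.card κ - #I) := by
    refine (card_le_univ _).trans (le_of_eq ?_)
    rw [Fintype.card_fun, Fintype.card_prod, Fintype.card_bool, Fintype.card_fin,
      Fintype.card_subtype_compl, Fintype.card_coe, mul_comm d 2]
  refine (card_le_mul_card_image (f := r) E ((2 * d - 2) ^ (#I)) ?_).trans (Nat.mul_le_mul_left _ himg)
  intro g hg
  obtain ⟨D0, hD0, rfl⟩ := mem_image.mp hg
  have hD0' := (mem_filter.mp hD0).2
  let F : {l : κ // l ∈ I} → Finset (Fin d × Bool) := fun i => {u : Fin d × Bool | vl c u = vl c (D0 i)}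
  have hprod : #(Fintype.piFinset F) ≤ (2 * d - 2) ^ (#I) := by
    rw [Fintype.card_piFinset]
    refine (prod_le_prod' fun i _ => vl_card hd c _).trans ?_
    rw [prod_const, card_univ, Fintype.card_coe]
  refine le_trans ?_ hprod
  refine card_le_card_of_injOn (fun D => fun i : {l : κ // l ∈ I} => D i) ?_ ?_
  · intro D hD
    obtain ⟨hD1, hD2⟩ := mem_filter.mp (mem_coe.mp hD)
    have hD3 := (mem_filter.mp hD1).2
    rw [mem_coe, Fintype.mem_piFinset]
    intro i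
    refine mem_filter.mpr ⟨mem_univ _, ?_⟩
    have h1 : ∀ l, l ∉ I → D l = D0 l := fun l hl => congrFun hD2 ⟨l, hl⟩
    have h2 : ∑ l ∈ I, (vl c (D l) - vl c (D0 l)) * L l = ∑ l, vl c (D l) * L l - ∑ l, vl c (D0 l) * L l := by
      rw [← sum_sub_distrib]
      symm
      rw [← sum_subset (subset_univ I)]
      · refine sum_congr rfl fun l _ => by ring
      · intro l _ hl
        rw [h1 l hl]
        ring
    have h3 : |∑ l ∈ I, (vl c (D l) - vl c (D0 l)) * L l| ≤ 2 * R := by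
      rw [h2]
      refine (abs_sub _ _).trans ?_
      linarith
    have h4 := lac_unique L R I hR hI hlac hinj (fun l => vl c (D l) - vl c (D0 l)) (fun l => by
      refine (abs_sub _ _).trans ?_
      have := vl_abs c (D l)
      have := vl_abs c (D0 l)
      linarith) h3 i i.2
    linarith
  · intro D hD D' hD' heq
    obtain ⟨hD1, hD2⟩ := mem_filter.mp (mem_coe.mp hD)
    obtain ⟨hD1', hD2'⟩ := mem_filter.mp (mem_coe.mp hD')
    funext l
    by_cases hl : l ∈ I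
    · exact congrFun heq ⟨l, hl⟩
    · exact congrFun (hD2.trans hD2'.symm) ⟨l, hl⟩

end avg

end Pool.Agent.R232.CW3
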