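import Pool.Agent.R232.CW3b
import Pool.Agent.R975.CW.Walk

/-!
# Every conservative walk in dimension at least three leaves every ball: deterministic lengths
-/

set_option autoImplicit false

open Finset MeasureTheory Filter
open R975.CW (Dir stepVec unif)

namespace Pool.Agent.R232.CW3

variable {d : ℕ}

lemma stepVec_apply (u : Dir d) (c : Fin d) : stepVec u c = vl c u := by
  unfold stepVec vl sg
  by_cases h : u.1 = c
  · subst h
    simp
  · rw [Pi.single_apply, if_neg (Ne.symm h), if_neg h]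

lemma unif_singleton (d : ℕ) [NeZero d] (u : Dir d) : unif d {u} = ENNReal.ofReal (1 / (2 * d : ℝ)) := by
  have hd : (0 : ℝ) < d := by exact_mod_cast Nat.pos_of_ne_zero (NeZero.ne d)
  unfold unif
  rw [PMF.toMeasure_apply_singleton _ _ (MeasurableSet.singleton u), PMF.uniformOfFintype_apply,
    Fintype.card_prod, Fintype.card_fin, Fintype.card_bool, one_div,
    ENNReal.ofReal_inv_of_pos (by positivity)]
  congr 1
  rw [ENNReal.ofReal_mul (by norm_num), ENNReal.ofReal_natCast]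
  push_cast
  rw [mul_comm]
  congr 1
  simp

lemma prob_le (d : ℕ) [NeZero d] (k : ℕ) (B : Finset (Fin k → Dir d)) :
    Measure.infinitePi (fun _ : ℕ => unif d) {D | (fun i : Fin k => D i) ∈ B} ≤
      ENNReal.ofReal (#B / (2 * d : ℝ) ^ k) := by
  classical
  have hd : (0 : ℝ) < d := by exact_mod_cast Nat.pos_of_ne_zero (NeZero.ne d)
  obtain ⟨u0⟩ : Nonempty (Dir d) := inferInstance
  let ext : (Fin k → Dir d) → ℕ → Dir d := fun x n => if h : n < k then x ⟨n, h⟩ else u0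
  have hsub : {D : ℕ → Dir d | (fun i : Fin k => D i) ∈ B} ⊆
      ⋃ x ∈ B, Set.pi (range k) (fun n => ({ext x n} : Set (Dir d))) := by
    intro D hD
    simp only [Set.mem_iUnion]
    refine ⟨fun i : Fin k => D i, hD, ?_⟩
    intro n hn
    have hn' : n < k := mem_range.mp (mem_coe.mp hn)
    simp only [ext, hn', dif_pos, Set.mem_singleton_iff]
  refine (measure_mono hsub).trans ((measure_biUnion_finset_le _ _).trans ?_)
  have h1 : ∀ x ∈ B, Measure.infinitePi (fun _ : ℕ => unif d)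
      (Set.pi (range k) (fun n => ({ext x n} : Set (Dir d)))) = ENNReal.ofReal ((1 / (2 * d : ℝ)) ^ k) := by
    intro x _
    rw [Measure.infinitePi_pi (fun _ : ℕ => unif d) (fun i _ => MeasurableSet.singleton _)]
    simp_rw [unif_singleton]
    rw [prod_const, card_range, ENNReal.ofReal_pow (by positivity)]
  rw [sum_congr rfl h1, sum_const, nsmul_eq_mul, ← ENNReal.ofReal_natCast, ← ENNReal.ofReal_mul (by positivity)]
  refine ENNReal.ofReal_le_ofReal (le_of_eq ?_)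
  rw [one_div, inv_pow]
  rfl

/-- position at the `k`-th refresh -/
def X (L : ℕ → ℕ) (k : ℕ) (D : ℕ → Dir d) : Fin d → ℤ := ∑ j ∈ range k, (L j : ℤ) • stepVec (D j)

lemma X_apply (L : ℕ → ℕ) (k : ℕ) (D : ℕ → Dir d) (c : Fin d) :
    X L k D c = ∑ l : Fin k, vl c (D l) * (L l : ℤ) := by
  unfold X
  rw [Finset.sum_apply, Finset.sum_range]
  refine sum_congr rfl fun l _ => ?_
  rw [Pi.smul_apply, stepVec_apply, smul_eq_mul, mul_comm]

/-- the `k`-th block meets the ball of radius `R` -/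
def bad (L : ℕ → ℕ) (R : ℕ) (k : ℕ) : Set (ℕ → Dir d) :=
  {D | ∃ t : ℕ, t ≤ L k ∧ ∀ i, |(X L k D + (t : ℤ) • stepVec (D k)) i| ≤ R}

/-- number of earlier blocks in the same dyadic class -/
def qk (L : ℕ → ℕ) (k : ℕ) : ℕ := #{l ∈ range k | Nat.log 2 (L l) = Nat.log 2 (L k)}

/-- number of dyadic classes seen before time `n` -/
def Hk (L : ℕ → ℕ) (n : ℕ) : ℕ := #((range n).image fun l => Nat.log 2 (L l))

lemma Hk_mono (L : ℕ → ℕ) : Monotone (Hk L) := fun _ _ h =>
  card_le_card (image_subset_image (range_mono h))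

/-- first bound -/
lemma bad_le1 (d : ℕ) [NeZero d] (hd : 3 ≤ d) (L : ℕ → ℕ) (hL : ∀ k, 1 ≤ L k) (R k M : ℕ)
    (hM : 4 * d * M ≤ qk L k) :
    Measure.infinitePi (fun _ : ℕ => unif d) (bad L R k) ≤
      ENNReal.ofReal ((2 * (R : ℝ) + 3) ^ 3 * (3 * (1 / 2) ^ M + (1 / √((M : ℝ) + 1)) ^ 3)) := by
  classical
  have hdpos : (0 : ℝ) < d := by exact_mod_cast (by omega : 0 < d)
  let j : Fin 3 → Fin d := fun m => ⟨m, lt_of_lt_of_le m.2 hd⟩
  have hj : Function.Injective j := by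
    intro a b h
    have := congrArg Fin.val h
    exact Fin.ext this
  set c := Nat.log 2 (L k) with hc
  let Q : Finset (Fin k) := {l | Nat.log 2 (L l) = c}
  have hQcard : #Q = qk L k := by
    unfold qk
    have h1 : ({l ∈ range k | Nat.log 2 (L l) = Nat.log 2 (L k)} : Finset ℕ) = Q.map Fin.valEmbedding := by
      ext l
      simp only [mem_filter, mem_range, Finset.mem_map, Q, mem_univ, true_and, Fin.valEmbedding_apply]
      constructor
      · rintro ⟨h1, h2⟩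
        exact ⟨⟨l, h1⟩, h2, rfl⟩
      · rintro ⟨l', h2, rfl⟩
        exact ⟨l'.2, h2⟩
    rw [h1, card_map]
  have hQ : ∀ l ∈ Q, ((2 ^ c : ℕ) : ℤ) ≤ (L l : ℤ) := by
    intro l hl
    have h1 := (mem_filter.mp hl).2
    have h2 : L l ≠ 0 := by have := hL l; omega
    have h3 := Nat.pow_log_le_self 2 h2
    rw [h1] at h3
    exact_mod_cast h3
  have h1 := count1 (κ := Fin k) (d := d) (by omega) (fun l => (L l : ℤ)) ((2 ^ c : ℕ) : ℤ) (by positivity) Q hQ
    j hj (2 * (R + 1)) M (by rw [hQcard]; exact hM)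
  set B : Finset (Fin k → Fin d × Bool) := {D : Fin k → Fin d × Bool | ∀ m, |∑ l, vl (j m) (D l) * (L l : ℤ)| ≤
    ((2 * (R + 1) : ℕ) : ℤ) * ((2 ^ c : ℕ) : ℤ)} with hB
  have hsub : bad L R k ⊆ {D : ℕ → Dir d | (fun i : Fin k => D i) ∈ B} := by
    intro D hD
    obtain ⟨t, ht, hD'⟩ := hD
    refine mem_filter.mpr ⟨mem_univ _, fun m => ?_⟩
    have h2 := hD' (j m)
    rw [Pi.add_apply, Pi.smul_apply, stepVec_apply, X_apply, smul_eq_mul] at h2
    have h3 : |(t : ℤ) * vl (j m) (D k)| ≤ t := by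
      rw [abs_mul, Nat.abs_cast]
      have := vl_abs (j m) (D k)
      nlinarith [(Nat.cast_nonneg t : (0 : ℤ) ≤ t)]
    have h4 : |∑ l : Fin k, vl (j m) (D l) * (L l : ℤ)| ≤ R + t := by
      rw [abs_le] at h2 h3 ⊢
      constructor <;> linarith [h2.1, h2.2, h3.1, h3.2]
    have h5 : L k < 2 ^ (c + 1) := Nat.lt_pow_succ_log_self (by norm_num) _
    have h6 : R + t ≤ 2 * (R + 1) * 2 ^ c := by
      have h7 := Nat.one_le_two_pow (n := c)
      rw [pow_succ] at h5
      nlinarith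
    have h8 : ((R : ℤ) + t) ≤ ((2 * (R + 1) : ℕ) : ℤ) * ((2 ^ c : ℕ) : ℤ) := by exact_mod_cast h6
    exact h4.trans h8
  refine (measure_mono hsub).trans ((prob_le d k B).trans ?_)
  refine ENNReal.ofReal_le_ofReal ?_
  rw [div_le_iff₀ (by positivity)]
  rw [Fintype.card_fin] at h1
  refine h1.trans (le_of_eq ?_)
  push_cast
  ring

/-- second bound -/
lemma bad_le2 (d : ℕ) [NeZero d] (hd : 3 ≤ d) (L : ℕ → ℕ) (hL : ∀ k, 1 ≤ L k) (R k : ℕ) :
    ∃ h : ℕ, Hk L k ≤ 6 * R + 4 * h ∧ Measure.infinitePi (fun _ : ℕ => unif d) (bad L R k) ≤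
      ENNReal.ofReal (2 * (1 - 1 / (d : ℝ)) ^ h) := by
  classical
  have hdpos : (0 : ℝ) < d := by exact_mod_cast (by omega : 0 < d)
  -- the classes
  set 𝒞 : Finset ℕ := (range k).image fun l => Nat.log 2 (L l) with h𝒞
  have hrep : ∀ c ∈ 𝒞, ∃ l : Fin k, Nat.log 2 (L l) = c := by
    intro c hc
    obtain ⟨l, hl, hlc⟩ := mem_image.mp hc
    exact ⟨⟨l, mem_range.mp hl⟩, hlc⟩
  -- pigeonhole
  obtain ⟨ρ, hρ⟩ : ∃ ρ : ℕ, #𝒞 ≤ 6 * R + 4 * #{c ∈ 𝒞 | 6 * R ≤ c ∧ c % 4 = ρ} := by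
    by_contra hcon
    push Not at hcon
    have h0 := hcon 0
    have h1 := hcon 1
    have h2 := hcon 2
    have h3 := hcon 3
    have hcard : #𝒞 ≤ 6 * R + (#{c ∈ 𝒞 | 6 * R ≤ c ∧ c % 4 = 0} + #{c ∈ 𝒞 | 6 * R ≤ c ∧ c % 4 = 1} +
        #{c ∈ 𝒞 | 6 * R ≤ c ∧ c % 4 = 2} + #{c ∈ 𝒞 | 6 * R ≤ c ∧ c % 4 = 3}) := by
      have hsub : 𝒞 ⊆ range (6 * R) ∪ ((({c ∈ 𝒞 | 6 * R ≤ c ∧ c % 4 = 0} : Finset ℕ) ∪
          {c ∈ 𝒞 | 6 * R ≤ c ∧ c % 4 = 1} ∪ {c ∈ 𝒞 | 6 * R ≤ c ∧ c % 4 = 2}) ∪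
          {c ∈ 𝒞 | 6 * R ≤ c ∧ c % 4 = 3}) := by
        intro c hc
        simp only [mem_union, mem_range, mem_filter]
        by_cases h : c < 6 * R
        · left; exact h
        · right
          have h5 : c % 4 = 0 ∨ c % 4 = 1 ∨ c % 4 = 2 ∨ c % 4 = 3 := by omega
          rcases h5 with h5 | h5 | h5 | h5
          · left; left; left; exact ⟨hc, by omega, h5⟩
          · left; left; right; exact ⟨hc, by omega, h5⟩
          · left; right; exact ⟨hc, by omega, h5⟩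
          · right; exact ⟨hc, by omega, h5⟩
      refine (card_le_card hsub).trans ((card_union_le _ _).trans ?_)
      rw [card_range]
      refine Nat.add_le_add_left ((card_union_le _ _).trans (Nat.add_le_add_right
        ((card_union_le _ _).trans (Nat.add_le_add_right (card_union_le _ _) _)) _)) _
    omega
  set 𝒟 : Finset ℕ := {c ∈ 𝒞 | 6 * R ≤ c ∧ c % 4 = ρ} with h𝒟
  have h𝒟mem : ∀ c ∈ 𝒟, c ∈ 𝒞 ∧ 6 * R ≤ c ∧ c % 4 = ρ := fun c hc => mem_filter.mp hc
  rcases 𝒟.eq_empty_or_nonempty with hemp | hne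
  · refine ⟨0, ?_, ?_⟩
    · rw [hemp, card_empty] at hρ
      exact hρ
    · refine prob_le_one.trans ?_
      rw [pow_zero, mul_one]
      norm_num
  have hk : 0 < k := by
    obtain ⟨c, hc⟩ := hne
    obtain ⟨l, _⟩ := hrep c (h𝒟mem c hc).1
    exact lt_of_le_of_lt (Nat.zero_le _) l.2
  have hexrep : ∃ rep : ℕ → Fin k, ∀ c ∈ 𝒞, Nat.log 2 (L (rep c)) = c := by
    refine ⟨fun c => if h : c ∈ 𝒞 then (hrep c h).choose else ⟨0, hk⟩, fun c hc => ?_⟩
    simp only [hc, dif_pos]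
    exact (hrep c hc).choose_spec
  obtain ⟨rep, hrepc⟩ := hexrep
  have hinjrep : Set.InjOn rep 𝒟 := by
    intro c hc c' hc' heq
    have h1 := hrepc c (h𝒟mem c hc).1
    have h2 := hrepc c' (h𝒟mem c' hc').1
    rw [heq] at h1
    exact h1.symm.trans h2
  set I : Finset (Fin k) := 𝒟.image rep with hI
  have hIcard : #I = #𝒟 := card_image_of_injOn hinjrep
  refine ⟨#𝒟, hρ, ?_⟩
  have hlow : ∀ c ∈ 𝒟, 2 ^ c ≤ L (rep c) := by
    intro c hc
    have h2 : L (rep c) ≠ 0 := by have := hL (rep c); omega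
    have h3 := Nat.pow_log_le_self 2 h2
    rwa [hrepc c (h𝒟mem c hc).1] at h3
  have hupp : ∀ c ∈ 𝒟, L (rep c) < 2 ^ (c + 1) := by
    intro c hc
    have h3 := Nat.lt_pow_succ_log_self (b := 2) (by norm_num) (L (rep c))
    rwa [hrepc c (h𝒟mem c hc).1] at h3
  have hI6 : ∀ i ∈ I, 6 * (R : ℤ) < (L i : ℤ) := by
    intro i hi
    obtain ⟨c, hc, rfl⟩ := mem_image.mp hi
    have h1 := hlow c hc
    have h2 := (h𝒟mem c hc).2.1
    have h3 : c < 2 ^ c := Nat.lt_two_pow_self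
    have h4 : 6 * R < L (rep c) := by omega
    exact_mod_cast h4
  have hinjL : Set.InjOn (fun l : Fin k => (L l : ℤ)) I := by
    intro i hi i' hi' heq
    obtain ⟨c, hc, rfl⟩ := mem_image.mp hi
    obtain ⟨c', hc', rfl⟩ := mem_image.mp hi'
    have h1 : L (rep c) = L (rep c') := by
      have h0 : ((L (rep c) : ℕ) : ℤ) = ((L (rep c') : ℕ) : ℤ) := heq
      exact_mod_cast h0
    have h2 := hrepc c (h𝒟mem c hc).1
    have h3 := hrepc c' (h𝒟mem c' hc').1
    rw [h1, h3] at h2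
    rw [h2]
  have hlac : ∀ i ∈ I, 3 * ∑ l ∈ I.filter (fun l : Fin k => (L l : ℤ) < (L i : ℤ)), (L (l : Fin k) : ℤ) ≤
      (L i : ℤ) := by
    intro i hi
    obtain ⟨c, hc, rfl⟩ := mem_image.mp hi
    have hsum : 3 * ∑ l ∈ I.filter (fun l : Fin k => L l < L (rep c)), L (l : Fin k) ≤ L (rep c) := by
      have h1 : ∑ l ∈ I.filter (fun l : Fin k => L l < L (rep c)), L (l : Fin k) ≤
          ∑ c' ∈ 𝒟 with c' + 4 ≤ c, 2 ^ (c' + 1) := by
        have h2 : ∀ l ∈ I.filter (fun l : Fin k => L l < L (rep c)), ∃ c' ∈ 𝒟, c' + 4 ≤ c ∧ rep c' = l := by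
          intro l hl
          obtain ⟨hl1, hl2⟩ := mem_filter.mp hl
          obtain ⟨c', hc', rfl⟩ := mem_image.mp hl1
          refine ⟨c', hc', ?_, rfl⟩
          have h3 := hlow c' hc'
          have h4 := hupp c hc
          have h5 : 2 ^ c' < 2 ^ (c + 1) := lt_of_le_of_lt h3 (lt_trans hl2 h4)
          have h6 : c' < c + 1 := (Nat.pow_lt_pow_iff_right (by norm_num)).mp h5
          have h7 : c' ≠ c := by rintro rfl; exact lt_irrefl _ hl2
          have h8 := (h𝒟mem c' hc').2.2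
          have h9 := (h𝒟mem c hc).2.2
          omega
        have h3 : I.filter (fun l : Fin k => L l < L (rep c)) ⊆ ({c' ∈ 𝒟 | c' + 4 ≤ c} : Finset ℕ).image rep := by
          intro l hl
          obtain ⟨c', hc', h4, h5⟩ := h2 l hl
          exact mem_image.mpr ⟨c', mem_filter.mpr ⟨hc', h4⟩, h5⟩
        refine (sum_le_sum_of_subset h3).trans ?_
        rw [sum_image]
        · refine sum_le_sum fun c' hc' => ?_
          exact (hupp c' (mem_filter.mp hc').1).le
        · intro x hx y hy hxy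
          exact hinjrep (mem_filter.mp hx).1 (mem_filter.mp hy).1 hxy
      by_cases hc4 : c < 4
      · have h2 : ({c' ∈ 𝒟 | c' + 4 ≤ c} : Finset ℕ) = ∅ := by
          rw [filter_eq_empty_iff]
          intro c' _
          omega
        rw [h2, sum_empty] at h1
        omega
      · obtain ⟨c1, rfl⟩ : ∃ c1, c = c1 + 4 := ⟨c - 4, by omega⟩
        have h2 : ∑ c' ∈ 𝒟 with c' + 4 ≤ c1 + 4, 2 ^ (c' + 1) ≤ ∑ c' ∈ range (c1 + 1), 2 ^ (c' + 1) := by
          refine sum_le_sum_of_subset ?_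
          intro c' hc'
          have := (mem_filter.mp hc').2
          rw [mem_range]
          omega
        have h3 : ∀ n : ℕ, ∑ c' ∈ range n, 2 ^ (c' + 1) + 2 = 2 ^ (n + 1) := by
          intro n
          induction n with
          | zero => simp
          | succ n ih => rw [sum_range_succ, add_right_comm, ih]; ring
        have h4 := h3 (c1 + 1)
        have h5 := hlow (c1 + 4) hc
        have h6 : 2 ^ (c1 + 4) = 4 * 2 ^ (c1 + 1 + 1) := by ring
        omega
    have hcast : (∑ l ∈ I.filter (fun l : Fin k => (L l : ℤ) < (L (rep c) : ℤ)), (L (l : Fin k) : ℤ)) =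
        ((∑ l ∈ I.filter (fun l : Fin k => L l < L (rep c)), L (l : Fin k) : ℕ) : ℤ) := by
      push_cast
      refine sum_congr ?_ fun _ _ => rfl
      ext l
      simp only [mem_filter, Nat.cast_lt]
    rw [hcast]
    exact_mod_cast hsum
  -- the two coordinates
  let c0 : Fin d := ⟨0, by omega⟩
  let c1 : Fin d := ⟨1, by omega⟩
  have hc01 : c0 ≠ c1 := by
    intro h
    have := congrArg Fin.val h
    simp [c0, c1] at this
  have hcount : ∀ cc : Fin d, Measure.infinitePi (fun _ : ℕ => unif d)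
      {D : ℕ → Dir d | (fun i : Fin k => D i) ∈
        ({D : Fin k → Fin d × Bool | |∑ l, vl cc (D l) * (L l : ℤ)| ≤ (R : ℤ)} : Finset (Fin k → Fin d × Bool))} ≤
      ENNReal.ofReal ((1 - 1 / (d : ℝ)) ^ (#𝒟)) := by
    intro cc
    refine (prob_le d k _).trans (ENNReal.ofReal_le_ofReal ?_)
    have h1 := count2 (κ := Fin k) (d := d) (by omega) (fun l => (L l : ℤ)) (R : ℤ) I (by positivity) hI6 hlac
      hinjL cc
    rw [Fintype.card_fin, hIcard] at h1
    have hle : #𝒟 ≤ k := by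
      rw [← hIcard]
      have := card_le_univ I
      rwa [Fintype.card_fin] at this
    have h2 : (#{D : Fin k → Fin d × Bool | |∑ l, vl cc (D l) * (L l : ℤ)| ≤ (R : ℤ)} : ℝ) ≤
        (2 * (d : ℝ) - 2) ^ (#𝒟) * (2 * (d : ℝ)) ^ (k - #𝒟) := by
      have h3 : (((2 * d - 2 : ℕ)) : ℝ) = 2 * (d : ℝ) - 2 := by
        rw [Nat.cast_sub (by omega)]
        push_cast
        ring
      rw [← h3]
      exact_mod_cast h1
    rw [div_le_iff₀ (by positivity)]
    refine h2.trans (le_of_eq ?_)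
    have h4 : (2 * (d : ℝ)) ^ k = (2 * (d : ℝ)) ^ (#𝒟) * (2 * (d : ℝ)) ^ (k - #𝒟) := by
      rw [← pow_add, Nat.add_sub_cancel' hle]
    rw [h4, ← mul_assoc, ← mul_pow]
    congr 2
    field_simp
  have hsub : bad L R k ⊆ {D : ℕ → Dir d | (fun i : Fin k => D i) ∈
        ({D : Fin k → Fin d × Bool | |∑ l, vl c0 (D l) * (L l : ℤ)| ≤ (R : ℤ)} : Finset (Fin k → Fin d × Bool))} ∪
      {D : ℕ → Dir d | (fun i : Fin k => D i) ∈
        ({D : Fin k → Fin d × Bool | |∑ l, vl c1 (D l) * (L l : ℤ)| ≤ (R : ℤ)} : Finset (Fin k → Fin d × Bool))} := by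
    intro D hD
    obtain ⟨t, ht, hD'⟩ := hD
    have key : ∀ cc : Fin d, (D k).1 ≠ cc → |∑ l : Fin k, vl cc (D l) * (L l : ℤ)| ≤ (R : ℤ) := by
      intro cc hcc
      have h2 := hD' cc
      rw [Pi.add_apply, Pi.smul_apply, stepVec_apply, X_apply] at h2
      have h3 : vl cc (D k) = 0 := by
        unfold vl
        rw [if_neg hcc]
      rw [h3, smul_zero, add_zero] at h2
      exact h2
    by_cases h : (D k).1 = c0
    · right
      exact mem_filter.mpr ⟨mem_univ _, key c1 (by rw [h]; exact hc01)⟩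
    · left
      exact mem_filter.mpr ⟨mem_univ _, key c0 h⟩
  refine (measure_mono hsub).trans ((measure_union_le _ _).trans ?_)
  refine (add_le_add (hcount c0) (hcount c1)).trans (le_of_eq ?_)
  have h1d : 0 ≤ 1 - 1 / (d : ℝ) := by
    rw [sub_nonneg, div_le_one hdpos]
    exact_mod_cast (by omega : 1 ≤ d)
  rw [← ENNReal.ofReal_add (by positivity) (by positivity)]
  congr 1
  ring

end Pool.Agent.R232.CW3
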