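import Mathlib

/-! The modular topology of `ℓ^{(p_n)}` is not regular for unbounded `(p_n)` (MP_aae45c_an). -/

namespace Pool.Agent.R232.ModTop

open Filter Topology
open scoped ENNReal

noncomputable section

/-- The modular `ρ_p(a) = ∑ |a_j|^{p_j} ∈ [0,∞]`. -/
def rho (p : ℕ → ℝ) (a : ℕ → ℝ) : ℝ≥0∞ := ∑' j, ENNReal.ofReal (|a j| ^ (p j))

/-- The space `ℓ^{(p_n)}`. -/
abbrev El (p : ℕ → ℝ) : Type := {a : ℕ → ℝ // ∃ l : ℝ, 0 < l ∧ rho p (fun j => l * a j) < ⊤}

/-- `ρ`-convergence of a sequence `x` in `ℓ^{(p_n)}` to `y`. -/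
def RhoTendsto (p : ℕ → ℝ) (x : ℕ → El p) (y : El p) : Prop :=
  Tendsto (fun k => rho p (fun j => (x k).1 j - y.1 j)) atTop (𝓝 0)

/-- `ρ`-closed sets. -/
def RhoClosed (p : ℕ → ℝ) (F : Set (El p)) : Prop :=
  ∀ (x : ℕ → El p) (y : El p), (∀ k, x k ∈ F) → RhoTendsto p x y → y ∈ F

/-- The modular topology: its closed sets are the `ρ`-closed sets. -/
@[reducible]
def modTop (p : ℕ → ℝ) : TopologicalSpace (El p) :=
  TopologicalSpace.ofClosed {F | RhoClosed p F} (fun _ _ h _ => absurd (h 0) (by simp))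
    (by
      intro A hA x y hx hy
      simp only [Set.mem_sInter]
      intro F hF
      exact hA hF x y (fun k => Set.mem_sInter.1 (hx k) F hF) hy)
    (by
      intro F hF G hG x y hx hy
      -- infinitely many terms lie in `F` or in `G`
      by_cases h : ∃ᶠ k in atTop, x k ∈ F
      · obtain ⟨φ, hφ, hφ'⟩ := extraction_of_frequently_atTop h
        exact Or.inl (hF (x ∘ φ) y hφ' (hy.comp hφ.tendsto_atTop))
      · rw [not_frequently] at h
        obtain ⟨N, hN⟩ := eventually_atTop.1 h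
        refine Or.inr (hG (fun k => x (k + N)) y (fun k => ?_) (hy.comp (tendsto_add_atTop_nat N)))
        exact (hx (k + N)).resolve_left (hN (k + N) (by omega)))

lemma isClosed_iff (p : ℕ → ℝ) (F : Set (El p)) : IsClosed[modTop p] F ↔ RhoClosed p F := by
  rw [← @isOpen_compl_iff _ _ (modTop p)]
  change RhoClosed p (Fᶜ)ᶜ ↔ _
  rw [compl_compl]

lemma isOpen_iff (p : ℕ → ℝ) (U : Set (El p)) : IsOpen[modTop p] U ↔ RhoClosed p Uᶜ := Iff.rfl

lemma exists_ball (p : ℕ → ℝ) (U : Set (El p)) (hU : IsOpen[modTop p] U) (x : El p) (hx : x ∈ U) :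
    ∃ n : ℕ, ∀ y : El p, rho p (fun j => y.1 j - x.1 j) < (((n : ℝ≥0∞) + 1)⁻¹) → y ∈ U := by
  by_contra hcon
  push Not at hcon
  choose y hy hyU using hcon
  rw [isOpen_iff] at hU
  refine hU y x (fun k => hyU k) ?_ hx
  have h0 : Tendsto (fun n : ℕ => ((n : ℝ≥0∞) + 1)⁻¹) atTop (𝓝 0) := by
    have h1 := (tendsto_add_atTop_iff_nat 1).2 ENNReal.tendsto_inv_nat_nhds_zero
    simpa using h1
  exact tendsto_of_tendsto_of_tendsto_of_le_of_le tendsto_const_nhds h0 (fun _ => zero_le)
    (fun k => (hy k).le)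

section main

variable (p : ℕ → ℝ) (hp : ∀ n, 1 ≤ p n) (φ : ℕ → ℕ) (hφ : StrictMono φ)
  (hpφ : ∀ i : ℕ, (i : ℝ) ≤ p (φ i))

include hp hφ in
lemma rho_extend (c : ℕ → ℝ) :
    rho p (Function.extend φ c 0) = ∑' i, ENNReal.ofReal (|c i| ^ (p (φ i))) := by
  unfold rho
  rw [← hφ.injective.tsum_eq]
  · congr 1
    ext i
    rw [hφ.injective.extend_apply]
  · intro j hj
    by_contra h
    apply hj
    have hpj : p j ≠ 0 := by linarith [hp j]
    change ENNReal.ofReal (|Function.extend φ c 0 j| ^ p j) = 0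
    rw [Function.extend_apply' _ _ _ (by simpa using h)]
    simp [Real.zero_rpow hpj]

include hp hφ hpφ in
lemma rho_extend_le (c : ℕ → ℝ) (t : ℝ) (ht0 : 0 ≤ t) (ht1 : t < 1) (M : ℕ)
    (h0 : ∀ i < M, c i = 0) (h1 : ∀ i, M ≤ i → |c i| ≤ t) :
    rho p (Function.extend φ c 0) ≤ ENNReal.ofReal (t ^ M / (1 - t)) := by
  rw [rho_extend p hp φ hφ]
  have hs : HasSum (fun i : ℕ => if i < M then 0 else t ^ i) (t ^ M / (1 - t)) := by
    have h2 := (hasSum_geometric_of_lt_one ht0 ht1).mul_left (t ^ M)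
    rw [← hasSum_nat_add_iff' M]
    have h3 : ∑ i ∈ Finset.range M, (if i < M then 0 else t ^ i) = 0 := by
      refine Finset.sum_eq_zero fun i hi => ?_
      rw [if_pos (Finset.mem_range.1 hi)]
    rw [h3, sub_zero, div_eq_mul_inv]
    have h4 : (fun i : ℕ => if i + M < M then 0 else t ^ (i + M)) = fun i => t ^ M * t ^ i := by
      ext i
      rw [if_neg (by omega), ← pow_add, add_comm]
    rw [h4]
    exact h2
  have hle : ∀ i, ENNReal.ofReal (|c i| ^ (p (φ i))) ≤
      ENNReal.ofReal (if i < M then 0 else t ^ i) := by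
    intro i
    refine ENNReal.ofReal_le_ofReal ?_
    have hpi : p (φ i) ≠ 0 := by linarith [hp (φ i)]
    split_ifs with h
    · rw [h0 i h, abs_zero, Real.zero_rpow hpi]
    · have hc := h1 i (by omega)
      calc |c i| ^ (p (φ i)) ≤ t ^ (p (φ i)) :=
            Real.rpow_le_rpow (abs_nonneg _) hc (by linarith [hp (φ i)])
        _ ≤ t ^ ((i : ℕ) : ℝ) := by
            rcases ht0.eq_or_lt with h' | h'
            · rw [← h', Real.zero_rpow hpi]
              positivity
            · exact Real.rpow_le_rpow_of_exponent_ge h' ht1.le (hpφ i)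
        _ = t ^ i := Real.rpow_natCast _ _
  refine (ENNReal.tsum_le_tsum hle).trans ?_
  rw [← ENNReal.ofReal_tsum_of_nonneg _ hs.summable, hs.tsum_eq]
  intro i
  split_ifs
  · exact le_rfl
  · positivity

/-- the element of `ℓ^{(p_n)}` with the coordinates `c i` at `φ i` -/
def E (c : ℕ → ℝ) (hc : ∀ i, |c i| ≤ 2) : El p :=
  ⟨Function.extend φ c 0, 1 / 4, by norm_num, by
    have h1 : (fun j => 1 / 4 * Function.extend φ c 0 j) =
        Function.extend φ (fun i => 1 / 4 * c i) 0 := by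
      ext j
      by_cases h : ∃ i, φ i = j
      · obtain ⟨i, rfl⟩ := h
        rw [hφ.injective.extend_apply, hφ.injective.extend_apply]
      · rw [Function.extend_apply' _ _ _ h, Function.extend_apply' _ _ _ h]
        simp
    rw [h1]
    refine (rho_extend_le p hp φ hφ hpφ _ (1 / 2) (by norm_num) (by norm_num) 0
      (fun i hi => by omega) (fun i _ => ?_)).trans_lt ENNReal.ofReal_lt_top
    rw [abs_mul]
    have := hc i
    rw [abs_of_pos (by norm_num : (0 : ℝ) < 1 / 4)]
    linarith⟩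

lemma E_sub (c d : ℕ → ℝ) (hc : ∀ i, |c i| ≤ 2) (hd : ∀ i, |d i| ≤ 2) :
    (fun j => (E p hp φ hφ hpφ c hc).1 j - (E p hp φ hφ hpφ d hd).1 j) =
      Function.extend φ (fun i => c i - d i) 0 := by
  ext j
  by_cases h : ∃ i, φ i = j
  · obtain ⟨i, rfl⟩ := h
    simp only [E]
    rw [hφ.injective.extend_apply, hφ.injective.extend_apply, hφ.injective.extend_apply]
  · simp only [E]
    rw [Function.extend_apply' _ _ _ h, Function.extend_apply' _ _ _ h,
      Function.extend_apply' _ _ _ h]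
    simp

/-- a coordinate is controlled by the modular -/
lemma le_rho (a : ℕ → ℝ) (j : ℕ) : ENNReal.ofReal (|a j| ^ (p j)) ≤ rho p a :=
  ENNReal.le_tsum j

lemma rho_lt_one (a : ℕ → ℝ) (h : rho p a < 1) (j : ℕ) (hpj : 0 ≤ p j) : |a j| < 1 := by
  by_contra hcon
  push Not at hcon
  have h1 : (1 : ℝ) ≤ |a j| ^ (p j) := Real.one_le_rpow hcon hpj
  have h2 := le_rho p a j
  have h3 : (1 : ℝ≥0∞) ≤ ENNReal.ofReal (|a j| ^ (p j)) := by
    rw [← ENNReal.ofReal_one]
    exact ENNReal.ofReal_le_ofReal h1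
  exact absurd (h3.trans h2) (not_le.2 h)

/-- `ρ`-convergence implies coordinatewise convergence -/
lemma tendsto_coord (hpj : ∀ n, 1 ≤ p n) (x : ℕ → El p) (y : El p) (h : RhoTendsto p x y) (j : ℕ) :
    Tendsto (fun k => (x k).1 j) atTop (𝓝 (y.1 j)) := by
  have h1 : Tendsto (fun k => ENNReal.ofReal (|(x k).1 j - y.1 j| ^ (p j))) atTop (𝓝 0) :=
    tendsto_of_tendsto_of_tendsto_of_le_of_le tendsto_const_nhds h (fun _ => zero_le)
      (fun k => le_rho p (fun j => (x k).1 j - y.1 j) j)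
  have h2 : Tendsto (fun k => |(x k).1 j - y.1 j| ^ (p j)) atTop (𝓝 0) := by
    have h3 := (ENNReal.tendsto_toReal ENNReal.zero_ne_top).comp h1
    simp only [ENNReal.toReal_zero] at h3
    refine h3.congr fun k => ?_
    simp only [Function.comp]
    rw [ENNReal.toReal_ofReal (by positivity)]
  have h4 : Tendsto (fun k => |(x k).1 j - y.1 j|) atTop (𝓝 0) := by
    have h5 := h2.rpow_const (p := 1 / p j) (Or.inr (by have := hpj j; positivity))
    have hne : p j ≠ 0 := by linarith [hpj j]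
    rw [Real.zero_rpow (by simpa using hne)] at h5
    refine h5.congr fun k => ?_
    rw [← Real.rpow_mul (abs_nonneg _), mul_one_div_cancel hne, Real.rpow_one]
  rw [tendsto_iff_dist_tendsto_zero]
  exact h4

/-! ### The family -/

/-- an enumeration of the triples (finite set, length, index) -/
def enum : ℕ → Finset ℕ × ℕ × ℕ := (exists_surjective_nat (Finset ℕ × ℕ × ℕ)).choose

lemma enum_surj : Function.Surjective enum := (exists_surjective_nat _).choose_spec

/-- the `0`-`1` sequences -/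
def sq (i m : ℕ) : Bool :=
  if m < (enum i).2.1 then decide (m ∈ (enum i).1) else decide ((Nat.unpair m).1 = i)

/-- the starting positions -/
def ks (i : ℕ) : ℕ := i + (enum i).2.1 + (enum i).2.2

/-- the coordinates of `x_S` -/
def xc (S : ℕ → Bool) (m : ℕ) : ℝ := if S m then 1 / 4 else 0

/-- the coordinates of `z_i` -/
def zc (i m : ℕ) : ℝ := if m < ks i then 0 else if sq i m then 7 / 8 else -(7 / 8)

lemma abs_xc_le (S : ℕ → Bool) (m : ℕ) : |xc S m| ≤ 1 / 4 := by
  unfold xc
  split_ifs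
  · rw [abs_of_pos (by norm_num)]
  · simp

lemma abs_zc_le (i m : ℕ) : |zc i m| ≤ 7 / 8 := by
  unfold zc
  split_ifs
  · rw [abs_zero]; norm_num
  · rw [abs_of_pos (by norm_num)]
  · rw [abs_neg, abs_of_pos (by norm_num)]

lemma abs_xz_le (S : ℕ → Bool) (i m : ℕ) : |xc S m + zc i m| ≤ 2 := by
  refine (abs_add_le _ _).trans ?_
  linarith [abs_xc_le S m, abs_zc_le i m]

lemma xc_le_two (S : ℕ → Bool) (m : ℕ) : |xc S m| ≤ 2 := by linarith [abs_xc_le S m]

/-- the sequences `sq i`, `sq i'` differ beyond every position -/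
lemma sq_ne (i i' : ℕ) (h : i ≠ i') (M : ℕ) : ∃ m, M ≤ m ∧ sq i m ≠ sq i' m := by
  let K := M + (enum i).2.1 + (enum i').2.1
  refine ⟨Nat.pair i K, ?_, ?_⟩
  · have := Nat.right_le_pair i K
    omega
  · have hK := Nat.right_le_pair i K
    unfold sq
    rw [if_neg (by omega), if_neg (by omega), Nat.unpair_pair]
    simp [h]

/-- the point `x_S + z_i` -/
def pt (S : ℕ → Bool) (i : ℕ) : El p :=
  E p hp φ hφ hpφ (fun m => xc S m + zc i m) (abs_xz_le S i)

/-- the point `x_S` -/
def px (S : ℕ → Bool) : El p := E p hp φ hφ hpφ (xc S) (xc_le_two S)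

/-- the closed set -/
def Fset : Set (El p) := Set.range fun i => pt p hp φ hφ hpφ (sq i) i

lemma pt_coord (S : ℕ → Bool) (i m : ℕ) :
    (pt p hp φ hφ hpφ S i).1 (φ m) = xc S m + zc i m := by
  change Function.extend φ (fun m => xc S m + zc i m) 0 (φ m) = _
  rw [hφ.injective.extend_apply]

lemma closed_Fset : RhoClosed p (Fset p hp φ hφ hpφ) := by
  intro x y hx hy
  choose i hi using hx
  -- infinitely often the same index
  by_cases hcase : ∃ i0, ∃ᶠ k in atTop, i k = i0
  · obtain ⟨i0, h0⟩ := hcase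
    refine ⟨i0, ?_⟩
    refine Subtype.ext ?_
    funext j
    have h1 := tendsto_coord p hp x y hy j
    obtain ⟨ψ, hψ, hψ'⟩ := extraction_of_frequently_atTop h0
    have h2 := h1.comp hψ.tendsto_atTop
    have h3 : (fun k => (x k).1 j) ∘ ψ = fun _ => (pt p hp φ hφ hpφ (sq i0) i0).1 j := by
      ext k
      simp only [Function.comp]
      rw [← hi (ψ k), hψ' k]
    rw [h3] at h2
    exact tendsto_nhds_unique tendsto_const_nhds h2
  · exfalso
    push Not at hcase
    -- the indices tend to infinity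
    have htend : ∀ N, ∀ᶠ k in atTop, N ≤ i k := by
      intro N
      have h1 : ∀ i0 ∈ Finset.range N, ∀ᶠ k in atTop, i k ≠ i0 := by
        intro i0 _
        exact hcase i0
      have h2 := (Finset.eventually_all (Finset.range N)).2 h1
      filter_upwards [h2] with k hk
      by_contra hcon
      exact hk (i k) (Finset.mem_range.2 (by omega)) rfl
    -- the coordinates of `y`
    have hycoord : ∀ m, y.1 (φ m) = 0 ∨ y.1 (φ m) = 1 / 4 := by
      intro m
      have h1 := tendsto_coord p hp x y hy (φ m)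
      have h2 : y.1 (φ m) ∈ ({0, 1 / 4} : Set ℝ) := by
        refine IsClosed.mem_of_tendsto (Set.Finite.isClosed (by simp)) h1 ?_
        filter_upwards [htend (m + 1)] with k hk
        rw [← hi k, pt_coord]
        have : m < ks (i k) := by unfold ks; omega
        unfold zc xc
        rw [if_pos this, add_zero]
        split_ifs <;> simp
      simpa using h2
    have hlt : ∀ᶠ k in atTop, rho p (fun j => (x k).1 j - y.1 j) < 1 :=
      hy.eventually (gt_mem_nhds one_pos)
    obtain ⟨K, hK⟩ := eventually_atTop.1 hlt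
    -- the tail of `y` is the tail of `sq (i k)`
    have htail : ∀ k ≥ K, ∀ m, ks (i k) ≤ m → (sq (i k) m = true ↔ y.1 (φ m) = 1 / 4) := by
      intro k hk m hm
      have h1 := rho_lt_one p _ (hK k hk) (φ m) (by linarith [hp (φ m)])
      rw [← hi k, pt_coord] at h1
      have hm' : ¬ m < ks (i k) := by omega
      rw [abs_lt] at h1
      cases hb : sq (i k) m with
      | false =>
        simp only [xc, zc, hb, if_neg hm'] at h1
        refine ⟨fun h' => by simp at h', fun h' => ?_⟩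
        rw [h'] at h1
        norm_num at h1
      | true =>
        refine ⟨fun _ => ?_, fun _ => rfl⟩
        rcases hycoord m with h | h
        · simp only [xc, zc, hb, if_neg hm'] at h1
          rw [h] at h1
          norm_num at h1
        · exact h
    obtain ⟨l, hl⟩ := eventually_atTop.1 (htend (i K + 1))
    have hne : i K ≠ i (max l K) := by
      have := hl (max l K) (le_max_left _ _)
      omega
    obtain ⟨m, hm, hm'⟩ := sq_ne _ _ hne (ks (i K) + ks (i (max l K)))
    apply hm'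
    have h1 := htail K le_rfl m (by omega)
    have h2 := htail (max l K) (le_max_right _ _) m (by omega)
    rw [Bool.eq_iff_iff, h1, h2]

/-- the zero element -/
def zeroEl : El p := E p hp φ hφ hpφ (fun _ => 0) (fun _ => by simp)

lemma zeroEl_coord (m : ℕ) : (zeroEl p hp φ hφ hpφ).1 (φ m) = 0 := by
  change Function.extend φ (fun _ => (0 : ℝ)) 0 (φ m) = _
  rw [hφ.injective.extend_apply]

lemma zero_notMem : zeroEl p hp φ hφ hpφ ∉ Fset p hp φ hφ hpφ := by
  rintro ⟨i, hi⟩
  have h1 := congrArg (fun a : El p => a.1 (φ (ks i))) hi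
  simp only [pt_coord, zeroEl_coord] at h1
  unfold zc xc at h1
  rw [if_neg (lt_irrefl _)] at h1
  split_ifs at h1 <;> norm_num at h1

/-- erase the first `k0` entries -/
def cut (k0 : ℕ) (S : ℕ → Bool) (m : ℕ) : Bool := if m < k0 then false else S m

include hp hφ hpφ in
lemma rho_xc_diff (S S' : ℕ → Bool) (c : ℕ → ℝ) (M : ℕ) (h : ∀ m < M, S m = S' m)
    (hc : ∀ m, c m = xc S m - xc S' m) :
    rho p (Function.extend φ c 0) ≤ ENNReal.ofReal ((1 / 4) ^ M / (1 - 1 / 4)) := by
  refine rho_extend_le p hp φ hφ hpφ c (1 / 4) (by norm_num) (by norm_num) M (fun m hm => ?_)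
    (fun m _ => ?_)
  · rw [hc, xc, xc, h m hm, sub_self]
  · rw [hc, xc, xc]
    split_ifs <;> norm_num [abs_le]

lemma tendsto_bound (t : ℝ) (ht0 : 0 ≤ t) (ht1 : t < 1) :
    Tendsto (fun M : ℕ => ENNReal.ofReal (t ^ M / (1 - t))) atTop (𝓝 0) := by
  have h1 : Tendsto (fun M : ℕ => t ^ M / (1 - t)) atTop (𝓝 (0 / (1 - t))) :=
    (tendsto_pow_atTop_nhds_zero_of_lt_one ht0 ht1).div_const _
  rw [zero_div] at h1
  have h2 := ENNReal.tendsto_ofReal h1
  rwa [ENNReal.ofReal_zero] at h2

theorem main (U V : Set (El p)) (hU : IsOpen[modTop p] U) (hV : IsOpen[modTop p] V)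
    (h0 : zeroEl p hp φ hφ hpφ ∈ U) (hFV : Fset p hp φ hφ hpφ ⊆ V) : ¬ Disjoint U V := by
  -- a ball around zero
  obtain ⟨n0, hn0⟩ := exists_ball p U hU _ h0
  obtain ⟨k0, hk0⟩ := ((tendsto_bound (1 / 4) (by norm_num) (by norm_num)).eventually
    (gt_mem_nhds (show (0 : ℝ≥0∞) < ((n0 : ℝ≥0∞) + 1)⁻¹ by simp))).exists
  have hcutU : ∀ S, px p hp φ hφ hpφ (cut k0 S) ∈ U := by
    intro S
    refine hn0 _ (lt_of_le_of_lt ?_ hk0)
    unfold px zeroEl
    rw [E_sub]
    exact rho_xc_diff p hp φ hφ hpφ (cut k0 S) (fun _ => false) _ k0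
      (fun m hm => by simp [cut, hm]) (fun m => by simp [xc])
  -- Baire category
  let Tn : ℕ → Set (ℕ → Bool) := fun n => {S | ∀ y : El p,
    rho p (fun j => y.1 j - (px p hp φ hφ hpφ (cut k0 S)).1 j) < (((n : ℝ≥0∞) + 1)⁻¹) → y ∈ U}
  have hcover : ⋃ n, closure (Tn n) = Set.univ := by
    rw [Set.eq_univ_iff_forall]
    intro S
    obtain ⟨n, hn⟩ := exists_ball p U hU _ (hcutU S)
    exact Set.mem_iUnion.2 ⟨n, subset_closure hn⟩
  obtain ⟨n, S0, hS0⟩ := nonempty_interior_of_iUnion_of_closed (fun n => isClosed_closure) hcover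
  -- a cylinder
  obtain ⟨L, hL⟩ : ∃ L : ℕ, ∀ S : ℕ → Bool, (∀ m < L, S m = S0 m) → S ∈ closure (Tn n) := by
    have h1 : interior (closure (Tn n)) ∈ 𝓝 S0 := isOpen_interior.mem_nhds hS0
    rw [nhds_pi, Filter.mem_pi] at h1
    obtain ⟨I, hI, t, ht, hsub⟩ := h1
    obtain ⟨L, hL⟩ := hI.bddAbove
    refine ⟨L + 1, fun S hS => interior_subset (hsub ?_)⟩
    intro m hm
    have := hS m (Nat.lt_succ_of_le (hL hm))
    rw [this]
    exact mem_of_mem_nhds (ht m)
  -- choice of the index
  obtain ⟨n', hn'⟩ := ((tendsto_bound (7 / 8) (by norm_num) (by norm_num)).eventually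
    (gt_mem_nhds (show (0 : ℝ≥0∞) < ((n : ℝ≥0∞) + 1)⁻¹ by simp))).exists
  obtain ⟨i, hi⟩ := enum_surj ((Finset.range (L + k0)).filter (fun m => k0 ≤ m ∧ S0 m = true),
    L + k0, n')
  have hsq : ∀ m < L + k0, sq i m = cut k0 S0 m := by
    intro m hm
    unfold sq cut
    rw [hi]
    simp only [hm, if_true, Finset.mem_filter, Finset.mem_range, true_and]
    by_cases h : m < k0
    · simp [h]
    · rw [if_neg h]
      have : k0 ≤ m := by omega
      simp [this]
  let S1 : ℕ → Bool := fun m => if m < k0 then S0 m else sq i m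
  have hcutS1 : ∀ m, cut k0 S1 m = sq i m := by
    intro m
    unfold cut
    by_cases h : m < k0
    · rw [if_pos h, hsq m (by omega)]
      unfold cut
      rw [if_pos h]
    · rw [if_neg h]
      simp [S1, h]
  have hS1 : S1 ∈ closure (Tn n) := by
    apply hL
    intro m hm
    by_cases h : m < k0
    · simp [S1, h]
    · simp only [S1, if_neg h]
      rw [hsq m (by omega)]
      unfold cut
      rw [if_neg h]
  -- a ball around the point of `F`
  obtain ⟨nV, hnV⟩ := exists_ball p V hV (pt p hp φ hφ hpφ (sq i) i) (hFV ⟨i, rfl⟩)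
  obtain ⟨M, hM⟩ := ((tendsto_bound (1 / 4) (by norm_num) (by norm_num)).eventually
    (gt_mem_nhds (show (0 : ℝ≥0∞) < ((nV : ℝ≥0∞) + 1)⁻¹ by simp))).exists
  obtain ⟨S2, hS2, hS2'⟩ : ∃ S2 ∈ Tn n, ∀ m < M, S2 m = S1 m := by
    have hopen : IsOpen {S : ℕ → Bool | ∀ m < M, S m = S1 m} := by
      have : {S : ℕ → Bool | ∀ m < M, S m = S1 m} =
          ⋂ m ∈ Finset.range M, {S : ℕ → Bool | S m = S1 m} := by
        ext S
        simp
      rw [this]
      refine isOpen_biInter_finset fun m _ => ?_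
      have hc : Continuous fun S : ℕ → Bool => S m := continuous_apply m
      exact (isOpen_discrete ({S1 m} : Set Bool)).preimage hc
    obtain ⟨S2, h2, h2'⟩ := mem_closure_iff.1 hS1 _ hopen (fun m _ => rfl)
    exact ⟨S2, h2', h2⟩
  rw [Set.not_disjoint_iff]
  refine ⟨pt p hp φ hφ hpφ (cut k0 S2) i, ?_, ?_⟩
  · refine hS2 _ (lt_of_le_of_lt ?_ hn')
    unfold pt px
    rw [E_sub]
    refine rho_extend_le p hp φ hφ hpφ _ (7 / 8) (by norm_num) (by norm_num) n' (fun m hm => ?_)
      (fun m _ => ?_)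
    · have : m < ks i := by
        unfold ks
        rw [hi]
        simp only
        omega
      simp [zc, this]
    · simpa using abs_zc_le i m
  · refine hnV _ (lt_of_le_of_lt ?_ hM)
    unfold pt
    rw [E_sub]
    refine rho_xc_diff p hp φ hφ hpφ (cut k0 S2) (sq i) _ M (fun m hm => ?_) (fun m => by ring)
    rw [← hcutS1 m]
    unfold cut
    split_ifs
    · rfl
    · exact hS2' m hm

end main

/-- an unbounded sequence has a subsequence with `i ≤ p (φ i)` -/
lemma exists_sub (p : ℕ → ℝ) (h : ¬ BddAbove (Set.range p)) :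
    ∃ φ : ℕ → ℕ, StrictMono φ ∧ ∀ i : ℕ, (i : ℝ) ≤ p (φ i) := by
  have h1 : ∀ N : ℕ, ∃ᶠ k in atTop, (N : ℝ) ≤ p k := by
    intro N
    rw [Filter.frequently_atTop]
    intro a
    by_contra hcon
    push Not at hcon
    apply h
    refine ⟨N + ∑ k ∈ Finset.range a, |p k|, ?_⟩
    rintro _ ⟨k, rfl⟩
    by_cases hk : k < a
    · have h2 := Finset.single_le_sum (f := fun k => |p k|) (fun k _ => abs_nonneg _)
        (Finset.mem_range.2 hk)
      have h3 := le_abs_self (p k)
      have h4 : (0 : ℝ) ≤ N := by positivity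
      linarith
    · have h2 := hcon k (by omega)
      have h3 : 0 ≤ ∑ k ∈ Finset.range a, |p k| := Finset.sum_nonneg fun k _ => abs_nonneg _
      linarith
  exact extraction_forall_of_frequently h1

end

end Pool.Agent.R232.ModTop
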