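import Mathlib

/-!
Orders of vanishing at the origin of monomial maps, and of the iterates of the monomial map
`(x, y, z) ↦ (x z, x ^ 2 y, y ^ 2 z ^ 2)`.
-/

set_option autoImplicit false

open Finset

namespace Pool.Agent.R232.OrderMono

/-- smooth functions all of whose derivatives of order less than `d` vanish at the origin -/
def Van {ι : Type} [Fintype ι] (d : ℕ) (g : (ι → ℂ) → ℂ) : Prop :=
  ContDiff ℂ (⊤ : ℕ∞) g ∧ ∀ i < d, iteratedFDeriv ℂ i g 0 = 0

variable {ι : Type} [Fintype ι]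

lemma Van.mul {d e : ℕ} {g h : (ι → ℂ) → ℂ} (hg : Van d g) (hh : Van e h) :
    Van (d + e) (fun z => g z * h z) := by
  refine ⟨hg.1.mul hh.1, fun n hn => ?_⟩
  have h1 := norm_iteratedFDeriv_mul_le (N := ((⊤ : ℕ∞) : WithTop ℕ∞)) hg.1 hh.1 (0 : ι → ℂ)
    (n := n) (by exact_mod_cast le_top)
  have h2 : ∑ i ∈ Finset.range (n + 1),
      (n.choose i : ℝ) * ‖iteratedFDeriv ℂ i g 0‖ * ‖iteratedFDeriv ℂ (n - i) h 0‖ = 0 := by
    refine Finset.sum_eq_zero fun i hi => ?_
    by_cases hid : i < d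
    · rw [hg.2 i hid, norm_zero]; ring
    · rw [hh.2 (n - i) (by have := Finset.mem_range.1 hi; omega), norm_zero]; ring
  rw [h2] at h1
  exact norm_le_zero_iff.1 h1

lemma van_one : Van 0 (fun _ : ι → ℂ => (1 : ℂ)) := ⟨contDiff_const, fun i hi => by omega⟩

lemma van_coord (j : ι) : Van 1 (fun z : ι → ℂ => z j) := by
  refine ⟨contDiff_apply ℂ ℂ j, fun i hi => ?_⟩
  have : i = 0 := by omega
  subst this
  ext m
  simp

lemma van_pow (j : ι) (a : ℕ) : Van a (fun z : ι → ℂ => z j ^ a) := by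
  induction a with
  | zero => simpa using van_one (ι := ι)
  | succ a ih =>
    have := ih.mul (van_coord j)
    simpa [pow_succ] using this

/-- Order of a map with monomial coordinates. -/
lemma order_eq {κ : Type} [Fintype κ] (F : (Fin 3 → ℂ) → (κ → ℂ)) (e : κ → Fin 3 → ℕ)
    (hF : ∀ z i, F z i = z 0 ^ e i 0 * z 1 ^ e i 1 * z 2 ^ e i 2) (m : ℕ)
    (hm : ∀ i, m ≤ e i 0 + e i 1 + e i 2) (i₀ : κ) (hi₀ : e i₀ 0 + e i₀ 1 + e i₀ 2 = m) :
    sInf {m : ℕ | iteratedFDeriv ℂ m F 0 ≠ 0} = m := by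
  have hvan : ∀ i, Van (e i 0 + e i 1 + e i 2) (fun z => F z i) := by
    intro i
    have := ((van_pow (0 : Fin 3) (e i 0)).mul (van_pow 1 (e i 1))).mul (van_pow 2 (e i 2))
    simpa [hF] using this
  have hsm : ContDiff ℂ (⊤ : ℕ∞) F := contDiff_pi.2 fun i => (hvan i).1
  have hcomp : ∀ i k, iteratedFDeriv ℂ k (fun z => F z i) 0 =
      (ContinuousLinearMap.proj (R := ℂ) (φ := fun _ : κ => ℂ) i).compContinuousMultilinearMap
        (iteratedFDeriv ℂ k F 0) := by
    intro i k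
    have := ContinuousLinearMap.iteratedFDeriv_comp_left (n := ((⊤ : ℕ∞) : WithTop ℕ∞))
      (ContinuousLinearMap.proj (R := ℂ) (φ := fun _ : κ => ℂ) i) (f := F) (x := 0) (i := k)
      hsm.contDiffAt (by exact_mod_cast le_top)
    exact this
  have hzero : ∀ k < m, iteratedFDeriv ℂ k F 0 = 0 := by
    intro k hk
    ext v i
    have h1 := hcomp i k
    rw [(hvan i).2 k (lt_of_lt_of_le hk (hm i))] at h1
    have h2 := congrArg (fun T => T v) h1
    simpa using h2.symm
  have hne : iteratedFDeriv ℂ m F 0 ≠ 0 := by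
    intro h0
    have h1 := hcomp i₀ m
    rw [h0] at h1
    have h1' : iteratedFDeriv ℂ m (fun z => F z i₀) 0 = 0 := by
      rw [h1]; ext v; simp
    set L : ℂ →L[ℂ] (Fin 3 → ℂ) := ContinuousLinearMap.pi fun _ => ContinuousLinearMap.id ℂ ℂ
      with hL
    have h2 := ContinuousLinearMap.iteratedFDeriv_comp_right (n := ((⊤ : ℕ∞) : WithTop ℕ∞)) L
      (f := fun z => F z i₀) (hvan i₀).1 0 (i := m) (by exact_mod_cast le_top)
    rw [map_zero, h1'] at h2
    have h3 : (fun z => F z i₀) ∘ L = fun t : ℂ => t ^ m := by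
      funext t
      simp only [Function.comp_apply, hF, hL, ContinuousLinearMap.coe_pi',
        ContinuousLinearMap.coe_id', id_eq]
      rw [← hi₀, pow_add, pow_add]
    rw [h3] at h2
    have h4 : iteratedDeriv m (fun t : ℂ => t ^ m) 0 = 0 := by
      rw [iteratedDeriv_eq_iteratedFDeriv, h2]
      simp
    rw [iteratedDeriv_fun_pow_zero, if_pos rfl] at h4
    exact Nat.factorial_ne_zero m (by exact_mod_cast h4)
  apply le_antisymm
  · exact Nat.sInf_le hne
  · apply le_csInf ⟨m, hne⟩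
    intro k hk
    by_contra hlt
    exact hk (hzero k (by omega))

/-- The monomial map `(x, y, z) ↦ (x z, x ^ 2 y, y ^ 2 z ^ 2)`. -/
def f (z : Fin 3 → ℂ) : Fin 3 → ℂ := ![z 0 * z 2, z 0 ^ 2 * z 1, z 1 ^ 2 * z 2 ^ 2]

/-- Exponents of the iterates. -/
def E : ℕ → Fin 3 → Fin 3 → ℕ
  | 0 => fun i j => if i = j then 1 else 0
  | k + 1 => ![fun j => E k 0 j + E k 2 j, fun j => 2 * E k 0 j + E k 1 j,
      fun j => 2 * E k 1 j + 2 * E k 2 j]

lemma iterate_eq (k : ℕ) (z : Fin 3 → ℂ) (i : Fin 3) :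
    f^[k] z i = z 0 ^ E k i 0 * z 1 ^ E k i 1 * z 2 ^ E k i 2 := by
  induction k generalizing i with
  | zero => fin_cases i <;> simp [E]
  | succ k ih =>
    rw [Function.iterate_succ_apply']
    fin_cases i
    · change f^[k] z 0 * f^[k] z 2 = _
      rw [ih, ih]
      simp only [E]
      simp [pow_add]
      ring
    · change f^[k] z 0 ^ 2 * f^[k] z 1 = _
      rw [ih, ih]
      simp only [E]
      simp [pow_add, pow_mul]
      ring
    · change f^[k] z 1 ^ 2 * f^[k] z 2 ^ 2 = _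
      rw [ih, ih]
      simp only [E]
      simp [pow_add, pow_mul]
      ring

/-- The degrees of the coordinates of the iterates. -/
def X : ℕ → ℕ × ℕ × ℕ
  | 0 => (1, 1, 1)
  | k + 1 => ((X k).1 + (X k).2.2, 2 * (X k).1 + (X k).2.1, 2 * (X k).2.1 + 2 * (X k).2.2)

lemma E_sum (k : ℕ) : E k 0 0 + E k 0 1 + E k 0 2 = (X k).1 ∧
    E k 1 0 + E k 1 1 + E k 1 2 = (X k).2.1 ∧ E k 2 0 + E k 2 1 + E k 2 2 = (X k).2.2 := by
  induction k with
  | zero => simp [E, X]
  | succ k ih =>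
    obtain ⟨h0, h1, h2⟩ := ih
    refine ⟨?_, ?_, ?_⟩
    · simp [E, X]; omega
    · simp [E, X]; omega
    · simp [E, X]; omega

lemma X_le (k : ℕ) : (X k).1 ≤ (X k).2.2 := by
  induction k with
  | zero => simp [X]
  | succ k ih => simp only [X]; omega

lemma X_pos (k : ℕ) : 0 < (X k).1 ∧ 0 < (X k).2.1 := by
  induction k with
  | zero => simp [X]
  | succ k ih => simp only [X]; omega

lemma X_parity (k : ℕ) : (X (k + 1)).1 % 2 = 0 ∧ (X (k + 1)).2.1 % 2 = 1 ∧
    (X (k + 1)).2.2 % 2 = 0 := by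
  induction k with
  | zero => simp [X]
  | succ k ih =>
    have h : X (k + 1 + 1) = ((X (k + 1)).1 + (X (k + 1)).2.2,
      2 * (X (k + 1)).1 + (X (k + 1)).2.1, 2 * (X (k + 1)).2.1 + 2 * (X (k + 1)).2.2) := rfl
    rw [h]
    simp only
    omega

lemma order_iterate (k : ℕ) :
    sInf {m : ℕ | iteratedFDeriv ℂ m (f^[k]) 0 ≠ 0} = min (X k).1 (X k).2.1 := by
  obtain ⟨h0, h1, h2⟩ := E_sum k
  have h3 := X_le k
  rcases le_total (X k).1 (X k).2.1 with h | h
  · refine order_eq (f^[k]) (E k) (fun z i => iterate_eq k z i) _ ?_ 0 ?_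
    · intro i
      fin_cases i
      · simp only [Fin.zero_eta]; omega
      · simp only [Fin.mk_one]; omega
      · simp only [Fin.reduceFinMk]; omega
    · omega
  · refine order_eq (f^[k]) (E k) (fun z i => iterate_eq k z i) _ ?_ 1 ?_
    · intro i
      fin_cases i
      · simp only [Fin.zero_eta]; omega
      · simp only [Fin.mk_one]; omega
      · simp only [Fin.reduceFinMk]; omega
    · omega

end Pool.Agent.R232.OrderMono
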