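import Mathlib

/-! Contraction semigroups and the weak metric `d` (MP_eb8260_an). -/

namespace Pool.Agent.R232.SB

open scoped NNReal InnerProductSpace
open Filter Topology

noncomputable section

variable {H : Type*} [NormedAddCommGroup H] [InnerProductSpace ℂ H]

/-- A contraction `C₀`-semigroup on `H`. -/
@[ext]
structure CSemi (H : Type*) [NormedAddCommGroup H] [InnerProductSpace ℂ H] where
  /-- the operators `T(t)`, `t ≥ 0` -/
  T : ℝ≥0 → (H →L[ℂ] H)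
  map_zero : T 0 = 1
  map_add : ∀ s t, T (s + t) = T s * T t
  cont : ∀ y, Continuous fun t => T t y
  contr : ∀ t, ‖T t‖ ≤ 1

/-- `sup_{0 ≤ t ≤ n+1} |⟨(T(t) - S(t)) x_i, x_j⟩| / (‖x_i‖ ‖x_j‖)`. -/
def gap (x : ℕ → H) (T S : CSemi H) (n i j : ℕ) : ℝ :=
  sSup ((fun t : ℝ≥0 => ‖⟪(T.T t - S.T t) (x i), x j⟫_ℂ‖) '' Set.Iic ((n : ℝ≥0) + 1))
    / (‖x i‖ * ‖x j‖)

/-- The distance `d(T,S)` of the problem (with the indices `n, i, j ≥ 1` shifted by one). -/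
def dsg (x : ℕ → H) (T S : CSemi H) : ℝ :=
  ∑' p : ℕ × ℕ × ℕ, (1 / 2 : ℝ) ^ ((p.2.1 + 1) + (p.2.2 + 1) + (p.1 + 1)) * gap x T S p.1 p.2.1 p.2.2

lemma norm_apply_le (T : CSemi H) (t : ℝ≥0) (y : H) : ‖T.T t y‖ ≤ ‖y‖ := by
  have h := (T.T t).le_opNorm y
  have h2 := T.contr t
  nlinarith [norm_nonneg y, norm_nonneg (T.T t y)]

lemma inner_le (T S : CSemi H) (t : ℝ≥0) (y z : H) :
    ‖⟪(T.T t - S.T t) y, z⟫_ℂ‖ ≤ 2 * (‖y‖ * ‖z‖) := by
  have h1 : ‖(T.T t - S.T t) y‖ ≤ 2 * ‖y‖ := by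
    rw [_root_.sub_apply]
    refine (norm_sub_le _ _).trans ?_
    linarith [norm_apply_le T t y, norm_apply_le S t y]
  refine (norm_inner_le_norm _ _).trans ?_
  nlinarith [norm_nonneg z]

lemma bddAbove_gap (x : ℕ → H) (T S : CSemi H) (n i j : ℕ) :
    BddAbove ((fun t : ℝ≥0 => ‖⟪(T.T t - S.T t) (x i), x j⟫_ℂ‖) '' Set.Iic ((n : ℝ≥0) + 1)) := by
  refine ⟨2 * (‖x i‖ * ‖x j‖), ?_⟩
  rintro _ ⟨t, -, rfl⟩
  exact inner_le T S t _ _

lemma gap_nonneg (x : ℕ → H) (T S : CSemi H) (n i j : ℕ) : 0 ≤ gap x T S n i j := by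
  unfold gap
  refine div_nonneg (Real.sSup_nonneg ?_) (by positivity)
  rintro _ ⟨t, -, rfl⟩
  exact norm_nonneg _

lemma gap_le_two (x : ℕ → H) (hx : ∀ i, x i ≠ 0) (T S : CSemi H) (n i j : ℕ) :
    gap x T S n i j ≤ 2 := by
  unfold gap
  have hi := norm_pos_iff.2 (hx i)
  have hj := norm_pos_iff.2 (hx j)
  rw [div_le_iff₀ (by positivity)]
  refine Real.sSup_le ?_ (by positivity)
  rintro _ ⟨t, -, rfl⟩
  exact inner_le T S t _ _

lemma le_gap (x : ℕ → H) (hx : ∀ i, x i ≠ 0) (T S : CSemi H) (n i j : ℕ) (t : ℝ≥0)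
    (ht : t ≤ n + 1) :
    ‖⟪(T.T t - S.T t) (x i), x j⟫_ℂ‖ ≤ ‖x i‖ * ‖x j‖ * gap x T S n i j := by
  unfold gap
  have hi := norm_pos_iff.2 (hx i)
  have hj := norm_pos_iff.2 (hx j)
  rw [mul_div_cancel₀ _ (by positivity)]
  exact le_csSup (bddAbove_gap x T S n i j) ⟨t, ht, rfl⟩

lemma gap_le (x : ℕ → H) (hx : ∀ i, x i ≠ 0) (T S : CSemi H) (n i j : ℕ) (c : ℝ)
    (h : ∀ t : ℝ≥0, t ≤ n + 1 → ‖⟪(T.T t - S.T t) (x i), x j⟫_ℂ‖ ≤ c * (‖x i‖ * ‖x j‖))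
    (hc : 0 ≤ c) : gap x T S n i j ≤ c := by
  unfold gap
  have hi := norm_pos_iff.2 (hx i)
  have hj := norm_pos_iff.2 (hx j)
  rw [div_le_iff₀ (by positivity)]
  refine Real.sSup_le ?_ (by positivity)
  rintro _ ⟨t, ht, rfl⟩
  exact h t ht

/-- the weights -/
def wt (p : ℕ × ℕ × ℕ) : ℝ := (1 / 2 : ℝ) ^ ((p.2.1 + 1) + (p.2.2 + 1) + (p.1 + 1))

lemma wt_pos (p : ℕ × ℕ × ℕ) : 0 < wt p := by unfold wt; positivity

lemma summable_wt : Summable wt := by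
  have h := summable_geometric_two
  have h1 : Summable fun p : ℕ × ℕ => (1 / 2 : ℝ) ^ p.1 * (1 / 2 : ℝ) ^ p.2 :=
    h.mul_of_nonneg h (fun _ => by positivity) (fun _ => by positivity)
  have h2 : Summable fun p : ℕ × ℕ × ℕ =>
      (1 / 2 : ℝ) ^ p.1 * ((1 / 2 : ℝ) ^ p.2.1 * (1 / 2 : ℝ) ^ p.2.2) :=
    h.mul_of_nonneg h1 (fun _ => by positivity) (fun _ => by positivity)
  refine (h2.mul_left (1 / 8)).congr ?_
  intro p
  simp only [wt]
  ring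

lemma summable_dsg (x : ℕ → H) (hx : ∀ i, x i ≠ 0) (T S : CSemi H) :
    Summable fun p : ℕ × ℕ × ℕ => wt p * gap x T S p.1 p.2.1 p.2.2 := by
  refine Summable.of_nonneg_of_le (fun p => mul_nonneg (wt_pos p).le (gap_nonneg _ _ _ _ _ _))
    (fun p => mul_le_mul_of_nonneg_left (gap_le_two x hx T S _ _ _) (wt_pos p).le)
    (summable_wt.mul_right 2)

lemma dsg_eq (x : ℕ → H) (T S : CSemi H) :
    dsg x T S = ∑' p : ℕ × ℕ × ℕ, wt p * gap x T S p.1 p.2.1 p.2.2 := rfl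

lemma wt_mul_gap_le (x : ℕ → H) (hx : ∀ i, x i ≠ 0) (T S : CSemi H) (p : ℕ × ℕ × ℕ) :
    wt p * gap x T S p.1 p.2.1 p.2.2 ≤ dsg x T S := by
  rw [dsg_eq]
  exact (summable_dsg x hx T S).le_tsum p
    (fun q _ => mul_nonneg (wt_pos q).le (gap_nonneg _ _ _ _ _ _))

lemma dsg_nonneg (x : ℕ → H) (T S : CSemi H) : 0 ≤ dsg x T S := by
  rw [dsg_eq]
  exact tsum_nonneg fun p => mul_nonneg (wt_pos p).le (gap_nonneg _ _ _ _ _ _)

lemma dsg_self (x : ℕ → H) (T : CSemi H) : dsg x T T = 0 := by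
  rw [dsg_eq]
  have : ∀ p : ℕ × ℕ × ℕ, wt p * gap x T T p.1 p.2.1 p.2.2 = 0 := by
    intro p
    have h0 : gap x T T p.1 p.2.1 p.2.2 = 0 := by
      unfold gap
      have : ((fun t : ℝ≥0 => ‖⟪(T.T t - T.T t) (x p.2.1), x p.2.2⟫_ℂ‖) ''
          Set.Iic ((p.1 : ℝ≥0) + 1)) = {0} := by
        simp only [sub_self, _root_.zero_apply, inner_zero_left, norm_zero]
        exact Set.Nonempty.image_const ⟨0, by simp⟩ _
      rw [this]
      simp
    rw [h0, mul_zero]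
  simp [this]

lemma dsg_comm (x : ℕ → H) (T S : CSemi H) : dsg x T S = dsg x S T := by
  rw [dsg_eq, dsg_eq]
  congr 1
  ext p
  unfold gap
  have : ∀ t : ℝ≥0, ‖⟪(T.T t - S.T t) (x p.2.1), x p.2.2⟫_ℂ‖ =
      ‖⟪(S.T t - T.T t) (x p.2.1), x p.2.2⟫_ℂ‖ := by
    intro t
    rw [← neg_sub (S.T t) (T.T t), _root_.neg_apply, inner_neg_left, norm_neg]
  simp only [this]

lemma dsg_triangle (x : ℕ → H) (hx : ∀ i, x i ≠ 0) (T S R : CSemi H) :
    dsg x T R ≤ dsg x T S + dsg x S R := by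
  rw [dsg_eq, dsg_eq, dsg_eq, ← (summable_dsg x hx T S).tsum_add (summable_dsg x hx S R)]
  refine (summable_dsg x hx T R).tsum_le_tsum ?_
    ((summable_dsg x hx T S).add (summable_dsg x hx S R))
  intro p
  rw [← mul_add]
  refine mul_le_mul_of_nonneg_left ?_ (wt_pos p).le
  refine gap_le x hx T R _ _ _ _ ?_ (add_nonneg (gap_nonneg _ _ _ _ _ _) (gap_nonneg _ _ _ _ _ _))
  intro t ht
  have h1 := le_gap x hx T S p.1 p.2.1 p.2.2 t ht
  have h2 := le_gap x hx S R p.1 p.2.1 p.2.2 t ht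
  have h3 : (T.T t - R.T t) (x p.2.1) = (T.T t - S.T t) (x p.2.1) + (S.T t - R.T t) (x p.2.1) := by
    simp only [_root_.sub_apply]
    abel
  rw [h3, inner_add_left]
  refine (norm_add_le _ _).trans ?_
  linarith

lemma eq_of_dsg (x : ℕ → H) (hx : ∀ i, x i ≠ 0) (hd : DenseRange x) (T S : CSemi H)
    (h : dsg x T S = 0) : T = S := by
  have h1 : ∀ (t : ℝ≥0) i j, ⟪(T.T t - S.T t) (x i), x j⟫_ℂ = 0 := by
    intro t i j
    obtain ⟨n, hn⟩ := exists_nat_ge t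
    have h2 := wt_mul_gap_le x hx T S (n, i, j)
    rw [h] at h2
    have h3 : gap x T S n i j ≤ 0 := by
      by_contra hcon
      push Not at hcon
      have := mul_pos (wt_pos (n, i, j)) hcon
      simp only at h2
      linarith
    have h4 := le_gap x hx T S n i j t (hn.trans (by simp))
    have h5 : ‖x i‖ * ‖x j‖ * gap x T S n i j ≤ 0 :=
      mul_nonpos_of_nonneg_of_nonpos (by positivity) h3
    exact norm_le_zero_iff.1 (h4.trans h5)
  ext t y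
  have h2 : ∀ i, (T.T t - S.T t) (x i) = 0 := by
    intro i
    have h3 : (fun z => ⟪(T.T t - S.T t) (x i), z⟫_ℂ) = fun _ => 0 :=
      hd.equalizer (by fun_prop) (by fun_prop) (by ext j; exact h1 t i j)
    have h4 := congrFun h3 ((T.T t - S.T t) (x i))
    simpa using h4
  have h5 : (fun y => (T.T t - S.T t) y) = fun _ => 0 :=
    hd.equalizer (by fun_prop) (by fun_prop) (by ext j; exact h2 j)
  have h6 := congrFun h5 y
  rw [_root_.sub_apply, sub_eq_zero] at h6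
  exact h6

/-- The metric space `(𝒞^cont, d)`. -/
@[reducible]
def metric (x : ℕ → H) (hx : ∀ i, x i ≠ 0) (hd : DenseRange x) : MetricSpace (CSemi H) where
  dist := dsg x
  dist_self := dsg_self x
  dist_comm := dsg_comm x
  dist_triangle := dsg_triangle x hx
  eq_of_dist_eq_zero := fun {S T} h => eq_of_dsg x hx hd S T h

/-- weak closeness -/
def Wk (x : ℕ → H) (T : CSemi H) (N : ℕ) (e : ℝ) (S : CSemi H) : Prop :=
  ∀ i ≤ N, ∀ j ≤ N, ∀ t : ℝ≥0, t ≤ N → ‖⟪(T.T t - S.T t) (x i), x j⟫_ℂ‖ ≤ e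

/-- strong closeness -/
def St (x : ℕ → H) (T : CSemi H) (N : ℕ) (e : ℝ) (S : CSemi H) : Prop :=
  ∀ i ≤ N, ∀ t : ℝ≥0, t ≤ N → ‖(T.T t - S.T t) (x i)‖ ≤ e

/-- `d`-balls contain weak neighbourhoods, uniformly -/
lemma exists_wk_dsg (x : ℕ → H) (hx : ∀ i, x i ≠ 0) {e : ℝ} (he : 0 < e) :
    ∃ N : ℕ, ∃ e' > 0, ∀ T S : CSemi H, Wk x T N e' S → dsg x T S < e := by
  -- choose a finite set carrying all but `e/4` of the weights
  obtain ⟨s, hs⟩ := summable_iff_vanishing_norm.1 summable_wt (e / 8) (by linarith)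
  obtain ⟨N, hN⟩ : ∃ N : ℕ, ∀ p ∈ s, p.1 + 1 ≤ N ∧ p.2.1 ≤ N ∧ p.2.2 ≤ N := by
    refine ⟨s.sup (fun p => (p.1 + 1) + p.2.1 + p.2.2), ?_⟩
    intro p hp
    have := Finset.le_sup (f := fun p : ℕ × ℕ × ℕ => (p.1 + 1) + p.2.1 + p.2.2) hp
    omega
  have hW : 0 ≤ ∑' p, wt p := tsum_nonneg fun p => (wt_pos p).le
  -- a lower bound for the norms products
  obtain ⟨m, hm, hm'⟩ : ∃ m : ℝ, 0 < m ∧ ∀ p ∈ s, m ≤ ‖x p.2.1‖ * ‖x p.2.2‖ := by
    rcases s.eq_empty_or_nonempty with h | h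
    · exact ⟨1, one_pos, by simp [h]⟩
    · obtain ⟨q, hq, hq'⟩ := s.exists_min_image (fun p => ‖x p.2.1‖ * ‖x p.2.2‖) h
      exact ⟨_, mul_pos (norm_pos_iff.2 (hx _)) (norm_pos_iff.2 (hx _)), hq'⟩
  refine ⟨N, m * (e / (4 * (1 + ∑' p, wt p))), by positivity, ?_⟩
  intro T S hTS
  have hgap : ∀ p ∈ s, gap x T S p.1 p.2.1 p.2.2 ≤ e / (4 * (1 + ∑' p, wt p)) := by
    intro p hp
    refine gap_le x hx T S _ _ _ _ ?_ (by positivity)
    intro t ht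
    have h1 := hTS p.2.1 (hN p hp).2.1 p.2.2 (hN p hp).2.2 t
      (ht.trans (by exact_mod_cast (hN p hp).1))
    refine h1.trans ?_
    rw [mul_comm]
    exact mul_le_mul_of_nonneg_left (hm' p hp) (by positivity)
  have hsum := summable_dsg x hx T S
  have h1 : ∑ p ∈ s, wt p * gap x T S p.1 p.2.1 p.2.2 ≤ e / 4 := by
    calc ∑ p ∈ s, wt p * gap x T S p.1 p.2.1 p.2.2
        ≤ ∑ p ∈ s, wt p * (e / (4 * (1 + ∑' p, wt p))) :=
          Finset.sum_le_sum fun p hp => mul_le_mul_of_nonneg_left (hgap p hp) (wt_pos p).le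
      _ = (∑ p ∈ s, wt p) * (e / (4 * (1 + ∑' p, wt p))) := by rw [Finset.sum_mul]
      _ ≤ (1 + ∑' p, wt p) * (e / (4 * (1 + ∑' p, wt p))) := by
          refine mul_le_mul_of_nonneg_right ?_ (by positivity)
          linarith [summable_wt.sum_le_tsum s (fun p _ => (wt_pos p).le)]
      _ = e / 4 := by
          field_simp
  have h2 : ∀ u : Finset (ℕ × ℕ × ℕ), ∑ p ∈ u, wt p * gap x T S p.1 p.2.1 p.2.2 ≤ e / 2 := by
    intro u
    rw [← Finset.sum_inter_add_sum_sdiff u s]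
    have h3 : ∑ p ∈ u ∩ s, wt p * gap x T S p.1 p.2.1 p.2.2 ≤ e / 4 :=
      (Finset.sum_le_sum_of_subset_of_nonneg Finset.inter_subset_right
        (fun p _ _ => mul_nonneg (wt_pos p).le (gap_nonneg _ _ _ _ _ _))).trans h1
    have h4 : ∑ p ∈ u \ s, wt p * gap x T S p.1 p.2.1 p.2.2 ≤ e / 4 := by
      have h5 := hs (u \ s) Finset.sdiff_disjoint
      rw [Real.norm_eq_abs] at h5
      have h6 := (abs_lt.1 h5).2
      have h7 : ∑ p ∈ u \ s, wt p * gap x T S p.1 p.2.1 p.2.2 ≤ ∑ p ∈ u \ s, wt p * 2 :=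
        Finset.sum_le_sum fun p _ =>
          mul_le_mul_of_nonneg_left (gap_le_two x hx T S _ _ _) (wt_pos p).le
      rw [← Finset.sum_mul] at h7
      linarith
    linarith
  have h3 : dsg x T S ≤ e / 2 := by
    rw [dsg_eq]
    exact hsum.tsum_le_of_sum_le h2
  linarith

/-- weak neighbourhoods contain `d`-balls, uniformly -/
lemma exists_dsg_wk (x : ℕ → H) (hx : ∀ i, x i ≠ 0) (N : ℕ) {e : ℝ} (he : 0 < e) :
    ∃ r > 0, ∀ T S : CSemi H, dsg x T S < r → Wk x T N e S := by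
  -- a lower bound for the weights divided by the norms
  let q : ℕ × ℕ → ℝ := fun p => wt (N, p.1, p.2) * e / (‖x p.1‖ * ‖x p.2‖)
  obtain ⟨p0, hp0, hmin⟩ := (Finset.range (N + 1) ×ˢ Finset.range (N + 1)).exists_min_image q
    ⟨(0, 0), by simp⟩
  have hqpos : ∀ p, 0 < q p := fun p =>
    div_pos (mul_pos (wt_pos _) he) (mul_pos (norm_pos_iff.2 (hx _)) (norm_pos_iff.2 (hx _)))
  refine ⟨q p0, hqpos p0, ?_⟩
  intro T S hTS i hi j hj t ht
  have h1 := le_gap x hx T S N i j t (ht.trans (by simp))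
  have h2 := wt_mul_gap_le x hx T S (N, i, j)
  simp only at h2
  have h3 := hmin (i, j) (by simp; omega)
  have h4 : wt (N, i, j) * gap x T S N i j < wt (N, i, j) * e / (‖x i‖ * ‖x j‖) :=
    lt_of_le_of_lt h2 (lt_of_lt_of_le hTS h3)
  rw [mul_div_assoc] at h4
  have h5 := lt_of_mul_lt_mul_left h4 (wt_pos _).le
  have hp : 0 < ‖x i‖ * ‖x j‖ := mul_pos (norm_pos_iff.2 (hx _)) (norm_pos_iff.2 (hx _))
  rw [lt_div_iff₀ hp] at h5
  rw [mul_comm] at h1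
  linarith

end

end Pool.Agent.R232.SB
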