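import Pool.Agent.R232.SBLog

/-! Finite dimensional Schäffer dilation (MP_eb8260_an). -/

namespace Pool.Agent.R232.SB

open scoped InnerProductSpace
open Filter Topology

noncomputable section

section fin

variable {F : Type*} [NormedAddCommGroup F] [InnerProductSpace ℂ F] [FiniteDimensional ℂ F]

lemma exists_defect (A : F →L[ℂ] F) (hA : ‖A‖ ≤ 1) :
    ∃ D : F →L[ℂ] F, ∀ u, ‖D u‖ ^ 2 = ‖u‖ ^ 2 - ‖A u‖ ^ 2 := by
  have : CompleteSpace F := FiniteDimensional.complete ℂ F
  have hP : (0 : F →L[ℂ] F) ≤ 1 - star A * A := by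
    rw [sub_nonneg]
    refine CStarAlgebra.star_mul_le_algebraMap_norm_sq.trans ?_
    rw [← map_one (algebraMap ℝ (F →L[ℂ] F))]
    exact algebraMap_mono _ (pow_le_one₀ (norm_nonneg _) hA)
  refine ⟨CFC.sqrt (1 - star A * A), fun u => ?_⟩
  have h1 : CFC.sqrt (1 - star A * A) * CFC.sqrt (1 - star A * A) = 1 - star A * A :=
    CFC.sqrt_mul_sqrt_self _ hP
  have h2 : star (CFC.sqrt (1 - star A * A)) = CFC.sqrt (1 - star A * A) :=
    (IsSelfAdjoint.of_nonneg (CFC.sqrt_nonneg _)).star_eq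
  set D := CFC.sqrt (1 - star A * A) with hD
  have h3 : ⟪D u, D u⟫_ℂ = ⟪u, u⟫_ℂ - ⟪A u, A u⟫_ℂ := by
    rw [← ContinuousLinearMap.adjoint_inner_right, ← ContinuousLinearMap.adjoint_inner_right A,
      ← inner_sub_right]
    congr 1
    have h4 := congrArg (fun B : F →L[ℂ] F => B u) h1
    simp only [mul_apply_eq_comp, _root_.sub_apply,
      one_apply_eq_self] at h4
    rw [ContinuousLinearMap.star_eq_adjoint] at h2 h4
    rw [h2, h4]
  have h5 := congrArg Complex.re h3
  rw [Complex.sub_re] at h5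
  have e : ∀ v : F, (⟪v, v⟫_ℂ).re = ‖v‖ ^ 2 := fun v => by
    rw [inner_self_eq_norm_sq_to_K]
    norm_cast
  rw [e, e, e] at h5
  exact h5

/-- The space of the dilation. -/
abbrev Sp (F : Type*) [NormedAddCommGroup F] [InnerProductSpace ℂ F] (m : ℕ) : Type _ :=
  PiLp 2 (fun _ : Fin (m + 2) => F)

/-- the vectors with vanishing last coordinate -/
def lastZero (F : Type*) [NormedAddCommGroup F] [InnerProductSpace ℂ F] (m : ℕ) :
    Submodule ℂ (Sp F m) where
  carrier := {u | u (Fin.last (m + 1)) = 0}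
  add_mem' := by
    intro a b ha hb
    simp only [Set.mem_ofPred_eq, PiLp.add_apply] at ha hb ⊢
    rw [ha, hb, add_zero]
  zero_mem' := by simp
  smul_mem' := by
    intro c a ha
    simp only [Set.mem_ofPred_eq, PiLp.smul_apply] at ha ⊢
    rw [ha, smul_zero]

/-- the underlying function of the shift -/
def shf (A D : F →L[ℂ] F) (m : ℕ) (u : Sp F m) : Sp F m :=
  WithLp.toLp 2 (Fin.cons (A (u 0)) (Fin.cons (D (u 0)) fun j : Fin m => u j.castSucc.succ))

lemma shf_zero (A D : F →L[ℂ] F) (m : ℕ) (u : Sp F m) : shf A D m u 0 = A (u 0) := rfl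

lemma shf_one (A D : F →L[ℂ] F) (m : ℕ) (u : Sp F m) :
    shf A D m u (Fin.succ 0) = D (u 0) := rfl

lemma shf_succ (A D : F →L[ℂ] F) (m : ℕ) (u : Sp F m) (j : Fin m) :
    shf A D m u j.succ.succ = u j.castSucc.succ := rfl

/-- the embedding as coordinate `0` -/
def emb (F : Type*) [NormedAddCommGroup F] [InnerProductSpace ℂ F] (m : ℕ) : F →ₗᵢ[ℂ] Sp F m where
  toFun x := WithLp.toLp 2 (Fin.cons x fun _ => 0)
  map_add' := by
    intro a b
    ext j
    refine Fin.cases ?_ (fun i => ?_) j <;> simp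
  map_smul' := by
    intro a b
    ext j
    refine Fin.cases ?_ (fun i => ?_) j <;> simp
  norm_map' := by
    intro a
    have h : ‖WithLp.toLp 2 (Fin.cons a fun _ => 0 : Fin (m + 2) → F)‖ ^ 2 = ‖a‖ ^ 2 := by
      rw [PiLp.norm_sq_eq_of_L2, Fin.sum_univ_succ]
      simp
    exact (sq_eq_sq₀ (norm_nonneg _) (norm_nonneg _)).1 h

lemma emb_zero (m : ℕ) (x : F) : emb F m x 0 = x := rfl

lemma emb_succ (m : ℕ) (x : F) (j : Fin (m + 1)) : emb F m x j.succ = 0 := rfl

/-- Schäffer dilation on a finite dimensional space. -/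
lemma exists_schaeffer (A : F →L[ℂ] F) (hA : ‖A‖ ≤ 1) (m : ℕ) :
    ∃ W : Sp F m →ₗᵢ[ℂ] Sp F m, ∀ k ≤ m + 1, ∀ x y : F,
      ⟪(⇑W)^[k] (emb F m x), emb F m y⟫_ℂ = ⟪(⇑A)^[k] x, y⟫_ℂ := by
  obtain ⟨D, hD⟩ := exists_defect A hA
  let L : lastZero F m →ₗᵢ[ℂ] Sp F m :=
    { toFun := fun u => shf A D m u
      map_add' := by
        intro a b
        ext j
        refine Fin.cases ?_ (fun i => Fin.cases ?_ (fun i => ?_) i) j
        · simp [shf_zero]
        · simp only [PiLp.add_apply, shf_one, Submodule.coe_add, map_add]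
        · simp only [PiLp.add_apply, shf_succ, Submodule.coe_add]
      map_smul' := by
        intro a b
        ext j
        refine Fin.cases ?_ (fun i => Fin.cases ?_ (fun i => ?_) i) j
        · simp [shf_zero]
        · simp only [PiLp.smul_apply, shf_one, Submodule.coe_smul, map_smul, RingHom.id_apply]
        · simp only [PiLp.smul_apply, shf_succ, Submodule.coe_smul, RingHom.id_apply]
      norm_map' := by
        intro u
        have hu : (u : Sp F m) (Fin.last (m + 1)) = 0 := u.2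
        have h : ‖shf A D m u‖ ^ 2 = ‖(u : Sp F m)‖ ^ 2 := by
          rw [PiLp.norm_sq_eq_of_L2, PiLp.norm_sq_eq_of_L2, Fin.sum_univ_succ, Fin.sum_univ_succ,
            Fin.sum_univ_succ (n := m + 1), Fin.sum_univ_castSucc (n := m)]
          simp only [shf_zero, shf_one, shf_succ, hD]
          rw [show (Fin.last m).succ = Fin.last (m + 1) from rfl, hu, norm_zero]
          ring
        exact (sq_eq_sq₀ (norm_nonneg _) (norm_nonneg _)).1 h }
  let W := L.extend
  have hW : ∀ u : Sp F m, u (Fin.last (m + 1)) = 0 → W u = shf A D m u := fun u hu =>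
    LinearIsometry.extend_apply L ⟨u, hu⟩
  have key : ∀ k ≤ m + 1, ∀ x : F, ((⇑W)^[k] (emb F m x)) 0 = (⇑A)^[k] x ∧
      ∀ j : Fin (m + 2), k < j → ((⇑W)^[k] (emb F m x)) j = 0 := by
    intro k
    induction k with
    | zero =>
      intro _ x
      refine ⟨rfl, fun j hj => ?_⟩
      obtain ⟨i, rfl⟩ := Fin.exists_succ_eq.2 (show j ≠ 0 by rintro rfl; simp at hj)
      rfl
    | succ k ih =>
      intro hk x
      obtain ⟨h1, h2⟩ := ih (by omega) x
      rw [Function.iterate_succ_apply', Function.iterate_succ_apply',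
        hW _ (h2 _ (by simp; omega))]
      refine ⟨by rw [shf_zero, h1], fun j hj => ?_⟩
      revert hj
      refine Fin.cases ?_ (fun i => Fin.cases ?_ (fun i => ?_) i) j
      · intro hj; simp at hj
      · intro hj; simp at hj
      · intro hj
        rw [shf_succ]
        refine h2 _ ?_
        simp at hj ⊢
        omega
  refine ⟨W, fun k hk x y => ?_⟩
  rw [PiLp.inner_apply, Fin.sum_univ_succ]
  simp only [emb_zero, emb_succ, inner_zero_right, Finset.sum_const_zero, add_zero]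
  rw [(key k hk x).1]

end fin

section emb

variable {H : Type*} [NormedAddCommGroup H] [InnerProductSpace ℂ H]

open Module

lemma exists_ge_finrank (hinf : ¬ FiniteDimensional ℂ H) (F : Submodule ℂ H)
    [FiniteDimensional ℂ F] (k : ℕ) :
    ∃ G : Submodule ℂ H, F ≤ G ∧ FiniteDimensional ℂ G ∧ finrank ℂ G = finrank ℂ F + k := by
  induction k with
  | zero => exact ⟨F, le_rfl, inferInstance, rfl⟩
  | succ k ih =>
    obtain ⟨G, hG, hfin, hrank⟩ := ih
    have hne : G ≠ ⊤ := by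
      rintro rfl
      exact hinf (Module.Finite.equiv (Submodule.topEquiv (R := ℂ) (M := H)))
    obtain ⟨v, -, hv⟩ := SetLike.exists_of_lt (lt_top_iff_ne_top.2 hne)
    refine ⟨G ⊔ Submodule.span ℂ {v}, hG.trans le_sup_left, inferInstance, ?_⟩
    have h1 := Submodule.finrank_sup_add_finrank_inf_eq G (Submodule.span ℂ {v})
    have h2 : G ⊓ Submodule.span ℂ {v} = ⊥ := by
      rw [← disjoint_iff]
      exact (Submodule.disjoint_span_singleton_of_notMem hv)
    have h3 : finrank ℂ (Submodule.span ℂ {v}) = 1 :=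
      finrank_span_singleton (by rintro rfl; exact hv G.zero_mem)
    rw [h2, h3, finrank_bot] at h1
    omega

lemma exists_embed (hinf : ¬ FiniteDimensional ℂ H) (F : Submodule ℂ H)
    [FiniteDimensional ℂ F] {K : Type*} [NormedAddCommGroup K] [InnerProductSpace ℂ K]
    [FiniteDimensional ℂ K] (ι : F →ₗᵢ[ℂ] K) :
    ∃ J : K →ₗᵢ[ℂ] H, ∀ x : F, J (ι x) = x := by
  have hle : finrank ℂ F ≤ finrank ℂ K :=
    LinearMap.finrank_le_finrank_of_injective (f := ι.toLinearMap) ι.injective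
  obtain ⟨G, hFG, hfin, hrank⟩ := exists_ge_finrank hinf F (finrank ℂ K - finrank ℂ F)
  have hrank' : finrank ℂ G = finrank ℂ K := by omega
  let e : K ≃ₗᵢ[ℂ] G := (stdOrthonormalBasis ℂ K).repr.trans
    ((stdOrthonormalBasis ℂ G).reindex (finCongr hrank')).repr.symm
  let incl : F →ₗᵢ[ℂ] G :=
    { toLinearMap := Submodule.inclusion hFG
      norm_map' := fun x => rfl }
  let R := LinearMap.range ι.toLinearMap
  let r : F ≃ₗᵢ[ℂ] R := ι.equivRange
  let L : R →ₗᵢ[ℂ] K := e.symm.toLinearIsometry.comp (incl.comp r.symm.toLinearIsometry)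
  refine ⟨G.subtypeₗᵢ.comp (e.toLinearIsometry.comp L.extend), fun x => ?_⟩
  have h1 : L.extend (ι x) = e.symm (incl x) := by
    have h2 := LinearIsometry.extend_apply L (r x)
    have h3 : ((r x : R) : K) = ι x := rfl
    rw [h3] at h2
    rw [h2]
    simp [L]
  have h4 : (G.subtypeₗᵢ.comp (e.toLinearIsometry.comp L.extend)) (ι x) =
      ((e (L.extend (ι x)) : G) : H) := rfl
  rw [h4, h1, LinearIsometryEquiv.apply_symm_apply]
  rfl

variable [CompleteSpace H]

lemma exists_dilation (hinf : ¬ FiniteDimensional ℂ H) (T : H →L[ℂ] H) (hT : ‖T‖ ≤ 1)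
    (x : ℕ → H) (N m : ℕ) :
    ∃ V : ℝ → (H →L[ℂ] H), V 0 = 1 ∧ (∀ s t, V (s + t) = V s * V t) ∧ (∀ t y, ‖V t y‖ = ‖y‖) ∧
      (∀ y, Continuous fun t => V t y) ∧
      (∀ k ≤ m, ∀ i ≤ N, ∀ j ≤ N, ⟪V k (x i), x j⟫_ℂ = ⟪(⇑T)^[k] (x i), x j⟫_ℂ) ∧
      (∀ t, 0 ≤ t → t ≤ 1 → ∀ y, ‖V t y - y‖ ≤ ‖V 1 y - y‖) := by
  classical
  let s : Set H := Set.image2 (fun k i => (⇑T)^[k] (x i)) (Set.Iic m) (Set.Iic N)
  have hs : s.Finite := (Set.finite_Iic m).image2 _ (Set.finite_Iic N)
  let F : Submodule ℂ H := Submodule.span ℂ s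
  have hF : FiniteDimensional ℂ F := FiniteDimensional.span_of_finite ℂ hs
  have hmem : ∀ k ≤ m, ∀ i ≤ N, (⇑T)^[k] (x i) ∈ F := fun k hk i hi =>
    Submodule.subset_span ⟨k, hk, i, hi, rfl⟩
  let A : F →L[ℂ] F := F.orthogonalProjectionOnto ∘L T ∘L F.subtypeL
  have hA : ‖A‖ ≤ 1 := by
    refine ContinuousLinearMap.opNorm_le_bound _ zero_le_one fun u => ?_
    have h1 : ‖A u‖ ≤ ‖T u‖ := by
      refine ((F.orthogonalProjectionOnto).le_opNorm _).trans ?_
      exact mul_le_of_le_one_left (norm_nonneg _) F.orthogonalProjectionOnto_norm_le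
    have h2 : ‖T u‖ ≤ ‖(u : H)‖ := (T.le_opNorm _).trans (mul_le_of_le_one_left (norm_nonneg _) hT)
    rw [one_mul]
    exact h1.trans h2
  have hAk : ∀ k ≤ m, ∀ i (hi : i ≤ N), ((((⇑A)^[k] ⟨x i, hmem 0 (Nat.zero_le _) i hi⟩ : F) : H)) =
      (⇑T)^[k] (x i) := by
    intro k
    induction k with
    | zero => intro _ i hi; rfl
    | succ k ih =>
      intro hk i hi
      rw [Function.iterate_succ_apply', Function.iterate_succ_apply']
      have h1 := ih (by omega) i hi
      have h2 : ((A ((⇑A)^[k] ⟨x i, hmem 0 (Nat.zero_le _) i hi⟩) : F) : H) =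
          F.starProjection (T ((((⇑A)^[k] ⟨x i, hmem 0 (Nat.zero_le _) i hi⟩ : F) : H))) := rfl
      rw [h2, h1, Submodule.starProjection_eq_self_iff]
      have h3 := hmem (k + 1) hk i hi
      rwa [Function.iterate_succ_apply'] at h3
  obtain ⟨W, hW⟩ := exists_schaeffer A hA m
  obtain ⟨J, hJ⟩ := exists_embed hinf F (emb F m)
  obtain ⟨U, hU0, hUadd, hUstar, hU1, hUcont, hUle⟩ := exists_group W
  have : CompleteSpace (Sp F m) := FiniteDimensional.complete ℂ _
  let j : Sp F m →L[ℂ] H := J.toContinuousLinearMap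
  let a : H →L[ℂ] Sp F m := ContinuousLinearMap.adjoint j
  have haj : ∀ z, a (j z) = z := by
    intro z
    refine ext_inner_right ℂ fun w => ?_
    rw [ContinuousLinearMap.adjoint_inner_left]
    exact J.inner_map_map z w
  have hja : ∀ y z, ⟪j z, y⟫_ℂ = ⟪z, a y⟫_ℂ := by
    intro y z
    rw [ContinuousLinearMap.adjoint_inner_right]
  have hUiso : ∀ t z, ‖U t z‖ = ‖z‖ := by
    intro t z
    have h1 : ‖U t z‖ ^ 2 = ‖z‖ ^ 2 := by
      rw [← inner_self_eq_norm_sq (𝕜 := ℂ) (U t z), ← inner_self_eq_norm_sq (𝕜 := ℂ) z,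
        ← ContinuousLinearMap.adjoint_inner_right, ← ContinuousLinearMap.star_eq_adjoint,
        ← mul_apply_eq_comp, hUstar t]
      rfl
    exact (sq_eq_sq₀ (norm_nonneg _) (norm_nonneg _)).1 h1
  have hnj : ∀ z, ‖j z‖ = ‖z‖ := J.norm_map
  let V : ℝ → (H →L[ℂ] H) := fun t => j ∘L U t ∘L a + (1 - j ∘L a)
  have hV : ∀ t y, V t y = j (U t (a y)) + (y - j (a y)) := fun t y => rfl
  have haV : ∀ t y, a (V t y) = U t (a y) := by
    intro t y
    rw [hV, map_add, map_sub, haj, haj, sub_self, add_zero]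
  refine ⟨V, ?_, ?_, ?_, ?_, ?_, ?_⟩
  · ext y
    rw [hV, hU0]
    simp
  · intro s t
    ext y
    rw [mul_apply_eq_comp, hV (s + t), hV s, haV, hUadd, hV t]
    simp only [mul_apply_eq_comp]
    abel
  · intro t y
    have h1 : ‖V t y‖ ^ 2 = ‖y‖ ^ 2 := by
      have e1 : ‖V t y‖ ^ 2 = ‖U t (a y)‖ ^ 2 + ‖y - j (a y)‖ ^ 2 := by
        rw [hV, ← hnj (U t (a y)), sq, sq, sq]
        refine norm_add_sq_eq_norm_sq_add_norm_sq_of_inner_eq_zero (𝕜 := ℂ) _ _ ?_
        rw [hja, map_sub, haj, sub_self, inner_zero_right]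
      have e2 : ‖y‖ ^ 2 = ‖a y‖ ^ 2 + ‖y - j (a y)‖ ^ 2 := by
        conv_lhs => rw [← add_sub_cancel (j (a y)) y]
        rw [← hnj (a y), sq, sq, sq]
        refine norm_add_sq_eq_norm_sq_add_norm_sq_of_inner_eq_zero (𝕜 := ℂ) _ _ ?_
        rw [hja, map_sub, haj, sub_self, inner_zero_right]
      rw [e1, e2, hUiso]
    exact (sq_eq_sq₀ (norm_nonneg _) (norm_nonneg _)).1 h1
  · intro y
    have hc : Continuous U := by
      rw [Metric.continuous_iff]
      intro b ε hε
      refine ⟨ε / (Real.pi + 1), by positivity, fun c hc => ?_⟩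
      rw [dist_eq_norm]
      refine (hUcont b c).trans_lt ?_
      rw [Real.dist_eq] at hc
      calc Real.pi * |c - b| ≤ (Real.pi + 1) * |c - b| := by
            nlinarith [abs_nonneg (c - b), Real.pi_pos]
        _ < (Real.pi + 1) * (ε / (Real.pi + 1)) := by
            refine mul_lt_mul_of_pos_left hc (by positivity)
        _ = ε := by field_simp
    have : Continuous fun t => j (U t (a y)) + (y - j (a y)) := by fun_prop
    exact this
  · intro k hk i hi l hl
    have hxi : j (emb F m ⟨x i, hmem 0 (Nat.zero_le _) i hi⟩) = x i := hJ ⟨x i, _⟩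
    have hxl : j (emb F m ⟨x l, hmem 0 (Nat.zero_le _) l hl⟩) = x l := hJ ⟨x l, _⟩
    have hai : a (x i) = emb F m ⟨x i, hmem 0 (Nat.zero_le _) i hi⟩ := by
      rw [← haj (emb F m ⟨x i, hmem 0 (Nat.zero_le _) i hi⟩), hxi]
    have hal : a (x l) = emb F m ⟨x l, hmem 0 (Nat.zero_le _) l hl⟩ := by
      rw [← haj (emb F m ⟨x l, hmem 0 (Nat.zero_le _) l hl⟩), hxl]
    have hUk : ∀ (k : ℕ) z, U k z = (⇑W)^[k] z := by
      intro k
      induction k with
      | zero => intro z; simp [hU0]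
      | succ k ih =>
        intro z
        have h2 : U ((k + 1 : ℕ) : ℝ) = U 1 * U k := by
          rw [← hUadd, Nat.cast_succ, add_comm (1 : ℝ)]
        rw [Function.iterate_succ_apply', h2, mul_apply_eq_comp, ih, hU1]
        rfl
    rw [hV, hai, hxi, sub_self, add_zero, hja, hal, hUk, hW k (by omega)]
    rw [Submodule.coe_inner, hAk k hk i hi]
  · intro t h0 h1 y
    have e : ∀ t, V t y - y = j (U t (a y) - a y) := by
      intro t
      rw [hV, map_sub]
      abel
    rw [e, e, hnj, hnj, hU1]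
    exact hUle t h0 h1 (a y)

end emb

end

end Pool.Agent.R232.SB
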