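import Mathlib

/-! Logarithm of a unitary operator of a finite dimensional space: a one-parameter group through
it (MP_eb8260_an). -/

namespace Pool.Agent.R232.SB

open Filter Topology

noncomputable section

variable {K : Type*} [NormedAddCommGroup K] [InnerProductSpace ℂ K] [FiniteDimensional ℂ K]

/-- the function `z ↦ exp(i t arg z)` -/
def gf (t : ℝ) (z : ℂ) : ℂ := Complex.exp (Complex.I * ((t * z.arg : ℝ) : ℂ))

lemma gf_zero (z : ℂ) : gf 0 z = 1 := by simp [gf]

lemma gf_add (s t : ℝ) (z : ℂ) : gf (s + t) z = gf s z * gf t z := by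
  simp only [gf, ← Complex.exp_add]
  congr 1
  push_cast
  ring

lemma norm_gf (t : ℝ) (z : ℂ) : ‖gf t z‖ = 1 := by
  unfold gf
  rw [mul_comm]
  exact Complex.norm_exp_ofReal_mul_I _

lemma gf_one (z : ℂ) (hz : ‖z‖ = 1) : gf 1 z = z := by
  unfold gf
  have h := Complex.norm_mul_exp_arg_mul_I z
  rw [hz] at h
  rw [one_mul, mul_comm]
  simpa using h

lemma gf_sub (s t : ℝ) (z : ℂ) : ‖gf t z - gf s z‖ ≤ Real.pi * |t - s| := by
  have h1 : gf t z - gf s z = gf s z * (gf (t - s) z - 1) := by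
    rw [mul_sub, ← gf_add]
    simp
  rw [h1, norm_mul, norm_gf, one_mul]
  refine Real.norm_exp_I_mul_ofReal_sub_one_le.trans ?_
  rw [Real.norm_eq_abs, abs_mul, mul_comm]
  exact mul_le_mul_of_nonneg_right (Complex.abs_arg_le_pi z) (abs_nonneg _)

lemma gf_sub_one_le (t : ℝ) (ht0 : 0 ≤ t) (ht1 : t ≤ 1) (z : ℂ) (hz : ‖z‖ = 1) :
    ‖gf t z - 1‖ ≤ ‖z - 1‖ := by
  have h1 : z = gf 1 z := (gf_one z hz).symm
  have h2 : ‖z - 1‖ = ‖gf 1 z - 1‖ := by rw [← h1]
  rw [h2]
  unfold gf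
  rw [Complex.norm_exp_I_mul_ofReal_sub_one, Complex.norm_exp_I_mul_ofReal_sub_one]
  rw [norm_mul, norm_mul]
  refine mul_le_mul_of_nonneg_left ?_ (norm_nonneg _)
  rw [one_mul, Real.norm_eq_abs, Real.norm_eq_abs]
  have key : ∀ θ : ℝ, 0 ≤ θ → θ ≤ Real.pi → |Real.sin (t * θ / 2)| ≤ |Real.sin (θ / 2)| := by
    intro θ h0 hpi
    have ha : 0 ≤ t * θ / 2 := by positivity
    have hb : t * θ / 2 ≤ θ / 2 := by nlinarith
    have hs1 : 0 ≤ Real.sin (t * θ / 2) :=
      Real.sin_nonneg_of_nonneg_of_le_pi ha (by linarith [Real.pi_pos])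
    have hs2 : 0 ≤ Real.sin (θ / 2) :=
      Real.sin_nonneg_of_nonneg_of_le_pi (by linarith) (by linarith [Real.pi_pos])
    rw [abs_of_nonneg hs1, abs_of_nonneg hs2]
    exact Real.sin_le_sin_of_le_of_le_pi_div_two (by linarith [Real.pi_pos]) (by linarith) hb
  rcases le_total 0 z.arg with h | h
  · exact key _ h (Complex.arg_le_pi z)
  · have h3 := key (-z.arg) (by linarith) (by linarith [Complex.neg_pi_lt_arg z])
    have e1 : t * -z.arg / 2 = -(t * z.arg / 2) := by ring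
    have e2 : -z.arg / 2 = -(z.arg / 2) := by ring
    rw [e1, e2, Real.sin_neg, Real.sin_neg, abs_neg, abs_neg] at h3
    exact h3

lemma finite_spec (w : K →L[ℂ] K) : (spectrum ℂ w).Finite := by
  have h := Module.End.finite_spectrum (w : K →ₗ[ℂ] K)
  have h2 := AlgHom.spectrum_apply_subset
    (Module.End.toContinuousLinearMap (𝕜 := ℂ) K) (w : K →ₗ[ℂ] K)
  have h3 : (Module.End.toContinuousLinearMap (𝕜 := ℂ) K) (w : K →ₗ[ℂ] K) = w := by
    ext y
    rfl
  rw [h3] at h2
  exact h.subset h2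

lemma exists_group (W : K →ₗᵢ[ℂ] K) : ∃ V : ℝ → (K →L[ℂ] K), V 0 = 1 ∧
    (∀ s t, V (s + t) = V s * V t) ∧ (∀ t, star (V t) * V t = 1) ∧
    V 1 = W.toContinuousLinearMap ∧ (∀ s t, ‖V t - V s‖ ≤ Real.pi * |t - s|) ∧
    (∀ t, 0 ≤ t → t ≤ 1 → ∀ y, ‖V t y - y‖ ≤ ‖W y - y‖) := by
  have : CompleteSpace K := FiniteDimensional.complete ℂ K
  let E : K ≃ₗᵢ[ℂ] K := W.toLinearIsometryEquiv rfl
  let u : unitary (K →L[ℂ] K) := Unitary.linearIsometryEquiv.symm E
  let w : K →L[ℂ] K := u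
  have hw : w = W.toContinuousLinearMap := by
    ext y
    rfl
  have hnorm : ∀ z ∈ spectrum ℂ w, ‖z‖ = 1 := fun z hz => spectrum.norm_eq_one_of_unitary u.2 hz
  have hfin : (spectrum ℂ w).Finite := finite_spec w
  have hc : ∀ f : ℂ → ℂ, ContinuousOn f (spectrum ℂ w) := fun f => hfin.continuousOn f
  have hn : IsStarNormal w := inferInstance
  refine ⟨fun t => cfc (gf t) w, ?_, ?_, ?_, ?_, ?_, ?_⟩
  · simp only
    rw [show gf 0 = fun _ => 1 from funext gf_zero, cfc_const_one ℂ w]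
  · intro s t
    simp only
    rw [← cfc_mul (gf s) (gf t) w (hc _) (hc _)]
    congr 1
    ext z
    exact gf_add s t z
  · intro t
    simp only
    rw [← cfc_star, ← cfc_mul _ _ w (hc _) (hc _), ← cfc_one ℂ w]
    refine cfc_congr ?_
    intro z _
    simp only [Pi.one_apply]
    rw [← starRingEnd_apply, ← Complex.normSq_eq_conj_mul_self, Complex.normSq_eq_norm_sq,
      norm_gf]
    simp
  · simp only
    rw [← hw]
    conv_rhs => rw [← cfc_id' ℂ w]
    refine cfc_congr ?_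
    intro z hz
    exact gf_one z (hnorm z hz)
  · intro s t
    simp only
    rw [← cfc_sub (gf t) (gf s) w (hc _) (hc _)]
    exact norm_cfc_le (by positivity) fun z _ => gf_sub s t z
  · intro t h0 h1 y
    simp only
    have e1 : cfc (gf t) w - 1 = cfc (fun z => (gf t z - 1) / (z - 1)) w * (w - 1) := by
      have h2 : w - 1 = cfc (fun z : ℂ => z - 1) w := by
        rw [cfc_sub (fun z : ℂ => z) (fun _ => 1) w (hc _) (hc _), cfc_id' ℂ w,
          cfc_const_one ℂ w]
      rw [h2, ← cfc_mul _ _ w (hc _) (hc _)]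
      rw [← cfc_const_one ℂ w, ← cfc_sub (gf t) (fun _ => 1) w (hc _) (hc _)]
      refine cfc_congr ?_
      intro z hz
      simp only
      by_cases hz1 : z = 1
      · subst hz1
        simp [gf]
      · rw [div_mul_cancel₀]
        exact sub_ne_zero.2 hz1
    have e2 : cfc (gf t) w y - y = cfc (fun z => (gf t z - 1) / (z - 1)) w (W y - y) := by
      have := congrArg (fun A : K →L[ℂ] K => A y) e1
      simpa [hw] using this
    rw [e2]
    have e3 : ‖cfc (fun z => (gf t z - 1) / (z - 1)) w‖ ≤ 1 := by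
      refine norm_cfc_le zero_le_one fun z hz => ?_
      rw [norm_div]
      exact div_le_one_of_le₀ (gf_sub_one_le t h0 h1 z (hnorm z hz)) (norm_nonneg _)
    refine (ContinuousLinearMap.le_opNorm _ _).trans ?_
    exact mul_le_of_le_one_left (norm_nonneg _) e3

end

end Pool.Agent.R232.SB
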