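import Pool.Agent.R232.SBDefs
import Pool.Agent.R232.SBDil

/-! The space of contraction semigroups is a Baire space (MP_eb8260_an). -/

namespace Pool.Agent.R232.SB

open scoped NNReal InnerProductSpace
open Filter Topology

noncomputable section

variable {H : Type*} [NormedAddCommGroup H] [InnerProductSpace ℂ H]

/-- isometric semigroups -/
def Iso (T : CSemi H) : Prop := ∀ t y, ‖T.T t y‖ = ‖y‖

lemma exists_bound (x : ℕ → H) (N : ℕ) : ∃ M : ℝ, 0 < M ∧ ∀ i ≤ N, ‖x i‖ ≤ M := by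
  refine ⟨1 + ∑ i ∈ Finset.range (N + 1), ‖x i‖, by positivity, fun i hi => ?_⟩
  have := Finset.single_le_sum (f := fun i => ‖x i‖) (fun i _ => norm_nonneg _)
    (Finset.mem_range.2 (Nat.lt_succ_of_le hi))
  linarith

lemma iter_eq (T : CSemi H) (h : ℝ≥0) (k : ℕ) (y : H) : (⇑(T.T h))^[k] y = T.T (k * h) y := by
  induction k with
  | zero => simp [T.map_zero]
  | succ k ih =>
    rw [Function.iterate_succ_apply', ih, Nat.cast_succ, add_mul, one_mul, add_comm, T.map_add]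
    rfl

lemma exists_iso_wk [CompleteSpace H] (hinf : ¬ FiniteDimensional ℂ H) (x : ℕ → H) (T : CSemi H)
    (N : ℕ) {e : ℝ} (he : 0 < e) : ∃ V : CSemi H, Iso V ∧ Wk x T N e V := by
  obtain ⟨M, hM, hxM⟩ := exists_bound x N
  set ρ : ℝ := e / (2 * M) with hρ
  have hρ0 : 0 < ρ := by positivity
  set η : ℝ := min ρ (ρ ^ 2 / (2 * M)) with hη
  have hη0 : 0 < η := lt_min hρ0 (by positivity)
  have hη1 : η ≤ ρ := min_le_left _ _
  have hη2 : 2 * η * M ≤ ρ ^ 2 := by
    have := min_le_right ρ (ρ ^ 2 / (2 * M))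
    rw [← hη, le_div_iff₀ (by positivity)] at this
    linarith
  obtain ⟨h, hh0, hh⟩ : ∃ h : ℝ≥0, 0 < h ∧ ∀ i ≤ N, ∀ s ≤ h, ‖T.T s (x i) - x i‖ ≤ η := by
    have h1 : ∀ i ∈ Finset.range (N + 1), ∀ᶠ s in 𝓝 (0 : ℝ≥0), ‖T.T s (x i) - x i‖ ≤ η := by
      intro i _
      have h2 := (T.cont (x i)).tendsto 0
      simp only [T.map_zero, one_apply_eq_self] at h2
      have h3 := Metric.tendsto_nhds.1 h2 η hη0
      filter_upwards [h3] with s hs
      rw [dist_eq_norm] at hs
      exact hs.le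
    have h2 := (Finset.eventually_all (Finset.range (N + 1))).2 h1
    rw [Metric.eventually_nhds_iff] at h2
    obtain ⟨ε, hε, h3⟩ := h2
    refine ⟨Real.toNNReal (ε / 2), Real.toNNReal_pos.2 (by positivity),
      fun i hi s hs => h3 ?_ i (Finset.mem_range.2 (by omega))⟩
    rw [NNReal.dist_eq]
    have hs' : (s : ℝ) ≤ ε / 2 := by
      have h4 : (s : ℝ) ≤ ((Real.toNNReal (ε / 2) : ℝ≥0) : ℝ) := by exact_mod_cast hs
      rwa [Real.coe_toNNReal _ (by positivity)] at h4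
    have h5 : (0 : ℝ) ≤ s := s.2
    rw [NNReal.coe_zero, sub_zero, abs_of_nonneg h5]
    linarith
  obtain ⟨V0, hV0, hVadd, hViso, hVcont, hVdil, hVle⟩ :=
    exists_dilation hinf (T.T h) (T.contr h) x N (⌈(N : ℝ) / h⌉₊ + 1)
  have hhR : (0 : ℝ) < h := by exact_mod_cast hh0
  let V : CSemi H :=
    { T := fun t => V0 ((t : ℝ) / h)
      map_zero := by simp [hV0]
      map_add := by
        intro s t
        rw [← hVadd]
        congr 1
        push_cast
        ring
      cont := by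
        intro y
        have h1 : Continuous fun t : ℝ≥0 => (t : ℝ) / h := by fun_prop
        exact (hVcont y).comp h1
      contr := by
        intro t
        refine ContinuousLinearMap.opNorm_le_bound _ zero_le_one fun y => ?_
        rw [hViso, one_mul] }
  refine ⟨V, fun t y => hViso _ y, ?_⟩
  intro i hi j hj t ht
  -- one-step estimate
  have hone : ‖V0 1 (x i) - x i‖ ≤ ρ := by
    have h1 : ‖V0 1 (x i) - x i‖ ^ 2 ≤ ρ ^ 2 := by
      have h2 := hVdil 1 (by omega) i hi i hi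
      rw [Function.iterate_one, Nat.cast_one] at h2
      rw [norm_sub_sq (𝕜 := ℂ), hViso, h2]
      have h3 : ‖x i‖ ^ 2 - 2 * RCLike.re ⟪T.T h (x i), x i⟫_ℂ + ‖x i‖ ^ 2 =
          -(2 * RCLike.re ⟪T.T h (x i) - x i, x i⟫_ℂ) := by
        rw [inner_sub_left, map_sub, inner_self_eq_norm_sq]
        ring
      rw [h3]
      have h4 : |RCLike.re ⟪T.T h (x i) - x i, x i⟫_ℂ| ≤ η * M := by
        refine (RCLike.abs_re_le_norm _).trans ((norm_inner_le_norm _ _).trans ?_)
        exact mul_le_mul (hh i hi h le_rfl) (hxM i hi) (norm_nonneg _) hη0.le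
      have h5 := (abs_le.1 h4).1
      linarith
    exact (sq_le_sq₀ (norm_nonneg _) hρ0.le).1 h1
  set k : ℕ := ⌊(t : ℝ) / h⌋₊ with hk
  have hk1 : (k : ℝ) ≤ t / h := Nat.floor_le (by positivity)
  have hk2 : (t : ℝ) / h < k + 1 := Nat.lt_floor_add_one _
  have hkm : k ≤ ⌈(N : ℝ) / h⌉₊ + 1 := by
    have h1 : k ≤ ⌈(N : ℝ) / h⌉₊ := by
      have h2 : (k : ℝ) ≤ (N : ℝ) / h := hk1.trans (by
        gcongr
        exact_mod_cast ht)
      exact_mod_cast h2.trans (Nat.le_ceil _)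
    omega
  have hkt : (k : ℝ) * h ≤ t := by rwa [le_div_iff₀ hhR] at hk1
  have hkt' : (t : ℝ) < (k + 1) * h := by rwa [div_lt_iff₀ hhR] at hk2
  have hktN : (k : ℝ≥0) * h ≤ t := by exact_mod_cast hkt
  obtain ⟨r, hr⟩ := exists_add_of_le hktN
  have hrh : r ≤ h := by
    have h1 : (t : ℝ) = k * h + r := by rw [hr]; push_cast; ring
    have h2 : (r : ℝ) ≤ h := by nlinarith
    exact_mod_cast h2
  have e1 : T.T t (x i) - T.T (k * h) (x i) = T.T (k * h) (T.T r (x i) - x i) := by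
    rw [map_sub, hr, T.map_add]
    rfl
  have e2 : V0 k (x i) - V.T t (x i) = V0 k (x i - V0 (t / h - k) (x i)) := by
    have h1 : V.T t = V0 k * V0 (t / h - k) := by
      rw [← hVadd]
      show V0 _ = _
      congr 1
      ring
    rw [map_sub, h1]
    rfl
  have e3 : (T.T t - V.T t) (x i) = (T.T t (x i) - T.T (k * h) (x i)) +
      (T.T (k * h) (x i) - V0 k (x i)) + (V0 k (x i) - V.T t (x i)) := by
    rw [_root_.sub_apply]
    abel
  have e4 : ⟪T.T (k * h) (x i) - V0 k (x i), x j⟫_ℂ = 0 := by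
    rw [inner_sub_left, ← iter_eq, hVdil k hkm i hi j hj, sub_self]
  rw [e3, inner_add_left, inner_add_left, e4, add_zero, e1, e2]
  refine (norm_add_le _ _).trans ?_
  have b1 : ‖⟪T.T (k * h) (T.T r (x i) - x i), x j⟫_ℂ‖ ≤ ρ * M := by
    refine (norm_inner_le_norm _ _).trans (mul_le_mul ?_ (hxM j hj) (norm_nonneg _) hρ0.le)
    exact (norm_apply_le T _ _).trans ((hh i hi r hrh).trans hη1)
  have b2 : ‖⟪V0 k (x i - V0 (t / h - k) (x i)), x j⟫_ℂ‖ ≤ ρ * M := by
    refine (norm_inner_le_norm _ _).trans (mul_le_mul ?_ (hxM j hj) (norm_nonneg _) hρ0.le)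
    rw [hViso, norm_sub_rev]
    exact (hVle _ (by linarith) (by linarith) _).trans hone
  have b3 : ρ * M + ρ * M = e := by
    rw [hρ]
    field_simp
    ring
  linarith

lemma St.mono {x : ℕ → H} {T S : CSemi H} {N N' : ℕ} {e e' : ℝ} (h : St x T N' e' S)
    (hN : N ≤ N') (he : e' ≤ e) : St x T N e S := fun i hi t ht =>
  (h i (hi.trans hN) t (ht.trans (by exact_mod_cast hN))).trans he

/-- strong neighbourhoods of `T` are contained in `d`-balls -/
lemma exists_st_dsg (x : ℕ → H) (hx : ∀ i, x i ≠ 0) {r : ℝ} (hr : 0 < r) :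
    ∃ N : ℕ, ∃ e > 0, ∀ T S : CSemi H, St x T N e S → dsg x T S < r := by
  obtain ⟨N, e, he, h⟩ := exists_wk_dsg x hx hr
  obtain ⟨M, hM, hxM⟩ := exists_bound x N
  refine ⟨N, e / M, by positivity, fun T S hS => h T S ?_⟩
  intro i hi j hj t ht
  refine (norm_inner_le_norm _ _).trans ?_
  calc ‖(T.T t - S.T t) (x i)‖ * ‖x j‖ ≤ e / M * M :=
        mul_le_mul (hS i hi t ht) (hxM j hj) (norm_nonneg _) (by positivity)
    _ = e := by field_simp

/-- on the isometric semigroups, strong neighbourhoods contain `d`-balls -/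
lemma exists_dsg_st (x : ℕ → H) (hx : ∀ i, x i ≠ 0) (hd : DenseRange x) (T : CSemi H)
    (hT : Iso T) (N : ℕ) {e : ℝ} (he : 0 < e) :
    ∃ r > 0, ∀ S : CSemi H, Iso S → dsg x T S < r → St x T N e S := by
  obtain ⟨M, hM, hxM⟩ := exists_bound x N
  set η : ℝ := e ^ 2 / (8 * M) with hη
  have hη0 : 0 < η := by positivity
  -- compactness
  have hcomp : IsCompact (⋃ i ∈ Finset.range (N + 1), (fun t => T.T t (x i)) ''
      Set.Icc 0 (N : ℝ≥0)) :=
    (Finset.range (N + 1)).isCompact_biUnion fun i _ => isCompact_Icc.image (T.cont (x i))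
  obtain ⟨s, hs⟩ := hcomp.elim_finite_subcover (fun j => Metric.ball (x j) η)
    (fun j => Metric.isOpen_ball) (by
      intro y _
      obtain ⟨j, hj⟩ := hd.exists_dist_lt y hη0
      exact Set.mem_iUnion.2 ⟨j, hj⟩)
  obtain ⟨N', hN'⟩ : ∃ N' : ℕ, N ≤ N' ∧ ∀ j ∈ s, j ≤ N' :=
    ⟨max N (s.sup id), le_max_left _ _, fun j hj =>
      (Finset.le_sup (f := id) hj).trans (le_max_right _ _)⟩
  obtain ⟨r, hr, h⟩ := exists_dsg_wk x hx N' (show 0 < e ^ 2 / 4 by positivity)
  refine ⟨r, hr, fun S hS hTS => ?_⟩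
  have hw := h T S hTS
  intro i hi t ht
  obtain ⟨j, hj, hj'⟩ : ∃ j ≤ N', ‖T.T t (x i) - x j‖ < η := by
    have h1 : T.T t (x i) ∈ ⋃ i ∈ Finset.range (N + 1), (fun t => T.T t (x i)) ''
        Set.Icc 0 (N : ℝ≥0) := by
      simp only [Set.mem_iUnion]
      exact ⟨i, Finset.mem_range.2 (by omega), t, ⟨zero_le, ht⟩, rfl⟩
    have h2 := hs h1
    simp only [Set.mem_iUnion] at h2
    obtain ⟨j, hj, hj2⟩ := h2
    rw [Metric.mem_ball, dist_eq_norm] at hj2
    exact ⟨j, hN'.2 j hj, hj2⟩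
  have h1 : ‖(T.T t - S.T t) (x i)‖ ^ 2 = 2 * RCLike.re ⟪(T.T t - S.T t) (x i), T.T t (x i)⟫_ℂ := by
    rw [_root_.sub_apply, norm_sub_sq (𝕜 := ℂ), hT, hS, inner_sub_left, map_sub,
      inner_self_eq_norm_sq, hT, inner_re_symm (𝕜 := ℂ) (T.T t (x i))]
    ring
  have h2 : ⟪(T.T t - S.T t) (x i), T.T t (x i)⟫_ℂ = ⟪(T.T t - S.T t) (x i), x j⟫_ℂ +
      ⟪(T.T t - S.T t) (x i), T.T t (x i) - x j⟫_ℂ := by
    rw [← inner_add_right]
    congr 1
    abel
  have h3 : RCLike.re ⟪(T.T t - S.T t) (x i), x j⟫_ℂ ≤ e ^ 2 / 4 :=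
    (RCLike.re_le_norm _).trans (hw i (hi.trans hN'.1) j hj t
      (ht.trans (by exact_mod_cast hN'.1)))
  have h4 : RCLike.re ⟪(T.T t - S.T t) (x i), T.T t (x i) - x j⟫_ℂ ≤ e ^ 2 / 4 := by
    refine (RCLike.re_le_norm _).trans ((norm_inner_le_norm _ _).trans ?_)
    have h5 : ‖(T.T t - S.T t) (x i)‖ ≤ 2 * M := by
      rw [_root_.sub_apply]
      refine (norm_sub_le _ _).trans ?_
      linarith [norm_apply_le T t (x i), norm_apply_le S t (x i), hxM i hi]
    calc ‖(T.T t - S.T t) (x i)‖ * ‖T.T t (x i) - x j‖ ≤ 2 * M * η :=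
          mul_le_mul h5 hj'.le (norm_nonneg _) (by positivity)
      _ = e ^ 2 / 4 := by
          rw [hη]
          field_simp
          ring
  have h5 : ‖(T.T t - S.T t) (x i)‖ ^ 2 ≤ e ^ 2 := by
    rw [h1, h2, map_add]
    linarith
  exact (sq_le_sq₀ (norm_nonneg _) he.le).1 h5

/-- The limit of a uniformly Cauchy sequence of isometric semigroups. -/
lemma exists_limit [CompleteSpace H] (T : ℕ → CSemi H) (hT : ∀ k, Iso (T k))
    (hC : ∀ (y : H) (M : ℝ≥0) (ε : ℝ), 0 < ε → ∃ k0, ∀ k ≥ k0, ∀ l ≥ k, ∀ t ≤ M,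
      ‖(T k).T t y - (T l).T t y‖ ≤ ε) :
    ∃ S : CSemi H, Iso S ∧ ∀ t y, Tendsto (fun k => (T k).T t y) atTop (𝓝 (S.T t y)) := by
  have hex : ∀ t y, ∃ z, Tendsto (fun k => (T k).T t y) atTop (𝓝 z) := by
    intro t y
    refine cauchySeq_tendsto_of_complete ?_
    rw [Metric.cauchySeq_iff']
    intro ε hε
    obtain ⟨k0, h0⟩ := hC y t (ε / 2) (by positivity)
    refine ⟨k0, fun n hn => ?_⟩
    rw [dist_comm, dist_eq_norm]
    exact (h0 k0 le_rfl n hn t le_rfl).trans_lt (by linarith)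
  choose L hL using hex
  have hL' : ∀ t, Tendsto (fun k y => (T k).T t y) atTop (𝓝 (L t)) := fun t =>
    tendsto_pi_nhds.2 (hL t)
  let S0 : ℝ≥0 → (H →L[ℂ] H) := fun t => continuousLinearMapOfTendsto (fun k => (T k).T t) (hL' t)
  have hS0 : ∀ t y, S0 t y = L t y := fun t y => rfl
  have hS1 : ∀ t y, Tendsto (fun k => (T k).T t y) atTop (𝓝 (S0 t y)) := hL
  have hiso : ∀ t y, ‖S0 t y‖ = ‖y‖ := by
    intro t y
    have h1 := (hS1 t y).norm
    simp only [hT _ t y] at h1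
    exact tendsto_nhds_unique h1 tendsto_const_nhds |>.symm ▸ rfl
  have hunif : ∀ (y : H) (M : ℝ≥0) (ε : ℝ), 0 < ε → ∃ k0, ∀ k ≥ k0, ∀ t ≤ M,
      ‖(T k).T t y - S0 t y‖ ≤ ε := by
    intro y M ε hε
    obtain ⟨k0, h0⟩ := hC y M ε hε
    refine ⟨k0, fun k hk t ht => ?_⟩
    have h1 : Tendsto (fun l => ‖(T k).T t y - (T l).T t y‖) atTop
        (𝓝 ‖(T k).T t y - S0 t y‖) := (tendsto_const_nhds.sub (hS1 t y)).norm
    refine le_of_tendsto h1 ?_
    filter_upwards [eventually_ge_atTop k] with l hl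
    exact h0 k hk l hl t ht
  let S : CSemi H :=
    { T := S0
      map_zero := by
        ext y
        have h1 := hS1 0 y
        simp only [(T _).map_zero] at h1
        exact tendsto_nhds_unique h1 tendsto_const_nhds
      map_add := by
        intro s t
        ext y
        have h1 := hS1 (s + t) y
        have h2 : Tendsto (fun k => (T k).T (s + t) y) atTop (𝓝 (S0 s (S0 t y))) := by
          have h3 := hS1 s (S0 t y)
          rw [tendsto_iff_norm_sub_tendsto_zero] at h3 ⊢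
          have h4 := (tendsto_iff_norm_sub_tendsto_zero.1 (hS1 t y))
          have h5 := h4.add h3
          rw [add_zero] at h5
          refine squeeze_zero (fun _ => norm_nonneg _) (fun k => ?_) h5
          have h6 : (T k).T (s + t) y - S0 s (S0 t y) =
              (T k).T s ((T k).T t y - S0 t y) + ((T k).T s (S0 t y) - S0 s (S0 t y)) := by
            rw [(T k).map_add, map_sub, mul_apply_eq_comp]
            abel
          rw [h6]
          refine (norm_add_le _ _).trans ?_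
          rw [hT k s]
        exact tendsto_nhds_unique h1 h2
      cont := by
        intro y
        have h1 : TendstoLocallyUniformly (fun k t => (T k).T t y) (fun t => S0 t y) atTop := by
          rw [Metric.tendstoLocallyUniformly_iff]
          intro ε hε t0
          refine ⟨Set.Iio (t0 + 1), Iio_mem_nhds (by simp), ?_⟩
          obtain ⟨k0, h0⟩ := hunif y (t0 + 1) (ε / 2) (by positivity)
          filter_upwards [eventually_ge_atTop k0] with k hk t ht
          rw [dist_comm, dist_eq_norm]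
          exact (h0 k hk t (le_of_lt ht)).trans_lt (by linarith)
        exact h1.continuous (Frequently.of_forall fun k => (T k).cont y)
      contr := by
        intro t
        refine ContinuousLinearMap.opNorm_le_bound _ zero_le_one fun y => ?_
        rw [hiso, one_mul] }
  exact ⟨S, hiso, hS1⟩

/-- MAIN THEOREM (abstract form). -/
theorem exists_in_inter [CompleteSpace H] (hinf : ¬ FiniteDimensional ℂ H) (x : ℕ → H)
    (hx : ∀ i, x i ≠ 0) (hd : DenseRange x) (f : ℕ → Set (CSemi H))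
    (hopen : ∀ n, ∀ S ∈ f n, ∃ r > 0, ∀ S', dsg x S S' < r → S' ∈ f n)
    (hdense : ∀ n, ∀ S, ∀ r > 0, ∃ S' ∈ f n, dsg x S S' < r) (S0 : CSemi H) (r0 : ℝ)
    (hr0 : 0 < r0) : ∃ S, (∀ n, S ∈ f n) ∧ dsg x S0 S < r0 := by
  -- isometric semigroups are dense
  have hiso : ∀ (T : CSemi H) (r : ℝ), 0 < r → ∃ V : CSemi H, Iso V ∧ dsg x T V < r := by
    intro T r hr
    obtain ⟨N, e, he, h⟩ := exists_wk_dsg x hx hr
    obtain ⟨V, hV, hV'⟩ := exists_iso_wk hinf x T N he
    exact ⟨V, hV, h T V hV'⟩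
  let State := {p : CSemi H × ℕ × ℝ // Iso p.1 ∧ 0 < p.2.2}
  have hstep : ∀ (n : ℕ) (s : State), ∃ s' : State, n ≤ s'.1.2.1 ∧ s'.1.2.2 ≤ (1 / 2 : ℝ) ^ n ∧
      ∀ S, Iso S → St x s'.1.1 s'.1.2.1 s'.1.2.2 S →
        St x s.1.1 s.1.2.1 s.1.2.2 S ∧ S ∈ f n := by
    rintro n ⟨⟨T, N, e⟩, hT, he⟩
    simp only at hT he ⊢
    obtain ⟨r, hr, h1⟩ := exists_dsg_st x hx hd T hT N he
    obtain ⟨P, hP, hP'⟩ := hdense n T r hr
    obtain ⟨ρ, hρ, h2⟩ := hopen n P hP
    obtain ⟨V, hV, hV'⟩ := hiso P (min ρ (r - dsg x T P)) (lt_min hρ (by linarith))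
    have hVn : V ∈ f n := h2 V (hV'.trans_le (min_le_left _ _))
    have hVr : dsg x T V < r := by
      have h3 := dsg_triangle x hx T P V
      have h4 := hV'.trans_le (min_le_right ρ (r - dsg x T P))
      linarith
    obtain ⟨ρ', hρ', h5⟩ := hopen n V hVn
    obtain ⟨N', e', he', h6⟩ := exists_st_dsg x hx
      (show 0 < min ρ' (r - dsg x T V) from lt_min hρ' (by linarith))
    refine ⟨⟨(V, max N' n, min e' ((1 / 2 : ℝ) ^ n)), hV, lt_min he' (by positivity)⟩,
      le_max_right _ _, min_le_right _ _, fun S hS hSt => ?_⟩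
    simp only at hSt
    have h7 := h6 V S (hSt.mono (le_max_left _ _) (min_le_left _ _))
    refine ⟨h1 S hS ?_, h5 S (h7.trans_le (min_le_left _ _))⟩
    have h8 := dsg_triangle x hx T V S
    have h9 := h7.trans_le (min_le_right ρ' (r - dsg x T V))
    linarith
  obtain ⟨V0, hV0, hV0'⟩ := hiso S0 r0 hr0
  obtain ⟨N0, e0, he0, hst0⟩ := exists_st_dsg x hx (show 0 < r0 - dsg x S0 V0 by linarith)
  choose nxt hn1 hn2 hn3 using hstep
  let s : ℕ → State := fun n => Nat.rec ⟨(V0, N0, e0), hV0, he0⟩ (fun n s => nxt n s) n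
  have hs_succ : ∀ n, s (n + 1) = nxt n (s n) := fun n => rfl
  have hs0 : s 0 = ⟨(V0, N0, e0), hV0, he0⟩ := rfl
  have hself : ∀ n, St x (s n).1.1 (s n).1.2.1 (s n).1.2.2 (s n).1.1 := by
    intro n i _ t _
    rw [sub_self, _root_.zero_apply, norm_zero]
    exact (s n).2.2.le
  have hdown : ∀ k l, k ≤ l → ∀ S, Iso S → St x (s l).1.1 (s l).1.2.1 (s l).1.2.2 S →
      St x (s k).1.1 (s k).1.2.1 (s k).1.2.2 S := by
    intro k l hkl
    induction l, hkl using Nat.le_induction with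
    | base => intro S _ h; exact h
    | succ l hl ih =>
      intro S hS h
      refine ih S hS ?_
      exact (hn3 l (s l) S hS h).1
  have hcl : ∀ k l, k ≤ l → St x (s k).1.1 (s k).1.2.1 (s k).1.2.2 (s l).1.1 := fun k l hkl =>
    hdown k l hkl _ (s l).2.1 (hself l)
  obtain ⟨S, hS, hlim⟩ := exists_limit (fun k => (s k).1.1) (fun k => (s k).2.1) (by
    intro y M ε hε
    obtain ⟨i, hi⟩ := hd.exists_dist_lt y (show 0 < ε / 4 by positivity)
    obtain ⟨n1, hn1'⟩ := exists_pow_lt_of_lt_one (show 0 < ε / 2 by positivity)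
      (show (1 / 2 : ℝ) < 1 by norm_num)
    obtain ⟨n2, hn2'⟩ := exists_nat_ge M
    refine ⟨n1 + n2 + i + 1, fun k hk l hl t ht => ?_⟩
    obtain ⟨k', rfl⟩ : ∃ k', k = k' + 1 := ⟨k - 1, by omega⟩
    have h1 := hcl (k' + 1) l hl
    have hN : k' ≤ (s (k' + 1)).1.2.1 := hn1 k' (s k')
    have he : (s (k' + 1)).1.2.2 ≤ (1 / 2 : ℝ) ^ k' := hn2 k' (s k')
    have h2 := h1 i (by omega) t (ht.trans (hn2'.trans (by
      have : n2 ≤ (s (k' + 1)).1.2.1 := by omega
      exact_mod_cast this)))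
    have h3 : (1 / 2 : ℝ) ^ k' ≤ (1 / 2 : ℝ) ^ n1 :=
      pow_le_pow_of_le_one (by norm_num) (by norm_num) (by omega)
    have h4 : (s (k' + 1)).1.1.T t y - (s l).1.1.T t y =
        (s (k' + 1)).1.1.T t (y - x i) - (s l).1.1.T t (y - x i) +
        ((s (k' + 1)).1.1.T t - (s l).1.1.T t) (x i) := by
      rw [map_sub, map_sub, _root_.sub_apply]
      abel
    have h5 : ‖(s (k' + 1)).1.1.T t (y - x i) - (s l).1.1.T t (y - x i)‖ ≤ 2 * ‖y - x i‖ := by
      refine (norm_sub_le _ _).trans ?_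
      linarith [norm_apply_le (s (k' + 1)).1.1 t (y - x i), norm_apply_le (s l).1.1 t (y - x i)]
    rw [h4]
    refine (norm_add_le _ _).trans ?_
    rw [dist_eq_norm] at hi
    linarith)
  have hStk : ∀ k, St x (s k).1.1 (s k).1.2.1 (s k).1.2.2 S := by
    intro k i hi t ht
    have h1 : Tendsto (fun l => ‖((s k).1.1.T t - (s l).1.1.T t) (x i)‖) atTop
        (𝓝 ‖((s k).1.1.T t - S.T t) (x i)‖) := by
      simp only [_root_.sub_apply]
      exact (tendsto_const_nhds.sub (hlim t (x i))).norm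
    refine le_of_tendsto h1 ?_
    filter_upwards [eventually_ge_atTop k] with l hl
    exact hcl k l hl i hi t ht
  refine ⟨S, fun n => (hn3 n (s n) S hS (hStk (n + 1))).2, ?_⟩
  have h1 := hst0 V0 S (hStk 0)
  have h2 := dsg_triangle x hx S0 V0 S
  linarith

/-- The metric space of contraction semigroups is a Baire space. -/
theorem baire [CompleteSpace H] (hinf : ¬ FiniteDimensional ℂ H) (x : ℕ → H)
    (hx : ∀ i, x i ≠ 0) (hd : DenseRange x) :
    @BaireSpace (CSemi H) (metric x hx hd).toUniformSpace.toTopologicalSpace := by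
  let _ := metric x hx hd
  have hdist : ∀ S T : CSemi H, dist S T = dsg x S T := fun _ _ => rfl
  refine ⟨fun f ho hde => ?_⟩
  rw [Metric.dense_iff]
  intro S0 r0 hr0
  obtain ⟨S, hS, hS'⟩ := exists_in_inter hinf x hx hd f
    (fun n S hS => by
      obtain ⟨r, hr, h⟩ := Metric.isOpen_iff.1 (ho n) S hS
      refine ⟨r, hr, fun S' hS' => h ?_⟩
      rw [Metric.mem_ball, dist_comm, hdist]
      exact hS')
    (fun n S r hr => by
      obtain ⟨S', hS', h'⟩ := (Metric.dense_iff.1 (hde n)) S r hr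
      refine ⟨S', h', ?_⟩
      rw [Metric.mem_ball, dist_comm, hdist] at hS'
      exact hS') S0 r0 hr0
  refine ⟨S, ?_, Set.mem_iInter.2 hS⟩
  rw [Metric.mem_ball, dist_comm, hdist]
  exact hS'

end

end Pool.Agent.R232.SB
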