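import Pool.Agent.R232.SG1

/-!
# Hermite coefficients
-/

set_option autoImplicit false

open MeasureTheory ProbabilityTheory Polynomial Filter
open scoped Nat NNReal Topology

namespace Pool.Agent.R232.SG

/-- the standard Gaussian measure -/
noncomputable abbrev gam : Measure ℝ := gaussianReal 0 1

/-- values of the (unnormalised) Hermite polynomials -/
noncomputable def He (n : ℕ) (x : ℝ) : ℝ := (HP n).eval x

lemma He_zero (x : ℝ) : He 0 x = 1 := by simp [He, HP_zero]

lemma He_one (x : ℝ) : He 1 x = x := HP_one_eval x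

lemma He_rec (n : ℕ) (x : ℝ) : He (n + 2) x = x * He (n + 1) x - ((n : ℝ) + 1) * He n x :=
  HP_rec n x

lemma He_cont (n : ℕ) : Continuous (He n) := (HP n).continuous

lemma He_meas (n : ℕ) : Measurable (He n) := (He_cont n).measurable

lemma He_neg (n : ℕ) (x : ℝ) : He n (-x) = (-1) ^ n * He n x := by
  induction n using Nat.strong_induction_on with
  | _ n ih =>
    rcases n with _ | _ | n
    · simp [He_zero]
    · simp [He_one]
    · rw [He_rec, He_rec, ih (n + 1) (by omega), ih n (by omega)]
      ring

lemma He_x3 (m : ℕ) (x : ℝ) : x ^ 3 * He (m + 3) x = He (m + 6) x + 3 * ((m : ℝ) + 4) * He (m + 4) x +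
    3 * ((m : ℝ) + 3) ^ 2 * He (m + 2) x + ((m : ℝ) + 3) * (m + 2) * (m + 1) * He m x := by
  have r0 := He_rec m x
  have r1 := He_rec (m + 1) x
  have r2 := He_rec (m + 2) x
  have r3 := He_rec (m + 3) x
  have r4 := He_rec (m + 4) x
  push_cast at r0 r1 r2 r3 r4
  rw [show m + 1 + 2 = m + 3 from rfl, show m + 1 + 1 = m + 2 from rfl] at r1
  rw [show m + 2 + 2 = m + 4 from rfl, show m + 2 + 1 = m + 3 from rfl] at r2
  rw [show m + 3 + 2 = m + 5 from rfl, show m + 3 + 1 = m + 4 from rfl] at r3
  rw [show m + 4 + 2 = m + 6 from rfl, show m + 4 + 1 = m + 5 from rfl] at r4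
  rw [r4, r3, r2, r1, r0]
  ring

lemma poly_memLp (p : ℝ[X]) : MemLp (fun x => p.eval x) 2 gam := by
  rw [memLp_two_iff_integrable_sq p.continuous.aestronglyMeasurable]
  have := poly_int (p ^ 2) 1
  simpa using this

lemma He_memLp (n : ℕ) : MemLp (He n) 2 gam := poly_memLp (HP n)

lemma HeHe_int (m n : ℕ) : Integrable (fun x => He m x * He n x) gam := by
  have := poly_int (HP m * HP n) 1
  simpa [He] using this

lemma orth (m n : ℕ) : ∫ x, He m x * He n x ∂gam = if m = n then (n ! : ℝ) else 0 := by
  -- E[He_{m+1} q] = E[He_m q']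
  have key : ∀ (m : ℕ) (q : ℝ[X]), ∫ x, (HP (m + 1)).eval x * q.eval x ∂gam =
      ∫ x, (HP m).eval x * (derivative q).eval x ∂gam := by
    intro m q
    have h1 := stein (HP m * q)
    have e1 : ∀ x : ℝ, (HP (m + 1)).eval x * q.eval x = x * (HP m * q).eval x -
        (derivative (HP m)).eval x * q.eval x := by
      intro x
      rw [HP_succ]
      simp only [eval_sub, eval_mul, eval_X]
      ring
    have e2 : ∀ x : ℝ, (derivative (HP m * q)).eval x =
        (derivative (HP m)).eval x * q.eval x + (HP m).eval x * (derivative q).eval x := by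
      intro x
      rw [derivative_mul]
      simp only [eval_add, eval_mul]
    have i1 : Integrable (fun x => (derivative (HP m)).eval x * q.eval x) gam := by
      have := poly_int (derivative (HP m) * q) 1
      simpa using this
    have i2 : Integrable (fun x => (HP m).eval x * (derivative q).eval x) gam := by
      have := poly_int (HP m * derivative q) 1
      simpa using this
    have i3 : Integrable (fun x => x * (HP m * q).eval x) gam := by
      have := poly_int (X * (HP m * q)) 1
      simpa using this
    simp_rw [e1]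
    rw [integral_sub i3 i1, h1]
    simp_rw [e2]
    rw [integral_add i1 i2]
    ring
  have main : ∀ m n, m ≤ n → ∫ x, He n x * He m x ∂gam = if m = n then (n ! : ℝ) else 0 := by
    intro m
    induction m with
    | zero =>
      intro n _
      rcases n with _ | n
      · simp [He_zero]
      · have := key n 1
        simp only [derivative_one, eval_zero, mul_zero, integral_zero, eval_one, mul_one] at this
        simp only [He_zero, mul_one]
        rw [if_neg (by omega)]
        exact this
    | succ m ih =>
      intro n hn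
      obtain ⟨n, rfl⟩ : ∃ k, n = k + 1 := ⟨n - 1, by omega⟩
      have h1 := key n (HP (m + 1))
      rw [HP_deriv] at h1
      have h2 : ∫ x, He (n + 1) x * He (m + 1) x ∂gam = ((m : ℝ) + 1) * ∫ x, He n x * He m x ∂gam := by
        unfold He
        rw [h1, ← integral_const_mul]
        refine integral_congr_ae (Filter.Eventually.of_forall fun x => ?_)
        simp only [eval_mul, eval_C]
        ring
      rw [h2, ih n (by omega)]
      by_cases h : m = n
      · subst h
        rw [if_pos rfl, if_pos rfl, Nat.factorial_succ]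
        push_cast
        ring
      · rw [if_neg h, if_neg (by omega), mul_zero]
  rcases le_total n m with h | h
  · rw [main n m h]
    by_cases hh : m = n
    · subst hh; simp
    · rw [if_neg hh, if_neg (Ne.symm hh)]
  · simp_rw [mul_comm (He m _)]
    rw [main m n h]

/-- Hermite coefficients -/
noncomputable def cf (f : ℝ → ℝ) (n : ℕ) : ℝ := ∫ x, f x * He n x ∂gam

lemma bessel (f : ℝ → ℝ) (hf : MemLp f 2 gam) : Summable fun n : ℕ => cf f n ^ 2 / (n ! : ℝ) := by
  have hn : ∀ n : ℕ, MemLp (fun x => (√(n ! : ℝ))⁻¹ * He n x) 2 gam := fun n =>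
    (He_memLp n).const_mul _
  let e : ℕ → Lp ℝ 2 gam := fun n => (hn n).toLp
  have horth : Orthonormal ℝ e := by
    rw [orthonormal_iff_ite]
    intro i j
    rw [MeasureTheory.L2.inner_def]
    have h1 : ∫ x, inner ℝ (e i x) (e j x) ∂gam =
        ∫ x, ((√(i ! : ℝ))⁻¹ * He i x) * ((√(j ! : ℝ))⁻¹ * He j x) ∂gam := by
      refine integral_congr_ae ?_
      filter_upwards [(hn i).coeFn_toLp, (hn j).coeFn_toLp] with x h1 h2
      simp only [e, h1, h2, RCLike.inner_apply, conj_trivial]
      ring
    rw [h1]
    have h2 : ∀ x, ((√(i ! : ℝ))⁻¹ * He i x) * ((√(j ! : ℝ))⁻¹ * He j x) =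
        ((√(i ! : ℝ))⁻¹ * (√(j ! : ℝ))⁻¹) * (He i x * He j x) := fun x => by ring
    simp_rw [h2]
    rw [integral_const_mul, orth]
    by_cases h : i = j
    · subst h
      rw [if_pos rfl, if_pos rfl, ← mul_inv, Real.mul_self_sqrt (by positivity)]
      exact inv_mul_cancel₀ (by positivity)
    · rw [if_neg h, if_neg h, mul_zero]
  have h3 := horth.inner_products_summable (hf.toLp f)
  refine h3.congr fun n => ?_
  rw [MeasureTheory.L2.inner_def]
  have h1 : ∫ x, inner ℝ (e n x) (hf.toLp f x) ∂gam = (√(n ! : ℝ))⁻¹ * cf f n := by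
    unfold cf
    rw [← integral_const_mul]
    refine integral_congr_ae ?_
    filter_upwards [(hn n).coeFn_toLp, hf.coeFn_toLp] with x h1 h2
    simp only [e, h1, h2, RCLike.inner_apply, conj_trivial]
    ring
  rw [h1, Real.norm_eq_abs, sq_abs, mul_pow, inv_pow, Real.sq_sqrt (by positivity)]
  ring

end Pool.Agent.R232.SG
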