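import Pool.Agent.R232.SG2

/-!
# The bilinear Hermite expansion of the bivariate normal law
-/

set_option autoImplicit false

open MeasureTheory ProbabilityTheory Polynomial Filter
open scoped Nat NNReal Topology

namespace Pool.Agent.R232.SG

lemma He_int (n : ℕ) : Integrable (He n) gam := (He_memLp n).integrable one_le_two

lemma Hesq_int (n : ℕ) : Integrable (fun x => He n x ^ 2) gam := by
  have := HeHe_int n n
  simpa [sq] using this

lemma bHe_int (f : ℝ → ℝ) (hf : Measurable f) (A : ℝ) (hA : ∀ x, |f x| ≤ A) (n : ℕ) :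
    Integrable (fun x => f x * He n x) gam :=
  (He_int n).bdd_mul hf.aestronglyMeasurable (Eventually.of_forall fun x => hA x)

lemma He_abs_int (n : ℕ) : ∫ x, |He n x| ∂gam ≤ √(n ! : ℝ) := by
  have hpos : 0 < √(n ! : ℝ) := Real.sqrt_pos.mpr (by positivity)
  have h1 : ∀ x, |He n x| ≤ (He n x ^ 2 / √(n ! : ℝ) + √(n ! : ℝ)) / 2 := by
    intro x
    have h2 : 0 ≤ (|He n x| - √(n ! : ℝ)) ^ 2 / √(n ! : ℝ) := by positivity
    have h3 : (|He n x| - √(n ! : ℝ)) ^ 2 / √(n ! : ℝ) = He n x ^ 2 / √(n ! : ℝ) + √(n ! : ℝ) - 2 * |He n x| := by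
      rw [← sq_abs (He n x)]
      field_simp
      ring
    linarith
  have hi : Integrable (fun x => (He n x ^ 2 / √(n ! : ℝ) + √(n ! : ℝ)) / 2) gam :=
    (((Hesq_int n).div_const _).add (integrable_const _)).div_const _
  refine (integral_mono (He_int n).abs hi h1).trans (le_of_eq ?_)
  rw [integral_div, integral_add ((Hesq_int n).div_const _) (integrable_const _), integral_div,
    integral_const]
  have h4 : ∫ x, He n x ^ 2 ∂gam = (n ! : ℝ) := by
    have := orth n n
    rw [if_pos rfl] at this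
    simpa [sq] using this
  rw [h4]
  simp only [smul_eq_mul, probReal_univ, one_mul]
  rw [Real.div_sqrt]
  ring

lemma cf_abs_int (f : ℝ → ℝ) (hf : Measurable f) (A : ℝ) (hA : ∀ x, |f x| ≤ A) (n : ℕ) :
    ∫ x, |f x * He n x| ∂gam ≤ A * √(n ! : ℝ) := by
  have hA0 : 0 ≤ A := (abs_nonneg _).trans (hA 0)
  have h1 : ∫ x, |f x * He n x| ∂gam ≤ ∫ x, A * |He n x| ∂gam := by
    refine integral_mono (bHe_int f hf A hA n).abs ((He_int n).abs.const_mul A) fun x => ?_
    simp only [abs_mul]
    exact mul_le_mul_of_nonneg_right (hA x) (abs_nonneg _)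
  rw [integral_const_mul] at h1
  exact h1.trans (mul_le_mul_of_nonneg_left (He_abs_int n) hA0)

lemma cf_le (f : ℝ → ℝ) (hf : Measurable f) (A : ℝ) (hA : ∀ x, |f x| ≤ A) (n : ℕ) :
    |cf f n| ≤ A * √(n ! : ℝ) :=
  (abs_integral_le_integral_abs).trans (cf_abs_int f hf A hA n)

/-- the Mehler kernel -/
noncomputable def MK (r x y : ℝ) : ℝ := (√(1 - r ^ 2))⁻¹ * Real.exp ((2 * r * x * y -
  r ^ 2 * (x ^ 2 + y ^ 2)) / (2 * (1 - r ^ 2)))

lemma kernel_change (g : ℝ → ℝ) (hg : Measurable g) (r x : ℝ) (h0 : 0 ≤ r) (h1 : r < 1) :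
    ∫ z, g (r * x + √(1 - r ^ 2) * z) ∂gam = ∫ y, g y * MK r x y ∂gam := by
  have hs : 0 < 1 - r ^ 2 := by nlinarith
  have hs' : 0 < √(1 - r ^ 2) := Real.sqrt_pos.mpr hs
  set v : ℝ≥0 := NNReal.mk (√(1 - r ^ 2) ^ 2) (sq_nonneg _) with hv
  have hv' : (v : ℝ) = 1 - r ^ 2 := by rw [hv]; simp [Real.sq_sqrt hs.le]
  have hvne : v ≠ 0 := by
    intro h
    have : (v : ℝ) = 0 := by rw [h]; rfl
    rw [hv'] at this
    linarith
  have hmap : gam.map (fun z => r * x + √(1 - r ^ 2) * z) = gaussianReal (r * x) v := by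
    have e1 : (fun z : ℝ => r * x + √(1 - r ^ 2) * z) = (fun z => r * x + z) ∘ (fun z => √(1 - r ^ 2) * z) := rfl
    rw [e1, ← Measure.map_map (by fun_prop) (by fun_prop), gaussianReal_map_const_mul,
      gaussianReal_map_const_add]
    simp [hv]
  have e2 : ∫ z, g (r * x + √(1 - r ^ 2) * z) ∂gam = ∫ y, g y ∂(gaussianReal (r * x) v) := by
    rw [← hmap, integral_map (by fun_prop) hg.aestronglyMeasurable]
  rw [e2, integral_gaussianReal_eq_integral_smul hvne,
    integral_gaussianReal_eq_integral_smul (one_ne_zero)]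
  refine integral_congr_ae (Eventually.of_forall fun y => ?_)
  simp only [smul_eq_mul]
  have key : gaussianPDFReal (r * x) v y = gaussianPDFReal 0 1 y * MK r x y := by
    unfold gaussianPDFReal MK
    rw [hv']
    have e3 : √(2 * Real.pi * (1 - r ^ 2)) = √(2 * Real.pi) * √(1 - r ^ 2) := Real.sqrt_mul (by positivity) _
    rw [e3]
    simp only [NNReal.coe_one, mul_one, sub_zero, mul_inv]
    have e4 : Real.exp (-(y - r * x) ^ 2 / (2 * (1 - r ^ 2))) = Real.exp (-y ^ 2 / 2) *
        Real.exp ((2 * r * x * y - r ^ 2 * (x ^ 2 + y ^ 2)) / (2 * (1 - r ^ 2))) := by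
      rw [← Real.exp_add]
      congr 1
      field_simp
      ring
    rw [e4]
    ring
  rw [key]
  ring

lemma MK_nonneg (r x y : ℝ) : 0 ≤ MK r x y := by unfold MK; positivity

lemma MK_meas (r : ℝ) : Measurable (fun q : ℝ × ℝ => MK r q.1 q.2) := by
  unfold MK
  fun_prop

/-- The joint expectation `E[f(X) g(rX + √(1-r²) Z)]` -/
noncomputable def biv (f g : ℝ → ℝ) (r : ℝ) : ℝ :=
  ∫ q : ℝ × ℝ, f q.1 * g (r * q.1 + √(1 - r ^ 2) * q.2) ∂(gam.prod gam)

lemma biv_hasSum (f g : ℝ → ℝ) (hf : Measurable f) (hg : Measurable g) (A B : ℝ)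
    (hA : ∀ x, |f x| ≤ A) (hB : ∀ x, |g x| ≤ B) (r : ℝ) (h0 : 0 ≤ r) (h1 : r < 1) :
    HasSum (fun n : ℕ => r ^ n * (cf f n * cf g n / (n ! : ℝ))) (biv f g r) := by
  have hA0 : 0 ≤ A := (abs_nonneg _).trans (hA 0)
  have hB0 : 0 ≤ B := (abs_nonneg _).trans (hB 0)
  let F : ℕ → ℝ × ℝ → ℝ := fun k q => (r ^ k / (k ! : ℝ)) * ((f q.1 * He k q.1) * (g q.2 * He k q.2))
  have hFi : ∀ k, Integrable (F k) (gam.prod gam) := fun k =>
    ((bHe_int f hf A hA k).mul_prod (bHe_int g hg B hB k)).const_mul _
  have hFn : ∀ k, ∫ q, ‖F k q‖ ∂(gam.prod gam) ≤ A * B * r ^ k := by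
    intro k
    have e1 : ∀ q : ℝ × ℝ, ‖F k q‖ = (r ^ k / (k ! : ℝ)) * (|f q.1 * He k q.1| * |g q.2 * He k q.2|) := by
      intro q
      simp only [F, Real.norm_eq_abs, abs_mul, abs_div, abs_pow, abs_of_nonneg h0, Nat.abs_cast]
    simp_rw [e1]
    rw [integral_const_mul, integral_prod_mul (fun x => |f x * He k x|) (fun x => |g x * He k x|)]
    have hk : (0 : ℝ) < (k ! : ℝ) := by positivity
    calc r ^ k / (k ! : ℝ) * ((∫ x, |f x * He k x| ∂gam) * ∫ x, |g x * He k x| ∂gam)
        ≤ r ^ k / (k ! : ℝ) * ((A * √(k ! : ℝ)) * (B * √(k ! : ℝ))) := by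
          refine mul_le_mul_of_nonneg_left ?_ (by positivity)
          exact mul_le_mul (cf_abs_int f hf A hA k) (cf_abs_int g hg B hB k)
            (integral_nonneg fun x => abs_nonneg _) (by positivity)
      _ = A * B * r ^ k * ((√(k ! : ℝ)) ^ 2 / (k ! : ℝ)) := by ring
      _ = A * B * r ^ k := by rw [Real.sq_sqrt hk.le, div_self hk.ne', mul_one]
  have hsum : Summable fun k => ∫ q, ‖F k q‖ ∂(gam.prod gam) := by
    refine Summable.of_nonneg_of_le (fun k => integral_nonneg fun q => norm_nonneg _) hFn ?_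
    exact (summable_geometric_of_lt_one h0 h1).mul_left _
  have main := hasSum_integral_of_summable_integral_norm hFi hsum
  have e1 : ∀ k, ∫ q, F k q ∂(gam.prod gam) = r ^ k * (cf f k * cf g k / (k ! : ℝ)) := by
    intro k
    simp only [F]
    rw [integral_const_mul, integral_prod_mul (fun x => f x * He k x) (fun x => g x * He k x)]
    unfold cf
    ring
  have e2 : ∀ q : ℝ × ℝ, ∑' k, F k q = f q.1 * (g q.2 * MK r q.1 q.2) := by
    intro q
    have hm := (mehlerHP r q.1 q.2 h0 h1).mul_left (f q.1 * g q.2)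
    have e3 : f q.1 * (g q.2 * MK r q.1 q.2) = f q.1 * g q.2 * MK r q.1 q.2 := by ring
    have e4 : (fun k => F k q) = fun k : ℕ => f q.1 * g q.2 *
        (r ^ k / (k ! : ℝ) * (HP k).eval q.1 * (HP k).eval q.2) := by
      funext k
      simp only [F, He]
      ring
    rw [e3, e4]
    exact hm.tsum_eq
  simp_rw [e1, e2] at main
  have hint : Integrable (fun q : ℝ × ℝ => f q.1 * (g q.2 * MK r q.1 q.2)) (gam.prod gam) := by
    -- use Tonelli: integrability from the probability kernel
    have hmeas : AEStronglyMeasurable (fun q : ℝ × ℝ => f q.1 * (g q.2 * MK r q.1 q.2)) (gam.prod gam) := by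
      refine Measurable.aestronglyMeasurable ?_
      exact (hf.comp measurable_fst).mul ((hg.comp measurable_snd).mul (MK_meas r))
    have hone : ∀ x : ℝ, ∫ y, MK r x y ∂gam = 1 := by
      intro x
      have := kernel_change (fun _ => 1) measurable_const r x h0 h1
      simp only [one_mul] at this
      rw [← this]
      simp
    have hMi : ∀ x : ℝ, Integrable (fun y => MK r x y) gam := by
      intro x
      by_contra hcon
      have := hone x
      rw [integral_undef hcon] at this
      exact zero_ne_one this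
    rw [integrable_prod_iff hmeas]
    constructor
    · refine Eventually.of_forall fun x => ?_
      have : Integrable (fun y => g y * MK r x y) gam :=
        (hMi x).bdd_mul hg.aestronglyMeasurable (Eventually.of_forall fun y => hB y)
      exact this.const_mul (f x)
    · refine Integrable.of_bound (C := A * B) ?_ (Eventually.of_forall fun x => ?_)
      · exact hmeas.norm.integral_prod_right'
      · rw [Real.norm_eq_abs, abs_of_nonneg (integral_nonneg fun y => norm_nonneg _)]
        have h2 : ∀ y, ‖f x * (g y * MK r x y)‖ ≤ A * B * MK r x y := by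
          intro y
          rw [Real.norm_eq_abs, abs_mul, abs_mul, abs_of_nonneg (MK_nonneg r x y)]
          have : |f x| * (|g y| * MK r x y) = (|f x| * |g y|) * MK r x y := by ring
          rw [this]
          exact mul_le_mul_of_nonneg_right (mul_le_mul (hA x) (hB y) (abs_nonneg _) hA0) (MK_nonneg r x y)
        have h3 : Integrable (fun y => f x * (g y * MK r x y)) gam := by
          have : Integrable (fun y => g y * MK r x y) gam :=
            (hMi x).bdd_mul hg.aestronglyMeasurable (Eventually.of_forall fun y => hB y)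
          exact this.const_mul _
        refine (integral_mono h3.norm ((hMi x).const_mul _) h2).trans ?_
        rw [integral_const_mul, hone, mul_one]
  have e3 : biv f g r = ∫ q : ℝ × ℝ, f q.1 * (g q.2 * MK r q.1 q.2) ∂(gam.prod gam) := by
    unfold biv
    rw [integral_prod _ hint, integral_prod]
    · refine integral_congr_ae (Eventually.of_forall fun x => ?_)
      simp only
      rw [integral_const_mul, integral_const_mul, kernel_change g hg r x h0 h1]
    · refine Integrable.of_bound (C := A * B) ?_ (Eventually.of_forall fun q => ?_)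
      · refine Measurable.aestronglyMeasurable ?_
        exact (hf.comp measurable_fst).mul (hg.comp (by fun_prop))
      · rw [Real.norm_eq_abs, abs_mul]
        exact mul_le_mul (hA _) (hB _) (abs_nonneg _) hA0
  rw [e3]
  exact main

/-- uniqueness of power series with bounded coefficients -/
lemma ps_unique (e : ℕ → ℝ) (B : ℝ) (hB : ∀ n, |e n| ≤ B)
    (h : ∀ r : ℝ, 0 < r → r < 1 → HasSum (fun n => r ^ n * e n) 0) : ∀ n, e n = 0 := by
  have hB0 : 0 ≤ B := (abs_nonneg _).trans (hB 0)
  intro n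
  induction n using Nat.strong_induction_on with
  | _ n ih =>
    have key : ∀ r : ℝ, 0 < r → r < 1 / 2 → |e n| ≤ 2 * B * r := by
      intro r hr0 hr1
      have hs := h r hr0 (by linarith)
      have h1 := hs.summable.sum_add_tsum_nat_add n
      rw [hs.tsum_eq] at h1
      have h2 : ∑ i ∈ Finset.range n, r ^ i * e i = 0 :=
        Finset.sum_eq_zero fun i hi => by rw [ih i (Finset.mem_range.mp hi), mul_zero]
      rw [h2, zero_add] at h1
      have hs1 : Summable fun i => r ^ (i + n) * e (i + n) := (summable_nat_add_iff n).mpr hs.summable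
      have h3 := hs1.tsum_eq_zero_add
      rw [h1] at h3
      simp only [zero_add] at h3
      have hgs : Summable fun i : ℕ => r ^ n * (B * r) * r ^ i :=
        (summable_geometric_of_lt_one hr0.le (by linarith)).mul_left _
      have h4 : |∑' i, r ^ (i + 1 + n) * e (i + 1 + n)| ≤ ∑' i : ℕ, r ^ n * (B * r) * r ^ i := by
        rw [← Real.norm_eq_abs]
        refine tsum_of_norm_bounded hgs.hasSum fun i => ?_
        rw [Real.norm_eq_abs, abs_mul, abs_of_nonneg (by positivity : (0 : ℝ) ≤ r ^ (i + 1 + n))]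
        calc r ^ (i + 1 + n) * |e (i + 1 + n)| ≤ r ^ (i + 1 + n) * B :=
              mul_le_mul_of_nonneg_left (hB _) (by positivity)
          _ = _ := by ring
      rw [tsum_mul_left, tsum_geometric_of_lt_one hr0.le (by linarith)] at h4
      have h5 : r ^ n * e n = -∑' i, r ^ (i + 1 + n) * e (i + 1 + n) := by linarith
      have h6 : r ^ n * |e n| ≤ r ^ n * (B * r) * (1 - r)⁻¹ := by
        have : r ^ n * |e n| = |r ^ n * e n| := by
          rw [abs_mul, abs_of_nonneg (by positivity : (0 : ℝ) ≤ r ^ n)]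
        rw [this, h5, abs_neg]
        exact h4
      have hrn : 0 < r ^ n := by positivity
      have h7 : |e n| ≤ (B * r) * (1 - r)⁻¹ := by
        have h8 : r ^ n * |e n| ≤ r ^ n * ((B * r) * (1 - r)⁻¹) := by
          rw [← mul_assoc]; exact h6
        exact le_of_mul_le_mul_left h8 hrn
      have h9 : (1 - r)⁻¹ ≤ 2 := by
        rw [inv_le_comm₀ (by linarith) (by norm_num)]
        linarith
      calc |e n| ≤ (B * r) * (1 - r)⁻¹ := h7
        _ ≤ (B * r) * 2 := mul_le_mul_of_nonneg_left h9 (by positivity)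
        _ = _ := by ring
    by_contra hne
    have hpos : 0 < |e n| := abs_pos.mpr hne
    have h1 := key (min (1 / 4) (|e n| / (4 * (B + 1)))) (by positivity)
      (lt_of_le_of_lt (min_le_left _ _) (by norm_num))
    have h2 : 2 * B * min (1 / 4) (|e n| / (4 * (B + 1))) ≤ 2 * B * (|e n| / (4 * (B + 1))) :=
      mul_le_mul_of_nonneg_left (min_le_right _ _) (by positivity)
    have h3 : 2 * B * (|e n| / (4 * (B + 1))) ≤ |e n| / 2 := by
      have h4 : 2 * B * (|e n| / (4 * (B + 1))) = (|e n| / 2) * (B / (B + 1)) := by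
        field_simp
        ring
      rw [h4]
      have h5 : B / (B + 1) ≤ 1 := by rw [div_le_one (by positivity)]; linarith
      calc _ ≤ (|e n| / 2) * 1 := mul_le_mul_of_nonneg_left h5 (by positivity)
        _ = _ := mul_one _
    linarith

end Pool.Agent.R232.SG
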