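import Pool.Agent.R232.SG2

/-!
# The Turan type identity for Hermite polynomials and its consequences
-/

set_option autoImplicit false

open MeasureTheory ProbabilityTheory Polynomial Filter
open scoped Nat NNReal Topology

namespace Pool.Agent.R232.SG

/-- `∑_{l < n} He_l(x)^2 / l!` -/
noncomputable def Sn (n : ℕ) (x : ℝ) : ℝ := ∑ l ∈ Finset.range n, He l x ^ 2 / (l ! : ℝ)

lemma Sn_succ (n : ℕ) (x : ℝ) : Sn (n + 1) x = Sn n x + He n x ^ 2 / (n ! : ℝ) := by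
  simp [Sn, Finset.sum_range_succ]

lemma Sn_nonneg (n : ℕ) (x : ℝ) : 0 ≤ Sn n x :=
  Finset.sum_nonneg fun l _ => by positivity

lemma Sn_ge_one (n : ℕ) (x : ℝ) : 1 ≤ Sn (n + 1) x := by
  unfold Sn
  rw [Finset.sum_range_succ']
  have h : 0 ≤ ∑ l ∈ Finset.range n, He (l + 1) x ^ 2 / ((l + 1) ! : ℝ) :=
    Finset.sum_nonneg fun l _ => by positivity
  simp only [He_zero, Nat.factorial_zero, Nat.cast_one, one_pow, div_one]
  linarith

/-- the closed form of `Sn (n + 1)` -/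
lemma Sn_closed (n : ℕ) (x : ℝ) : (n ! : ℝ) * Sn (n + 1) x =
    He (n + 1) x ^ 2 - x * He (n + 1) x * He n x + ((n : ℝ) + 1) * He n x ^ 2 := by
  induction n with
  | zero => simp [Sn, He_zero, He_one]; ring
  | succ n ih =>
    rw [Sn_succ, mul_add, Nat.factorial_succ]
    have h0 : ((n ! : ℕ) : ℝ) ≠ 0 := by positivity
    push_cast
    have e1 : ((n : ℝ) + 1) * (n ! : ℝ) * Sn (n + 1) x = ((n : ℝ) + 1) * ((n ! : ℝ) * Sn (n + 1) x) := by ring
    rw [e1, ih, He_rec n x]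
    have e2 : ((n : ℝ) + 1) * (n ! : ℝ) * (He (n + 1) x ^ 2 / (((n : ℝ) + 1) * (n ! : ℝ))) = He (n + 1) x ^ 2 := by
      have : ((n : ℝ) + 1) ≠ 0 := by positivity
      field_simp
    rw [e2]
    ring

/-- growth step -/
lemma growth_step (n : ℕ) (x R : ℝ) (hx : |x| ≤ R) (hn : R ^ 2 ≤ (n : ℝ) + 1) :
    He (n + 1) x ^ 2 / ((n + 1) ! : ℝ) ≤ 2 / ((n : ℝ) + 1) * Sn (n + 1) x := by
  have h := Sn_closed n x
  have hn1 : (0 : ℝ) < (n : ℝ) + 1 := by positivity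
  have hf : (0 : ℝ) < (n ! : ℝ) := by positivity
  set A := He (n + 1) x
  set B := He n x
  -- |x A B| ≤ (A^2 + (n+1) B^2)/2
  have hx2 : x ^ 2 ≤ (n : ℝ) + 1 := by
    have : x ^ 2 ≤ R ^ 2 := by
      rw [← sq_abs x]
      exact pow_le_pow_left₀ (abs_nonneg _) hx 2
    linarith
  have h1 : x * A * B ≤ (A ^ 2 + ((n : ℝ) + 1) * B ^ 2) / 2 := by
    have h2 : 0 ≤ (A - x * B) ^ 2 := sq_nonneg _
    have h3 : x ^ 2 * B ^ 2 ≤ ((n : ℝ) + 1) * B ^ 2 := mul_le_mul_of_nonneg_right hx2 (sq_nonneg _)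
    nlinarith
  have h2 : A ^ 2 ≤ 2 * ((n ! : ℝ) * Sn (n + 1) x) := by
    have h3 : 0 ≤ ((n : ℝ) + 1) * B ^ 2 := by positivity
    linarith
  rw [Nat.factorial_succ]
  push_cast
  rw [div_le_iff₀ (by positivity)]
  have e : 2 / ((n : ℝ) + 1) * Sn (n + 1) x * (((n : ℝ) + 1) * (n ! : ℝ)) = 2 * ((n ! : ℝ) * Sn (n + 1) x) := by
    field_simp
  rw [e]
  exact h2

lemma Sn_cont (n : ℕ) : Continuous (Sn n) := by
  unfold Sn
  exact continuous_finsetSum _ fun l _ => ((He_cont l).pow 2).div_const _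

/-- locally uniform bound for the normalised Hermite polynomials -/
lemma He_bound (R : ℝ) : ∃ M : ℝ, 0 ≤ M ∧ ∀ (n : ℕ) (x : ℝ), |x| ≤ R →
    He n x ^ 2 / (n ! : ℝ) ≤ M * ((n : ℝ) + 1) := by
  obtain ⟨N, hN⟩ := exists_nat_ge (R ^ 2)
  have hcomp : IsCompact (Set.Icc (-R) R) := isCompact_Icc
  obtain ⟨M, hM⟩ := hcomp.exists_bound_of_continuousOn (Sn_cont (N + 1)).continuousOn
  have hM' : ∀ x, |x| ≤ R → Sn (N + 1) x ≤ M := by
    intro x hx
    have := hM x (abs_le.mp hx)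
    rw [Real.norm_eq_abs] at this
    exact (le_abs_self _).trans this
  by_cases hR : 0 ≤ R
  · have hM0 : 0 ≤ M := (Sn_nonneg (N + 1) 0).trans (hM' 0 (by simpa using hR))
    -- S_n ≤ M n^2 for n ≥ N + 1
    have key : ∀ (k : ℕ) (x : ℝ), |x| ≤ R → Sn (N + 1 + k) x ≤ M * ((N : ℝ) + 1 + k) ^ 2 := by
      intro k x hx
      induction k with
      | zero =>
        simp only [add_zero, Nat.cast_zero]
        have h1 : (1 : ℝ) ≤ ((N : ℝ) + 1) ^ 2 := by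
          have : (0 : ℝ) ≤ N := by positivity
          nlinarith
        calc Sn (N + 1) x ≤ M * 1 := by rw [mul_one]; exact hM' x hx
          _ ≤ _ := mul_le_mul_of_nonneg_left h1 hM0
      | succ k ih =>
        rw [show N + 1 + (k + 1) = (N + 1 + k) + 1 from rfl, Sn_succ]
        have h1 := growth_step (N + k) x R hx (by push_cast; have : (0 : ℝ) ≤ k := by positivity
                                                  linarith)
        rw [show N + k + 1 = N + 1 + k by ring] at h1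
        set T := Sn (N + 1 + k) x
        push_cast at h1 ⊢
        have hpos : (0 : ℝ) < (N : ℝ) + k + 1 := by positivity
        have h2 : 2 / ((N : ℝ) + k + 1) * T ≤ 2 / ((N : ℝ) + k + 1) * (M * ((N : ℝ) + 1 + k) ^ 2) :=
          mul_le_mul_of_nonneg_left ih (by positivity)
        have h3 : 2 / ((N : ℝ) + k + 1) * (M * ((N : ℝ) + 1 + k) ^ 2) = 2 * M * ((N : ℝ) + 1 + k) := by
          field_simp
          ring
        have h4 : M * ((N : ℝ) + 1 + k) ^ 2 + 2 * M * ((N : ℝ) + 1 + k) ≤ M * ((N : ℝ) + 1 + (k + 1)) ^ 2 := by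
          nlinarith
        linarith
    refine ⟨2 * M, by positivity, ?_⟩
    intro n x hx
    rcases lt_or_ge n (N + 1) with h | h
    · have h1 : He n x ^ 2 / (n ! : ℝ) ≤ Sn (N + 1) x := by
        unfold Sn
        exact Finset.single_le_sum (f := fun l => He l x ^ 2 / (l ! : ℝ)) (fun l _ => by positivity)
          (Finset.mem_range.mpr h)
      have h2 : (0 : ℝ) ≤ n := by positivity
      nlinarith [hM' x hx, mul_nonneg hM0 h2]
    · obtain ⟨k, rfl⟩ := Nat.exists_eq_add_of_le h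
      have h1 := growth_step (N + k) x R hx (by push_cast; have : (0 : ℝ) ≤ k := by positivity
                                                linarith)
      rw [show N + k + 1 = N + 1 + k by ring] at h1
      have h2 := key k x hx
      have hpos : (0 : ℝ) < (N : ℝ) + k + 1 := by positivity
      push_cast at h1 ⊢
      have h3 : 2 / ((N : ℝ) + k + 1) * Sn (N + 1 + k) x ≤ 2 / ((N : ℝ) + k + 1) * (M * ((N : ℝ) + 1 + k) ^ 2) :=
        mul_le_mul_of_nonneg_left h2 (by positivity)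
      have h4 : 2 / ((N : ℝ) + k + 1) * (M * ((N : ℝ) + 1 + k) ^ 2) = 2 * M * ((N : ℝ) + 1 + k) := by
        field_simp
        ring
      nlinarith
  · refine ⟨0, le_rfl, fun n x hx => ?_⟩
    exact absurd ((abs_nonneg x).trans hx) hR

/-! ### the sequences `z`, `s`, `w` -/

/-- `1 / (2^j j!)` -/
noncomputable def sj (j : ℕ) : ℝ := 1 / (2 ^ j * (j ! : ℝ))

/-- `(-1)^j He_{2j}(a) / (2^j j!)` -/
noncomputable def zj (a : ℝ) (j : ℕ) : ℝ := (-1) ^ j * He (2 * j) a * sj j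

/-- `(2j)! / (2^j j!)^2` -/
noncomputable def wj (j : ℕ) : ℝ := ((2 * j) ! : ℝ) * sj j ^ 2

lemma sj_pos (j : ℕ) : 0 < sj j := by unfold sj; positivity

lemma wj_pos (j : ℕ) : 0 < wj j := by unfold wj; have := sj_pos j; positivity

lemma sj_succ (j : ℕ) : sj j = 2 * ((j : ℝ) + 1) * sj (j + 1) := by
  unfold sj
  rw [Nat.factorial_succ, pow_succ]
  have h0 : ((j ! : ℕ) : ℝ) ≠ 0 := by positivity
  have h1 : ((j : ℝ) + 1) ≠ 0 := by positivity
  push_cast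
  field_simp

lemma wj_succ (j : ℕ) : wj (j + 1) = (2 * (j : ℝ) + 1) / (2 * (j : ℝ) + 2) * wj j := by
  unfold wj
  rw [sj_succ j]
  rw [show 2 * (j + 1) = (2 * j + 1) + 1 by ring, Nat.factorial_succ, Nat.factorial_succ]
  have h1 : (2 * (j : ℝ) + 2) ≠ 0 := by positivity
  push_cast
  field_simp
  ring

lemma wj_anti (j : ℕ) : wj (j + 1) ≤ wj j := by
  rw [wj_succ]
  have h1 : (2 * (j : ℝ) + 1) / (2 * (j : ℝ) + 2) ≤ 1 := by
    rw [div_le_one (by positivity)]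
    linarith
  calc _ ≤ 1 * wj j := mul_le_mul_of_nonneg_right h1 (wj_pos j).le
    _ = wj j := one_mul _

lemma He_of_zj (a : ℝ) (j : ℕ) : He (2 * j) a * sj j = (-1) ^ j * zj a j := by
  unfold zj
  have : ((-1 : ℝ) ^ j) * (-1) ^ j = 1 := by rw [← mul_pow]; simp
  calc He (2 * j) a * sj j = (((-1 : ℝ) ^ j) * (-1) ^ j) * (He (2 * j) a * sj j) := by rw [this, one_mul]
    _ = _ := by ring

/-- the three-term recurrence for even Hermite polynomials -/
lemma He_even_rec (n : ℕ) (x : ℝ) : He (n + 4) x =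
    (x ^ 2 - (2 * (n : ℝ) + 5)) * He (n + 2) x - ((n : ℝ) + 2) * (n + 1) * He n x := by
  have r0 := He_rec n x
  have r1 := He_rec (n + 1) x
  have r2 := He_rec (n + 2) x
  rw [show n + 1 + 2 = n + 3 from rfl, show n + 1 + 1 = n + 2 from rfl] at r1
  rw [show n + 2 + 2 = n + 4 from rfl, show n + 2 + 1 = n + 3 from rfl] at r2
  push_cast at r1 r2
  rw [r2, r1]
  have e : x * He (n + 1) x = He (n + 2) x + ((n : ℝ) + 1) * He n x := by rw [r0]; ring
  have e2 : x * (x * He (n + 2) x - ((n : ℝ) + 1 + 1) * He (n + 1) x) =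
      x ^ 2 * He (n + 2) x - ((n : ℝ) + 2) * (x * He (n + 1) x) := by ring
  rw [e2, e]
  ring

lemma zj_rec (a : ℝ) (j : ℕ) : 2 * ((j : ℝ) + 2) * zj a (j + 2) =
    (4 * j + 5 - a ^ 2) * zj a (j + 1) - (2 * j + 1) * zj a j := by
  have h := He_even_rec (2 * j) a
  unfold zj
  rw [show 2 * (j + 2) = 2 * j + 4 by ring, show 2 * (j + 1) = 2 * j + 2 by ring, h]
  have s1 := sj_succ j
  have s2 := sj_succ (j + 1)
  rw [show j + 1 + 1 = j + 2 from rfl] at s2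
  push_cast at s2
  rw [s1, s2]
  push_cast
  rw [pow_succ, pow_succ]
  ring

lemma zj_lower (a : ℝ) (j : ℕ) : a ^ 2 * wj j ≤
    (4 + 4 * a ^ 2) * (((j : ℝ) + 1) ^ 2 * (|zj a j| + |zj a (j + 1)|) ^ 2) := by
  have h1 := Sn_closed (2 * j) a
  have h2 := Sn_ge_one (2 * j) a
  have hf : (0 : ℝ) < ((2 * j) ! : ℝ) := by positivity
  have h3 : ((2 * j) ! : ℝ) ≤ He (2 * j + 1) a ^ 2 - a * He (2 * j + 1) a * He (2 * j) a +
      ((2 * j : ℕ) + 1 : ℝ) * He (2 * j) a ^ 2 := by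
    rw [← h1]
    nlinarith
  have r := He_rec (2 * j) a
  push_cast at r h3
  -- multiply by a^2 s_j^2
  have z0 := He_of_zj a j
  have z1 := He_of_zj a (j + 1)
  rw [show 2 * (j + 1) = 2 * j + 2 by ring] at z1
  have s1 := sj_succ j
  have hY : a * He (2 * j + 1) a = He (2 * j + 2) a + (2 * (j : ℝ) + 1) * He (2 * j) a := by
    rw [r]; ring
  set A := He (2 * j + 1) a
  set B := He (2 * j) a
  set D := He (2 * j + 2) a
  set s := sj j
  set s' := sj (j + 1)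
  set z := zj a j
  set z' := zj a (j + 1)
  have hsgn : ((-1 : ℝ) ^ j) ^ 2 = 1 := by rw [← pow_mul, mul_comm, pow_mul]; simp
  set e : ℝ := (-1) ^ j
  have hYs : a * A * s = e * (-(2 * ((j : ℝ) + 1) * z' - (2 * j + 1) * z)) := by
    rw [hY]
    have e1 : D * s = 2 * ((j : ℝ) + 1) * (D * s') := by rw [s1]; ring
    have e2 : (D + (2 * (j : ℝ) + 1) * B) * s = D * s + (2 * (j : ℝ) + 1) * (B * s) := by ring
    rw [e2, e1, z1, z0, pow_succ]
    ring
  set X := 2 * ((j : ℝ) + 1) * z' - (2 * j + 1) * z with hX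
  have hBs : B * s = e * z := z0
  have main : a ^ 2 * wj j ≤ X ^ 2 + a ^ 2 * (X * z) + (2 * j + 1) * a ^ 2 * z ^ 2 := by
    have h4 : a ^ 2 * wj j = ((2 * j) ! : ℝ) * (a * s) ^ 2 := by unfold wj; ring
    have h5 := mul_le_mul_of_nonneg_right h3 (sq_nonneg (a * s))
    rw [h4]
    refine h5.trans (le_of_eq ?_)
    have h6 : (A ^ 2 - a * A * B + (2 * (j : ℝ) + 1) * B ^ 2) * (a * s) ^ 2 =
        (a * A * s) ^ 2 - a ^ 2 * (a * A * s) * (B * s) + (2 * (j : ℝ) + 1) * a ^ 2 * (B * s) ^ 2 := by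
      ring
    rw [h6, hYs, hBs]
    have h7 : (e * -X) ^ 2 - a ^ 2 * (e * -X) * (e * z) + (2 * (j : ℝ) + 1) * a ^ 2 * (e * z) ^ 2 =
        e ^ 2 * (X ^ 2 + a ^ 2 * (X * z) + (2 * j + 1) * a ^ 2 * z ^ 2) := by ring
    rw [h7, hsgn, one_mul]
  have hj : (0 : ℝ) ≤ j := by positivity
  set Z := |z| + |z'| with hZ
  have hZ0 : 0 ≤ Z := by positivity
  have hz : |z| ≤ Z := by rw [hZ]; linarith [abs_nonneg z']
  have hXb : |X| ≤ 2 * ((j : ℝ) + 1) * Z := by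
    rw [hX, hZ]
    calc |2 * ((j : ℝ) + 1) * z' - (2 * j + 1) * z| ≤ |2 * ((j : ℝ) + 1) * z'| + |(2 * (j : ℝ) + 1) * z| :=
          abs_sub _ _
      _ = 2 * ((j : ℝ) + 1) * |z'| + (2 * j + 1) * |z| := by
          rw [abs_mul, abs_mul (2 * (j : ℝ) + 1), abs_of_nonneg (by positivity : (0 : ℝ) ≤ 2 * ((j : ℝ) + 1)),
            abs_of_nonneg (by positivity : (0 : ℝ) ≤ 2 * (j : ℝ) + 1)]
      _ ≤ _ := by nlinarith [abs_nonneg z, abs_nonneg z']
  have e1 : X ^ 2 ≤ 4 * ((j : ℝ) + 1) ^ 2 * Z ^ 2 := by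
    rw [← sq_abs X]
    calc |X| ^ 2 ≤ (2 * ((j : ℝ) + 1) * Z) ^ 2 := pow_le_pow_left₀ (abs_nonneg _) hXb 2
      _ = _ := by ring
  have e2 : X * z ≤ 2 * ((j : ℝ) + 1) * Z ^ 2 := by
    calc X * z ≤ |X * z| := le_abs_self _
      _ = |X| * |z| := abs_mul _ _
      _ ≤ (2 * ((j : ℝ) + 1) * Z) * Z := mul_le_mul hXb hz (abs_nonneg _) (by positivity)
      _ = _ := by ring
  have e3 : z ^ 2 ≤ Z ^ 2 := by
    rw [← sq_abs z]
    exact pow_le_pow_left₀ (abs_nonneg _) hz 2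
  have ha : 0 ≤ a ^ 2 := sq_nonneg a
  have e4 : a ^ 2 * (X * z) ≤ a ^ 2 * (2 * ((j : ℝ) + 1) * Z ^ 2) := mul_le_mul_of_nonneg_left e2 ha
  have e5 : (2 * (j : ℝ) + 1) * a ^ 2 * z ^ 2 ≤ (2 * (j : ℝ) + 1) * a ^ 2 * Z ^ 2 :=
    mul_le_mul_of_nonneg_left e3 (by positivity)
  have e6 : a ^ 2 * (2 * ((j : ℝ) + 1) * Z ^ 2) + (2 * (j : ℝ) + 1) * a ^ 2 * Z ^ 2 ≤
      4 * a ^ 2 * (((j : ℝ) + 1) ^ 2 * Z ^ 2) := by
    have : 0 ≤ a ^ 2 * Z ^ 2 := by positivity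
    have h8 : (4 * (j : ℝ) + 3) ≤ 4 * ((j : ℝ) + 1) ^ 2 := by nlinarith
    calc _ = (4 * (j : ℝ) + 3) * (a ^ 2 * Z ^ 2) := by ring
      _ ≤ 4 * ((j : ℝ) + 1) ^ 2 * (a ^ 2 * Z ^ 2) := mul_le_mul_of_nonneg_right h8 this
      _ = _ := by ring
  nlinarith

end Pool.Agent.R232.SG
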