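import Mathlib

/-!
# The sequence lemma

Two sequences `z`, `d` with `d j ∈ {0, z j}`, where `z` solves the three term recurrence of
`(-1)^j He_{2j}(a) / (2^j j!)` and `d` is almost annihilated by a third order difference operator.
-/

set_option autoImplicit false

namespace Pool.Agent.R232.SG

open Filter Topology

lemma window (z0 z1 z2 z3 z4 d0 d1 d2 d3 d4 e : ℝ) (he : 0 ≤ e)
    (h0 : d0 = 0 ∨ d0 = z0) (h1 : d1 = 0 ∨ d1 = z1) (h2 : d2 = 0 ∨ d2 = z2)
    (h3 : d3 = 0 ∨ d3 = z3) (h4 : d4 = 0 ∨ d4 = z4)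
    (s1 : |z2 - 2 * z1 + z0| ≤ e) (s2 : |z3 - 2 * z2 + z1| ≤ e) (s3 : |z4 - 2 * z3 + z2| ≤ e)
    (t1 : |d3 - 3 * d2 + 3 * d1 - d0| ≤ e) (t2 : |d4 - 3 * d3 + 3 * d2 - d1| ≤ e) :
    (|d0| ≤ 40 * e ∧ |d1| ≤ 40 * e ∧ |d2| ≤ 40 * e ∧ |d3| ≤ 40 * e ∧ |d4| ≤ 40 * e) ∨
    (|z0 - d0| ≤ 40 * e ∧ |z1 - d1| ≤ 40 * e ∧ |z2 - d2| ≤ 40 * e ∧ |z3 - d3| ≤ 40 * e ∧
      |z4 - d4| ≤ 40 * e) := by
  rw [abs_le] at s1 s2 s3 t1 t2
  obtain ⟨s1a, s1b⟩ := s1
  obtain ⟨s2a, s2b⟩ := s2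
  obtain ⟨s3a, s3b⟩ := s3
  obtain ⟨t1a, t1b⟩ := t1
  obtain ⟨t2a, t2b⟩ := t2
  rcases h0 with h0 | h0 <;> rcases h1 with h1 | h1 <;> rcases h2 with h2 | h2 <;>
    rcases h3 with h3 | h3 <;> rcases h4 with h4 | h4 <;> subst h0 h1 h2 h3 h4 <;>
    first
    | (left; refine ⟨?_, ?_, ?_, ?_, ?_⟩ <;> (rw [abs_le]; constructor <;> linarith))
    | (right; refine ⟨?_, ?_, ?_, ?_, ?_⟩ <;> (rw [abs_le]; constructor <;> linarith))

lemma pair0 (z0 z1 z2 e f : ℝ) (s1 : |z2 - 2 * z1 + z0| ≤ e) (h2 : |z2| ≤ f) (h0 : |z0| ≤ f) :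
    |z0| + |z1| ≤ 10 * (e + f) := by
  have hf : 0 ≤ f := (abs_nonneg _).trans h2
  have he : 0 ≤ e := (abs_nonneg _).trans s1
  have : |z1| ≤ f + e := by
    rw [abs_le] at s1 h2 h0 ⊢
    constructor <;> linarith [s1.1, s1.2, h2.1, h2.2, h0.1, h0.2]
  linarith

lemma pair1 (z0 z1 z2 e f : ℝ) (s1 : |z2 - 2 * z1 + z0| ≤ e) (h2 : |z2| ≤ f) (h1 : |z1| ≤ f) :
    |z0| + |z1| ≤ 10 * (e + f) := by
  have hf : 0 ≤ f := (abs_nonneg _).trans h2
  have he : 0 ≤ e := (abs_nonneg _).trans s1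
  have : |z0| ≤ 3 * f + e := by
    rw [abs_le] at s1 h2 h1 ⊢
    constructor <;> linarith [s1.1, s1.2, h2.1, h2.2, h1.1, h1.2]
  linarith

lemma pair3 (z0 z1 z2 z3 e f : ℝ) (s1 : |z2 - 2 * z1 + z0| ≤ e) (s2 : |z3 - 2 * z2 + z1| ≤ e)
    (h2 : |z2| ≤ f) (h3 : |z3| ≤ f) : |z0| + |z1| ≤ 10 * (e + f) := by
  have hf : 0 ≤ f := (abs_nonneg _).trans h2
  have he : 0 ≤ e := (abs_nonneg _).trans s1
  have a1 : |z1| ≤ 3 * f + e := by
    rw [abs_le] at s2 h2 h3 ⊢
    constructor <;> linarith [s2.1, s2.2, h2.1, h2.2, h3.1, h3.2]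
  have a0 : |z0| ≤ 7 * f + 3 * e := by
    rw [abs_le] at s1 h2 a1 ⊢
    constructor <;> linarith [s1.1, s1.2, h2.1, h2.2, a1.1, a1.2]
  linarith

/-- the third order operator -/
noncomputable def T3 (d : ℕ → ℝ) (k : ℕ) : ℝ :=
  2 * ((k : ℝ) + 3) * d (k + 3) - (6 * k + 15) * d (k + 2) + (6 * k + 12) * d (k + 1) -
    (2 * k + 3) * d k

lemma second_diff (a : ℝ) (z : ℕ → ℝ)
    (hz : ∀ j : ℕ, 2 * ((j : ℝ) + 2) * z (j + 2) =
      (4 * j + 5 - a ^ 2) * z (j + 1) - (2 * j + 1) * z j) (i : ℕ) :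
    2 * ((i : ℝ) + 2) * |z (i + 2) - 2 * z (i + 1) + z i| ≤
      (3 + a ^ 2) * (|z i| + |z (i + 1)|) := by
  have h1 : 2 * ((i : ℝ) + 2) * |z (i + 2) - 2 * z (i + 1) + z i| =
      |3 * z i - (3 + a ^ 2) * z (i + 1)| := by
    have : (0 : ℝ) ≤ 2 * ((i : ℝ) + 2) := by positivity
    rw [← abs_of_nonneg this, ← abs_mul]
    congr 1
    linear_combination hz i
  rw [h1]
  refine (abs_sub _ _).trans ?_
  rw [abs_mul, abs_mul, abs_of_nonneg (by norm_num : (0 : ℝ) ≤ 3),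
    abs_of_nonneg (by positivity : (0 : ℝ) ≤ 3 + a ^ 2)]
  nlinarith [abs_nonneg (z i), sq_nonneg a, mul_nonneg (sq_nonneg a) (abs_nonneg (z i))]

lemma third_diff (d : ℕ → ℝ) (i : ℕ) :
    2 * ((i : ℝ) + 3) * |d (i + 3) - 3 * d (i + 2) + 3 * d (i + 1) - d i| ≤
      |T3 d i| + 3 * |d (i + 2)| + 6 * |d (i + 1)| + 3 * |d i| := by
  have h1 : 2 * ((i : ℝ) + 3) * |d (i + 3) - 3 * d (i + 2) + 3 * d (i + 1) - d i| =
      |T3 d i - 3 * d (i + 2) + 6 * d (i + 1) - 3 * d i| := by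
    have : (0 : ℝ) ≤ 2 * ((i : ℝ) + 3) := by positivity
    rw [← abs_of_nonneg this, ← abs_mul]
    congr 1
    unfold T3
    ring
  rw [h1]
  have h2 := abs_sub (T3 d i - 3 * d (i + 2) + 6 * d (i + 1)) (3 * d i)
  have h3 := abs_add_le (T3 d i - 3 * d (i + 2)) (6 * d (i + 1))
  have h4 := abs_sub (T3 d i) (3 * d (i + 2))
  rw [abs_mul, abs_of_nonneg (by norm_num : (0 : ℝ) ≤ 3)] at h2 h4
  rw [abs_mul, abs_of_nonneg (by norm_num : (0 : ℝ) ≤ 6)] at h3
  linarith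

lemma tail (z d w M : ℕ → ℝ) (J : ℕ) (hw : ∀ j, 0 < w j)
    (hMd : ∀ j, M j = |z j| + |z (j + 1)|) (hMpos : ∀ j, J ≤ j → 0 < M j)
    (hd : ∀ j, d j = 0 ∨ d j = z j)
    (h2 : ∀ j, J ≤ j → |z (j + 2) - 2 * z (j + 1) + z j| ≤ 1 / 10000 * M j ∧
      |z (j + 3) - 2 * z (j + 2) + z (j + 1)| ≤ 1 / 10000 * M j)
    (hA : ∀ j, J ≤ j → |d j| ≤ 40 * (1 / 10000 * M j) ∧ |d (j + 1)| ≤ 40 * (1 / 10000 * M j) ∧
      |d (j + 2)| ≤ 40 * (1 / 10000 * M j) ∧ |d (j + 3)| ≤ 40 * (1 / 10000 * M j))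
    (hT : Summable fun k => T3 d k ^ 2 / w (k + 2)) :
    Summable fun j : ℕ => (j : ℝ) ^ 2 * d j ^ 2 / w j := by
  rw [← summable_nat_add_iff (J + 2)]
  have hT2 := (summable_nat_add_iff J).2 hT
  refine Summable.of_nonneg_of_le (fun k => ?_) (fun k => ?_) hT2
  · have := hw (k + (J + 2))
    positivity
  · obtain ⟨b, hb⟩ : ∃ b, b = k + J := ⟨_, rfl⟩
    have hbJ : J ≤ b := by omega
    rw [show k + (J + 2) = b + 2 by omega, show k + J = b from hb.symm]
    apply div_le_div_of_nonneg_right _ (hw _).le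
    obtain ⟨a0, a1, a2, a3⟩ := hA b hbJ
    obtain ⟨s1, s2⟩ := h2 b hbJ
    have hMb := hMpos b hbJ
    have hsum := hMd b
    rcases hd (b + 2) with h | h
    · rw [h]
      have := sq_nonneg (T3 d b)
      linarith
    · rw [h] at a2
      have z3 : d (b + 3) = 0 := by
        rcases hd (b + 3) with h' | h'
        · exact h'
        · exfalso
          rw [h'] at a3
          have := pair3 _ _ _ _ _ _ s1 s2 a2 a3
          linarith
      have z1 : d (b + 1) = 0 := by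
        rcases hd (b + 1) with h' | h'
        · exact h'
        · exfalso
          rw [h'] at a1
          have := pair1 _ _ _ _ _ s1 a2 a1
          linarith
      have z0 : d b = 0 := by
        rcases hd b with h' | h'
        · exact h'
        · exfalso
          rw [h'] at a0
          have := pair0 _ _ _ _ _ s1 a2 a0
          linarith
      have e1 : T3 d b = -((6 * b + 15) * d (b + 2)) := by
        unfold T3
        rw [z3, z1, z0]
        ring
      rw [e1, neg_sq, mul_pow]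
      apply mul_le_mul_of_nonneg_right _ (sq_nonneg _)
      push_cast
      have : (0 : ℝ) ≤ b := Nat.cast_nonneg b
      nlinarith

theorem seq_main (a : ℝ) (z d w : ℕ → ℝ) (c : ℝ) (hc : 0 < c)
    (hz : ∀ j : ℕ, 2 * ((j : ℝ) + 2) * z (j + 2) =
      (4 * j + 5 - a ^ 2) * z (j + 1) - (2 * j + 1) * z j)
    (hw : ∀ j, 0 < w j) (hwa : ∀ j, w (j + 1) ≤ w j)
    (hM : ∀ j : ℕ, 1 ≤ j → c * w j ≤ ((j : ℝ) + 1) ^ 2 * (|z j| + |z (j + 1)|) ^ 2)
    (hd : ∀ j, d j = 0 ∨ d j = z j)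
    (hT : Summable fun k => T3 d k ^ 2 / w (k + 2))
    (hT' : Summable fun k => T3 (fun j => z j - d j) k ^ 2 / w (k + 2)) :
    (Summable fun j : ℕ => (j : ℝ) ^ 2 * d j ^ 2 / w j) ∨
      (Summable fun j : ℕ => (j : ℝ) ^ 2 * (z j - d j) ^ 2 / w j) := by
  obtain ⟨M, hMd⟩ : ∃ M : ℕ → ℝ, ∀ j, M j = |z j| + |z (j + 1)| := ⟨_, fun j => rfl⟩
  have hM0 : ∀ j, 0 ≤ M j := fun j => by rw [hMd]; positivity
  have hMpos : ∀ j, 1 ≤ j → 0 < M j := by
    intro j hj
    have h1 := hM j hj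
    rw [← hMd] at h1
    have h2 : 0 < c * w j := mul_pos hc (hw j)
    rcases (hM0 j).lt_or_eq with h | h
    · exact h
    · rw [← h] at h1
      norm_num at h1
      linarith
  have hdz : ∀ j, |d j| ≤ |z j| := by
    intro j
    rcases hd j with h | h <;> rw [h]
    simp
  -- smallness of T3 d
  have hδ : (0 : ℝ) < c * (1 / 10000) ^ 2 := by positivity
  have hev := hT.tendsto_atTop_zero.eventually_le_const hδ
  obtain ⟨J1, hJ1⟩ := eventually_atTop.1 hev
  obtain ⟨J2, hJ2⟩ := exists_nat_ge (1000000 * (3 + a ^ 2))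
  obtain ⟨J, hJ⟩ : ∃ J, J = max (max J1 J2) 1 := ⟨_, rfl⟩
  have hTb : ∀ j, J ≤ j → ∀ k, k = j ∨ k = j + 1 → |T3 d k| ≤ 1 / 10000 * ((j : ℝ) + 1) * M j := by
    intro j hj k hk
    have hk1 : J1 ≤ k := by omega
    have h1 := hJ1 k hk1
    rw [div_le_iff₀ (hw _)] at h1
    have h2 : w (k + 2) ≤ w j := by
      have hmono : Antitone w := antitone_nat_of_succ_le hwa
      exact hmono (by omega)
    have h3 := hM j (by omega)
    rw [← hMd] at h3
    have h4 : T3 d k ^ 2 ≤ (1 / 10000 * ((j : ℝ) + 1) * M j) ^ 2 := by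
      calc T3 d k ^ 2 ≤ c * (1 / 10000) ^ 2 * w (k + 2) := h1
        _ ≤ c * (1 / 10000) ^ 2 * w j := by gcongr
        _ = (1 / 10000) ^ 2 * (c * w j) := by ring
        _ ≤ (1 / 10000) ^ 2 * (((j : ℝ) + 1) ^ 2 * M j ^ 2) := by gcongr
        _ = _ := by ring
    exact abs_le_of_sq_le_sq h4 (by have := hM0 j; positivity)
  have hwin : ∀ j, J ≤ j →
      (|z (j + 2) - 2 * z (j + 1) + z j| ≤ 1 / 10000 * M j ∧
        |z (j + 3) - 2 * z (j + 2) + z (j + 1)| ≤ 1 / 10000 * M j ∧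
        |z (j + 4) - 2 * z (j + 3) + z (j + 2)| ≤ 1 / 10000 * M j) ∧
      ((|d j| ≤ 40 * (1 / 10000 * M j) ∧ |d (j + 1)| ≤ 40 * (1 / 10000 * M j) ∧
        |d (j + 2)| ≤ 40 * (1 / 10000 * M j) ∧ |d (j + 3)| ≤ 40 * (1 / 10000 * M j) ∧
        |d (j + 4)| ≤ 40 * (1 / 10000 * M j)) ∨
      (|z j - d j| ≤ 40 * (1 / 10000 * M j) ∧ |z (j + 1) - d (j + 1)| ≤ 40 * (1 / 10000 * M j) ∧
        |z (j + 2) - d (j + 2)| ≤ 40 * (1 / 10000 * M j) ∧
        |z (j + 3) - d (j + 3)| ≤ 40 * (1 / 10000 * M j) ∧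
        |z (j + 4) - d (j + 4)| ≤ 40 * (1 / 10000 * M j))) := by
    intro j hj
    have hjr : 1000000 * (3 + a ^ 2) ≤ (j : ℝ) := by
      refine hJ2.trans ?_
      exact_mod_cast (by omega : J2 ≤ j)
    have ha : 0 ≤ a ^ 2 := sq_nonneg a
    have hM0j := hM0 j
    have e0 := second_diff a z hz j
    have e1 := second_diff a z hz (j + 1)
    have e2 := second_diff a z hz (j + 2)
    push_cast at e0 e1 e2
    rw [show j + 1 + 2 = j + 3 from rfl, show j + 1 + 1 = j + 2 from rfl] at e1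
    rw [show j + 2 + 2 = j + 4 from rfl, show j + 2 + 1 = j + 3 from rfl] at e2
    -- generic: from 2(i+2)|x| ≤ (3+a²) y, j large
    have gen : ∀ x y s : ℝ, 0 ≤ x → (j : ℝ) ≤ s → 2 * (s + 2) * x ≤ (3 + a ^ 2) * y →
        2000000 * x ≤ y := by
      intro x y s hx hs h
      have h1 : (3 + a ^ 2) * (2000000 * x) ≤ (3 + a ^ 2) * y := by
        refine le_trans ?_ h
        have : 2000000 * (3 + a ^ 2) ≤ 2 * (s + 2) := by linarith
        nlinarith
      exact le_of_mul_le_mul_left h1 (by linarith)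
    have f0 := gen _ _ (j : ℝ) (abs_nonneg _) le_rfl e0
    have f1 := gen _ _ ((j : ℝ) + 1) (abs_nonneg _) (by linarith) e1
    have f2 := gen _ _ ((j : ℝ) + 2) (abs_nonneg _) (by linarith) e2
    have zj : |z j| ≤ M j := by rw [hMd]; linarith [abs_nonneg (z (j + 1))]
    have zj1 : |z (j + 1)| ≤ M j := by rw [hMd]; linarith [abs_nonneg (z j)]
    have zs : |z j| + |z (j + 1)| = M j := (hMd j).symm
    have g0 : |z (j + 2) - 2 * z (j + 1) + z j| ≤ 1 / 1000000 * M j := by linarith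
    have zj2 : |z (j + 2)| ≤ 4 * M j := by
      rw [abs_le] at g0 zj zj1 ⊢
      constructor <;> linarith [g0.1, g0.2, zj.1, zj.2, zj1.1, zj1.2]
    have g1 : |z (j + 3) - 2 * z (j + 2) + z (j + 1)| ≤ 1 / 100000 * M j := by linarith
    have zj3 : |z (j + 3)| ≤ 10 * M j := by
      rw [abs_le] at g1 zj2 zj1 ⊢
      constructor <;> linarith [g1.1, g1.2, zj2.1, zj2.2, zj1.1, zj1.2]
    have g2 : |z (j + 4) - 2 * z (j + 3) + z (j + 2)| ≤ 1 / 100000 * M j := by linarith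
    have t0 := third_diff d j
    have t1 := third_diff d (j + 1)
    push_cast at t1
    rw [show j + 1 + 3 = j + 4 from rfl, show j + 1 + 2 = j + 3 from rfl,
      show j + 1 + 1 = j + 2 from rfl] at t1
    have hb0 := hTb j hj j (Or.inl rfl)
    have hb1 := hTb j hj (j + 1) (Or.inr rfl)
    have dj := (hdz j).trans zj
    have dj1 := (hdz (j + 1)).trans zj1
    have dj2 := (hdz (j + 2)).trans zj2
    have dj3 := (hdz (j + 3)).trans zj3
    have hj3 : (3000000 : ℝ) ≤ j := by linarith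
    have gen3 : ∀ x s : ℝ, 0 ≤ x → (j : ℝ) ≤ s →
        2 * (s + 3) * x ≤ 1 / 10000 * ((j : ℝ) + 1) * M j + 100 * M j → x ≤ 1 / 10000 * M j := by
      intro x s hx hs h
      have h1 : 2 * ((j : ℝ) + 3) * x ≤ 2 * ((j : ℝ) + 3) * (1 / 10000 * M j) := by
        have h2 : 2 * ((j : ℝ) + 3) * x ≤ 2 * (s + 3) * x := by
          apply mul_le_mul_of_nonneg_right _ hx
          linarith
        nlinarith
      exact le_of_mul_le_mul_left h1 (by positivity)
    have k0 := gen3 _ (j : ℝ) (abs_nonneg _) le_rfl (t0.trans (by linarith))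
    have k1 := gen3 _ ((j : ℝ) + 1) (abs_nonneg _) (by linarith) (t1.trans (by linarith))
    have he : 0 ≤ 1 / 10000 * M j := by positivity
    refine ⟨⟨by linarith, by linarith, by linarith⟩, ?_⟩
    exact window _ _ _ _ _ _ _ _ _ _ _ he (hd j) (hd (j + 1)) (hd (j + 2)) (hd (j + 3))
      (hd (j + 4)) (by linarith) (by linarith) (by linarith) k0 k1
  have key : ∀ j, J ≤ j → |z (j + 1)| ≤ 4 / 1000 * (M j + M (j + 1)) →
      |z (j + 2)| ≤ 4 / 1000 * (M j + M (j + 1)) → False := by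
    intro j hj h1 h2
    obtain ⟨⟨s1, -, -⟩, -⟩ := hwin j hj
    have m1 := hMd j
    have m2 := hMd (j + 1)
    rw [show j + 1 + 1 = j + 2 from rfl] at m2
    have p1 := hMpos j (by omega)
    have p2 := hM0 (j + 1)
    have h3 : |z j| ≤ 2 * |z (j + 1)| + |z (j + 2)| + 1 / 10000 * M j := by
      have h4 : z j = (z (j + 2) - 2 * z (j + 1) + z j) + 2 * z (j + 1) - z (j + 2) := by ring
      have h5 := abs_sub ((z (j + 2) - 2 * z (j + 1) + z j) + 2 * z (j + 1)) (z (j + 2))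
      have h6 := abs_add_le (z (j + 2) - 2 * z (j + 1) + z j) (2 * z (j + 1))
      rw [← h4] at h5
      rw [abs_mul, abs_of_nonneg (by norm_num : (0 : ℝ) ≤ 2)] at h6
      linarith
    linarith
  have hJ1' : 1 ≤ J := by omega
  have hd' : ∀ j, z j - d j = 0 ∨ z j - d j = z j := by
    intro j
    rcases hd j with h | h
    · right; rw [h, sub_zero]
    · left; rw [h, sub_self]
  rcases (hwin J le_rfl).2 with hA0 | hB0
  · left
    have hall : ∀ j, J ≤ j → (|d j| ≤ 40 * (1 / 10000 * M j) ∧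
        |d (j + 1)| ≤ 40 * (1 / 10000 * M j) ∧
        |d (j + 2)| ≤ 40 * (1 / 10000 * M j) ∧ |d (j + 3)| ≤ 40 * (1 / 10000 * M j) ∧
        |d (j + 4)| ≤ 40 * (1 / 10000 * M j)) := by
      intro j hj
      induction j, hj using Nat.le_induction with
      | base => exact hA0
      | succ j hj ih =>
        rcases (hwin (j + 1) (by omega)).2 with h | h
        · exact h
        · exfalso
          obtain ⟨-, i1, i2, -, -⟩ := ih
          obtain ⟨b0, b1, -, -, -⟩ := h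
          rw [show j + 1 + 1 = j + 2 from rfl] at b1
          refine key j hj ?_ ?_
          · have := abs_add_le (z (j + 1) - d (j + 1)) (d (j + 1))
            rw [sub_add_cancel] at this
            linarith
          · have := abs_add_le (z (j + 2) - d (j + 2)) (d (j + 2))
            rw [sub_add_cancel] at this
            linarith
    exact tail z d w M J hw hMd (fun j hj => hMpos j (by omega)) hd
      (fun j hj => ⟨(hwin j hj).1.1, (hwin j hj).1.2.1⟩)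
      (fun j hj => ⟨(hall j hj).1, (hall j hj).2.1, (hall j hj).2.2.1, (hall j hj).2.2.2.1⟩) hT
  · right
    have hall : ∀ j, J ≤ j → (|z j - d j| ≤ 40 * (1 / 10000 * M j) ∧
        |z (j + 1) - d (j + 1)| ≤ 40 * (1 / 10000 * M j) ∧
        |z (j + 2) - d (j + 2)| ≤ 40 * (1 / 10000 * M j) ∧
        |z (j + 3) - d (j + 3)| ≤ 40 * (1 / 10000 * M j) ∧
        |z (j + 4) - d (j + 4)| ≤ 40 * (1 / 10000 * M j)) := by
      intro j hj
      induction j, hj using Nat.le_induction with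
      | base => exact hB0
      | succ j hj ih =>
        rcases (hwin (j + 1) (by omega)).2 with h | h
        · exfalso
          obtain ⟨-, i1, i2, -, -⟩ := ih
          obtain ⟨b0, b1, -, -, -⟩ := h
          rw [show j + 1 + 1 = j + 2 from rfl] at b1
          refine key j hj ?_ ?_
          · have := abs_add_le (z (j + 1) - d (j + 1)) (d (j + 1))
            rw [sub_add_cancel] at this
            linarith
          · have := abs_add_le (z (j + 2) - d (j + 2)) (d (j + 2))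
            rw [sub_add_cancel] at this
            linarith
        · exact h
    exact tail z (fun j => z j - d j) w M J hw hMd (fun j hj => hMpos j (by omega)) hd'
      (fun j hj => ⟨(hwin j hj).1.1, (hwin j hj).1.2.1⟩)
      (fun j hj => ⟨(hall j hj).1, (hall j hj).2.1, (hall j hj).2.2.1, (hall j hj).2.2.2.1⟩) hT'

end Pool.Agent.R232.SG
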