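import Pool.Agent.R232.SG3
import Pool.Agent.R232.SG4
import Pool.Agent.R232.SG5

/-!
# Coefficients of the indicator, odd parts, and Parseval
-/

set_option autoImplicit false

open MeasureTheory ProbabilityTheory Polynomial Filter
open scoped Nat NNReal Topology

namespace Pool.Agent.R232.SG

lemma He_deriv_gauss (n : ℕ) (x : ℝ) :
    HasDerivAt (fun y => -(He n y * gaussianPDFReal 0 1 y)) (gaussianPDFReal 0 1 x * He (n + 1) x) x := by
  have h1 : HasDerivAt (fun y => He n y) ((derivative (HP n)).eval x) x := (HP n).hasDerivAt x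
  have h2 := (h1.mul (stein_deriv x)).neg
  refine h2.congr_deriv ?_
  have h3 : He (n + 1) x = x * He n x - (derivative (HP n)).eval x := by
    unfold He
    rw [HP_succ]
    simp
  rw [h3]
  ring

/-- the Hermite coefficients of the indicator of a half line -/
lemma cf_Ici (a : ℝ) (n : ℕ) : cf (Set.indicator (Set.Ici a) (fun _ => (1 : ℝ))) (n + 1) =
    gaussianPDFReal 0 1 a * He n a := by
  unfold cf
  rw [integral_gaussianReal_eq_integral_smul one_ne_zero]
  have e1 : (fun x => gaussianPDFReal 0 1 x • (Set.indicator (Set.Ici a) (fun _ => (1 : ℝ)) x * He (n + 1) x)) =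
      Set.indicator (Set.Ici a) (fun x => gaussianPDFReal 0 1 x * He (n + 1) x) := by
    funext x
    by_cases h : x ∈ Set.Ici a
    · rw [Set.indicator_of_mem h, Set.indicator_of_mem h, one_mul, smul_eq_mul]
    · rw [Set.indicator_of_notMem h, Set.indicator_of_notMem h, zero_mul, smul_zero]
  rw [e1, integral_indicator measurableSet_Ici, integral_Ici_eq_integral_Ioi]
  have hint : Integrable (fun x => gaussianPDFReal 0 1 x * He (n + 1) x) := stein_int (HP (n + 1))
  have hint2 : Integrable (fun x => -(He n x * gaussianPDFReal 0 1 x)) := by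
    refine (stein_int (HP n)).neg.congr (Eventually.of_forall fun x => ?_)
    simp only [Pi.neg_apply, He]
    ring
  have ht := tendsto_zero_of_hasDerivAt_of_integrableOn_Ioi (a := a)
    (fun x _ => He_deriv_gauss n x) hint.integrableOn hint2.integrableOn
  rw [integral_Ioi_of_hasDerivAt_of_tendsto' (fun x _ => He_deriv_gauss n x) hint.integrableOn ht]
  ring

/-! ### Odd parts -/

/-- the odd part of a function -/
noncomputable def od (f : ℝ → ℝ) (x : ℝ) : ℝ := (f x - f (-x)) / 2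

lemma od_meas (f : ℝ → ℝ) (hf : Measurable f) : Measurable (od f) :=
  (hf.sub (hf.comp measurable_neg)).div_const 2

lemma integral_neg_gam (f : ℝ → ℝ) : ∫ x, f (-x) ∂gam = ∫ x, f x ∂gam := by
  have h : MeasurePreserving (MeasurableEquiv.neg ℝ) gam gam := by
    refine ⟨(MeasurableEquiv.neg ℝ).measurable, ?_⟩
    have := gaussianReal_map_neg (μ := 0) (v := 1)
    simp only [neg_zero] at this
    exact this
  exact h.integral_comp' f

lemma cf_neg (f : ℝ → ℝ) (n : ℕ) : cf (fun x => f (-x)) n = (-1) ^ n * cf f n := by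
  unfold cf
  have h := integral_neg_gam (fun x => f (-x) * He n x)
  simp only [neg_neg] at h
  rw [← h, ← integral_const_mul]
  refine integral_congr_ae (Eventually.of_forall fun x => ?_)
  simp only [He_neg]
  ring

lemma cf_sub (f g : ℝ → ℝ) (n : ℕ) (hf : Integrable (fun x => f x * He n x) gam)
    (hg : Integrable (fun x => g x * He n x) gam) :
    cf (fun x => f x - g x) n = cf f n - cf g n := by
  unfold cf
  rw [← integral_sub hf hg]
  refine integral_congr_ae (Eventually.of_forall fun x => ?_)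
  simp only
  ring

lemma cf_add (f g : ℝ → ℝ) (n : ℕ) (hf : Integrable (fun x => f x * He n x) gam)
    (hg : Integrable (fun x => g x * He n x) gam) :
    cf (fun x => f x + g x) n = cf f n + cf g n := by
  unfold cf
  rw [← integral_add hf hg]
  refine integral_congr_ae (Eventually.of_forall fun x => ?_)
  simp only
  ring

lemma cf_const_mul (c : ℝ) (f : ℝ → ℝ) (n : ℕ) : cf (fun x => c * f x) n = c * cf f n := by
  unfold cf
  rw [← integral_const_mul]
  refine integral_congr_ae (Eventually.of_forall fun x => ?_)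
  simp only
  ring

lemma cf_od (f : ℝ → ℝ) (hf : Measurable f) (A : ℝ) (hA : ∀ x, |f x| ≤ A) (n : ℕ) :
    cf (od f) n = (1 - (-1) ^ n) / 2 * cf f n := by
  have h1 : od f = fun x => (1 / 2 : ℝ) * (f x - f (-x)) := by
    funext x
    unfold od
    ring
  rw [h1, cf_const_mul, cf_sub f (fun x => f (-x)) n (bHe_int f hf A hA n)
    (bHe_int _ (hf.comp measurable_neg) A (fun x => hA (-x)) n), cf_neg]
  ring

lemma cf_od_odd (f : ℝ → ℝ) (hf : Measurable f) (A : ℝ) (hA : ∀ x, |f x| ≤ A) (j : ℕ) :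
    cf (od f) (2 * j + 1) = cf f (2 * j + 1) := by
  rw [cf_od f hf A hA, pow_succ, pow_mul]
  norm_num

lemma cf_od_even (f : ℝ → ℝ) (hf : Measurable f) (A : ℝ) (hA : ∀ x, |f x| ≤ A) (j : ℕ) :
    cf (od f) (2 * j) = 0 := by
  rw [cf_od f hf A hA, pow_mul]
  norm_num

/-- the third-moment identity -/
lemma cf_x3 (g : ℝ → ℝ) (hg : Measurable g) (A : ℝ) (hA : ∀ x, |g x| ≤ A) (m : ℕ) :
    cf (fun x => g x * x ^ 3) (m + 3) = cf g (m + 6) + 3 * ((m : ℝ) + 4) * cf g (m + 4) +
      3 * ((m : ℝ) + 3) ^ 2 * cf g (m + 2) + ((m : ℝ) + 3) * (m + 2) * (m + 1) * cf g m := by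
  have i0 := bHe_int g hg A hA m
  have i2 := bHe_int g hg A hA (m + 2)
  have i4 := bHe_int g hg A hA (m + 4)
  have i6 := bHe_int g hg A hA (m + 6)
  have j4 : Integrable (fun x => g x * He (m + 6) x + 3 * ((m : ℝ) + 4) * (g x * He (m + 4) x)) gam :=
    i6.add (i4.const_mul _)
  have j2 : Integrable (fun x => g x * He (m + 6) x + 3 * ((m : ℝ) + 4) * (g x * He (m + 4) x) +
      3 * ((m : ℝ) + 3) ^ 2 * (g x * He (m + 2) x)) gam := j4.add (i2.const_mul _)
  unfold cf
  rw [← integral_const_mul, ← integral_const_mul, ← integral_const_mul,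
    ← integral_add i6 (i4.const_mul _), ← integral_add j4 (i2.const_mul _),
    ← integral_add j2 (i0.const_mul _)]
  refine integral_congr_ae (Eventually.of_forall fun x => ?_)
  have h := He_x3 m x
  simp only
  have e : g x * x ^ 3 * He (m + 3) x = g x * (x ^ 3 * He (m + 3) x) := by ring
  rw [e, h]
  ring

lemma gx3_memLp (g : ℝ → ℝ) (hg : Measurable g) (A : ℝ) (hA : ∀ x, |g x| ≤ A) :
    MemLp (fun x => g x * x ^ 3) 2 gam := by
  have h1 : MemLp (fun x : ℝ => x ^ 3) 2 gam := by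
    have := poly_memLp (X ^ 3)
    simpa using this
  refine MemLp.of_le_mul (c := A) h1 ?_ (Eventually.of_forall fun x => ?_)
  · exact (hg.mul (by fun_prop)).aestronglyMeasurable
  · rw [norm_mul]
    exact mul_le_mul_of_nonneg_right (hA x) (norm_nonneg _)

/-- Bessel's inequality for `x³ g`, written with `T3` -/
lemma T3_summable (C : ℝ) (hC : C ≠ 0) (g : ℝ → ℝ) (hg : Measurable g) (A : ℝ) (hA : ∀ x, |g x| ≤ A)
    (d : ℕ → ℝ) (hd : ∀ j, cf g (2 * j + 1) * sj j = (-1) ^ j * C * d j) :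
    Summable fun k => T3 d k ^ 2 / wj (k + 2) := by
  have hb := bessel _ (gx3_memLp g hg A hA)
  have hinj : Function.Injective (fun k : ℕ => 2 * k + 4) := fun x y h => by
    simp only at h
    omega
  have hb2 := hb.comp_injective hinj
  have key : ∀ k : ℕ, cf (fun x => g x * x ^ 3) (2 * k + 4) ^ 2 / ((2 * k + 4) ! : ℝ) =
      C ^ 2 * (T3 d k ^ 2 / wj (k + 2)) := by
    intro k
    have h1 := cf_x3 g hg A hA (2 * k + 1)
    rw [show 2 * k + 1 + 3 = 2 * k + 4 by ring, show 2 * k + 1 + 6 = 2 * (k + 3) + 1 by ring,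
      show 2 * k + 1 + 4 = 2 * (k + 2) + 1 by ring, show 2 * k + 1 + 2 = 2 * (k + 1) + 1 by ring] at h1
    have d0 := hd k
    have d1 := hd (k + 1)
    have d2 := hd (k + 2)
    have d3 := hd (k + 3)
    have s0 := sj_succ k
    have s1 := sj_succ (k + 1)
    have s2 := sj_succ (k + 2)
    rw [show k + 1 + 1 = k + 2 from rfl] at s1
    rw [show k + 2 + 1 = k + 3 from rfl] at s2
    push_cast at s0 s1 s2 h1
    have hs2 := sj_pos (k + 2)
    set S := sj (k + 2) with hS
    have hs3 := sj_pos (k + 3)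
    -- multiply by S
    have e3 : cf g (2 * (k + 3) + 1) * S = 2 * ((k : ℝ) + 3) * ((-1) ^ (k + 3) * C * d (k + 3)) := by
      rw [s2, ← d3]; ring
    have e2 : cf g (2 * (k + 2) + 1) * S = (-1) ^ (k + 2) * C * d (k + 2) := d2
    have e1 : 2 * ((k : ℝ) + 2) * (cf g (2 * (k + 1) + 1) * S) = (-1) ^ (k + 1) * C * d (k + 1) := by
      rw [← d1, s1]; ring
    have e0 : 4 * ((k : ℝ) + 1) * ((k : ℝ) + 2) * (cf g (2 * k + 1) * S) = (-1) ^ k * C * d k := by
      rw [← d0, s0, s1]; ring
    have hk2 : ((k : ℝ) + 2) ≠ 0 := by positivity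
    have hk1 : ((k : ℝ) + 1) ≠ 0 := by positivity
    have main : cf (fun x => g x * x ^ 3) (2 * k + 4) * S = (-1) ^ (k + 3) * C * T3 d k := by
      rw [h1]
      have e1' : cf g (2 * (k + 1) + 1) * S = (-1) ^ (k + 1) * C * d (k + 1) / (2 * ((k : ℝ) + 2)) := by
        rw [← e1]; field_simp
      have e0' : cf g (2 * k + 1) * S = (-1) ^ k * C * d k / (4 * ((k : ℝ) + 1) * ((k : ℝ) + 2)) := by
        rw [← e0]; field_simp
      have ex : ∀ A B D E : ℝ, (A + 3 * (2 * (k : ℝ) + 1 + 4) * B + 3 * (2 * (k : ℝ) + 1 + 3) ^ 2 * D +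
        (2 * (k : ℝ) + 1 + 3) * (2 * (k : ℝ) + 1 + 2) * (2 * (k : ℝ) + 1 + 1) * E) * S =
        A * S + 3 * (2 * (k : ℝ) + 1 + 4) * (B * S) + 3 * (2 * (k : ℝ) + 1 + 3) ^ 2 * (D * S) +
        (2 * (k : ℝ) + 1 + 3) * (2 * (k : ℝ) + 1 + 2) * (2 * (k : ℝ) + 1 + 1) * (E * S) := by
        intros; ring
      rw [ex, e3, e2, e1', e0']
      unfold T3
      rw [pow_succ, pow_succ, pow_succ]
      field_simp
      ring
    have hw : wj (k + 2) = ((2 * k + 4) ! : ℝ) * S ^ 2 := by
      unfold wj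
      rw [show 2 * (k + 2) = 2 * k + 4 by ring]
    have hf : (0 : ℝ) < ((2 * k + 4) ! : ℝ) := by positivity
    have h5 : cf (fun x => g x * x ^ 3) (2 * k + 4) ^ 2 * S ^ 2 = C ^ 2 * T3 d k ^ 2 := by
      rw [← mul_pow, main, mul_pow, mul_pow, ← pow_mul, mul_comm (k + 3) 2, pow_mul]
      norm_num
    rw [hw]
    have hSne : S ≠ 0 := hs2.ne'
    rw [div_eq_iff hf.ne']
    have : C ^ 2 * (T3 d k ^ 2 / (((2 * k + 4) ! : ℝ) * S ^ 2)) * ((2 * k + 4) ! : ℝ) =
        (C ^ 2 * T3 d k ^ 2) / S ^ 2 := by field_simp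
    rw [this, ← h5]
    field_simp
  have hC2 : C ^ 2 ≠ 0 := pow_ne_zero 2 hC
  rw [← summable_mul_left_iff hC2]
  refine hb2.congr fun k => ?_
  simp only [Function.comp]
  exact key k

end Pool.Agent.R232.SG
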