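import Pool.Agent.R232.SG6

/-!
# Parseval, completeness, and the core contradiction
-/

set_option autoImplicit false

open MeasureTheory ProbabilityTheory Polynomial Filter
open scoped Nat NNReal Topology ContDiff

namespace Pool.Agent.R232.SG

lemma bdd_memLp (f : ℝ → ℝ) (hf : Measurable f) (A : ℝ) (hA : ∀ x, |f x| ≤ A) : MemLp f 2 gam :=
  MemLp.of_bound hf.aestronglyMeasurable A (Eventually.of_forall fun x => hA x)

lemma cfcf_summable (f g : ℝ → ℝ) (hf : Measurable f) (hg : Measurable g) (A B : ℝ)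
    (hA : ∀ x, |f x| ≤ A) (hB : ∀ x, |g x| ≤ B) :
    Summable fun n : ℕ => |cf f n * cf g n / (n ! : ℝ)| := by
  have h1 := bessel f (bdd_memLp f hf A hA)
  have h2 := bessel g (bdd_memLp g hg B hB)
  refine Summable.of_nonneg_of_le (fun n => abs_nonneg _) (fun n => ?_) ((h1.add h2).div_const 2)
  have hn : (0 : ℝ) < (n ! : ℝ) := by positivity
  rw [abs_div, abs_of_pos hn, ← add_div, div_div, div_le_div_iff₀ hn (by positivity), abs_mul]
  nlinarith [sq_nonneg (|cf f n| - |cf g n|), sq_abs (cf f n), sq_abs (cf g n)]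

/-- Parseval's identity for a bounded function against a bounded continuous function -/
lemma parseval (f g : ℝ → ℝ) (hf : Measurable f) (hg : Continuous g) (A B : ℝ)
    (hA : ∀ x, |f x| ≤ A) (hB : ∀ x, |g x| ≤ B) :
    HasSum (fun n : ℕ => cf f n * cf g n / (n ! : ℝ)) (∫ x, f x * g x ∂gam) := by
  have hA0 : 0 ≤ A := (abs_nonneg _).trans (hA 0)
  have hsum := cfcf_summable f g hf hg.measurable A B hA hB
  have hev : ∀ᶠ r : ℝ in 𝓝[<] 1, 0 ≤ r ∧ r < 1 := by
    have h1 : ∀ᶠ r : ℝ in 𝓝[<] 1, 0 ≤ r := by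
      apply mem_nhdsWithin_of_mem_nhds
      exact Ici_mem_nhds one_pos
    filter_upwards [h1, self_mem_nhdsWithin] with r h1 h2 using ⟨h1, h2⟩
  -- the series side
  have hL : Tendsto (fun r : ℝ => ∑' n : ℕ, r ^ n * (cf f n * cf g n / (n ! : ℝ))) (𝓝[<] 1)
      (𝓝 (∑' n : ℕ, cf f n * cf g n / (n ! : ℝ))) := by
    refine tendsto_tsum_of_dominated_convergence hsum (fun n => ?_) ?_
    · have h1 : Tendsto (fun r : ℝ => r ^ n * (cf f n * cf g n / (n ! : ℝ))) (𝓝 1)
          (𝓝 ((1 : ℝ) ^ n * (cf f n * cf g n / (n ! : ℝ)))) :=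
        (Continuous.tendsto (by fun_prop) 1)
      rw [one_pow, one_mul] at h1
      exact h1.mono_left nhdsWithin_le_nhds
    · filter_upwards [hev] with r hr n
      rw [Real.norm_eq_abs, abs_mul]
      have h1 : |r ^ n| ≤ 1 := by
        rw [abs_of_nonneg (pow_nonneg hr.1 n)]
        exact pow_le_one₀ hr.1 hr.2.le
      calc |r ^ n| * |cf f n * cf g n / (n ! : ℝ)| ≤ 1 * |cf f n * cf g n / (n ! : ℝ)| :=
            mul_le_mul_of_nonneg_right h1 (abs_nonneg _)
        _ = _ := one_mul _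
  -- the integral side
  have hR : Tendsto (fun r : ℝ => biv f g r) (𝓝[<] 1) (𝓝 (∫ q : ℝ × ℝ, f q.1 * g q.1 ∂(gam.prod gam))) := by
    unfold biv
    refine tendsto_integral_filter_of_dominated_convergence (fun _ => A * B) ?_ ?_ (integrable_const _) ?_
    · refine Eventually.of_forall fun r => Measurable.aestronglyMeasurable ?_
      exact (hf.comp measurable_fst).mul (hg.measurable.comp (by fun_prop))
    · refine Eventually.of_forall fun r => Eventually.of_forall fun q => ?_
      rw [Real.norm_eq_abs, abs_mul]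
      exact mul_le_mul (hA _) (hB _) (abs_nonneg _) hA0
    · refine Eventually.of_forall fun q => ?_
      have h1 : Tendsto (fun r : ℝ => f q.1 * g (r * q.1 + √(1 - r ^ 2) * q.2)) (𝓝 1)
          (𝓝 (f q.1 * g ((1 : ℝ) * q.1 + √(1 - (1 : ℝ) ^ 2) * q.2))) :=
        (Continuous.tendsto (by fun_prop) 1)
      have h2 : (1 : ℝ) * q.1 + √(1 - (1 : ℝ) ^ 2) * q.2 = q.1 := by norm_num
      rw [h2] at h1
      exact h1.mono_left nhdsWithin_le_nhds
  have hR2 : ∫ q : ℝ × ℝ, f q.1 * g q.1 ∂(gam.prod gam) = ∫ x, f x * g x ∂gam := by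
    have := integral_prod_mul (μ := gam) (ν := gam) (fun x => f x * g x) (fun _ => (1 : ℝ))
    simp only [mul_one, integral_const, probReal_univ, smul_eq_mul] at this
    exact this
  have heq : (fun r : ℝ => ∑' n : ℕ, r ^ n * (cf f n * cf g n / (n ! : ℝ))) =ᶠ[𝓝[<] 1]
      (fun r => biv f g r) := by
    filter_upwards [hev] with r hr
    exact (biv_hasSum f g hf hg.measurable A B hA hB r hr.1 hr.2).tsum_eq
  have h3 := tendsto_nhds_unique (hL.congr' heq) hR
  rw [hR2] at h3
  rw [← h3]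
  exact (Summable.of_abs hsum).hasSum

/-- the Hermite series of `f` -/
noncomputable def hs (f : ℝ → ℝ) (x : ℝ) : ℝ := ∑' n : ℕ, cf f n / (n ! : ℝ) * He n x

lemma loc_bound (f : ℝ → ℝ)
    (hsum : Summable fun n : ℕ => ((n : ℝ) + 1) ^ 3 * (cf f n ^ 2 / (n ! : ℝ))) (R : ℝ) :
    ∃ u : ℕ → ℝ, Summable u ∧ (∀ n, 0 ≤ u n) ∧ ∀ n x, |x| ≤ R → |cf f n / (n ! : ℝ) * He n x| ≤ u n := by
  obtain ⟨M, hM0, hM⟩ := He_bound R
  have h2 : Summable fun n : ℕ => M * (1 / ((n : ℝ) + 1) ^ 2) := by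
    have h3 : Summable fun n : ℕ => 1 / (((n + 1 : ℕ) : ℝ)) ^ 2 :=
      (summable_nat_add_iff 1).mpr (Real.summable_one_div_nat_pow.mpr one_lt_two)
    refine (h3.mul_left M).congr fun n => ?_
    push_cast
    rfl
  refine ⟨fun n => (((n : ℝ) + 1) ^ 3 * (cf f n ^ 2 / (n ! : ℝ)) + M * (1 / ((n : ℝ) + 1) ^ 2)) / 2,
    (hsum.add h2).div_const 2, fun n => by positivity, fun n x hx => ?_⟩
  have hn : (0 : ℝ) < (n ! : ℝ) := by positivity
  have hn1 : (0 : ℝ) < (n : ℝ) + 1 := by positivity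
  have h4 := hM n x hx
  have h5 : |cf f n / (n ! : ℝ) * He n x| = |cf f n| * |He n x| / (n ! : ℝ) := by
    rw [abs_mul, abs_div, abs_of_pos hn]; ring
  rw [h5]
  -- AM-GM
  have h6 : |cf f n| * |He n x| / (n ! : ℝ) ≤ (((n : ℝ) + 1) ^ 3 * (cf f n ^ 2 / (n ! : ℝ)) +
      (He n x ^ 2 / (n ! : ℝ)) / ((n : ℝ) + 1) ^ 3) / 2 := by
    have h7 : 0 ≤ (((n : ℝ) + 1) ^ 3 * |cf f n| - |He n x|) ^ 2 / ((n ! : ℝ) * ((n : ℝ) + 1) ^ 3) := by
      positivity
    have h8 : (((n : ℝ) + 1) ^ 3 * |cf f n| - |He n x|) ^ 2 / ((n ! : ℝ) * ((n : ℝ) + 1) ^ 3) =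
        ((n : ℝ) + 1) ^ 3 * (cf f n ^ 2 / (n ! : ℝ)) + (He n x ^ 2 / (n ! : ℝ)) / ((n : ℝ) + 1) ^ 3 -
        2 * (|cf f n| * |He n x| / (n ! : ℝ)) := by
      rw [← sq_abs (cf f n), ← sq_abs (He n x)]
      field_simp
      ring
    linarith
  have h9 : (He n x ^ 2 / (n ! : ℝ)) / ((n : ℝ) + 1) ^ 3 ≤ M * (1 / ((n : ℝ) + 1) ^ 2) := by
    rw [div_le_iff₀ (by positivity)]
    have : M * (1 / ((n : ℝ) + 1) ^ 2) * ((n : ℝ) + 1) ^ 3 = M * ((n : ℝ) + 1) := by
      field_simp
    rw [this]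
    exact h4
  linarith

lemma hs_cont (f : ℝ → ℝ)
    (hsum : Summable fun n : ℕ => ((n : ℝ) + 1) ^ 3 * (cf f n ^ 2 / (n ! : ℝ))) : Continuous (hs f) := by
  rw [continuous_iff_continuousAt]
  intro x
  obtain ⟨u, hu, _, hb⟩ := loc_bound f hsum (|x| + 1)
  have h1 : ContinuousOn (hs f) (Set.Icc (-(|x| + 1)) (|x| + 1)) := by
    unfold hs
    refine continuousOn_tsum (fun n => ((He_cont n).const_mul _).continuousOn) hu fun n y hy => ?_
    exact hb n y (abs_le.mpr hy)
  refine h1.continuousAt (Icc_mem_nhds ?_ ?_)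
  · linarith [neg_abs_le x]
  · linarith [le_abs_self x]

lemma hs_ae (f : ℝ → ℝ) (hf : Measurable f) (A : ℝ) (hA : ∀ x, |f x| ≤ A)
    (hsum : Summable fun n : ℕ => ((n : ℝ) + 1) ^ 3 * (cf f n ^ 2 / (n ! : ℝ))) :
    ∀ᵐ x ∂gam, f x = hs f x := by
  have hfi : Integrable f gam := (bdd_memLp f hf A hA).integrable one_le_two
  refine ae_eq_of_integral_contDiff_smul_eq hfi.locallyIntegrable
    (hs_cont f hsum).locallyIntegrable fun g hg hgs => ?_
  have hgc : Continuous g := hg.continuous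
  obtain ⟨B, hB⟩ := hgc.bounded_above_of_compact_support hgs
  have hB' : ∀ x, |g x| ≤ B := hB
  have hB0 : 0 ≤ B := (abs_nonneg _).trans (hB' 0)
  obtain ⟨R, hR⟩ : ∃ R : ℝ, ∀ x, R < |x| → g x = 0 := by
    obtain ⟨R, hR⟩ := hgs.isCompact.isBounded.subset_closedBall 0
    refine ⟨R, fun x hx => ?_⟩
    by_contra hne
    have : x ∈ Metric.closedBall (0 : ℝ) R := hR (subset_tsupport _ hne)
    rw [Metric.mem_closedBall, dist_zero_right, Real.norm_eq_abs] at this
    linarith
  obtain ⟨u, hu, hu0, hub⟩ := loc_bound f hsum R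
  have hbd : ∀ n x, |g x * (cf f n / (n ! : ℝ) * He n x)| ≤ B * u n := by
    intro n x
    rw [abs_mul]
    rcases le_or_gt |x| R with h | h
    · exact mul_le_mul (hB' x) (hub n x h) (abs_nonneg _) hB0
    · rw [hR x h, abs_zero, zero_mul]
      exact mul_nonneg hB0 (hu0 n)
  have hFi : ∀ n : ℕ, Integrable (fun x => g x * (cf f n / (n ! : ℝ) * He n x)) gam := by
    intro n
    refine Integrable.of_bound (C := B * u n) ?_ (Eventually.of_forall fun x => hbd n x)
    exact (hgc.mul ((He_cont n).const_mul _)).aestronglyMeasurable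
  have hFs : Summable fun n : ℕ => ∫ x, ‖g x * (cf f n / (n ! : ℝ) * He n x)‖ ∂gam := by
    refine Summable.of_nonneg_of_le (fun n => integral_nonneg fun x => norm_nonneg _) (fun n => ?_)
      (hu.mul_left B)
    refine (integral_mono (hFi n).norm (integrable_const (B * u n)) (fun x => hbd n x)).trans ?_
    rw [integral_const, probReal_univ, one_smul]
  have h1 := hasSum_integral_of_summable_integral_norm hFi hFs
  have h2 := parseval f g hf hgc A B hA hB'
  have e1 : ∀ n : ℕ, ∫ x, g x * (cf f n / (n ! : ℝ) * He n x) ∂gam = cf f n * cf g n / (n ! : ℝ) := by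
    intro n
    have : ∀ x, g x * (cf f n / (n ! : ℝ) * He n x) = (cf f n / (n ! : ℝ)) * (g x * He n x) :=
      fun x => by ring
    simp_rw [this]
    rw [integral_const_mul]
    unfold cf
    ring
  simp_rw [e1] at h1
  have h3 := h2.unique h1
  have e2 : ∫ x, g x • f x ∂gam = ∫ x, f x * g x ∂gam := by
    refine integral_congr_ae (Eventually.of_forall fun x => ?_)
    simp only [smul_eq_mul]
    ring
  rw [e2, h3]
  refine integral_congr_ae (Eventually.of_forall fun x => ?_)
  simp only [smul_eq_mul, hs]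
  rw [tsum_mul_left]

lemma closed_of_ae (T r : ℝ → ℝ) (hT : Continuous T) (h : ∀ᵐ x ∂gam, r x = T x) (U S : Set ℝ)
    (hU : IsOpen U) (hS : IsClosed S) (hr : ∀ x ∈ U, r x ∈ S) : ∀ x ∈ U, T x ∈ S := by
  intro x hx
  by_contra hcon
  have hV : IsOpen (U ∩ T ⁻¹' Sᶜ) := hU.inter (hS.isOpen_compl.preimage hT)
  have hne : (U ∩ T ⁻¹' Sᶜ).Nonempty := ⟨x, hx, hcon⟩
  have hvol : ∀ᵐ x ∂(volume : Measure ℝ), r x = T x :=
    (gaussianReal_absolutelyContinuous' 0 one_ne_zero).ae_le h
  have h0 : volume (U ∩ T ⁻¹' Sᶜ) = 0 := by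
    refine measure_mono_null ?_ (ae_iff.mp hvol)
    intro y hy
    simp only [Set.mem_ofPred_eq]
    intro heq
    exact hy.2 (heq ▸ hr y hy.1)
  exact (hV.measure_pos volume hne).ne' h0

lemma final (α K : ℝ) (hα : 0 < α) (hK : 1 < K) (F χ : ℝ → ℝ)
    (hF : F = fun x => 2 * K * Set.indicator (Set.Ici α) (fun _ => (1 : ℝ)) x)
    (hχm : Measurable χ) (hχ : ∀ x, χ x = 1 ∨ χ x = -1)
    (hsum : Summable fun n : ℕ => ((n : ℝ) + 1) ^ 3 *
      (cf (fun x => od F x - od χ x) n ^ 2 / (n ! : ℝ))) : False := by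
  have hFm : Measurable F := by
    rw [hF]
    exact (measurable_const.indicator measurableSet_Ici).const_mul _
  have hFb : ∀ x, |F x| ≤ 2 * K := by
    intro x
    rw [hF]
    by_cases h : x ∈ Set.Ici α
    · simp only [Set.indicator_of_mem h, mul_one]
      rw [abs_of_nonneg (by linarith)]
    · simp only [Set.indicator_of_notMem h, mul_zero, abs_zero]
      linarith
  have hχb : ∀ x, |χ x| ≤ 1 := by
    intro x
    rcases hχ x with h | h <;> simp [h]
  have hodF : ∀ x, |od F x| ≤ 2 * K := by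
    intro x
    unfold od
    have h1 := abs_le.mp (hFb x)
    have h2 := abs_le.mp (hFb (-x))
    rw [abs_le]
    constructor <;> linarith
  have hodχ : ∀ x, |od χ x| ≤ 1 := by
    intro x
    unfold od
    have h1 := abs_le.mp (hχb x)
    have h2 := abs_le.mp (hχb (-x))
    rw [abs_le]
    constructor <;> linarith
  have hodF_m := od_meas F hFm
  have hodχ_m := od_meas χ hχm
  set r : ℝ → ℝ := fun x => od F x - od χ x with hr
  have hrm : Measurable r := hodF_m.sub hodχ_m
  have hrb : ∀ x, |r x| ≤ 2 * K + 1 := by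
    intro x
    exact (abs_sub _ _).trans (add_le_add (hodF x) (hodχ x))
  have hae := hs_ae r hrm _ hrb hsum
  have hTc := hs_cont r hsum
  -- values
  have hv1 : ∀ x ∈ Set.Ioo (-α) α, r x ∈ ({-1, 0, 1} : Set ℝ) := by
    intro x hx
    have h1 : F x = 0 := by
      rw [hF]
      have : x ∉ Set.Ici α := fun h => by
        have := Set.mem_Ici.mp h
        linarith [hx.2]
      simp only [Set.indicator_of_notMem this, mul_zero]
    have h2 : F (-x) = 0 := by
      rw [hF]
      have : -x ∉ Set.Ici α := fun h => by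
        have := Set.mem_Ici.mp h
        linarith [hx.1]
      simp only [Set.indicator_of_notMem this, mul_zero]
    have h3 : r x = -od χ x := by
      rw [hr]
      simp only [od, h1, h2]
      ring
    rw [h3]
    unfold od
    rcases hχ x with h | h <;> rcases hχ (-x) with h' | h' <;> rw [h, h'] <;> norm_num
  have hv2 : ∀ x ∈ Set.Ioi α, r x ∈ Set.Ici (K - 1) := by
    intro x hx
    have hx' : α < x := hx
    have h1 : F x = 2 * K := by
      rw [hF]
      have : x ∈ Set.Ici α := hx'.le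
      simp only [Set.indicator_of_mem this, mul_one]
    have h2 : F (-x) = 0 := by
      rw [hF]
      have : -x ∉ Set.Ici α := fun h => by
        have := Set.mem_Ici.mp h
        linarith
      simp only [Set.indicator_of_notMem this, mul_zero]
    have h3 : od F x = K := by
      simp only [od, h1, h2]
      ring
    have h4 := (abs_le.mp (hodχ x)).2
    rw [hr, Set.mem_Ici]
    simp only [h3]
    linarith
  have hT1 := closed_of_ae (hs r) r hTc hae _ _ isOpen_Ioo
    (Set.Finite.isClosed (Set.toFinite ({-1, 0, 1} : Set ℝ))) hv1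
  have hT2 := closed_of_ae (hs r) r hTc hae _ _ isOpen_Ioi isClosed_Ici hv2
  have hTα : K - 1 ≤ hs r α := by
    refine ge_of_tendsto (hTc.continuousWithinAt (s := Set.Ioi α) (x := α)) ?_
    filter_upwards [self_mem_nhdsWithin] with x hx using hT2 x hx
  have hT0 : hs r 0 = 0 := by
    unfold hs
    have : ∀ n : ℕ, cf r n / (n ! : ℝ) * He n 0 = 0 := by
      intro n
      rcases Nat.even_or_odd' n with ⟨j, hj | hj⟩
      · have : cf r n = 0 := by
          rw [hr, hj, cf_sub (od F) (od χ) (2 * j) (bHe_int _ hodF_m _ hodF _) (bHe_int _ hodχ_m _ hodχ _),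
            cf_od_even F hFm _ hFb, cf_od_even χ hχm _ hχb, sub_zero]
        rw [this, zero_div, zero_mul]
      · have : He n 0 = 0 := by
          have h1 := He_neg n 0
          rw [neg_zero, hj, pow_succ, pow_mul] at h1
          norm_num at h1
          rw [hj]
          linarith
        rw [this, mul_zero]
    simp_rw [this]
    exact tsum_zero
  have hmem : min (1 / 2) ((K - 1) / 2) ∈ Set.Ioo (hs r 0) (hs r α) := by
    rw [hT0]
    constructor
    · have : 0 < (K - 1) / 2 := by linarith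
      positivity
    · have : min (1 / 2) ((K - 1) / 2) ≤ (K - 1) / 2 := min_le_right _ _
      linarith
  obtain ⟨x, hx, hxv⟩ := intermediate_value_Ioo hα.le hTc.continuousOn hmem
  have h1 := hT1 x ⟨by linarith [hx.1], hx.2⟩
  rw [hxv] at h1
  have h2 : min (1 / 2) ((K - 1) / 2) ≤ 1 / 2 := min_le_left _ _
  have h3 : 0 < min (1 / 2) ((K - 1) / 2) := by
    have : 0 < (K - 1) / 2 := by linarith
    positivity
  simp only [Set.mem_insert_iff, Set.mem_singleton_iff] at h1
  rcases h1 with h | h | h <;> linarith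

end Pool.Agent.R232.SG
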