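import Pool.Agent.R232.SG7

/-!
# The core theorem
-/

set_option autoImplicit false

open MeasureTheory ProbabilityTheory Polynomial Filter
open scoped Nat NNReal Topology ContDiff

namespace Pool.Agent.R232.SG

lemma conv (r : ℝ → ℝ) (C : ℝ) (e : ℕ → ℝ)
    (hodd : ∀ j, cf r (2 * j + 1) * sj j = 2 * ((-1) ^ j * C * e j))
    (heven : ∀ j, cf r (2 * j) = 0)
    (hs : Summable fun j : ℕ => (j : ℝ) ^ 2 * e j ^ 2 / wj j) :
    Summable fun n : ℕ => ((n : ℝ) + 1) ^ 3 * (cf r n ^ 2 / (n ! : ℝ)) := by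
  have hinj : Function.Injective (fun j : ℕ => 2 * j + 1) := fun x y h => by
    simp only at h
    omega
  rw [← hinj.summable_iff]
  · rw [← summable_nat_add_iff 1]
    have hs1 := ((summable_nat_add_iff 1).mpr hs).mul_left (128 * C ^ 2)
    refine Summable.of_nonneg_of_le (fun j => ?_) (fun j => ?_) hs1
    · simp only [Function.comp]
      positivity
    · simp only [Function.comp]
      set i := j + 1 with hi
      have h1 := hodd i
      have hsgn : ((-1 : ℝ) ^ i) ^ 2 = 1 := by rw [← pow_mul, mul_comm, pow_mul]; simp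
      have hsi := sj_pos i
      have hf : (0 : ℝ) < ((2 * i) ! : ℝ) := by positivity
      have hcf : cf r (2 * i + 1) ^ 2 * sj i ^ 2 = 4 * C ^ 2 * e i ^ 2 := by
        rw [← mul_pow, h1]
        calc (2 * ((-1) ^ i * C * e i)) ^ 2 = 4 * (((-1 : ℝ) ^ i) ^ 2) * C ^ 2 * e i ^ 2 := by ring
          _ = _ := by rw [hsgn]; ring
      have h2 : cf r (2 * i + 1) ^ 2 / ((2 * i + 1) ! : ℝ) = 4 * C ^ 2 * e i ^ 2 / wj i / (2 * (i : ℝ) + 1) := by
        rw [← hcf]
        unfold wj
        rw [Nat.factorial_succ]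
        push_cast
        field_simp
      rw [h2]
      push_cast
      have hi1 : (1 : ℝ) ≤ (i : ℝ) := by rw [hi]; push_cast; linarith [(Nat.cast_nonneg j : (0 : ℝ) ≤ j)]
      have hw := wj_pos i
      have h3 : (2 * (i : ℝ) + 1 + 1) ^ 3 ≤ 32 * (i : ℝ) ^ 2 * (2 * (i : ℝ) + 1) := by
        nlinarith [mul_nonneg (sub_nonneg.mpr hi1) (sub_nonneg.mpr hi1), mul_nonneg (mul_nonneg (sub_nonneg.mpr hi1) (sub_nonneg.mpr hi1)) (sub_nonneg.mpr hi1)]
      have h4 : (2 * (i : ℝ) + 1 + 1) ^ 3 * (4 * C ^ 2 * e i ^ 2 / wj i / (2 * (i : ℝ) + 1)) =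
          (4 * C ^ 2 * (e i ^ 2 / wj i)) * ((2 * (i : ℝ) + 1 + 1) ^ 3 / (2 * (i : ℝ) + 1)) := by ring
      have h5 : (2 * (i : ℝ) + 1 + 1) ^ 3 / (2 * (i : ℝ) + 1) ≤ 32 * (i : ℝ) ^ 2 := by
        rw [div_le_iff₀ (by positivity)]
        exact h3
      rw [h4]
      calc (4 * C ^ 2 * (e i ^ 2 / wj i)) * ((2 * (i : ℝ) + 1 + 1) ^ 3 / (2 * (i : ℝ) + 1))
          ≤ (4 * C ^ 2 * (e i ^ 2 / wj i)) * (32 * (i : ℝ) ^ 2) :=
            mul_le_mul_of_nonneg_left h5 (by positivity)
        _ = 128 * C ^ 2 * ((i : ℝ) ^ 2 * e i ^ 2 / wj i) := by ring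
  · intro n hn
    rcases Nat.even_or_odd' n with ⟨j, hj | hj⟩
    · rw [hj, heven j]
      simp
    · exact absurd ⟨j, hj.symm⟩ hn

lemma core (α K : ℝ) (hα : 0 < α) (hK : 1 < K) (χ : ℝ → ℝ) (hχm : Measurable χ)
    (hχ : ∀ x, χ x = 1 ∨ χ x = -1)
    (h : ∀ j : ℕ, cf χ (2 * j + 1) ^ 2 = (2 * K * gaussianPDFReal 0 1 α * He (2 * j) α) ^ 2) : False := by
  obtain ⟨C, hC⟩ : ∃ C : ℝ, C = 2 * K * gaussianPDFReal 0 1 α := ⟨_, rfl⟩
  have hCpos : 0 < C := by
    rw [hC]
    have := gaussianPDFReal_pos 0 1 α one_ne_zero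
    positivity
  rw [← hC] at h
  obtain ⟨F, hF⟩ : ∃ F : ℝ → ℝ, F = fun x => 2 * K * Set.indicator (Set.Ici α) (fun _ => (1 : ℝ)) x :=
    ⟨_, rfl⟩
  have hFm : Measurable F := by
    rw [hF]
    exact (measurable_const.indicator measurableSet_Ici).const_mul _
  have hFb : ∀ x, |F x| ≤ 2 * K := by
    intro x
    rw [hF]
    by_cases h : x ∈ Set.Ici α
    · simp only [Set.indicator_of_mem h, mul_one]
      rw [abs_of_nonneg (by linarith)]
    · simp only [Set.indicator_of_notMem h, mul_zero, abs_zero]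
      linarith
  have hχb : ∀ x, |χ x| ≤ 1 := by
    intro x
    rcases hχ x with h | h <;> simp [h]
  have hodF : ∀ x, |od F x| ≤ 2 * K := by
    intro x
    unfold od
    have h1 := abs_le.mp (hFb x)
    have h2 := abs_le.mp (hFb (-x))
    rw [abs_le]
    constructor <;> linarith
  have hodχ : ∀ x, |od χ x| ≤ 1 := by
    intro x
    unfold od
    have h1 := abs_le.mp (hχb x)
    have h2 := abs_le.mp (hχb (-x))
    rw [abs_le]
    constructor <;> linarith
  have hodF_m := od_meas F hFm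
  have hodχ_m := od_meas χ hχm
  have hcfF : ∀ j, cf (od F) (2 * j + 1) = C * He (2 * j) α := by
    intro j
    rw [cf_od_odd F hFm _ hFb, hF, cf_const_mul, cf_Ici, hC]
    ring
  have hcfχ : ∀ j, cf (od χ) (2 * j + 1) = C * He (2 * j) α ∨ cf (od χ) (2 * j + 1) = -(C * He (2 * j) α) := by
    intro j
    rw [cf_od_odd χ hχm _ hχb]
    exact sq_eq_sq_iff_eq_or_eq_neg.mp (h j)
  classical
  obtain ⟨d, hd⟩ : ∃ d : ℕ → ℝ, d = fun j => if cf (od χ) (2 * j + 1) = C * He (2 * j) α then 0 else zj α j :=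
    ⟨_, rfl⟩
  have hminus : ∀ n, cf (fun x => od F x - od χ x) n = cf (od F) n - cf (od χ) n := fun n =>
    cf_sub _ _ n (bHe_int _ hodF_m _ hodF n) (bHe_int _ hodχ_m _ hodχ n)
  have hplus : ∀ n, cf (fun x => od F x + od χ x) n = cf (od F) n + cf (od χ) n := fun n =>
    cf_add _ _ n (bHe_int _ hodF_m _ hodF n) (bHe_int _ hodχ_m _ hodχ n)
  have hdm : ∀ j, cf (fun x => od F x - od χ x) (2 * j + 1) * sj j = 2 * ((-1) ^ j * C * d j) := by
    intro j
    rw [hminus, hcfF, hd]
    simp only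
    have h1 := He_of_zj α j
    by_cases hc : cf (od χ) (2 * j + 1) = C * He (2 * j) α
    · rw [if_pos hc, hc]
      ring
    · rw [if_neg hc]
      rw [(hcfχ j).resolve_left hc]
      calc (C * He (2 * j) α - -(C * He (2 * j) α)) * sj j = 2 * C * (He (2 * j) α * sj j) := by ring
        _ = _ := by rw [h1]; ring
  have hdp : ∀ j, cf (fun x => od F x + od χ x) (2 * j + 1) * sj j = 2 * ((-1) ^ j * C * (zj α j - d j)) := by
    intro j
    rw [hplus, hcfF, hd]
    simp only
    have h1 := He_of_zj α j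
    by_cases hc : cf (od χ) (2 * j + 1) = C * He (2 * j) α
    · rw [if_pos hc, hc]
      calc (C * He (2 * j) α + C * He (2 * j) α) * sj j = 2 * C * (He (2 * j) α * sj j) := by ring
        _ = _ := by rw [h1]; ring
    · rw [if_neg hc]
      rw [(hcfχ j).resolve_left hc]
      ring
  have hdz : ∀ j, d j = 0 ∨ d j = zj α j := by
    intro j
    rw [hd]
    simp only
    by_cases hc : cf (od χ) (2 * j + 1) = C * He (2 * j) α
    · left; rw [if_pos hc]
    · right; rw [if_neg hc]
  have hC2 : 2 * C ≠ 0 := by positivity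
  have hT : Summable fun k => T3 d k ^ 2 / wj (k + 2) := by
    refine T3_summable (2 * C) hC2 (fun x => od F x - od χ x) (hodF_m.sub hodχ_m) (2 * K + 1)
      (fun x => (abs_sub _ _).trans (add_le_add (hodF x) (hodχ x))) d fun j => ?_
    rw [hdm]
    ring
  have hT' : Summable fun k => T3 (fun j => zj α j - d j) k ^ 2 / wj (k + 2) := by
    refine T3_summable (2 * C) hC2 (fun x => od F x + od χ x) (hodF_m.add hodχ_m) (2 * K + 1)
      (fun x => (abs_add_le _ _).trans (add_le_add (hodF x) (hodχ x))) (fun j => zj α j - d j) fun j => ?_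
    rw [hdp]
    ring
  have hα2 : 0 < α ^ 2 := by positivity
  have hmain := seq_main α (zj α) d wj (α ^ 2 / (4 + 4 * α ^ 2)) (by positivity) (zj_rec α) wj_pos wj_anti
    (fun j _ => by
      have h1 := zj_lower α j
      rw [div_mul_eq_mul_div, div_le_iff₀ (by positivity)]
      linarith) hdz hT hT'
  have hevF : ∀ j, cf (od F) (2 * j) = 0 := fun j => cf_od_even F hFm _ hFb j
  have hevχ : ∀ j, cf (od χ) (2 * j) = 0 := fun j => cf_od_even χ hχm _ hχb j
  rcases hmain with h1 | h1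
  · refine final α K hα hK F χ hF hχm hχ (conv _ C d hdm (fun j => ?_) h1)
    rw [hminus, hevF, hevχ, sub_zero]
  · refine final α K hα hK F (fun x => -χ x) hF hχm.neg (fun x => ?_) ?_
    · rcases hχ x with h2 | h2
      · right; rw [h2]
      · left; rw [h2]; norm_num
    · have e1 : (fun x => od F x - od (fun x => -χ x) x) = fun x => od F x + od χ x := by
        funext x
        simp only [od]
        ring
      rw [e1]
      refine conv _ C _ hdp (fun j => ?_) h1
      rw [hplus, hevF, hevχ, add_zero]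

/-! ### the value of the distribution function at `0` -/

lemma cdf_zero : gam.real (Set.Iic 0) = 1 / 2 := by
  have h : MeasurePreserving (MeasurableEquiv.neg ℝ) gam gam := by
    refine ⟨(MeasurableEquiv.neg ℝ).measurable, ?_⟩
    have := gaussianReal_map_neg (μ := 0) (v := 1)
    simp only [neg_zero] at this
    exact this
  have h1 : gam.real (Set.Iic 0) = gam.real (Set.Ici 0) := by
    have h2 := h.measureReal_preimage (s := Set.Ici (0 : ℝ)) measurableSet_Ici.nullMeasurableSet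
    rw [← h2]
    congr 1
    ext x
    simp
  have h3 : gam.real (Set.Iic 0) + gam.real (Set.Ioi 0) = 1 := by
    have h4 := measureReal_add_measureReal_compl (μ := gam) (measurableSet_Iic (a := (0 : ℝ)))
    rw [Set.compl_Iic, probReal_univ] at h4
    exact h4
  have h5 : gam.real (Set.Ioi 0) = gam.real (Set.Ici (0 : ℝ)) := by
    have : Set.Ioi (0 : ℝ) =ᵐ[gam] Set.Ici 0 := by
      have hna : NullSingletonClass gam := nullSingletonClass_gaussianReal one_ne_zero
      exact Ioi_ae_eq_Ici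
    exact measureReal_congr this
  linarith

end Pool.Agent.R232.SG
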